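import Pool.Agent.Lib.Pbbea99T.Inst

/-!
# MP_bbea99_co: the check functions, group version
-/

namespace MPbbea99G

open MPbbea99S MPbbea99T

/-- the data of the closure check -/
structure CP where
  n : ℕ
  γ : ℕ
  M : ℕ
  A : ℕ
  B : ℕ
  K1 : ℕ
  nh : ℕ
  WL : ℕ
  ML : ℕ
  HI : ℕ
  LB : ℕ
  CB : ℕ
  gT : List ℕ
  xT : List ℕ
  WS : ℕ
  MS : ℕ
  LS : ℕ
  CS : ℕ
  sT : List ℕ
  mT : ℕ
  wT : ℕ
  vT : ℕ
  pT : ℕ
  T : List ℕ

/-- the data of the outer check -/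
structure OP where
  m : ℕ
  F : ℕ
  MF : ℕ
  L1 : ℕ
  C1 : ℕ
  acT : ℕ
  phT : ℕ
  cF : List ℕ
  kT : ℕ
  TF : ℕ
  ON : ℕ
  KO : ℕ
  GO : ℕ
  W : ℕ
  MW : ℕ
  L2 : ℕ
  C2 : ℕ
  chT : ℕ
  cG : List ℕ
  NA : ℕ
  eT : List ℕ
  HO : ℕ
  bT : ℕ

/-- reduced digit -/
def eg (P : CP) (t k : ℕ) : ℕ := Nat.sub (dg t k) P.K1

/-- packed values -/
noncomputable def big (P : CP) (t : ℕ) : ℕ :=
  Nat.add (sumN (fun k => Nat.mul (eg P t k) (fd P.WL P.ML P.LB k)) P.n) P.CB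

/-- packed coordinates -/
noncomputable def small (P : CP) (t : ℕ) : ℕ :=
  Nat.add (sumN (fun k => Nat.mul (eg P t k) (fd P.WS P.MS P.LS k)) P.n) P.CS

/-- the rest of a code -/
def tailC (n kb kc ke dl gt zl zv ze : ℕ) (C : ℕ) : ℕ :=
  Nat.add (Nat.add (Nat.add (Nat.add (Nat.add (Nat.add (Nat.add (Nat.add C
    (Nat.shiftLeft kb (Nat.mul 16 n)))
    (Nat.shiftLeft kc (Nat.mul 16 (Nat.add n 1))))
    (Nat.shiftLeft ke (Nat.mul 16 (Nat.add n 2))))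
    (Nat.shiftLeft dl (Nat.mul 16 (Nat.add n 3))))
    (Nat.shiftLeft gt (Nat.mul 16 (Nat.add n 4))))
    (Nat.shiftLeft zl (Nat.mul 16 (Nat.add n 5))))
    (Nat.shiftLeft zv (Nat.mul 16 (Nat.add n 6))))
    (Nat.shiftLeft ze (Nat.mul 16 (Nat.add n 7)))

/-- the shifted gap of a child -/
def gch (P : CP) (gt ia ib ic : ℕ) : ℕ :=
  Nat.sub (Nat.add (Nat.add (Nat.mul P.M gt) (Nat.mul P.B ic))
    (Nat.add (Nat.mul P.A ia) (Nat.add P.A P.B)))
    (Nat.add (Nat.mul P.M (Nat.add P.A P.B)) (Nat.mul (Nat.add P.A P.B) ib))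

/-- the product of types -/
def mlf (P : CP) (a b : ℕ) : ℕ := fd 8 256 P.mT (Nat.add (Nat.mul P.γ a) b)

/-- the pattern -/
def wf (P : CP) (t : ℕ) : ℕ := fd 8 256 P.wT t

/-- inverses of the pattern -/
def vf (P : CP) (t : ℕ) : ℕ := fd 8 256 P.vT t

/-- the permutation of coordinates -/
def pf (P : CP) (t k : ℕ) : ℕ := fd 8 256 P.pT (Nat.add (Nat.mul P.n t) k)

/-- the relative type of a child -/
def kch (P : CP) (k i ia : ℕ) : ℕ := mlf P (mlf P (vf P ia) k) (wf P i)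

/-- coordinates in the new frame -/
noncomputable def prm (P : CP) (C ia : ℕ) : ℕ := pkR 16 (fun k => dg C (pf P ia k)) P.n

/-! ### the outer check -/

/-- packed functionals of a template -/
noncomputable def valF (P : CP) (Q : OP) (t : ℕ) : ℕ :=
  Nat.add (sumN (fun k => Nat.mul (eg P t k) (fd Q.W Q.MW Q.L2 k)) P.n) Q.C2

/-- the value of a template -/
noncomputable def valO (P : CP) (Q : OP) (t : ℕ) : ℕ :=
  Nat.add (sumN (fun k => Nat.mul (eg P t k) (fd Q.F Q.MF Q.L1 k)) P.n) Q.C1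

/-- the image of a letter -/
def acf (P : CP) (Q : OP) (κ x : ℕ) : ℕ := fd 8 256 Q.acT (Nat.add (Nat.mul P.n κ) x)

/-- array of the hashed sums of a block -/
noncomputable def arF (P : CP) (Q : OP) (β κ : ℕ) : ℕ :=
  sumN (fun x => Nat.mul (fd Q.F Q.MF Q.phT (acf P Q κ x))
    (nthL Q.cF (Nat.add (Nat.mul P.n β) x))) P.n

/-- array of the functionals of a block -/
noncomputable def arG (P : CP) (Q : OP) (ro β κ : ℕ) : ℕ :=
  Nat.add (sumN (fun x => Nat.mul (fd Q.W Q.MW Q.chT (Nat.add (Nat.mul P.n ro) (acf P Q κ x)))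
    (nthL Q.cG (Nat.add (Nat.mul P.n β) x))) P.n) Q.NA

/-- bounds for the remaining cuts -/
noncomputable def arE (P : CP) (Q : OP) (ro κ : ℕ) : ℕ := nthL Q.eT (Nat.add (Nat.mul P.γ ro) κ)

/-- comparison of all third positions -/
noncomputable def cmpO (Q : OP) (X Y Tc Te lo lo' cnt m : ℕ) : Bool :=
  nz (Nat.xor
    (Nat.add (Nat.shiftRight Tc (Nat.mul Q.F lo)) (Nat.mul X Q.ON))
    (Nat.add (Nat.shiftRight Te (Nat.mul Q.F lo')) (Nat.mul Y Q.ON)))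
    (Nat.shiftRight Q.KO (Nat.mul Q.F (Nat.sub m cnt)))
    (Nat.shiftRight Q.GO (Nat.mul Q.F (Nat.sub m cnt)))

/-- the bound of the third position -/
def cntO (P : CP) (Q : OP) (gt ra rb : ℕ) : ℕ :=
  Nat.div (Nat.add (Nat.sub (Nat.mul (Nat.add P.A P.B) (Nat.add Q.m rb))
    (Nat.add (Nat.mul Q.m gt) (Nat.mul P.A ra))) (Nat.sub P.B 1)) P.B

/-- the third level; `ob` is the shift plus `m` -/
noncomputable def oC (Q : OP) (X Y Tc Te ob lo hi : ℕ) : Bool :=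
  bc (Nat.ble hi lo) true (cmpO Q X Y Tc Te lo (Nat.sub (Nat.add lo ob) Q.m) (Nat.sub hi lo) Q.m)

/-- the second level -/
noncomputable def oB (P : CP) (Q : OP) (dl gt zl zv Tb Tc Te Fb XF X Y ra rb : ℕ) : Bool :=
  bc (hib (Nat.add XF (fd Q.W Q.MW Fb rb)) Q.HO)
    (bc (bc (Nat.beq zl 1) (Nat.ble rb ra) false) true
      (bc (Nat.ble ra (Nat.add (Nat.mul Q.m dl) rb))
        (oC Q (Nat.add X (fd Q.F Q.MF Tb rb)) Y Tc Te (Nat.sub (Nat.add (Nat.mul Q.m dl) rb) ra)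
          (maxN2 (Nat.sub Q.m (Nat.sub (Nat.add (Nat.mul Q.m dl) rb) ra)) (Nat.mul zv rb))
          (minN (minN Q.m (Nat.sub (Nat.mul 2 Q.m) (Nat.sub (Nat.add (Nat.mul Q.m dl) rb) ra)))
            (cntO P Q gt ra rb))) true)) true

/-- the first level -/
noncomputable def oA (P : CP) (Q : OP) (dl gt zl zv Ta Tb Tc Te Fa Fb XB XF X Y : ℕ) : Bool :=
  allN (fun ra => bc (hib (Nat.add (Nat.add XF XB) (fd Q.W Q.MW Fa ra)) Q.HO)
    (allN (fun rb => oB P Q dl gt zl zv Tb Tc Te Fb (Nat.add XF (fd Q.W Q.MW Fa ra)) X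
      (Nat.add Y (fd Q.F Q.MF Ta ra)) ra rb) Q.m) true) Q.m

/-- the block of a digit -/
def bf (Q : OP) (i : ℕ) : ℕ := fd 8 256 Q.bT i

/-- all windows over a quadruple of blocks -/
noncomputable def oT (P : CP) (Q : OP) (t kb kc ke dl gt zl zv ia ib ic ie : ℕ) : Bool :=
  oA P Q dl gt zl zv (arF P Q (bf Q ia) 0) (arF P Q (bf Q ib) kb) (arF P Q (bf Q ic) kc)
    (arF P Q (bf Q ie) ke) (arG P Q 1 (bf Q ia) 0) (arG P Q 0 (bf Q ib) kb)
    (arE P Q 0 kb)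
    (Nat.add (Nat.add (valF P Q t) (arE P Q 0 kc)) (arE P Q 1 ke))
    (Nat.add (valO P Q t) (Nat.mul Q.kT (Nat.mul Q.m dl))) Q.TF

/-! ### the closure check -/

/-- the outer check of a code -/
noncomputable def oK (P : CP) (Q : OP) (ia ib ic ie t : ℕ) : Bool :=
  bc (memL t P.T)
    (oT P Q t (dg t P.n) (dg t (Nat.add P.n 1)) (dg t (Nat.add P.n 2)) (dg t (Nat.add P.n 3))
      (dg t (Nat.add P.n 4)) (dg t (Nat.add P.n 5)) (dg t (Nat.add P.n 6)) ia ib ic ie) false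

/-- the code of a child -/
noncomputable def codeC (P : CP) (kb kc ke gt zl zv ze Sa Sb Sc Se S0 ia ib ic ie dl' : ℕ) : ℕ :=
  tailC P.n (kch P kb ib ia) (kch P kc ic ia) (kch P ke ie ia) dl' (gch P gt ia ib ic)
    (Nat.mul zl (bn (Nat.beq ia ib))) (Nat.mul zv (bn (Nat.beq ib ic)))
    (Nat.mul ze (bn (Nat.beq ic ie)))
    (prm P (Nat.add (Nat.add (Nat.add (Nat.add S0 (fd P.WS P.MS Sa ia)) (fd P.WS P.MS Sb ib))
      (fd P.WS P.MS Sc ic)) (fd P.WS P.MS Se ie)) ia)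

/-- the last level -/
noncomputable def lvE (P : CP) (Q : OP) (kb kc ke gt zl zv ze Ge Sa Sb Sc Se S0 XC ia ib ic dl' ie : ℕ) :
    Bool :=
  bc (Nat.ble (Nat.succ ie) P.M)
    (bc (bc (Nat.beq ze 1) (Nat.ble (Nat.succ ie) ic) false) true
      (bc (hib (Nat.add XC (fd P.WL P.ML Ge ie)) P.HI)
        (oK P Q ia ib ic ie (codeC P kb kc ke gt zl zv ze Sa Sb Sc Se S0 ia ib ic ie dl'))
        true)) true

/-- the third level -/
noncomputable def lvC (P : CP) (Q : OP) (kb kc ke dl gt zl zv ze Ge RC Sa Sb Sc Se S0 XC ia ib ic : ℕ) :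
    Bool :=
  bc (bc (Nat.beq zv 1) (Nat.ble (Nat.succ ic) ib) false) true
    (bc (hib (Nat.add XC RC) P.HI)
      (allN (fun dl' => bc (Nat.ble (Nat.add (Nat.add ia P.M) dl')
          (Nat.add (Nat.mul P.M dl) (Nat.add (Nat.add ib ic) 1)))
        (lvE P Q kb kc ke gt zl zv ze Ge Sa Sb Sc Se S0 XC ia ib ic dl'
          (Nat.sub (Nat.add (Nat.mul P.M dl) (Nat.add (Nat.add ib ic) 1))
            (Nat.add (Nat.add ia P.M) dl'))) true) 3) true)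

/-- the bound of the third digit -/
def cntC (P : CP) (gt ia ib : ℕ) : ℕ :=
  Nat.div (Nat.add (Nat.sub
    (Nat.add (Nat.mul (Nat.add P.A P.B) (Nat.add P.M ib)) (Nat.mul 2 (Nat.add P.A P.B)))
    (Nat.add (Nat.add (Nat.mul P.M gt) (Nat.mul P.A ia)) (Nat.add P.A P.B))) (Nat.sub P.B 1)) P.B

/-- the second level -/
noncomputable def lvB (P : CP) (Q : OP) (kb kc ke dl gt zl zv ze Gc Ge RB RC Sa Sb Sc Se S0 XB ia ib : ℕ) :
    Bool :=
  bc (bc (Nat.beq zl 1) (Nat.ble (Nat.succ ib) ia) false) true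
    (bc (hib (Nat.add XB RB) P.HI)
      (allN (fun ic => lvC P Q kb kc ke dl gt zl zv ze Ge RC Sa Sb Sc Se S0
        (Nat.add XB (fd P.WL P.ML Gc ic)) ia ib ic) (minN P.M (cntC P gt ia ib))) true)

/-- the first level -/
noncomputable def lvA (P : CP) (Q : OP) (kb kc ke dl gt zl zv ze Gb Gc Ge RA RB RC Sa Sb Sc Se S0 XA ia : ℕ) :
    Bool :=
  bc (hib (Nat.add XA RA) P.HI)
    (allN (fun ib => lvB P Q kb kc ke dl gt zl zv ze Gc Ge RB RC Sa Sb Sc Se S0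
      (Nat.add XA (fd P.WL P.ML Gb ib)) ia ib) P.M) true

/-- index of a table -/
def ix (P : CP) (ro κ : ℕ) : ℕ := Nat.add (Nat.mul P.γ ro) κ

/-- all children of a template -/
noncomputable def lv0 (P : CP) (Q : OP) (kb kc ke dl gt zl zv ze Ga Gb Gc Ge Xb Xc Xe
    Sa Sb Sc Se S0 X0 : ℕ) : Bool :=
  allN (fun ia => lvA P Q kb kc ke dl gt zl zv ze Gb Gc Ge
    (Nat.add (Nat.add Xb Xc) Xe) (Nat.add Xc Xe) Xe
    Sa Sb Sc Se S0 (Nat.add X0 (fd P.WL P.ML Ga ia)) ia) P.M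

/-- check of a template -/
noncomputable def chkT (P : CP) (Q : OP) (t : ℕ) : Bool :=
  bc (allN (fun k => Nat.ble P.K1 (dg t k)) P.n)
    (bc (Nat.beq (sumN (fun k => eg P t k) P.n) P.nh)
      (lv0 P Q (dg t P.n) (dg t (Nat.add P.n 1)) (dg t (Nat.add P.n 2)) (dg t (Nat.add P.n 3))
        (dg t (Nat.add P.n 4)) (dg t (Nat.add P.n 5)) (dg t (Nat.add P.n 6))
        (dg t (Nat.add P.n 7))
        (nthL P.gT (ix P 1 0)) (nthL P.gT (ix P 0 (dg t P.n)))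
        (nthL P.gT (ix P 0 (dg t (Nat.add P.n 1)))) (nthL P.gT (ix P 1 (dg t (Nat.add P.n 2))))
        (nthL P.xT (ix P 0 (dg t P.n))) (nthL P.xT (ix P 0 (dg t (Nat.add P.n 1))))
        (nthL P.xT (ix P 1 (dg t (Nat.add P.n 2))))
        (nthL P.sT (ix P 1 0)) (nthL P.sT (ix P 0 (dg t P.n)))
        (nthL P.sT (ix P 0 (dg t (Nat.add P.n 1)))) (nthL P.sT (ix P 1 (dg t (Nat.add P.n 2))))
        (small P t) (big P t)) false) false

end MPbbea99G
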