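import Pool.Agent.Lib.Pbbea99T.Clos

/-!
# MP_bbea99_co: sums along a sequence of group elements

`g` is a sequence of types (elements of a finite group, given by tables `mul`, `inv` on
`0, ..., γ-1`, with unit `0`) with `g (M q + r) = g q * w r`.
-/

namespace MPbbea99G

open Finset MPbbea99S MPbbea99T

/-- a finite group on `0, ..., γ-1` -/
structure Gp (γ : ℕ) (mul : ℕ → ℕ → ℕ) (inv : ℕ → ℕ) : Prop where
  pos : 0 < γ
  lt : ∀ a, a < γ → ∀ b, b < γ → mul a b < γ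
  ilt : ∀ a, a < γ → inv a < γ
  assoc : ∀ a, a < γ → ∀ b, b < γ → ∀ c, c < γ → mul (mul a b) c = mul a (mul b c)
  one_mul : ∀ a, a < γ → mul 0 a = a
  mul_one : ∀ a, a < γ → mul a 0 = a
  inv_mul : ∀ a, a < γ → mul (inv a) a = 0
  mul_inv : ∀ a, a < γ → mul a (inv a) = 0

lemma Gp.inv_eq {γ : ℕ} {mul : ℕ → ℕ → ℕ} {inv : ℕ → ℕ} (G : Gp γ mul inv) {a x : ℕ}
    (ha : a < γ) (hx : x < γ) (h : mul x a = 0) : inv a = x := by
  have h1 : mul (mul x a) (inv a) = inv a := by rw [h, G.one_mul _ (G.ilt a ha)]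
  rw [G.assoc x hx a ha _ (G.ilt a ha), G.mul_inv a ha, G.mul_one x hx] at h1
  exact h1.symm

lemma Gp.inv_mul_rev {γ : ℕ} {mul : ℕ → ℕ → ℕ} {inv : ℕ → ℕ} (G : Gp γ mul inv) {a b : ℕ}
    (ha : a < γ) (hb : b < γ) : inv (mul a b) = mul (inv b) (inv a) := by
  have ia := G.ilt a ha
  have ib := G.ilt b hb
  apply G.inv_eq (G.lt a ha b hb) (G.lt _ ib _ ia)
  rw [G.assoc _ ib _ ia _ (G.lt a ha b hb), ← G.assoc _ ia _ ha _ hb, G.inv_mul a ha,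
    G.one_mul b hb, G.inv_mul b hb]

/-- the sequence of types -/
structure IsG (γ M : ℕ) (mul : ℕ → ℕ → ℕ) (w g : ℕ → ℕ) : Prop where
  lt : ∀ i, g i < γ
  wlt : ∀ r, r < M → w r < γ
  step : ∀ q r, r < M → g (M * q + r) = mul (g q) (w r)

/-- plain prefix sums -/
def PS (ψ : ℕ → ℤ) (j : ℕ) : ℤ := ∑ x ∈ range j, ψ x

/-- partial sums over a block -/
def QG (mul : ℕ → ℕ → ℕ) (w : ℕ → ℕ) (θ : ℕ → ℤ) (κ t : ℕ) : ℤ :=
  ∑ u ∈ range t, θ (mul κ (w u))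

lemma QG_zero (mul : ℕ → ℕ → ℕ) (w : ℕ → ℕ) (θ : ℕ → ℤ) (κ : ℕ) : QG mul w θ κ 0 = 0 := by
  simp [QG]

lemma QG_succ (mul : ℕ → ℕ → ℕ) (w : ℕ → ℕ) (θ : ℕ → ℤ) (κ t : ℕ) :
    QG mul w θ κ (t + 1) = QG mul w θ κ t + θ (mul κ (w t)) := by
  simp [QG, Finset.sum_range_succ]

lemma PS_congr {ψ ψ' : ℕ → ℤ} (h : ∀ x, ψ x = ψ' x) (j : ℕ) : PS ψ j = PS ψ' j := by
  unfold PS
  exact Finset.sum_congr rfl (fun x _ => h x)

lemma VP_congr {ψ ψ' : ℕ → ℤ} (h : ∀ x, ψ x = ψ' x) (a b c e : ℕ) :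
    VV (PS ψ) a b c e = VV (PS ψ') a b c e := by
  unfold VV
  rw [PS_congr h, PS_congr h, PS_congr h, PS_congr h]

lemma PS_smul (N : ℤ) (ψ : ℕ → ℤ) (j : ℕ) : PS (fun x => N * ψ x) j = N * PS ψ j := by
  unfold PS
  rw [Finset.mul_sum]

lemma VP_smul (N : ℤ) (ψ : ℕ → ℤ) (a b c e : ℕ) :
    VV (PS (fun x => N * ψ x)) a b c e = N * VV (PS ψ) a b c e := by
  unfold VV
  rw [PS_smul, PS_smul, PS_smul, PS_smul]
  ring

lemma PS_lin (n : ℕ) (α : ℕ → ℤ) (ψ : ℕ → ℕ → ℤ) (j : ℕ) :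
    PS (fun x => ∑ k ∈ range n, α k * ψ k x) j = ∑ k ∈ range n, α k * PS (ψ k) j := by
  unfold PS
  simp_rw [Finset.mul_sum]
  rw [Finset.sum_comm]

lemma VP_lin (n : ℕ) (α : ℕ → ℤ) (ψ : ℕ → ℕ → ℤ) (a b c e : ℕ) :
    VV (PS (fun x => ∑ k ∈ range n, α k * ψ k x)) a b c e =
      ∑ k ∈ range n, α k * VV (PS (ψ k)) a b c e := by
  unfold VV
  rw [PS_lin, PS_lin, PS_lin, PS_lin, ← Finset.sum_sub_distrib, ← Finset.sum_sub_distrib,
    ← Finset.sum_add_distrib]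
  apply Finset.sum_congr rfl
  intro k _
  ring

section

variable {γ M : ℕ} {mul : ℕ → ℕ → ℕ} {inv w g : ℕ → ℕ}

/-- prefix sums of blocks -/
lemma PS_block (G : Gp γ mul inv) (h : IsG γ M mul w g) (θ : ℕ → ℤ) {ρ : ℕ} (hρ : ρ < γ)
    (j t : ℕ) (ht : t ≤ M) : PS (fun x => θ (mul ρ (g x))) (M * j + t) =
      PS (fun x => QG mul w θ (mul ρ (g x)) M) j + QG mul w θ (mul ρ (g j)) t := by
  have key : ∀ j t, t ≤ M → PS (fun x => θ (mul ρ (g x))) (M * j + t) =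
      PS (fun x => θ (mul ρ (g x))) (M * j) + QG mul w θ (mul ρ (g j)) t := by
    intro j t ht
    unfold PS QG
    rw [Finset.sum_range_add]
    congr 1
    apply Finset.sum_congr rfl
    intro u hu
    have hu' : u < M := by
      have := Finset.mem_range.1 hu
      omega
    rw [h.step j u hu', G.assoc ρ hρ _ (h.lt j) _ (h.wlt u hu')]
  have h0 : ∀ j, PS (fun x => θ (mul ρ (g x))) (M * j) =
      PS (fun x => QG mul w θ (mul ρ (g x)) M) j := by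
    intro j
    induction j with
    | zero => simp [PS]
    | succ j ih =>
      rw [Nat.mul_succ, key j M le_rfl, ih]
      simp [PS, Finset.sum_range_succ]
  rw [key j t ht, h0]

/-- values at a quadruple and at its parent -/
lemma VP_block (G : Gp γ mul inv) (h : IsG γ M mul w g) (θ : ℕ → ℤ) {ρ : ℕ} (hρ : ρ < γ)
    {lam : ℤ} (hlam : ∀ κ, κ < γ → QG mul w θ κ M = lam * θ κ)
    {a b c e ia ib ic ie : ℕ} (ha : ia ≤ M) (hb : ib ≤ M) (hc : ic ≤ M) (he : ie ≤ M) :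
    VV (PS (fun x => θ (mul ρ (g x)))) (M * a + ia) (M * b + ib) (M * c + ic) (M * e + ie) =
      lam * VV (PS (fun x => θ (mul ρ (g x)))) a b c e +
        (QG mul w θ (mul ρ (g b)) ib - QG mul w θ (mul ρ (g a)) ia -
          QG mul w θ (mul ρ (g e)) ie + QG mul w θ (mul ρ (g c)) ic) := by
  have e0 : ∀ x, QG mul w θ (mul ρ (g x)) M = lam * θ (mul ρ (g x)) :=
    fun x => hlam _ (G.lt ρ hρ _ (h.lt x))
  unfold VV
  rw [PS_block G h θ hρ a ia ha, PS_block G h θ hρ b ib hb, PS_block G h θ hρ c ic hc,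
    PS_block G h θ hρ e ie he, PS_congr e0, PS_congr e0, PS_congr e0, PS_congr e0, PS_smul,
    PS_smul, PS_smul, PS_smul]
  ring

end

/-! ### living quadruples -/

/-- the quadruple is not excluded by any functional -/
def Alive (γ : ℕ) (mul : ℕ → ℕ → ℕ) (g : ℕ → ℕ) (L : ℕ) (th : ℕ → ℕ → ℤ)
    (U : ℕ → ℕ → ℕ → ℤ) (a b c e : ℕ) : Prop :=
  ∀ f, f < L → ∀ ρ, ρ < γ → 0 ≤ VV (PS (fun x => th f (mul ρ (g x)))) a b c e +
    U f 1 (mul ρ (g a)) + U f 0 (mul ρ (g b)) + U f 0 (mul ρ (g c)) + U f 1 (mul ρ (g e))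

/-- certificate for the functionals -/
structure Cert (γ M L : ℕ) (mul : ℕ → ℕ → ℕ) (w : ℕ → ℕ) (th : ℕ → ℕ → ℤ)
    (U : ℕ → ℕ → ℕ → ℤ) (q : ℕ → ℕ → ℕ → ℤ) (lam : ℤ) : Prop where
  hlam : 0 < lam
  hq : ∀ f, f < L → ∀ κ, κ < γ → ∀ t, t ≤ M → q f κ t = QG mul w (th f) κ t
  hom : ∀ f, f < L → ∀ κ, κ < γ → q f κ M = lam * th f κ
  hU : ∀ f, f < L → ∀ ro, ro < 2 → ∀ κ, κ < γ → ∀ t, t < M →
    sg ro * q f κ t + U f ro (mul κ (w t)) ≤ lam * U f ro κ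

/-- living quadruples have living parents -/
theorem Alive.parent {γ M L : ℕ} {mul : ℕ → ℕ → ℕ} {inv w g : ℕ → ℕ} (G : Gp γ mul inv)
    (h : IsG γ M mul w g) {th : ℕ → ℕ → ℤ} {U : ℕ → ℕ → ℕ → ℤ} {q : ℕ → ℕ → ℕ → ℤ} {lam : ℤ}
    (C : Cert γ M L mul w th U q lam)
    {a b c e ia ib ic ie : ℕ} (ha : ia < M) (hb : ib < M) (hc : ic < M) (he : ie < M)
    (hal : Alive γ mul g L th U (M * a + ia) (M * b + ib) (M * c + ic) (M * e + ie)) :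
    Alive γ mul g L th U a b c e := by
  intro f hf ρ hρ
  have hrg : ∀ x, mul ρ (g x) < γ := fun x => G.lt ρ hρ _ (h.lt x)
  have h0 := hal f hf ρ hρ
  have hl : ∀ κ, κ < γ → QG mul w (th f) κ M = lam * th f κ := by
    intro κ hκ
    rw [← C.hq f hf κ hκ M le_rfl, C.hom f hf κ hκ]
  rw [VP_block G h (th f) hρ hl ha.le hb.le hc.le he.le, h.step a ia ha, h.step b ib hb,
    h.step c ic hc, h.step e ie he, ← G.assoc ρ hρ _ (h.lt a) _ (h.wlt _ ha),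
    ← G.assoc ρ hρ _ (h.lt b) _ (h.wlt _ hb), ← G.assoc ρ hρ _ (h.lt c) _ (h.wlt _ hc),
    ← G.assoc ρ hρ _ (h.lt e) _ (h.wlt _ he), ← C.hq f hf _ (hrg a) ia ha.le,
    ← C.hq f hf _ (hrg b) ib hb.le, ← C.hq f hf _ (hrg c) ic hc.le,
    ← C.hq f hf _ (hrg e) ie he.le] at h0
  have ga := C.hU f hf 1 (by norm_num) _ (hrg a) ia ha
  have gb := C.hU f hf 0 (by norm_num) _ (hrg b) ib hb
  have gc := C.hU f hf 0 (by norm_num) _ (hrg c) ic hc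
  have ge := C.hU f hf 1 (by norm_num) _ (hrg e) ie he
  rw [sg_one] at ga ge
  rw [sg_zero] at gb gc
  by_contra hcon
  push Not at hcon
  have hneg := mul_neg_of_pos_of_neg C.hlam hcon
  linarith

end MPbbea99G
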