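import Pool.Agent.Lib.Pbbea99G.Sums

/-!
# MP_bbea99_co: certificates for the functionals, factor of either sign
-/

namespace MPbbea99G

open Finset MPbbea99S MPbbea99T

/-- certificate for the functionals; the factor `lam` may be negative, `la` is its absolute value,
`nu f` is the functional of opposite sign when `lam` is negative -/
structure CertZ (γ M L : ℕ) (mul : ℕ → ℕ → ℕ) (w : ℕ → ℕ) (th : ℕ → ℕ → ℤ)
    (U : ℕ → ℕ → ℕ → ℤ) (q : ℕ → ℕ → ℕ → ℤ) (lam la : ℤ) (nu : ℕ → ℕ) : Prop where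
  hla : 0 < la
  hnu : ∀ f, f < L → nu f < L
  hth : ∀ f, f < L → ∀ κ, κ < γ → lam * th (nu f) κ = la * th f κ
  hq : ∀ f, f < L → ∀ κ, κ < γ → ∀ t, t ≤ M → q f κ t = QG mul w (th f) κ t
  hom : ∀ f, f < L → ∀ κ, κ < γ → q f κ M = lam * th f κ
  hU : ∀ f, f < L → ∀ ro, ro < 2 → ∀ κ, κ < γ → ∀ t, t < M →
    sg ro * q (nu f) κ t + U (nu f) ro (mul κ (w t)) ≤ la * U f ro κ

/-- living quadruples have living parents -/
theorem Alive.parentZ {γ M L : ℕ} {mul : ℕ → ℕ → ℕ} {inv w g : ℕ → ℕ} (G : Gp γ mul inv)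
    (h : IsG γ M mul w g) {th : ℕ → ℕ → ℤ} {U : ℕ → ℕ → ℕ → ℤ} {q : ℕ → ℕ → ℕ → ℤ}
    {lam la : ℤ} {nu : ℕ → ℕ} (C : CertZ γ M L mul w th U q lam la nu)
    {a b c e ia ib ic ie : ℕ} (ha : ia < M) (hb : ib < M) (hc : ic < M) (he : ie < M)
    (hal : Alive γ mul g L th U (M * a + ia) (M * b + ib) (M * c + ic) (M * e + ie)) :
    Alive γ mul g L th U a b c e := by
  intro f hf ρ hρ
  have hrg : ∀ x, mul ρ (g x) < γ := fun x => G.lt ρ hρ _ (h.lt x)
  have hn := C.hnu f hf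
  have h0 := hal (nu f) hn ρ hρ
  have hl : ∀ κ, κ < γ → QG mul w (th (nu f)) κ M = lam * th (nu f) κ := by
    intro κ hκ
    rw [← C.hq (nu f) hn κ hκ M le_rfl, C.hom (nu f) hn κ hκ]
  have hV : lam * VV (PS (fun x => th (nu f) (mul ρ (g x)))) a b c e =
      la * VV (PS (fun x => th f (mul ρ (g x)))) a b c e := by
    rw [← VP_smul, ← VP_smul]
    exact VP_congr (fun x => C.hth f hf _ (hrg x)) a b c e
  rw [VP_block G h (th (nu f)) hρ hl ha.le hb.le hc.le he.le, h.step a ia ha, h.step b ib hb,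
    h.step c ic hc, h.step e ie he, ← G.assoc ρ hρ _ (h.lt a) _ (h.wlt _ ha),
    ← G.assoc ρ hρ _ (h.lt b) _ (h.wlt _ hb), ← G.assoc ρ hρ _ (h.lt c) _ (h.wlt _ hc),
    ← G.assoc ρ hρ _ (h.lt e) _ (h.wlt _ he), ← C.hq (nu f) hn _ (hrg a) ia ha.le,
    ← C.hq (nu f) hn _ (hrg b) ib hb.le, ← C.hq (nu f) hn _ (hrg c) ic hc.le,
    ← C.hq (nu f) hn _ (hrg e) ie he.le, hV] at h0
  have ga := C.hU f hf 1 (by norm_num) _ (hrg a) ia ha
  have gb := C.hU f hf 0 (by norm_num) _ (hrg b) ib hb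
  have gc := C.hU f hf 0 (by norm_num) _ (hrg c) ic hc
  have ge := C.hU f hf 1 (by norm_num) _ (hrg e) ie he
  rw [sg_one] at ga ge
  rw [sg_zero] at gb gc
  by_contra hcon
  push Not at hcon
  have hneg := mul_neg_of_pos_of_neg C.hla hcon
  linarith

end MPbbea99G
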