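import Pool.Agent.Lib.Pbbea99G.Clos
import Pool.Agent.Lib.Pbbea99G.SumsZ

/-!
# MP_bbea99_co: soundness of the closure check, group version, factor of either sign
-/

namespace MPbbea99G

open Finset MPbbea99S MPbbea99T

/-- the facts behind the data of the closure check -/
structure CHypZ (P : CP) (W L : ℕ) (mul : ℕ → ℕ → ℕ) (inv w : ℕ → ℕ) (vc : ℕ → ℕ → ℤ)
    (χ : ℕ → ℕ → ℤ) (th : ℕ → ℕ → ℤ) (U : ℕ → ℕ → ℕ → ℤ) (q : ℕ → ℕ → ℕ → ℤ)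
    (qc : ℕ → ℕ → ℕ → ℤ) (lam : ℤ) (h K : ℕ) (π : ℕ → ℕ → ℕ)
    (gB : ℕ → ℕ → ℕ → ℕ → ℕ) (xB : ℕ → ℕ → ℕ → ℕ) (lB : ℕ → ℕ → ℕ) (cB : ℕ → ℕ)
    (gS : ℕ → ℕ → ℕ → ℕ → ℕ) (lS : ℕ → ℕ → ℕ) (cS : ℕ → ℕ)
    (C1 bq bl BL BC BX C2 bs BLs BCs BXs bls : ℕ) : Prop where
  hG : Gp P.γ mul inv
  hγ : P.γ < 256
  hh : 0 < h
  hn : 0 < P.n
  hM : 2 ≤ P.M
  hB : 0 < P.B
  hAB : 2 * (P.A + P.B) < 65536
  hwlt : ∀ r, r < P.M → w r < P.γ
  hmul : ∀ a, a < P.γ → ∀ b, b < P.γ → mlf P a b = mul a b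
  hwf : ∀ r, r < P.M → wf P r = w r
  hvf : ∀ r, r < P.M → vf P r = inv (w r)
  hpf : ∀ r, r < P.M → ∀ k, k < P.n → pf P r k = π r k
  hπ : ∀ r, r < P.M → ∀ k, k < P.n → π r k < P.n
  hπv : ∀ r, r < P.M → ∀ k, k < P.n → ∀ κ, κ < P.γ → vc (mul (inv (w r)) κ) k = vc κ (π r k)
  hth : ∀ f, f < L → ∀ κ, κ < P.γ → th f κ = ∑ k ∈ range P.n, χ f k * vc κ k
  hqc : ∀ k, k < P.n → ∀ κ, κ < P.γ → ∀ t, t ≤ P.M → qc k κ t = QG mul w (fun κ => vc κ k) κ t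
  hqcM : ∀ k, k < P.n → ∀ κ, κ < P.γ → qc k κ P.M = lam * vc κ k
  hW : 0 < W
  hWL : P.WL = W * L
  hML : P.ML = 2 ^ P.WL
  hWS : P.WS = 16 * P.n
  hMS : P.MS = 2 ^ P.WS
  hHI : P.HI = pk W (fun _ => 2 ^ (W - 1)) L
  hGt : ∀ ro, ro < 2 → ∀ κ, κ < P.γ → nthL P.gT (P.γ * ro + κ) =
    pk P.WL (fun t => pk W (gB ro κ t) L) P.M
  hgB : ∀ ro, ro < 2 → ∀ κ, κ < P.γ → ∀ t, t < P.M → ∀ f, f < L →
    (gB ro κ t f : ℤ) = bq + sg ro * q f κ t + U f ro (mul κ (w t))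
  hX : ∀ ro, ro < 2 → ∀ κ, κ < P.γ → nthL P.xT (P.γ * ro + κ) = pk W (xB ro κ) L
  hxB : ∀ ro, ro < 2 → ∀ κ, κ < P.γ → ∀ t, t < P.M → ∀ f, f < L → gB ro κ t f ≤ xB ro κ f
  hL : P.LB = pk P.WL (fun k => pk W (lB k) L) P.n
  hlB : ∀ k, k < P.n → ∀ f, f < L → (lB k f : ℤ) = bl + lam * χ f k
  hC : P.CB = pk W cB L
  hcB : ∀ f, f < L → cB f + h * ∑ k ∈ range P.n, lB k f = C1
  hbias : C1 + 4 * bq = 2 ^ (W - 1)
  bL : ∀ k, k < P.n → ∀ f, f < L → lB k f ≤ BL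
  bC : ∀ f, f < L → cB f ≤ BC
  bX : ∀ ro, ro < 2 → ∀ κ, κ < P.γ → ∀ f, f < L → xB ro κ f ≤ BX
  hbd : P.nh * BL + BC + 4 * BX < 2 ^ W
  hS : ∀ ro, ro < 2 → ∀ κ, κ < P.γ → nthL P.sT (P.γ * ro + κ) =
    pk P.WS (fun t => pk 16 (gS ro κ t) P.n) P.M
  hgS : ∀ ro, ro < 2 → ∀ κ, κ < P.γ → ∀ t, t < P.M → ∀ k, k < P.n →
    (gS ro κ t k : ℤ) = bs + sg ro * qc k κ t
  hLS : P.LS = pk P.WS (fun k => pk 16 (lS k) P.n) P.n
  hlS : ∀ j, j < P.n → ∀ k, k < P.n → (lS j k : ℤ) = bls + if j = k then lam else 0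
  hCS : P.CS = pk 16 cS P.n
  hcS : ∀ k, k < P.n → cS k + h * ∑ j ∈ range P.n, lS j k = C2
  hbiasS : C2 + 4 * bs = K
  hK1 : P.K1 + h = K
  hnh : P.nh = P.n * h
  bLs : ∀ j, j < P.n → ∀ k, k < P.n → lS j k ≤ BLs
  bCs : ∀ k, k < P.n → cS k ≤ BCs
  bXs : ∀ ro, ro < 2 → ∀ κ, κ < P.γ → ∀ t, t < P.M → ∀ k, k < P.n → gS ro κ t k ≤ BXs
  hbdS : P.nh * BLs + BCs + 4 * BXs < 2 ^ 16


variable {P : CP} {W L : ℕ} {mul : ℕ → ℕ → ℕ} {inv w : ℕ → ℕ} {vc : ℕ → ℕ → ℤ}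
    {χ : ℕ → ℕ → ℤ} {th : ℕ → ℕ → ℤ} {U : ℕ → ℕ → ℕ → ℤ} {q : ℕ → ℕ → ℕ → ℤ}
    {qc : ℕ → ℕ → ℕ → ℤ} {lam : ℤ} {h K : ℕ} {π : ℕ → ℕ → ℕ}
    {gB : ℕ → ℕ → ℕ → ℕ → ℕ} {xB : ℕ → ℕ → ℕ → ℕ} {lB : ℕ → ℕ → ℕ} {cB : ℕ → ℕ}
    {gS : ℕ → ℕ → ℕ → ℕ → ℕ} {lS : ℕ → ℕ → ℕ} {cS : ℕ → ℕ}
    {C1 bq bl BL BC BX C2 bs BLs BCs BXs bls : ℕ}

section

variable (H : CHypZ P W L mul inv w vc χ th U q qc lam h K π gB xB lB cB gS lS cS
  C1 bq bl BL BC BX C2 bs BLs BCs BXs bls)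
include H

lemma CHypZ.nh_pos : 0 < P.nh := by
  rw [H.hnh]
  exact Nat.mul_pos H.hn H.hh

lemma CHypZ.BL_lt : BL < 2 ^ W := by
  have h1 := H.hbd
  have h2 : BL ≤ P.nh * BL := Nat.le_mul_of_pos_left _ H.nh_pos
  omega

lemma CHypZ.BLs_lt : BLs < 2 ^ 16 := by
  have h1 := H.hbdS
  have h2 : BLs ≤ P.nh * BLs := Nat.le_mul_of_pos_left _ H.nh_pos
  omega

lemma CHypZ.big_eq (t : ℕ) : big P t = pk W (pV P lB cB t) L := by
  unfold big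
  rw [H.hC]
  exact sum_packed H.hML H.hWL H.hL (fun k hk f hf => (H.bL k hk f hf).trans_lt H.BL_lt)

lemma CHypZ.small_eq (t : ℕ) : small P t = pk 16 (pV P lS cS t) P.n := by
  unfold small
  rw [H.hCS]
  exact sum_packed H.hMS H.hWS H.hLS (fun k hk f hf => (H.bLs k hk f hf).trans_lt H.BLs_lt)

lemma CHypZ.pV_le {t : ℕ} (hd : DOK P t) {f : ℕ} (hf : f < L) :
    pV P lB cB t f ≤ P.nh * BL + BC := by
  unfold pV
  exact Nat.add_le_add (sum_le_of hd (fun k hk => H.bL k hk f hf)) (H.bC f hf)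

lemma CHypZ.pVs_le {t : ℕ} (hd : DOK P t) {k : ℕ} (hk : k < P.n) :
    pV P lS cS t k ≤ P.nh * BLs + BCs := by
  unfold pV
  exact Nat.add_le_add (sum_le_of hd (fun j hj => H.bLs j hj k hk)) (H.bCs k hk)

lemma CHypZ.tabG {ro κ t : ℕ} (hro : ro < 2) (hκ : κ < P.γ) (ht : t < P.M) :
    fd P.WL P.ML (nthL P.gT (ix P ro κ)) t = pk W (gB ro κ t) L := by
  have e : nthL P.gT (ix P ro κ) = pk P.WL (fun t => pk W (gB ro κ t) L) P.M :=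
    H.hGt ro hro κ hκ
  rw [e, H.hML, fd_pk _ ht]
  intro i hi
  rw [H.hWL]
  apply pk_lt
  intro f hf
  have h1 := H.hxB ro hro κ hκ i hi f hf
  have h2 := H.bX ro hro κ hκ f hf
  have h3 := H.hbd
  omega

lemma CHypZ.tabX {ro κ : ℕ} (hro : ro < 2) (hκ : κ < P.γ) :
    nthL P.xT (ix P ro κ) = pk W (xB ro κ) L := H.hX ro hro κ hκ

lemma CHypZ.tabS {ro κ t : ℕ} (hro : ro < 2) (hκ : κ < P.γ) (ht : t < P.M) :
    fd P.WS P.MS (nthL P.sT (ix P ro κ)) t = pk 16 (gS ro κ t) P.n := by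
  have e : nthL P.sT (ix P ro κ) = pk P.WS (fun t => pk 16 (gS ro κ t) P.n) P.M :=
    H.hS ro hro κ hκ
  rw [e, H.hMS, fd_pk _ ht]
  intro i hi
  rw [H.hWS]
  apply pk_lt
  intro k hk
  have h1 := H.bXs ro hro κ hκ i hi k hk
  have h3 := H.hbdS
  omega

lemma CHypZ.qcM {k : ℕ} (hk : k < P.n) : ∀ κ, κ < P.γ →
    QG mul w (fun κ => vc κ k) κ P.M = lam * vc κ k := by
  intro κ hκ
  rw [← H.hqc k hk κ hκ P.M le_rfl, H.hqcM k hk κ hκ]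

lemma CHypZ.thM {f : ℕ} (hf : f < L) : ∀ κ, κ < P.γ →
    QG mul w (th f) κ P.M = lam * th f κ := by
  intro κ hκ
  have e1 : QG mul w (th f) κ P.M = ∑ u ∈ range P.M, ∑ k ∈ range P.n,
      χ f k * vc (mul κ (w u)) k := by
    unfold QG
    apply Finset.sum_congr rfl
    intro u hu
    rw [H.hth f hf _ (H.hG.lt κ hκ _ (H.hwlt u (Finset.mem_range.1 hu)))]
  rw [e1, Finset.sum_comm, H.hth f hf κ hκ, Finset.mul_sum]
  apply Finset.sum_congr rfl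
  intro k hk
  have e2 := H.qcM (Finset.mem_range.1 hk) κ hκ
  unfold QG at e2
  rw [← Finset.mul_sum, e2]
  ring

/-- the total value of a living child -/
lemma CHypZ.total {g : ℕ → ℕ} (hs : IsG P.γ P.M mul w g)
    (hq : ∀ f, f < L → ∀ κ, κ < P.γ → ∀ t, t ≤ P.M → q f κ t = QG mul w (th f) κ t)
    {t a b c e ia ib ic ie : ℕ} (ha : ia < P.M) (hb : ib < P.M) (hc : ic < P.M)
    (he : ie < P.M) (hm : Match P.n P.A P.B K mul inv g vc t a b c e) (hd : DOK P t)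
    (hal : Alive P.γ mul g L th U (P.M * a + ia) (P.M * b + ib) (P.M * c + ic) (P.M * e + ie))
    {f : ℕ} (hf : f < L) :
    2 ^ (W - 1) ≤ pV P lB cB t f + gB 1 0 ia f +
      gB 0 (mul (inv (g a)) (g b)) ib f + gB 0 (mul (inv (g a)) (g c)) ic f +
      gB 1 (mul (inv (g a)) (g e)) ie f := by
  have G := H.hG
  have hρ : inv (g a) < P.γ := G.ilt _ (hs.lt a)
  have hrg : ∀ x, mul (inv (g a)) (g x) < P.γ := fun x => G.lt _ hρ _ (hs.lt x)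
  have g0 := hal f hf _ hρ
  rw [VP_block G hs (th f) hρ (H.thM hf) ha.le hb.le hc.le he.le, hs.step a ia ha,
    hs.step b ib hb, hs.step c ic hc, hs.step e ie he,
    ← G.assoc _ hρ _ (hs.lt a) _ (hs.wlt _ ha), ← G.assoc _ hρ _ (hs.lt b) _ (hs.wlt _ hb),
    ← G.assoc _ hρ _ (hs.lt c) _ (hs.wlt _ hc), ← G.assoc _ hρ _ (hs.lt e) _ (hs.wlt _ he),
    ← hq f hf _ (hrg a) ia ha.le, ← hq f hf _ (hrg b) ib hb.le, ← hq f hf _ (hrg c) ic hc.le,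
    ← hq f hf _ (hrg e) ie he.le, G.inv_mul _ (hs.lt a)] at g0
  have vP := pV_val H.hK1 H.hnh hm hd (l := lB) (cc := cB) (Cc := C1) (bb := bl)
    (ps := fun k => lam * χ f k) (f := f) (fun k hk => H.hlB k hk f hf) (H.hcB f hf)
  have hVV : VV (PS (fun x => th f (mul (inv (g a)) (g x)))) a b c e =
      ∑ k ∈ range P.n, χ f k * DV mul inv g vc k a b c e := by
    have e1 : ∀ x, th f (mul (inv (g a)) (g x)) =
        ∑ k ∈ range P.n, χ f k * vc (mul (inv (g a)) (g x)) k := fun x => H.hth f hf _ (hrg x)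
    rw [VP_congr e1, VP_lin P.n (fun k => χ f k) (fun k x => vc (mul (inv (g a)) (g x)) k)]
    rfl
  have e2 : ∑ k ∈ range P.n, lam * χ f k * DV mul inv g vc k a b c e =
      lam * VV (PS (fun x => th f (mul (inv (g a)) (g x)))) a b c e := by
    rw [hVV, Finset.mul_sum]
    apply Finset.sum_congr rfl
    intro k _
    ring
  rw [e2] at vP
  have v1 := H.hgB 1 (by norm_num) 0 G.pos ia ha f hf
  have v2 := H.hgB 0 (by norm_num) _ (hrg b) ib hb f hf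
  have v3 := H.hgB 0 (by norm_num) _ (hrg c) ic hc f hf
  have v4 := H.hgB 1 (by norm_num) _ (hrg e) ie he f hf
  have hb' : ((C1 + 4 * bq : ℕ) : ℤ) = (2 ^ (W - 1) : ℕ) := by rw [H.hbias]
  rw [sg_one] at v1 v4
  rw [sg_zero] at v2 v3
  have hfin : ((2 ^ (W - 1) : ℕ) : ℤ) ≤ ((pV P lB cB t f + gB 1 0 ia f +
      gB 0 (mul (inv (g a)) (g b)) ib f + gB 0 (mul (inv (g a)) (g c)) ic f +
      gB 1 (mul (inv (g a)) (g e)) ie f : ℕ) : ℤ) := by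
    rw [← hb']
    push_cast
    linarith
  exact_mod_cast hfin

/-- the small values of a child -/
lemma CHypZ.totalS {g : ℕ → ℕ} (hs : IsG P.γ P.M mul w g)
    {t a b c e ia ib ic ie : ℕ} (ha : ia < P.M) (hb : ib < P.M) (hc : ic < P.M)
    (he : ie < P.M) (hm : Match P.n P.A P.B K mul inv g vc t a b c e) (hd : DOK P t)
    {k : ℕ} (hk : k < P.n) :
    ((pV P lS cS t k + gS 1 0 ia k +
      gS 0 (mul (inv (g a)) (g b)) ib k + gS 0 (mul (inv (g a)) (g c)) ic k +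
      gS 1 (mul (inv (g a)) (g e)) ie k : ℕ) : ℤ) = K +
      VV (PS (fun x => vc (mul (inv (g a)) (g x)) k))
        (P.M * a + ia) (P.M * b + ib) (P.M * c + ic) (P.M * e + ie) := by
  have G := H.hG
  have hρ : inv (g a) < P.γ := G.ilt _ (hs.lt a)
  have hrg : ∀ x, mul (inv (g a)) (g x) < P.γ := fun x => G.lt _ hρ _ (hs.lt x)
  rw [VP_block G hs (fun κ => vc κ k) hρ (H.qcM hk) ha.le hb.le hc.le he.le,
    ← H.hqc k hk _ (hrg a) ia ha.le, ← H.hqc k hk _ (hrg b) ib hb.le,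
    ← H.hqc k hk _ (hrg c) ic hc.le, ← H.hqc k hk _ (hrg e) ie he.le, G.inv_mul _ (hs.lt a)]
  have vP := pV_val H.hK1 H.hnh hm hd (l := lS) (cc := cS) (Cc := C2) (bb := bls)
    (ps := fun j => if j = k then lam else 0) (f := k)
    (fun j hj => H.hlS j hj k hk) (H.hcS k hk)
  have e1 : ∑ j ∈ range P.n, (if j = k then lam else 0) * DV mul inv g vc j a b c e =
      lam * VV (PS (fun x => vc (mul (inv (g a)) (g x)) k)) a b c e := by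
    have : ∀ j ∈ range P.n, (if j = k then lam else 0) * DV mul inv g vc j a b c e =
        if j = k then lam * DV mul inv g vc j a b c e else 0 := by
      intro j _
      split_ifs <;> ring
    rw [Finset.sum_congr rfl this, Finset.sum_ite_eq', if_pos (Finset.mem_range.2 hk)]
    rfl
  rw [e1] at vP
  have v1 := H.hgS 1 (by norm_num) 0 G.pos ia ha k hk
  have v2 := H.hgS 0 (by norm_num) _ (hrg b) ib hb k hk
  have v3 := H.hgS 0 (by norm_num) _ (hrg c) ic hc k hk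
  have v4 := H.hgS 1 (by norm_num) _ (hrg e) ie he k hk
  have hb' : ((C2 + 4 * bs : ℕ) : ℤ) = (K : ℕ) := by rw [H.hbiasS]
  rw [sg_one] at v1 v4
  rw [sg_zero] at v2 v3
  rw [← hb']
  push_cast
  linarith

end

end MPbbea99G
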