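import Pool.Agent.Lib.Pbbea99G.VCheck

/-!
# MP_bbea99_co: large checks in pieces (each piece a declaration of its own, to save memory)
-/

namespace MPbbea99G

open Finset MPbbea99S MPbbea99T

/-! ### ranges -/

theorem rng_cons {f : ℕ → Bool} {a c a' b : ℕ} (h : allN (fun j => f (a + j)) c = true)
    (e : a + c = a') (h' : ∀ i, a' ≤ i → i < b → f i = true) :
    ∀ i, a ≤ i → i < b → f i = true := by
  intro i h1 h2
  rcases Nat.lt_or_ge i a' with h3 | h3
  · have h4 := allN_spec h (i - a) (by omega)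
    rwa [show a + (i - a) = i by omega] at h4
  · exact h' i h3 h2

theorem rng_end {f : ℕ → Bool} {a b : ℕ} (h : b ≤ a) : ∀ i, a ≤ i → i < b → f i = true := by
  intro i h1 h2
  omega

theorem rngP_cons {p : ℕ → Prop} {a c a' b : ℕ} (h : ∀ j, j < c → p (a + j))
    (e : a + c = a') (h' : ∀ i, a' ≤ i → i < b → p i) :
    ∀ i, a ≤ i → i < b → p i := by
  intro i h1 h2
  rcases Nat.lt_or_ge i a' with h3 | h3
  · have h4 := h (i - a) (by omega)
    rwa [show a + (i - a) = i by omega] at h4
  · exact h' i h3 h2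

theorem rngP_end {p : ℕ → Prop} {a b : ℕ} (h : b ≤ a) : ∀ i, a ≤ i → i < b → p i := by
  intro i h1 h2
  omega

/-! ### the first digit of a template check -/

/-- one value of an enumeration -/
noncomputable def en1 (f : ℕ → Bool) (A i : ℕ) : Bool :=
  bc (Nat.beq (Nat.land A (Nat.shiftLeft 1 i)) 0) true (f i)

theorem enumN_of {f : ℕ → Bool} {k A : ℕ} (h : ∀ i, i < k → en1 f A i = true) :
    enumN f k A = true := by
  unfold enumN
  cases hb : Nat.beq A 0 with
  | true => rfl
  | false =>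
    show Nat.rec (motive := fun _ => Bool) true (fun i ih =>
      Bool.rec (motive := fun _ => Bool)
        (Bool.rec (motive := fun _ => Bool) false ih (f i)) ih
        (Nat.beq (Nat.land A (Nat.shiftLeft 1 i)) 0)) k = true
    clear hb
    induction k with
    | zero => rfl
    | succ k ih =>
      have h1 := ih (fun i hi => h i (by omega))
      have h2 := h k (by omega)
      show Bool.rec (motive := fun _ => Bool)
        (Bool.rec (motive := fun _ => Bool) false (Nat.rec (motive := fun _ => Bool) true (fun i ih =>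
          Bool.rec (motive := fun _ => Bool)
            (Bool.rec (motive := fun _ => Bool) false ih (f i)) ih
            (Nat.beq (Nat.land A (Nat.shiftLeft 1 i)) 0)) k) (f k))
        (Nat.rec (motive := fun _ => Bool) true (fun i ih =>
          Bool.rec (motive := fun _ => Bool)
            (Bool.rec (motive := fun _ => Bool) false ih (f i)) ih
            (Nat.beq (Nat.land A (Nat.shiftLeft 1 i)) 0)) k)
        (Nat.beq (Nat.land A (Nat.shiftLeft 1 k)) 0) = true
      rw [h1]
      unfold en1 at h2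
      cases hc : Nat.beq (Nat.land A (Nat.shiftLeft 1 k)) 0 with
      | true => rfl
      | false =>
        rw [hc, bc_false] at h2
        rw [h2]

/-- the first level, one digit -/
noncomputable def aV1 (P : CP) (V : VP) (lf : ℕ → ℕ → ℕ → ℕ → ℕ → Bool)
    (dl gt zl zv Ga Gb Gc Ge RA RB RC X0 ia : ℕ) : Bool :=
  en1 (fun ia => bV P V (lf ia) dl gt zl zv Gb Gc Ge RB RC
    (Nat.add X0 (fd P.WL P.ML Ga ia)) ia)
    (mskF V (Nat.add Ga (Nat.mul (Nat.add X0 RA) V.ON))) ia

/-- all children of a template with a given first digit -/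
noncomputable def lvV1 (P : CP) (V : VP) (lk : ℕ → ℕ → ℕ → ℕ → ℕ → Bool)
    (kb kc ke dl gt zl zv ze Ga Gb Gc Ge Xb Xc Xe Sa Sb Sc Se S0 X0 ia : ℕ) : Bool :=
  aV1 P V (fun ia ib dp ic ie => lfV P lk kb kc ke gt zl zv ze Sa Sb Sc Se S0 ia ib dp ic ie)
    dl gt zl zv Ga Gb Gc Ge (Nat.add (Nat.add Xb Xc) Xe) (Nat.add Xc Xe) Xe X0 ia

/-- check of a template, one value of the first digit -/
noncomputable def chkV1 (P : CP) (V : VP) (lk : ℕ → ℕ → ℕ → ℕ → ℕ → Bool) (t ia : ℕ) : Bool :=
  lvV1 P V lk (dg t P.n) (dg t (Nat.add P.n 1)) (dg t (Nat.add P.n 2)) (dg t (Nat.add P.n 3))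
        (dg t (Nat.add P.n 4)) (dg t (Nat.add P.n 5)) (dg t (Nat.add P.n 6))
        (dg t (Nat.add P.n 7))
        (nthL P.gT (ix P 1 0)) (nthL P.gT (ix P 0 (dg t P.n)))
        (nthL P.gT (ix P 0 (dg t (Nat.add P.n 1)))) (nthL P.gT (ix P 1 (dg t (Nat.add P.n 2))))
        (nthL P.xT (ix P 0 (dg t P.n))) (nthL P.xT (ix P 0 (dg t (Nat.add P.n 1))))
        (nthL P.xT (ix P 1 (dg t (Nat.add P.n 2))))
        (nthL P.sT (ix P 1 0)) (nthL P.sT (ix P 0 (dg t P.n)))
        (nthL P.sT (ix P 0 (dg t (Nat.add P.n 1)))) (nthL P.sT (ix P 1 (dg t (Nat.add P.n 2))))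
        (small P t) (big P t) ia

/-- the conditions on the template alone -/
noncomputable def chkV0 (P : CP) (t : ℕ) : Bool :=
  bc (allN (fun k => Nat.ble P.K1 (dg t k)) P.n)
    (Nat.beq (sumN (fun k => eg P t k) P.n) P.nh) false

theorem chkV_of {P : CP} {V : VP} {lk : ℕ → ℕ → ℕ → ℕ → ℕ → Bool} {t : ℕ}
    (h0 : chkV0 P t = true)
    (h : ∀ ia, 0 ≤ ia → ia < P.M → chkV1 P V lk t ia = true) : chkV P V lk t = true := by
  have h1 := bc_and h0
  unfold chkV
  rw [h1.1, h1.2, bc_true, bc_true]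
  unfold lvV aV
  exact enumN_of fun i hi => h i (Nat.zero_le i) hi

end MPbbea99G
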