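import Pool.Agent.Lib.Pbbea99G.Main

/-!
# MP_bbea99_co: instances from tables, group version
-/

namespace MPbbea99G

open Finset MPbbea99S MPbbea99T

/-- concatenation of pieces of `F` bits -/
noncomputable def catN (F : ℕ) (l : List ℕ) : ℕ :=
  List.rec (motive := fun _ => ℕ) 0 (fun x _ ih => Nat.add x (Nat.shiftLeft ih F)) l

/-- packed prefix sums -/
noncomputable def prefR (F : ℕ) (a : ℕ → ℕ) (t : ℕ) : ℕ :=
  Nat.rec (motive := fun _ => ℕ) 0
    (fun t ih => Nat.add ih (Nat.shiftLeft (Nat.add (Nat.shiftRight ih (Nat.mul F t)) (a t))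
      (Nat.mul F (Nat.succ t)))) t

lemma prefR_eq {F : ℕ} {a : ℕ → ℕ} {t : ℕ} (h : ∀ s, s ≤ t → ∑ u ∈ range s, a u < 2 ^ F) :
    prefR F a t = pk F (fun s => ∑ u ∈ range s, a u) (t + 1) := by
  induction t with
  | zero => simp [prefR, pk]
  | succ t ih =>
    have e : prefR F a (t + 1) = prefR F a t +
      (((prefR F a t) >>> (F * t)) + a t) <<< (F * (t + 1)) := rfl
    rw [e, ih (fun s hs => h s (by omega))]
    have e1 : (pk F (fun s => ∑ u ∈ range s, a u) (t + 1)) >>> (F * t) =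
        ∑ u ∈ range t, a u := by
      rw [pk_succ, Nat.shiftRight_eq_div_pow]
      have hlt : pk F (fun s => ∑ u ∈ range s, a u) t < 2 ^ (F * t) :=
        pk_lt (fun s hs => h s (by omega))
      rw [Nat.add_mul_div_right _ _ (by positivity), Nat.div_eq_of_lt hlt, Nat.zero_add]
    rw [e1, ← Finset.sum_range_succ, Nat.shiftLeft_eq]
    conv_rhs => rw [pk_succ]

/-- a group from a faithful action -/
theorem gp_of_act {γ n : ℕ} {mul : ℕ → ℕ → ℕ} {inv : ℕ → ℕ} {ac : ℕ → ℕ → ℕ} (pos : 0 < γ)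
    (lt : ∀ a, a < γ → ∀ b, b < γ → mul a b < γ) (ilt : ∀ a, a < γ → inv a < γ)
    (hac : ∀ a, a < γ → ∀ x, x < n → ac a x < n)
    (hmul : ∀ a, a < γ → ∀ b, b < γ → ∀ x, x < n → ac a (ac b x) = ac (mul a b) x)
    (hinj : ∀ a, a < γ → ∀ b, b < γ → (∀ x, x < n → ac a x = ac b x) → a = b)
    (hone : ∀ x, x < n → ac 0 x = x)
    (hinv : ∀ a, a < γ → ∀ x, x < n → ac (inv a) (ac a x) = x)
    (hinv' : ∀ a, a < γ → ∀ x, x < n → ac a (ac (inv a) x) = x) : Gp γ mul inv := by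
  constructor
  case pos => exact pos
  case lt => exact lt
  case ilt => exact ilt
  case assoc =>
    intro a ha b hb c hc
    apply hinj _ (lt _ (lt a ha b hb) c hc) _ (lt a ha _ (lt b hb c hc))
    intro x hx
    rw [← hmul _ (lt a ha b hb) c hc x hx, ← hmul a ha b hb _ (hac c hc x hx),
      ← hmul a ha _ (lt b hb c hc) x hx, ← hmul b hb c hc x hx]
  case one_mul =>
    intro a ha
    apply hinj _ (lt 0 pos a ha) _ ha
    intro x hx
    rw [← hmul 0 pos a ha x hx, hone _ (hac a ha x hx)]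
  case mul_one =>
    intro a ha
    apply hinj _ (lt a ha 0 pos) _ ha
    intro x hx
    rw [← hmul a ha 0 pos x hx, hone _ hx]
  case inv_mul =>
    intro a ha
    apply hinj _ (lt _ (ilt a ha) a ha) _ pos
    intro x hx
    rw [← hmul _ (ilt a ha) a ha x hx, hinv a ha x hx, hone _ hx]
  case mul_inv =>
    intro a ha
    apply hinj _ (lt a ha _ (ilt a ha)) _ pos
    intro x hx
    rw [← hmul a ha _ (ilt a ha) x hx, hinv' a ha x hx, hone _ hx]

/-- the tables -/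
structure Tb where
  n : ℕ
  γ : ℕ
  M : ℕ
  L : ℕ
  W : ℕ
  MW : ℕ
  mT : ℕ
  iT : ℕ
  wT : ℕ
  acT : ℕ
  vT : ℕ
  v0 : ℕ
  cT : ℕ
  cx : ℕ
  CH : List ℕ
  UV : List ℕ
  ON : ℕ
  lam : ℕ
  C1 : ℕ
  C2 : ℕ
  h : ℕ

namespace Tb

/-- products -/
def mul (T : Tb) (a b : ℕ) : ℕ := fd 8 256 T.mT (Nat.add (Nat.mul T.γ a) b)

/-- inverses -/
def inv (T : Tb) (a : ℕ) : ℕ := fd 8 256 T.iT a

/-- the pattern -/
def w (T : Tb) (t : ℕ) : ℕ := fd 8 256 T.wT t

/-- images of letters -/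
def ac (T : Tb) (κ x : ℕ) : ℕ := fd 8 256 T.acT (Nat.add (Nat.mul T.n κ) x)

/-- coordinates of the vectors, plus `v0` -/
def vn (T : Tb) (κ k : ℕ) : ℕ := fd 8 256 T.vT (Nat.add (Nat.mul T.n κ) k)

/-- the functionals, plus `cx` -/
def chn (T : Tb) (f k : ℕ) : ℕ := fd 8 256 T.cT (Nat.add (Nat.mul T.n f) k)

/-- upper bounds -/
noncomputable def un (T : Tb) (f ro κ : ℕ) : ℕ :=
  fd T.W T.MW (nthL T.UV (Nat.add (Nat.mul T.γ ro) κ)) f

/-- coordinates of the vectors -/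
def vc (T : Tb) (κ k : ℕ) : ℤ := (T.vn κ k : ℤ) - T.v0

/-- the functionals -/
def χ (T : Tb) (f k : ℕ) : ℤ := (T.chn f k : ℤ) - T.cx

/-- the functionals of the vectors -/
def th (T : Tb) (f κ : ℕ) : ℤ := ∑ k ∈ range T.n, T.χ f k * T.vc κ k

/-- partial sums -/
def q (T : Tb) (f κ t : ℕ) : ℤ := QG T.mul T.w (T.th f) κ t

/-- upper bounds -/
noncomputable def U (T : Tb) (f ro κ : ℕ) : ℤ := (T.un f ro κ : ℤ)

/-- partial sums of coordinates -/
def qc (T : Tb) (k κ t : ℕ) : ℤ := QG T.mul T.w (fun κ => T.vc κ k) κ t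

/-- the functionals with a sign, plus `cx` -/
noncomputable def chr (T : Tb) (ro f k : ℕ) : ℕ :=
  chz ro (T.chn f k) (Nat.sub (Nat.mul 2 T.cx) (T.chn f k))

/-- coordinates with a sign, plus `v0` -/
noncomputable def vr (T : Tb) (ro κ k : ℕ) : ℕ :=
  chz ro (T.vn κ k) (Nat.sub (Nat.mul 2 T.v0) (T.vn κ k))

/-- the bias of one step -/
def bt (T : Tb) : ℕ := T.n * T.v0 * T.cx

/-- one step of a functional -/
noncomputable def thn (T : Tb) (ro κ f : ℕ) : ℕ := ∑ k ∈ range T.n, T.vn κ k * T.chr ro f k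

/-- contributions -/
noncomputable def gB (T : Tb) (ro κ t f : ℕ) : ℕ :=
  ∑ u ∈ range t, T.thn ro (T.mul κ (T.w u)) f +
    (T.un f ro (T.mul κ (T.w t)) + T.bt * (T.M - t))

/-- packed steps -/
noncomputable def TH (T : Tb) (ro κ : ℕ) : ℕ :=
  sumN (fun k => Nat.mul (T.vn κ k) (nthL T.CH (Nat.add (Nat.mul T.n ro) k))) T.n

/-- packed contributions; `WL = W L` -/
noncomputable def gTf (T : Tb) (WL ro κ : ℕ) : ℕ :=
  Nat.add (prefR WL (fun u => T.TH ro (T.mul κ (T.w u))) (Nat.sub T.M 1))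
    (pkR WL (fun t => Nat.add (nthL T.UV (Nat.add (Nat.mul T.γ ro) (T.mul κ (T.w t))))
      (Nat.mul (Nat.mul (Nat.mul (Nat.mul T.n T.v0) T.cx) (Nat.sub T.M t)) T.ON)) T.M)

/-- linear forms -/
def lB (T : Tb) (k f : ℕ) : ℕ := Nat.mul T.lam (T.chn f k)

/-- constants -/
noncomputable def cB (T : Tb) (f : ℕ) : ℕ :=
  Nat.sub T.C1 (Nat.mul T.h (sumN (fun k => T.lB k f) T.n))

/-- contributions to the coordinates -/
noncomputable def gS (T : Tb) (ro κ t k : ℕ) : ℕ :=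
  ∑ u ∈ range t, T.vr ro (T.mul κ (T.w u)) k + T.v0 * (T.M - t)

/-- packed contributions to the coordinates -/
noncomputable def sTf (T : Tb) (WS ro κ : ℕ) : ℕ :=
  Nat.add (prefR WS (fun u => pkR 16 (fun k => T.vr ro (T.mul κ (T.w u)) k) T.n)
    (Nat.sub T.M 1))
    (pkR WS (fun t => pkR 16 (fun _ => Nat.mul T.v0 (Nat.sub T.M t)) T.n) T.M)

/-- linear forms of the coordinates -/
noncomputable def lS (T : Tb) (j k : ℕ) : ℕ := Nat.mul T.lam (bn (Nat.beq j k))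

/-- constants of the coordinates -/
def cS (T : Tb) (_ : ℕ) : ℕ := Nat.sub T.C2 (Nat.mul T.h T.lam)

lemma chz2_val {ro c Q : ℕ} {z : ℤ} (hro : ro < 2) (hQ : Q ≤ 2 * c)
    (hz : z = (Q : ℤ) - c) : ((chz ro Q (Nat.sub (2 * c) Q) : ℕ) : ℤ) = c + sg ro * z := by
  have h2 : ((Nat.sub (2 * c) Q : ℕ) : ℤ) = 2 * c - Q := by
    show ((2 * c - Q : ℕ) : ℤ) = _
    rw [Nat.cast_sub hQ]
    push_cast
    ring
  interval_cases ro
  · show (Q : ℤ) = _
    rw [sg_zero, hz]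
    ring
  · show ((Nat.sub (2 * c) Q : ℕ) : ℤ) = _
    rw [h2, sg_one, hz]
    ring

lemma chz_le {c : ℕ} (ro : ℕ) {Q : ℕ} (hQ : Q ≤ 2 * c) : chz ro Q (Nat.sub (2 * c) Q) ≤ 2 * c := by
  cases ro with
  | zero => exact hQ
  | succ ro => exact Nat.sub_le _ _

end Tb

/-- the facts behind the tables -/
structure TOK (T : Tb) : Prop where
  hn : 0 < T.n
  hM : 2 ≤ T.M
  hW : 0 < T.W
  hMW : T.MW = 2 ^ T.W
  hγ : T.γ < 256
  hmlt : ∀ a, a < T.γ → ∀ b, b < T.γ → T.mul a b < T.γ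
  hw : ∀ r, r < T.M → T.w r < T.γ
  hac : ∀ κ, κ < T.γ → ∀ x, x < T.n → T.ac κ x < T.n
  hv0 : ∀ κ, κ < T.γ → ∀ k, k < T.n → T.vn κ k ≤ 2 * T.v0
  hcx : ∀ f, f < T.L → ∀ k, k < T.n → T.chn f k ≤ 2 * T.cx
  hvz : ∀ κ, κ < T.γ → sumN (fun k => T.vn κ k) T.n = T.n * T.v0
  hcz : ∀ f, f < T.L → sumN (fun k => T.chn f k) T.n = T.n * T.cx
  hCH : ∀ ro, ro < 2 → ∀ k, k < T.n → nthL T.CH (T.n * ro + k) =
    pkR T.W (fun f => T.chr ro f k) T.L
  hUV : ∀ ro, ro < 2 → ∀ κ, κ < T.γ → nthL T.UV (T.γ * ro + κ) =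
    pkR T.W (fun f => T.un f ro κ) T.L
  hON : T.ON = pkR T.W (fun _ => 1) T.L
  hsM : ∀ k, k < T.n → ∀ κ, κ < T.γ →
    sumN (fun u => T.vn (T.mul κ (T.w u)) k) T.M + T.lam * T.v0 =
      T.M * T.v0 + T.lam * T.vn κ k

namespace Tb

variable {T : Tb}

lemma chr_val (O : TOK T) {ro f k : ℕ} (hro : ro < 2) (hf : f < T.L) (hk : k < T.n) :
    (T.chr ro f k : ℤ) = T.cx + sg ro * T.χ f k :=
  chz2_val (c := T.cx) (Q := T.chn f k) (z := T.χ f k) hro (O.hcx f hf k hk) rfl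

lemma vr_val (O : TOK T) {ro κ k : ℕ} (hro : ro < 2) (hκ : κ < T.γ) (hk : k < T.n) :
    (T.vr ro κ k : ℤ) = T.v0 + sg ro * T.vc κ k :=
  chz2_val (c := T.v0) (Q := T.vn κ k) (z := T.vc κ k) hro (O.hv0 κ hκ k hk) rfl

lemma thn_val (O : TOK T) {ro κ f : ℕ} (hro : ro < 2) (hκ : κ < T.γ) (hf : f < T.L) :
    (T.thn ro κ f : ℤ) = T.bt + sg ro * T.th f κ := by
  have h1 : ∑ k ∈ range T.n, T.vc κ k = 0 := by
    have := O.hvz κ hκ
    rw [sumN_eq] at this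
    unfold vc
    rw [Finset.sum_sub_distrib, ← Nat.cast_sum, this]
    simp
  have h2 : ∑ k ∈ range T.n, T.χ f k = 0 := by
    have := O.hcz f hf
    rw [sumN_eq] at this
    unfold χ
    rw [Finset.sum_sub_distrib, ← Nat.cast_sum, this]
    simp
  unfold thn th bt
  push_cast
  have e : ∀ k ∈ range T.n, (T.vn κ k : ℤ) * (T.chr ro f k : ℤ) =
      T.v0 * T.cx + T.cx * T.vc κ k + T.v0 * sg ro * T.χ f k +
        sg ro * (T.χ f k * T.vc κ k) := by
    intro k hk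
    rw [chr_val O hro hf (Finset.mem_range.1 hk)]
    have : (T.vn κ k : ℤ) = T.v0 + T.vc κ k := by unfold vc; ring
    rw [this]
    ring
  rw [Finset.sum_congr rfl e, Finset.sum_add_distrib, Finset.sum_add_distrib,
    Finset.sum_add_distrib]
  simp only [← Finset.mul_sum, h1, h2]
  simp
  ring

lemma thn_le (O : TOK T) {ro κ f : ℕ} (hκ : κ < T.γ) (hf : f < T.L) :
    T.thn ro κ f ≤ 2 * T.bt := by
  -- at most twice the bias, since the coordinates add up to `n v0`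
  unfold thn bt
  have h1 : ∑ k ∈ range T.n, T.vn κ k * T.chr ro f k ≤ ∑ k ∈ range T.n, T.vn κ k * (2 * T.cx) := by
    apply Finset.sum_le_sum
    intro k hk
    exact Nat.mul_le_mul le_rfl (chz_le ro (O.hcx f hf k (Finset.mem_range.1 hk)))
  have h2 := O.hvz κ hκ
  rw [sumN_eq] at h2
  rw [← Finset.sum_mul, h2] at h1
  calc _ ≤ T.n * T.v0 * (2 * T.cx) := h1
    _ = 2 * (T.n * T.v0 * T.cx) := by ring

lemma kw (O : TOK T) {κ u : ℕ} (hκ : κ < T.γ) (hu : u < T.M) : T.mul κ (T.w u) < T.γ :=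
  O.hmlt κ hκ _ (O.hw u hu)

lemma gB_val (O : TOK T) {ro κ t f : ℕ} (hro : ro < 2) (hκ : κ < T.γ) (ht : t < T.M)
    (hf : f < T.L) : (T.gB ro κ t f : ℤ) =
      (T.bt * T.M : ℕ) + sg ro * T.q f κ t + T.U f ro (T.mul κ (T.w t)) := by
  unfold gB
  have e : ((∑ u ∈ range t, T.thn ro (T.mul κ (T.w u)) f : ℕ) : ℤ) =
      T.bt * t + sg ro * T.q f κ t := by
    unfold q QG
    push_cast
    rw [Finset.mul_sum]
    have : ∀ u ∈ range t, (T.thn ro (T.mul κ (T.w u)) f : ℤ) =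
        T.bt + sg ro * T.th f (T.mul κ (T.w u)) := by
      intro u hu
      have := Finset.mem_range.1 hu
      exact thn_val O hro (kw O hκ (by omega)) hf
    rw [Finset.sum_congr rfl this, Finset.sum_add_distrib]
    simp
    ring
  rw [Nat.cast_add, e, Nat.cast_add, Nat.cast_mul, Nat.cast_sub ht.le]
  unfold U
  push_cast
  ring

lemma gB_le (O : TOK T) {ro κ t f um : ℕ} (hκ : κ < T.γ) (ht : t < T.M) (hf : f < T.L)
    (hro : ro < 2) (hum : ∀ f, f < T.L → ∀ ro, ro < 2 → ∀ κ, κ < T.γ → T.un f ro κ ≤ um) :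
    T.gB ro κ t f ≤ 2 * T.bt * T.M + um := by
  unfold gB
  have h1 : ∑ u ∈ range t, T.thn ro (T.mul κ (T.w u)) f ≤ ∑ u ∈ range t, 2 * T.bt := by
    apply Finset.sum_le_sum
    intro u hu
    have := Finset.mem_range.1 hu
    exact thn_le O (kw O hκ (by omega)) hf
  rw [Finset.sum_const, Finset.card_range, smul_eq_mul] at h1
  have h2 := hum f hf ro hro _ (kw O hκ ht)
  have h3 : T.bt * (T.M - t) ≤ 2 * T.bt * (T.M - t) := Nat.mul_le_mul (by omega) le_rfl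
  have h4 : t * (2 * T.bt) + 2 * T.bt * (T.M - t) = 2 * T.bt * T.M := by
    rw [Nat.mul_comm t, ← Nat.mul_add]
    congr 1
    omega
  omega

lemma TH_eq (O : TOK T) {ro κ : ℕ} (hro : ro < 2) :
    T.TH ro κ = pk T.W (T.thn ro κ) T.L := by
  unfold TH thn
  rw [sumN_eq, pk_sum]
  apply Finset.sum_congr rfl
  intro k hk
  show T.vn κ k * nthL T.CH (T.n * ro + k) = _
  rw [O.hCH ro hro k (Finset.mem_range.1 hk), pkR_eq, pk_smul]

lemma gTf_eq (O : TOK T) {WL ro κ : ℕ} (hWL : WL = T.W * T.L) (hro : ro < 2) (hκ : κ < T.γ)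
    (hb : 2 * T.bt * T.M < 2 ^ T.W) :
    T.gTf WL ro κ = pk WL (fun t => pk T.W (T.gB ro κ t) T.L) T.M := by
  have hM := O.hM
  have hsum : ∀ s, s ≤ T.M - 1 → ∑ u ∈ range s, T.TH ro (T.mul κ (T.w u)) =
      pk T.W (fun f => ∑ u ∈ range s, T.thn ro (T.mul κ (T.w u)) f) T.L := by
    intro s _
    rw [pk_sum]
    apply Finset.sum_congr rfl
    intro u _
    exact TH_eq O hro
  have hlt : ∀ s, s ≤ T.M - 1 → ∑ u ∈ range s, T.TH ro (T.mul κ (T.w u)) < 2 ^ WL := by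
    intro s hs
    rw [hsum s hs, hWL]
    apply pk_lt
    intro f hf
    have h1 : ∑ u ∈ range s, T.thn ro (T.mul κ (T.w u)) f ≤ ∑ u ∈ range s, 2 * T.bt := by
      apply Finset.sum_le_sum
      intro u hu
      have := Finset.mem_range.1 hu
      exact thn_le O (kw O hκ (by omega)) hf
    rw [Finset.sum_const, Finset.card_range, smul_eq_mul] at h1
    have h2 : s * (2 * T.bt) ≤ T.M * (2 * T.bt) := Nat.mul_le_mul (by omega) le_rfl
    have h3 : T.M * (2 * T.bt) = 2 * T.bt * T.M := by ring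
    omega
  have e1 : prefR WL (fun u => T.TH ro (T.mul κ (T.w u))) (T.M - 1) =
      pk WL (fun s => ∑ u ∈ range s, T.TH ro (T.mul κ (T.w u))) T.M := by
    rw [prefR_eq hlt]
    congr 1
    omega
  unfold gTf
  show prefR WL (fun u => T.TH ro (T.mul κ (T.w u))) (T.M - 1) + pkR WL _ T.M = _
  rw [e1, pkR_eq, ← pk_add]
  apply pk_congr
  intro t ht
  rw [hsum t (by omega)]
  have e2 : Nat.add (nthL T.UV (Nat.add (Nat.mul T.γ ro) (T.mul κ (T.w t))))
      (Nat.mul (Nat.mul (Nat.mul (Nat.mul T.n T.v0) T.cx) (Nat.sub T.M t)) T.ON) =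
      pk T.W (fun f => T.un f ro (T.mul κ (T.w t)) + T.bt * (T.M - t)) T.L := by
    have h1 : nthL T.UV (Nat.add (Nat.mul T.γ ro) (T.mul κ (T.w t))) =
        pk T.W (fun f => T.un f ro (T.mul κ (T.w t))) T.L := by
      have := O.hUV ro hro _ (kw O hκ ht)
      rw [pkR_eq] at this
      exact this
    rw [h1, O.hON, pkR_eq]
    show pk T.W _ T.L + (T.n * T.v0 * T.cx * (T.M - t)) * pk T.W (fun _ => 1) T.L = _
    rw [← pk_smul, ← pk_add]
    apply pk_congr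
    intro f _
    rw [Nat.mul_one]
    rfl
  rw [e2, ← pk_add]
  rfl

lemma qcM (O : TOK T) {k κ : ℕ} (hk : k < T.n) (hκ : κ < T.γ) :
    T.qc k κ T.M = T.lam * T.vc κ k := by
  have h1 := O.hsM k hk κ hκ
  rw [sumN_eq] at h1
  have h2 : (∑ u ∈ range T.M, (T.vn (T.mul κ (T.w u)) k : ℤ)) + T.lam * T.v0 =
      T.M * T.v0 + T.lam * T.vn κ k := by exact_mod_cast h1
  unfold qc QG vc
  rw [Finset.sum_sub_distrib]
  simp only [Finset.sum_const, Finset.card_range, nsmul_eq_mul]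
  linarith

lemma gS_val (O : TOK T) {ro κ t k : ℕ} (hro : ro < 2) (hκ : κ < T.γ) (ht : t < T.M)
    (hk : k < T.n) : (T.gS ro κ t k : ℤ) = (T.v0 * T.M : ℕ) + sg ro * T.qc k κ t := by
  unfold gS
  have e : ((∑ u ∈ range t, T.vr ro (T.mul κ (T.w u)) k : ℕ) : ℤ) =
      T.v0 * t + sg ro * T.qc k κ t := by
    unfold qc QG
    push_cast
    rw [Finset.mul_sum]
    have : ∀ u ∈ range t, (T.vr ro (T.mul κ (T.w u)) k : ℤ) =
        T.v0 + sg ro * T.vc (T.mul κ (T.w u)) k := by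
      intro u hu
      have := Finset.mem_range.1 hu
      exact vr_val O hro (kw O hκ (by omega)) hk
    rw [Finset.sum_congr rfl this, Finset.sum_add_distrib]
    simp
    ring
  rw [Nat.cast_add, e, Nat.cast_mul, Nat.cast_sub ht.le]
  push_cast
  ring

lemma gS_le (O : TOK T) {ro κ t k : ℕ} (hκ : κ < T.γ) (ht : t < T.M) (hk : k < T.n) :
    T.gS ro κ t k ≤ 2 * T.v0 * T.M := by
  unfold gS
  have h1 : ∑ u ∈ range t, T.vr ro (T.mul κ (T.w u)) k ≤ ∑ u ∈ range t, 2 * T.v0 := by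
    apply Finset.sum_le_sum
    intro u hu
    have := Finset.mem_range.1 hu
    exact chz_le ro (O.hv0 _ (kw O hκ (by omega)) k hk)
  rw [Finset.sum_const, Finset.card_range, smul_eq_mul] at h1
  have h3 : T.v0 * (T.M - t) ≤ 2 * T.v0 * (T.M - t) := Nat.mul_le_mul (by omega) le_rfl
  have h4 : t * (2 * T.v0) + 2 * T.v0 * (T.M - t) = 2 * T.v0 * T.M := by
    rw [Nat.mul_comm t, ← Nat.mul_add]
    congr 1
    omega
  omega

lemma sTf_eq (O : TOK T) {WS ro κ : ℕ} (hWS : WS = 16 * T.n) (hκ : κ < T.γ)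
    (hb : 2 * T.v0 * T.M < 2 ^ 16) :
    T.sTf WS ro κ = pk WS (fun t => pk 16 (T.gS ro κ t) T.n) T.M := by
  have hM := O.hM
  have hsum : ∀ s, ∑ u ∈ range s, pkR 16 (fun k => T.vr ro (T.mul κ (T.w u)) k) T.n =
      pk 16 (fun k => ∑ u ∈ range s, T.vr ro (T.mul κ (T.w u)) k) T.n := by
    intro s
    rw [pk_sum]
    apply Finset.sum_congr rfl
    intro u _
    rw [pkR_eq]
  have hlt : ∀ s, s ≤ T.M - 1 →
      ∑ u ∈ range s, pkR 16 (fun k => T.vr ro (T.mul κ (T.w u)) k) T.n < 2 ^ WS := by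
    intro s hs
    rw [hsum s, hWS]
    apply pk_lt
    intro k hk
    have h1 : ∑ u ∈ range s, T.vr ro (T.mul κ (T.w u)) k ≤ ∑ u ∈ range s, 2 * T.v0 := by
      apply Finset.sum_le_sum
      intro u hu
      have := Finset.mem_range.1 hu
      exact chz_le ro (O.hv0 _ (kw O hκ (by omega)) k hk)
    rw [Finset.sum_const, Finset.card_range, smul_eq_mul] at h1
    have h2 : s * (2 * T.v0) ≤ T.M * (2 * T.v0) := Nat.mul_le_mul (by omega) le_rfl
    have h3 : T.M * (2 * T.v0) = 2 * T.v0 * T.M := by ring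
    omega
  have e1 : prefR WS (fun u => pkR 16 (fun k => T.vr ro (T.mul κ (T.w u)) k) T.n) (T.M - 1) =
      pk WS (fun s => ∑ u ∈ range s, pkR 16 (fun k => T.vr ro (T.mul κ (T.w u)) k) T.n)
        T.M := by
    rw [prefR_eq hlt]
    congr 1
    omega
  unfold sTf
  show prefR WS (fun u => pkR 16 (fun k => T.vr ro (T.mul κ (T.w u)) k) T.n) (T.M - 1) +
    pkR WS _ T.M = _
  rw [e1, pkR_eq, ← pk_add]
  apply pk_congr
  intro t _
  rw [hsum t, pkR_eq, ← pk_add]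
  rfl

end Tb

end MPbbea99G
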