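import Pool.Agent.Lib.Pbbea99G.Inst

/-!
# MP_bbea99_co: the closure hypotheses from tables, group version
-/

namespace MPbbea99G

open Finset MPbbea99S MPbbea99T

/-- all fields of the difference have the high bit -/
lemma hib_sub {W : ℕ} (hW : 0 < W) {e g : ℕ → ℕ} {L : ℕ} (he : ∀ f, f < L → e f < 2 ^ (W - 1))
    (hg : ∀ f, f < L → g f < 2 ^ (W - 1))
    (h : hib (pk W e L + pk W (fun _ => 2 ^ (W - 1)) L - pk W g L)
      (pk W (fun _ => 2 ^ (W - 1)) L) = true) : ∀ f, f < L → g f ≤ e f := by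
  have hpp : (2 : ℕ) ^ W = 2 * 2 ^ (W - 1) := pow_pred hW
  have e1 : pk W e L + pk W (fun _ => 2 ^ (W - 1)) L - pk W g L =
      pk W (fun f => e f + 2 ^ (W - 1) - g f) L := by
    have : pk W (fun f => e f + 2 ^ (W - 1) - g f) L + pk W g L =
        pk W e L + pk W (fun _ => 2 ^ (W - 1)) L := by
      rw [← pk_add, ← pk_add]
      apply pk_congr
      intro f hf
      have := hg f hf
      omega
    omega
  rw [e1] at h
  have h2 : (pk W (fun f => e f + 2 ^ (W - 1) - g f) L) &&&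
      (pk W (fun _ => 2 ^ (W - 1)) L) = pk W (fun _ => 2 ^ (W - 1)) L :=
    Nat.eq_of_beq_eq_true h
  intro f hf
  have hlt1 : ∀ f, f < L → e f + 2 ^ (W - 1) - g f < 2 ^ W := by
    intro f hf
    have := he f hf
    omega
  have hlt2 : (2 : ℕ) ^ (W - 1) < 2 ^ W := by
    have : 0 < 2 ^ (W - 1) := by positivity
    omega
  have h3 := congrArg (fun z => Nat.testBit z (W * f + (W - 1))) h2
  simp only [Nat.testBit_and] at h3
  rw [testBit_pk hW hlt1, testBit_pk hW (fun _ _ => hlt2)] at h3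
  have d1 : (W * f + (W - 1)) / W = f := by
    rw [Nat.mul_add_div hW, Nat.div_eq_of_lt (by omega), Nat.add_zero]
  have d2 : (W * f + (W - 1)) % W = W - 1 := by
    rw [Nat.mul_add_mod, Nat.mod_eq_of_lt (by omega)]
  have d3 : W * f + (W - 1) < W * L := by
    have : W * (f + 1) ≤ W * L := Nat.mul_le_mul le_rfl hf
    rw [Nat.mul_succ] at this
    omega
  rw [d1, d2] at h3
  simp only [d3, decide_true, Bool.true_and, Nat.testBit_two_pow_self, Bool.and_true] at h3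
  have h4 := Nat.ge_two_pow_of_testBit h3
  have := he f hf
  have := hg f hf
  omega

/-- fields of the bounds -/
noncomputable def xBf (T : Tb) (P : CP) (ro κ f : ℕ) : ℕ :=
  fd T.W T.MW (nthL P.xT (Nat.add (Nat.mul T.γ ro) κ)) f

/-- check of the bounds for one type -/
noncomputable def chkX (T : Tb) (P : CP) (ro κ : ℕ) : Bool :=
  allN (fun t => hib (Nat.sub (Nat.add (nthL P.xT (Nat.add (Nat.mul T.γ ro) κ)) P.HI)
    (fd P.WL P.ML (nthL P.gT (Nat.add (Nat.mul T.γ ro) κ)) t)) P.HI) T.M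

namespace Tb

variable {T : Tb} {P : CP}

lemma gB_le_xB (O : TOK T) {um BX : ℕ} (hWL : P.WL = T.W * T.L) (hML : P.ML = 2 ^ P.WL)
    (hHI : P.HI = pkR T.W (fun _ => 2 ^ (T.W - 1)) T.L)
    (hgT : ∀ ro, ro < 2 → ∀ κ, κ < T.γ → nthL P.gT (T.γ * ro + κ) = T.gTf P.WL ro κ)
    (hxT : ∀ ro, ro < 2 → ∀ κ, κ < T.γ → nthL P.xT (T.γ * ro + κ) =
      pkR T.W (fun f => xBf T P ro κ f) T.L)
    (hxB : ∀ ro, ro < 2 → ∀ κ, κ < T.γ → ∀ f, f < T.L → xBf T P ro κ f ≤ BX)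
    (hBX : BX < 2 ^ (T.W - 1))
    (hxC : ∀ ro, ro < 2 → ∀ κ, κ < T.γ → chkX T P ro κ = true)
    (hum : ∀ f, f < T.L → ∀ ro, ro < 2 → ∀ κ, κ < T.γ → T.un f ro κ ≤ um)
    (hbG : 2 * T.bt * T.M + um < 2 ^ (T.W - 1))
    {ro κ t f : ℕ} (hro : ro < 2) (hκ : κ < T.γ) (ht : t < T.M) (hf : f < T.L) :
    T.gB ro κ t f ≤ xBf T P ro κ f := by
  have hpp : (2 : ℕ) ^ T.W = 2 * 2 ^ (T.W - 1) := pow_pred O.hW
  have hglt : ∀ t, t < T.M → ∀ f, f < T.L → T.gB ro κ t f < 2 ^ (T.W - 1) := by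
    intro t ht f hf
    exact (gB_le O hκ ht hf hro hum).trans_lt hbG
  have h1 := allN_spec (hxC ro hro κ hκ) t ht
  have h2 : hib (nthL P.xT (T.γ * ro + κ) + P.HI -
      fd P.WL P.ML (nthL P.gT (T.γ * ro + κ)) t) P.HI = true := h1
  have h3 : fd P.WL P.ML (nthL P.gT (T.γ * ro + κ)) t = pk T.W (T.gB ro κ t) T.L := by
    rw [hgT ro hro κ hκ, gTf_eq O hWL hro hκ (by omega), hML, fd_pk _ ht]
    intro i hi
    rw [hWL]
    apply pk_lt
    intro f hf
    have := hglt i hi f hf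
    omega
  rw [h3, hxT ro hro κ hκ, hHI, pkR_eq, pkR_eq] at h2
  exact hib_sub O.hW (fun f hf => (hxB ro hro κ hκ f hf).trans_lt hBX) (hglt t ht) h2 f hf

/-- the facts behind the closure data -/
theorem mkCHyp (O : TOK T) (G : Gp T.γ T.mul T.inv) (K um BX : ℕ)
    (hh : 0 < T.h) (en : P.n = T.n) (eγ : P.γ = T.γ)
    (eM : P.M = T.M) (hB : 0 < P.B) (hAB : 2 * (P.A + P.B) < 65536)
    (em : P.mT = T.mT) (ew : P.wT = T.wT)
    (hvf : ∀ r, r < T.M → vf P r = T.inv (T.w r))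
    (hpf : ∀ r, r < T.M → ∀ k, k < T.n → pf P r k = T.ac (T.w r) k)
    (hπv : ∀ r, r < T.M → ∀ k, k < T.n → ∀ κ, κ < T.γ →
      T.vn (T.mul (T.inv (T.w r)) κ) k = T.vn κ (T.ac (T.w r) k))
    (hWL : P.WL = T.W * T.L) (hML : P.ML = 2 ^ P.WL) (hWS : P.WS = 16 * T.n)
    (hMS : P.MS = 2 ^ P.WS) (hHI : P.HI = pkR T.W (fun _ => 2 ^ (T.W - 1)) T.L)
    (hgT : ∀ ro, ro < 2 → ∀ κ, κ < T.γ → nthL P.gT (T.γ * ro + κ) = T.gTf P.WL ro κ)
    (hxT : ∀ ro, ro < 2 → ∀ κ, κ < T.γ → nthL P.xT (T.γ * ro + κ) =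
      pkR T.W (fun f => xBf T P ro κ f) T.L)
    (hxB : ∀ ro, ro < 2 → ∀ κ, κ < T.γ → ∀ f, f < T.L → xBf T P ro κ f ≤ BX)
    (hBX : BX < 2 ^ (T.W - 1))
    (hxC : ∀ ro, ro < 2 → ∀ κ, κ < T.γ → chkX T P ro κ = true)
    (hum : ∀ f, f < T.L → ∀ ro, ro < 2 → ∀ κ, κ < T.γ → T.un f ro κ ≤ um)
    (hbG : 2 * T.bt * T.M + um < 2 ^ (T.W - 1))
    (hL : P.LB = pkR P.WL (fun k => pkR T.W (T.lB k) T.L) T.n)
    (hC : P.CB = pkR T.W T.cB T.L)
    (hC1 : ∀ f, f < T.L → T.h * sumN (fun k => T.lB k f) T.n ≤ T.C1)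
    (hbias : T.C1 + 4 * (T.bt * T.M) = 2 ^ (T.W - 1))
    (hbd : P.nh * (T.lam * (2 * T.cx)) + T.C1 + 4 * BX < 2 ^ T.W)
    (hsT : ∀ ro, ro < 2 → ∀ κ, κ < T.γ → nthL P.sT (T.γ * ro + κ) = T.sTf P.WS ro κ)
    (hbS : 2 * T.v0 * T.M < 2 ^ 16)
    (hLS : P.LS = pkR P.WS (fun k => pkR 16 (T.lS k) T.n) T.n)
    (hCS : P.CS = pkR 16 T.cS T.n) (hC2 : T.h * T.lam ≤ T.C2)
    (hbiasS : T.C2 + 4 * (T.v0 * T.M) = K) (hK1 : P.K1 + T.h = K) (hnh : P.nh = T.n * T.h)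
    (hbdS : P.nh * T.lam + T.C2 + 4 * (2 * T.v0 * T.M) < 2 ^ 16) :
    CHyp P T.W T.L T.mul T.inv T.w T.vc T.χ T.th T.U T.q T.qc T.lam T.h K
      (fun r k => T.ac (T.w r) k) T.gB (xBf T P) T.lB T.cB T.gS T.lS T.cS T.C1 (T.bt * T.M)
      (T.lam * T.cx) (T.lam * (2 * T.cx)) T.C1 BX T.C2 (T.v0 * T.M) T.lam T.C2
      (2 * T.v0 * T.M) := by
  have hpp : (2 : ℕ) ^ T.W = 2 * 2 ^ (T.W - 1) := pow_pred O.hW
  constructor
  case hG => rw [eγ]; exact G
  case hγ => rw [eγ]; exact O.hγ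
  case hh => exact hh
  case hn => rw [en]; exact O.hn
  case hM => rw [eM]; exact O.hM
  case hB => exact hB
  case hAB => exact hAB
  case hwlt => rw [eM, eγ]; exact O.hw
  case hmul =>
    intro a _ b _
    unfold mlf mul
    rw [em, eγ]
  case hwf =>
    intro r _
    unfold wf w
    rw [ew]
  case hvf => rw [eM]; exact hvf
  case hpf => rw [eM, en]; exact hpf
  case hπ =>
    rw [eM, en]
    intro r hr k hk
    exact O.hac _ (O.hw r hr) k hk
  case hπv =>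
    rw [eM, en, eγ]
    intro r hr k hk κ hκ
    unfold vc
    rw [hπv r hr k hk κ hκ]
  case hth =>
    rw [en]
    intro f _ κ _
    rfl
  case hqc =>
    intro k _ κ _ t _
    rfl
  case hqcM =>
    rw [eM, en, eγ]
    intro k hk κ hκ
    exact qcM O hk hκ
  case hW => exact O.hW
  case hWL => exact hWL
  case hML => exact hML
  case hWS => rw [en]; exact hWS
  case hMS => exact hMS
  case hHI => rw [hHI, pkR_eq]
  case hGt =>
    intro ro hro κ hκ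
    rw [eγ] at hκ ⊢
    rw [eM, hgT ro hro κ hκ]
    exact gTf_eq O hWL hro hκ (by omega)
  case hgB =>
    rw [eγ, eM]
    intro ro hro κ hκ t ht f hf
    exact gB_val O hro hκ ht hf
  case hX =>
    intro ro hro κ hκ
    rw [eγ] at hκ ⊢
    rw [hxT ro hro κ hκ, pkR_eq]
  case hxB =>
    rw [eγ, eM]
    intro ro hro κ hκ t ht f hf
    exact gB_le_xB O hWL hML hHI hgT hxT hxB hBX hxC hum hbG hro hκ ht hf
  case hL =>
    rw [hL, pkR_eq, en]
    apply pk_congr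
    intro k _
    rw [pkR_eq]
  case hlB =>
    intro k _ f _
    have e : T.lB k f = T.lam * T.chn f k := rfl
    rw [e]
    unfold χ
    push_cast
    ring
  case hC => rw [hC, pkR_eq]
  case hcB =>
    intro f hf
    have e : T.cB f = T.C1 - T.h * sumN (fun k => T.lB k f) T.n := rfl
    have h1 := hC1 f hf
    rw [en, e, ← sumN_eq]
    omega
  case hbias => exact hbias
  case bL =>
    intro k hk f hf
    rw [en] at hk
    exact Nat.mul_le_mul le_rfl (O.hcx f hf k hk)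
  case bC =>
    intro f _
    exact Nat.sub_le _ _
  case bX => rw [eγ]; exact hxB
  case hbd => exact hbd
  case hS =>
    intro ro hro κ hκ
    rw [eγ] at hκ ⊢
    rw [eM, en, hsT ro hro κ hκ]
    exact sTf_eq O hWS hκ hbS
  case hgS =>
    rw [eγ, eM, en]
    intro ro hro κ hκ t ht k hk
    exact gS_val O hro hκ ht hk
  case hLS =>
    rw [hLS, pkR_eq, en]
    apply pk_congr
    intro k _
    rw [pkR_eq]
  case hlS =>
    intro j _ k _
    have e : T.lS j k = T.lam * bn (Nat.beq j k) := rfl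
    rw [e, bn_beq]
    split_ifs <;> simp
  case hCS => rw [en, hCS, pkR_eq]
  case hcS =>
    intro k hk
    rw [en] at hk ⊢
    have e1 : ∀ j ∈ range T.n, T.lS j k = if j = k then T.lam else 0 := by
      intro j _
      have e : T.lS j k = T.lam * bn (Nat.beq j k) := rfl
      rw [e, bn_beq]
      split_ifs <;> simp
    rw [Finset.sum_congr rfl e1, Finset.sum_ite_eq', if_pos (Finset.mem_range.2 hk)]
    have e : T.cS k = T.C2 - T.h * T.lam := rfl
    rw [e]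
    omega
  case hbiasS => exact hbiasS
  case hK1 => exact hK1
  case hnh => rw [en]; exact hnh
  case bLs =>
    intro j _ k _
    have e : T.lS j k = T.lam * bn (Nat.beq j k) := rfl
    rw [e, bn_beq]
    split_ifs <;> simp
  case bCs =>
    intro k _
    exact Nat.sub_le _ _
  case bXs =>
    rw [eγ, eM, en]
    intro ro _ κ hκ t ht k hk
    exact gS_le O hκ ht hk
  case hbdS => exact hbdS

/-- the certificate -/
theorem mkCert (O : TOK T) {um BX : ℕ} (hlam : 0 < T.lam) (hWL : P.WL = T.W * T.L)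
    (hML : P.ML = 2 ^ P.WL) (hHI : P.HI = pkR T.W (fun _ => 2 ^ (T.W - 1)) T.L)
    (hgT : ∀ ro, ro < 2 → ∀ κ, κ < T.γ → nthL P.gT (T.γ * ro + κ) = T.gTf P.WL ro κ)
    (hxT : ∀ ro, ro < 2 → ∀ κ, κ < T.γ → nthL P.xT (T.γ * ro + κ) =
      pkR T.W (fun f => xBf T P ro κ f) T.L)
    (hxB : ∀ ro, ro < 2 → ∀ κ, κ < T.γ → ∀ f, f < T.L → xBf T P ro κ f ≤ BX)
    (hBX : BX < 2 ^ (T.W - 1))
    (hxC : ∀ ro, ro < 2 → ∀ κ, κ < T.γ → chkX T P ro κ = true)
    (hum : ∀ f, f < T.L → ∀ ro, ro < 2 → ∀ κ, κ < T.γ → T.un f ro κ ≤ um)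
    (hbG : 2 * T.bt * T.M + um < 2 ^ (T.W - 1))
    (h3 : ∀ f, f < T.L → ∀ ro, ro < 2 → ∀ κ, κ < T.γ →
      xBf T P ro κ f ≤ T.n * T.v0 * T.cx * T.M + T.lam * T.un f ro κ) :
    Cert T.γ T.M T.L T.mul T.w T.th T.U T.q T.lam := by
  constructor
  case hlam => exact_mod_cast hlam
  case hq =>
    intro f _ κ _ t _
    rfl
  case hom =>
    intro f hf κ hκ
    have e1 : T.q f κ T.M = ∑ u ∈ range T.M, ∑ k ∈ range T.n,
        T.χ f k * T.vc (T.mul κ (T.w u)) k := rfl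
    rw [e1, Finset.sum_comm]
    have e2 : T.th f κ = ∑ k ∈ range T.n, T.χ f k * T.vc κ k := rfl
    rw [e2, Finset.mul_sum]
    apply Finset.sum_congr rfl
    intro k hk
    have e3 := qcM O (Finset.mem_range.1 hk) hκ
    have e4 : T.qc k κ T.M = ∑ u ∈ range T.M, T.vc (T.mul κ (T.w u)) k := rfl
    rw [e4] at e3
    rw [← Finset.mul_sum, e3]
    ring
  case hU =>
    intro f hf ro hro κ hκ t ht
    have e1 := gB_le_xB O hWL hML hHI hgT hxT hxB hBX hxC hum hbG hro hκ ht hf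
    have e2 := h3 f hf ro hro κ hκ
    have e : (T.gB ro κ t f : ℤ) ≤ (T.bt * T.M : ℕ) + T.lam * T.un f ro κ := by
      have : T.gB ro κ t f ≤ T.bt * T.M + T.lam * T.un f ro κ := e1.trans e2
      exact_mod_cast this
    rw [gB_val O hro hκ ht hf] at e
    unfold U at e ⊢
    linarith

end Tb

end MPbbea99G
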