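import Pool.Agent.Lib.Pbbea99G.Inst1

/-!
# MP_bbea99_co: instances of the outer check from tables, group version
-/

namespace MPbbea99G

open Finset MPbbea99S MPbbea99T

/-- tables of the blocks -/
structure To where
  nb : ℕ
  xT : List ℕ
  tv : ℕ
  sc : ℕ
  d : ℕ

namespace To

/-- letters of a block -/
noncomputable def XB (S : To) (β r : ℕ) : ℕ := fd 4 16 (nthL S.xT β) r

/-- total number of a letter in a block -/
def tvf (S : To) (x : ℕ) : ℕ := fd 16 65536 S.tv x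

end To

/-- number of a letter in a prefix of a block -/
noncomputable def cnt (Q : OP) (n β x r : ℕ) : ℕ := fd Q.F Q.MF (nthL Q.cF (Nat.add (Nat.mul n β) x)) r

/-- hashed letters -/
def phn (Q : OP) (y : ℕ) : ℕ := fd Q.F Q.MF Q.phT y

/-- values of functionals at letters -/
noncomputable def chv (T : Tb) (S : To) (ro y f : ℕ) : ℕ := Nat.mul S.sc (T.chr ro f y)

/-- the facts behind the tables of the blocks -/
structure Blk (T : Tb) (P : CP) (Q : OP) (S : To) (Wo Lo : ℕ) : Prop where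
  O : TOK T
  hLo : Lo ≤ T.L
  en : P.n = T.n
  eγ : P.γ = T.γ
  eM : P.M = T.M
  ea : Q.acT = T.acT
  hm : 0 < Q.m
  hF : 1 ≤ Q.F
  hMF : Q.MF = 2 ^ Q.F
  hbf : ∀ i, i < T.M → bf Q i < S.nb
  hx : ∀ β, β < S.nb → ∀ r, r < Q.m → S.XB β r < T.n
  c0 : ∀ β, β < S.nb → ∀ x, x < T.n → cnt Q T.n β x 0 = 0
  c1 : ∀ β, β < S.nb → ∀ x, x < T.n → ∀ r, r < Q.m - 1 →
    cnt Q T.n β x (r + 1) = cnt Q T.n β x r + if S.XB β r = x then 1 else 0
  c2 : ∀ β, β < S.nb → ∀ x, x < T.n →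
    cnt Q T.n β x (Q.m - 1) + (if S.XB β (Q.m - 1) = x then 1 else 0) = S.tvf x
  cF : ∀ β, β < S.nb → ∀ x, x < T.n →
    nthL Q.cF (T.n * β + x) = pkR Q.F (fun r => cnt Q T.n β x r) Q.m
  cG : ∀ β, β < S.nb → ∀ x, x < T.n →
    nthL Q.cG (T.n * β + x) = pkR Q.W (fun r => cnt Q T.n β x r) Q.m
  hsc : 0 < S.sc
  hd : 0 < S.d
  hWo : 0 < Wo
  hQW : Q.W = Wo * Lo
  hMW : Q.MW = 2 ^ Q.W
  hch : Q.chT = pkR Q.W (fun i => pkR Wo (fun f => chv T S (Nat.div i T.n) (Nat.mod i T.n) f) Lo)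
    (2 * T.n)
  hNA : Q.NA = pkR Q.W (fun r => pkR Wo (fun _ => Nat.mul (Nat.mul S.sc T.cx) (Nat.sub Q.m r)) Lo)
    Q.m
  hb : 2 * (S.sc * T.cx) * Q.m < 2 ^ (Wo - 1)

/-- hashed prefix sums -/
noncomputable def hO (T : Tb) (Q : OP) (i κ r : ℕ) : ℕ :=
  ∑ x ∈ range T.n, phn Q (T.ac κ x) * cnt Q T.n (bf Q i) x r

/-- packed functionals of prefixes -/
noncomputable def gOf (T : Tb) (Q : OP) (S : To) (ro i κ r f : ℕ) : ℕ :=
  ∑ x ∈ range T.n, chv T S ro (T.ac κ x) f * cnt Q T.n (bf Q i) x r +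
    S.sc * T.cx * (Q.m - r)

/-- bounds of the remaining cuts -/
noncomputable def eOf (T : Tb) (Q : OP) (S : To) (ro κ f : ℕ) : ℕ :=
  Nat.add (Nat.mul (Nat.mul S.sc T.cx) Q.m) (Nat.mul S.d (T.un f ro κ))

section

variable {T : Tb} {P : CP} {Q : OP} {S : To} {Wo Lo : ℕ}

lemma Blk.sum_cnt (B : Blk T P Q S Wo Lo) {β : ℕ} (hβ : β < S.nb) {r : ℕ} (hr : r < Q.m) :
    ∑ x ∈ range T.n, cnt Q T.n β x r = r := by
  induction r with
  | zero => exact Finset.sum_eq_zero (fun x hx => B.c0 β hβ x (Finset.mem_range.1 hx))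
  | succ r ih =>
    have e : ∀ x ∈ range T.n, cnt Q T.n β x (r + 1) =
        cnt Q T.n β x r + if S.XB β r = x then 1 else 0 :=
      fun x hx => B.c1 β hβ x (Finset.mem_range.1 hx) r (by omega)
    rw [Finset.sum_congr rfl e, Finset.sum_add_distrib, ih (by omega), Finset.sum_ite_eq,
      if_pos (Finset.mem_range.2 (B.hx β hβ r (by omega)))]

lemma Blk.RS_cnt (B : Blk T P Q S Wo Lo) (ω : ℕ → ℤ) {i κ r : ℕ} (hi : i < T.M) (hr : r < Q.m) :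
    RS T.ac (fun i r => S.XB (bf Q i) r) ω i κ r =
      ∑ x ∈ range T.n, ω (T.ac κ x) * cnt Q T.n (bf Q i) x r := by
  have hβ := B.hbf i hi
  induction r with
  | zero =>
    have e : ∀ x ∈ range T.n, ω (T.ac κ x) * (cnt Q T.n (bf Q i) x 0 : ℤ) = 0 := by
      intro x hx
      rw [B.c0 _ hβ x (Finset.mem_range.1 hx)]
      simp
    rw [Finset.sum_eq_zero e]
    simp [RS]
  | succ r ih =>
    have e : ∀ x ∈ range T.n, ω (T.ac κ x) * (cnt Q T.n (bf Q i) x (r + 1) : ℤ) =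
        ω (T.ac κ x) * (cnt Q T.n (bf Q i) x r : ℤ) +
          if S.XB (bf Q i) r = x then ω (T.ac κ x) else 0 := by
      intro x hx
      rw [B.c1 _ hβ x (Finset.mem_range.1 hx) r (by omega)]
      split_ifs <;> push_cast <;> ring
    have e2 : RS T.ac (fun i r => S.XB (bf Q i) r) ω i κ (r + 1) =
        RS T.ac (fun i r => S.XB (bf Q i) r) ω i κ r + ω (T.ac κ (S.XB (bf Q i) r)) := by
      unfold RS
      rw [Finset.sum_range_succ]
    rw [e2, ih (by omega), Finset.sum_congr rfl e, Finset.sum_add_distrib, Finset.sum_ite_eq,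
      if_pos (Finset.mem_range.2 (B.hx _ hβ r (by omega)))]

lemma Blk.RS_tot (B : Blk T P Q S Wo Lo) (ω : ℕ → ℤ) {i κ : ℕ} (hi : i < T.M) :
    RS T.ac (fun i r => S.XB (bf Q i) r) ω i κ Q.m =
      ∑ x ∈ range T.n, ω (T.ac κ x) * S.tvf x := by
  have hβ := B.hbf i hi
  have hm := B.hm
  have hm1 : Q.m = (Q.m - 1) + 1 := by omega
  have e2 : RS T.ac (fun i r => S.XB (bf Q i) r) ω i κ Q.m =
      RS T.ac (fun i r => S.XB (bf Q i) r) ω i κ (Q.m - 1) +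
        ω (T.ac κ (S.XB (bf Q i) (Q.m - 1))) := by
    conv_lhs => rw [hm1]
    unfold RS
    rw [Finset.sum_range_succ]
  have e : ∀ x ∈ range T.n, ω (T.ac κ x) * (S.tvf x : ℤ) =
      ω (T.ac κ x) * (cnt Q T.n (bf Q i) x (Q.m - 1) : ℤ) +
        if S.XB (bf Q i) (Q.m - 1) = x then ω (T.ac κ x) else 0 := by
    intro x hx
    rw [← B.c2 _ hβ x (Finset.mem_range.1 hx)]
    split_ifs <;> push_cast <;> ring
  rw [e2, B.RS_cnt ω hi (by omega), Finset.sum_congr rfl e, Finset.sum_add_distrib,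
    Finset.sum_ite_eq, if_pos (Finset.mem_range.2 (B.hx _ hβ _ (by omega)))]

lemma Blk.acf (B : Blk T P Q S Wo Lo) (κ x : ℕ) : acf P Q κ x = T.ac κ x := by
  unfold MPbbea99G.acf Tb.ac
  rw [B.ea, B.en]

lemma Blk.arF (B : Blk T P Q S Wo Lo) {i κ : ℕ} (hi : i < T.M) :
    arF P Q (bf Q i) κ = pk Q.F (hO T Q i κ) Q.m := by
  have e : ∀ x ∈ range T.n, Nat.mul (fd Q.F Q.MF Q.phT (MPbbea99G.acf P Q κ x))
      (nthL Q.cF (Nat.add (Nat.mul P.n (bf Q i)) x)) =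
      pk Q.F (fun r => phn Q (T.ac κ x) * cnt Q T.n (bf Q i) x r) Q.m := by
    intro x hx
    have h1 : nthL Q.cF (Nat.add (Nat.mul P.n (bf Q i)) x) =
        pk Q.F (fun r => cnt Q T.n (bf Q i) x r) Q.m := by
      have := B.cF _ (B.hbf i hi) x (Finset.mem_range.1 hx)
      rw [pkR_eq] at this
      rw [B.en]
      exact this
    rw [B.acf, h1, pk_smul]
    rfl
  unfold MPbbea99G.arF
  rw [B.en] at e ⊢
  rw [sumN_eq, Finset.sum_congr rfl e, ← pk_sum]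
  rfl

lemma Blk.chT (B : Blk T P Q S Wo Lo) {ro y : ℕ} (hro : ro < 2) (hy : y < T.n)
    (hlt : ∀ ro y f, ro < 2 → y < T.n → f < Lo → chv T S ro y f < 2 ^ Wo) :
    fd Q.W Q.MW Q.chT (Nat.add (Nat.mul P.n ro) y) = pk Wo (chv T S ro y) Lo := by
  have hn := B.O.hn
  rw [B.hch, B.hMW, pkR_eq, B.en]
  have hi : Nat.add (Nat.mul T.n ro) y < 2 * T.n := by
    show T.n * ro + y < 2 * T.n
    have : T.n * ro ≤ T.n * 1 := Nat.mul_le_mul le_rfl (by omega)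
    omega
  rw [fd_pk _ hi]
  · have d1 : Nat.div (Nat.add (Nat.mul T.n ro) y) T.n = ro := by
      show (T.n * ro + y) / T.n = ro
      rw [Nat.mul_add_div hn, Nat.div_eq_of_lt hy, Nat.add_zero]
    have d2 : Nat.mod (Nat.add (Nat.mul T.n ro) y) T.n = y := by
      show (T.n * ro + y) % T.n = y
      rw [Nat.mul_add_mod, Nat.mod_eq_of_lt hy]
    rw [d1, d2, pkR_eq]
  · intro j hj
    rw [pkR_eq, B.hQW]
    apply pk_lt
    intro f hf
    apply hlt _ _ _ _ (Nat.mod_lt _ hn) hf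
    exact Nat.div_lt_of_lt_mul (by rw [Nat.mul_comm]; exact hj)

lemma Blk.chv_le (B : Blk T P Q S Wo Lo) {ro y f : ℕ} (hy : y < T.n) (hf : f < Lo) :
    chv T S ro y f ≤ 2 * (S.sc * T.cx) := by
  have h2 : T.chr ro f y ≤ 2 * T.cx := Tb.chz_le ro (B.O.hcx f (hf.trans_le B.hLo) y hy)
  show S.sc * _ ≤ _
  calc S.sc * T.chr ro f y ≤ S.sc * (2 * T.cx) := Nat.mul_le_mul le_rfl h2
    _ = 2 * (S.sc * T.cx) := by ring

lemma Blk.chv_val (B : Blk T P Q S Wo Lo) {ro y f : ℕ} (hro : ro < 2) (hy : y < T.n)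
    (hf : f < Lo) : (chv T S ro y f : ℤ) = S.sc * T.cx + sg ro * (S.sc * T.χ f y) := by
  have h1 := Tb.chr_val B.O hro (hf.trans_le B.hLo) hy
  have e : chv T S ro y f = S.sc * T.chr ro f y := rfl
  rw [e, Nat.cast_mul, h1]
  ring

lemma Blk.gO_le (B : Blk T P Q S Wo Lo) {ro i κ r f : ℕ} (hi : i < T.M) (hκ : κ < T.γ) (hr : r < Q.m)
    (hf : f < Lo) : gOf T Q S ro i κ r f ≤ 2 * (S.sc * T.cx) * Q.m := by
  unfold gOf
  have h1 : ∑ x ∈ range T.n, chv T S ro (T.ac κ x) f * cnt Q T.n (bf Q i) x r ≤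
      ∑ x ∈ range T.n, 2 * (S.sc * T.cx) * cnt Q T.n (bf Q i) x r := by
    apply Finset.sum_le_sum
    intro x hx
    exact Nat.mul_le_mul (B.chv_le (B.O.hac κ hκ x (Finset.mem_range.1 hx)) hf) le_rfl
  rw [← Finset.mul_sum, B.sum_cnt (B.hbf i hi) hr] at h1
  have h2 : S.sc * T.cx * (Q.m - r) ≤ 2 * (S.sc * T.cx) * (Q.m - r) := by
    apply Nat.mul_le_mul _ le_rfl
    omega
  have h3 : 2 * (S.sc * T.cx) * r + 2 * (S.sc * T.cx) * (Q.m - r) =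
      2 * (S.sc * T.cx) * Q.m := by
    rw [← Nat.mul_add]
    congr 1
    omega
  omega

lemma Blk.gO_val (B : Blk T P Q S Wo Lo) {ro i κ r f : ℕ} (hro : ro < 2) (hi : i < T.M)
    (hκ : κ < T.γ) (hr : r < Q.m) (hf : f < Lo) : (gOf T Q S ro i κ r f : ℤ) =
      (S.sc * T.cx * Q.m : ℕ) +
        sg ro * (S.sc * RS T.ac (fun i r => S.XB (bf Q i) r) (T.χ f) i κ r) := by
  unfold gOf
  rw [B.RS_cnt _ hi hr]
  have h1 : ((∑ x ∈ range T.n, chv T S ro (T.ac κ x) f * cnt Q T.n (bf Q i) x r : ℕ) : ℤ) =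
      S.sc * T.cx * r + sg ro * (S.sc * ∑ x ∈ range T.n, T.χ f (T.ac κ x) *
        cnt Q T.n (bf Q i) x r) := by
    have h2 : ((∑ x ∈ range T.n, cnt Q T.n (bf Q i) x r : ℕ) : ℤ) = r := by
      rw [B.sum_cnt (B.hbf i hi) hr]
    push_cast at h2 ⊢
    rw [← h2, Finset.mul_sum, Finset.mul_sum, Finset.mul_sum, ← Finset.sum_add_distrib]
    apply Finset.sum_congr rfl
    intro x hx
    rw [B.chv_val hro (B.O.hac κ hκ x (Finset.mem_range.1 hx)) hf]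
    ring
  rw [Nat.cast_add, h1, Nat.cast_mul (S.sc * T.cx), Nat.cast_sub hr.le]
  push_cast
  ring

lemma Blk.arG (B : Blk T P Q S Wo Lo) {ro i κ : ℕ} (hro : ro < 2) (hi : i < T.M) (hκ : κ < T.γ) :
    arG P Q ro (bf Q i) κ = pk Q.W (fun r => pk Wo (gOf T Q S ro i κ r) Lo) Q.m := by
  have hlt : ∀ ro y f, ro < 2 → y < T.n → f < Lo → chv T S ro y f < 2 ^ Wo := by
    intro ro y f _ hy hf
    have h1 := B.chv_le (ro := ro) hy hf
    have h2 := B.hb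
    have h3 : 2 * (S.sc * T.cx) ≤ 2 * (S.sc * T.cx) * Q.m := Nat.le_mul_of_pos_right _ B.hm
    have h4 := pow_pred B.hWo
    omega
  have e : ∀ x ∈ range T.n, Nat.mul (fd Q.W Q.MW Q.chT (Nat.add (Nat.mul P.n ro)
      (MPbbea99G.acf P Q κ x))) (nthL Q.cG (Nat.add (Nat.mul P.n (bf Q i)) x)) =
      pk Q.W (fun r => pk Wo (fun f => chv T S ro (T.ac κ x) f *
        cnt Q T.n (bf Q i) x r) Lo) Q.m := by
    intro x hx
    have hx' := Finset.mem_range.1 hx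
    have h1 : nthL Q.cG (Nat.add (Nat.mul P.n (bf Q i)) x) =
        pk Q.W (fun r => cnt Q T.n (bf Q i) x r) Q.m := by
      have := B.cG _ (B.hbf i hi) x hx'
      rw [pkR_eq] at this
      rw [B.en]
      exact this
    rw [B.acf, h1, B.chT hro (B.O.hac κ hκ x hx') hlt]
    show pk Wo (chv T S ro (T.ac κ x)) Lo * pk Q.W (fun r => cnt Q T.n (bf Q i) x r) Q.m = _
    rw [← pk_smul]
    apply pk_congr
    intro r _
    rw [Nat.mul_comm, ← pk_smul]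
    apply pk_congr
    intro f _
    rw [Nat.mul_comm]
  unfold MPbbea99G.arG
  rw [B.hNA]
  rw [sumN_eq]
  show (∑ x ∈ range P.n, _) + pkR Q.W _ Q.m = _
  rw [B.en] at e ⊢
  rw [Finset.sum_congr rfl e, ← pk_sum, pkR_eq, ← pk_add]
  apply pk_congr
  intro r _
  rw [← pk_sum, pkR_eq, ← pk_add]
  rfl

/-- fields of the hashed sums -/
lemma Blk.hO_val (B : Blk T P Q S Wo Lo) {Φ : ℕ → ℤ}
    (hΦ : ∀ y, y < T.n → (phn Q y : ℤ) = S.sc * Φ y + Q.kT) {i κ r : ℕ} (hi : i < T.M)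
    (hκ : κ < T.γ) (hr : r < Q.m) : (hO T Q i κ r : ℤ) =
      S.sc * RS T.ac (fun i r => S.XB (bf Q i) r) Φ i κ r + Q.kT * r := by
  unfold hO
  rw [B.RS_cnt _ hi hr]
  have h2 : ((∑ x ∈ range T.n, cnt Q T.n (bf Q i) x r : ℕ) : ℤ) = r := by
    rw [B.sum_cnt (B.hbf i hi) hr]
  push_cast at h2 ⊢
  rw [← h2, Finset.mul_sum, Finset.mul_sum, ← Finset.sum_add_distrib]
  apply Finset.sum_congr rfl
  intro x hx
  rw [hΦ _ (B.O.hac κ hκ x (Finset.mem_range.1 hx))]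
  ring

lemma Blk.hO_le (B : Blk T P Q S Wo Lo) {PM : ℕ} (hPM : ∀ y, y < T.n → phn Q y ≤ PM) {i κ r : ℕ}
    (hi : i < T.M) (hκ : κ < T.γ) (hr : r < Q.m) : hO T Q i κ r ≤ PM * Q.m := by
  unfold hO
  have h1 : ∑ x ∈ range T.n, phn Q (T.ac κ x) * cnt Q T.n (bf Q i) x r ≤
      ∑ x ∈ range T.n, PM * cnt Q T.n (bf Q i) x r := by
    apply Finset.sum_le_sum
    intro x hx
    exact Nat.mul_le_mul (hPM _ (B.O.hac κ hκ x (Finset.mem_range.1 hx))) le_rfl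
  rw [← Finset.mul_sum, B.sum_cnt (B.hbf i hi) hr] at h1
  exact h1.trans (Nat.mul_le_mul le_rfl hr.le)

/-- the letters -/
theorem Blk.act (B : Blk T P Q S Wo Lo)
    (hmul : ∀ ρ, ρ < T.γ → ∀ κ, κ < T.γ → ∀ x, x < T.n →
      T.ac ρ (T.ac κ x) = T.ac (T.mul ρ κ) x) :
    Act P.n Q.m P.M P.γ T.mul T.ac (fun i r => S.XB (bf Q i) r) := by
  constructor
  case hm => exact B.hm
  case hM => rw [B.eM]; have := B.O.hM; omega
  case lt => rw [B.eγ, B.en]; exact B.O.hac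
  case mul => rw [B.eγ, B.en]; exact hmul
  case X =>
    rw [B.eM, B.en]
    intro i hi r hr
    exact B.hx _ (B.hbf i hi) r hr

/-- check of the bounds for one block and one type -/
noncomputable def chkU (P : CP) (Q : OP) (ro β κ : ℕ) : Bool :=
  allN (fun r => hib (Nat.sub (Nat.add (arE P Q ro κ) Q.HO)
    (fd Q.W Q.MW (MPbbea99G.arG P Q ro β κ) r)) Q.HO) Q.m

lemma Blk.tG (B : Blk T P Q S Wo Lo) {ro i κ r : ℕ} (hro : ro < 2) (hi : i < T.M) (hκ : κ < T.γ)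
    (hr : r < Q.m) : fd Q.W Q.MW (MPbbea99G.arG P Q ro (bf Q i) κ) r =
      pk Wo (gOf T Q S ro i κ r) Lo := by
  rw [B.arG hro hi hκ, B.hMW, fd_pk _ hr]
  intro r' hr'
  rw [B.hQW]
  apply pk_lt
  intro f hf
  have h1 := B.gO_le (ro := ro) hi hκ hr' hf
  have h2 := B.hb
  have h4 := pow_pred B.hWo
  omega

lemma Blk.gO_eO (B : Blk T P Q S Wo Lo) (hHO : Q.HO = pkR Wo (fun _ => 2 ^ (Wo - 1)) Lo)
    (heT : ∀ ro, ro < 2 → ∀ κ, κ < T.γ → arE P Q ro κ = pkR Wo (eOf T Q S ro κ) Lo)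
    (hbe : ∀ ro, ro < 2 → ∀ κ, κ < T.γ → ∀ f, f < Lo → eOf T Q S ro κ f < 2 ^ (Wo - 1))
    (hU : ∀ ro, ro < 2 → ∀ β, β < S.nb → ∀ κ, κ < T.γ → chkU P Q ro β κ = true)
    {ro i κ r f : ℕ} (hro : ro < 2) (hi : i < T.M) (hκ : κ < T.γ) (hr : r < Q.m)
    (hf : f < Lo) : gOf T Q S ro i κ r f ≤ eOf T Q S ro κ f := by
  have h1 := allN_spec (hU ro hro _ (B.hbf i hi) κ hκ) r hr
  have h2 : hib (arE P Q ro κ + Q.HO - fd Q.W Q.MW (MPbbea99G.arG P Q ro (bf Q i) κ) r)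
      Q.HO = true := h1
  rw [B.tG hro hi hκ hr, heT ro hro κ hκ, hHO, pkR_eq, pkR_eq] at h2
  apply hib_sub B.hWo (hbe ro hro κ hκ) _ h2 f hf
  intro f' hf'
  exact (B.gO_le hi hκ hr hf').trans_lt B.hb

/-- totals of a functional -/
lemma Blk.tot (B : Blk T P Q S Wo Lo)
    (hT : ∀ κ, κ < T.γ → ∀ k, k < T.n → T.n * (S.sc * sumN (fun x =>
      Nat.mul (S.tvf x) (bn (Nat.beq (T.ac κ x) k))) T.n) + T.n * S.d * T.v0 =
        S.sc * Q.m + T.n * S.d * T.vn κ k)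
    {ω : ℕ → ℤ} (hω : ∑ k ∈ range T.n, ω k = 0) {κ : ℕ} (hκ : κ < T.γ) :
    (S.sc : ℤ) * ∑ x ∈ range T.n, ω (T.ac κ x) * S.tvf x =
      S.d * ∑ k ∈ range T.n, ω k * T.vc κ k := by
  have e1 : ∑ x ∈ range T.n, ω (T.ac κ x) * (S.tvf x : ℤ) = ∑ k ∈ range T.n, ω k *
      ∑ x ∈ range T.n, (S.tvf x : ℤ) * (if T.ac κ x = k then 1 else 0) := by
    simp_rw [Finset.mul_sum]
    rw [Finset.sum_comm]
    apply Finset.sum_congr rfl
    intro x hx
    have hlt := B.O.hac κ hκ x (Finset.mem_range.1 hx)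
    have e2 : ∀ k ∈ range T.n, ω k * ((S.tvf x : ℤ) * (if T.ac κ x = k then 1 else 0)) =
        if T.ac κ x = k then ω (T.ac κ x) * (S.tvf x : ℤ) else 0 := by
      intro k _
      split_ifs with h
      · rw [h]
        ring
      · ring
    rw [Finset.sum_congr rfl e2, Finset.sum_ite_eq, if_pos (Finset.mem_range.2 hlt)]
  have e3 : ∀ k ∈ range T.n, (T.n : ℤ) * (S.sc * (ω k * ∑ x ∈ range T.n, (S.tvf x : ℤ) *
      (if T.ac κ x = k then 1 else 0))) = S.sc * Q.m * ω k + T.n * S.d * (ω k * T.vc κ k) := by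
    intro k hk
    have h1 := hT κ hκ k (Finset.mem_range.1 hk)
    rw [sumN_eq] at h1
    have h2 : (T.n : ℤ) * (S.sc * ∑ x ∈ range T.n, (S.tvf x : ℤ) *
        (if T.ac κ x = k then 1 else 0)) + T.n * S.d * T.v0 =
        S.sc * Q.m + T.n * S.d * T.vn κ k := by
      have h3 : ∀ x ∈ range T.n, Nat.mul (S.tvf x) (bn (Nat.beq (T.ac κ x) k)) =
          S.tvf x * (if T.ac κ x = k then 1 else 0) := by
        intro x _
        rw [bn_beq]
        rfl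
      rw [Finset.sum_congr rfl h3] at h1
      exact_mod_cast h1
    unfold Tb.vc
    linear_combination (ω k) * h2
  have hn : (T.n : ℤ) ≠ 0 := by
    have := B.O.hn
    exact_mod_cast this.ne'
  apply mul_left_cancel₀ hn
  rw [e1, Finset.mul_sum, Finset.mul_sum, Finset.sum_congr rfl e3, Finset.sum_add_distrib,
    ← Finset.mul_sum, hω, ← Finset.mul_sum]
  ring

lemma Tb.χ_sum {T : Tb} (O : TOK T) {f : ℕ} (hf : f < T.L) :
    ∑ k ∈ range T.n, T.χ f k = 0 := by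
  have := O.hcz f hf
  rw [sumN_eq] at this
  unfold χ
  rw [Finset.sum_sub_distrib, ← Nat.cast_sum, this]
  simp

/-- the certificate of the outer level -/
theorem Blk.ocert (B : Blk T P Q S Wo Lo) (hHO : Q.HO = pkR Wo (fun _ => 2 ^ (Wo - 1)) Lo)
    (heT : ∀ ro, ro < 2 → ∀ κ, κ < T.γ → arE P Q ro κ = pkR Wo (eOf T Q S ro κ) Lo)
    (hbe : ∀ ro, ro < 2 → ∀ κ, κ < T.γ → ∀ f, f < Lo → eOf T Q S ro κ f < 2 ^ (Wo - 1))
    (hU : ∀ ro, ro < 2 → ∀ β, β < S.nb → ∀ κ, κ < T.γ → chkU P Q ro β κ = true)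
    (hT : ∀ κ, κ < T.γ → ∀ k, k < T.n → T.n * (S.sc * sumN (fun x =>
      Nat.mul (S.tvf x) (bn (Nat.beq (T.ac κ x) k))) T.n) + T.n * S.d * T.v0 =
        S.sc * Q.m + T.n * S.d * T.vn κ k) :
    OCert Q.m P.M P.γ Lo T.ac (fun i r => S.XB (bf Q i) r) T.χ T.th T.U
      (fun f i κ r => RS T.ac (fun i r => S.XB (bf Q i) r) (T.χ f) i κ r) S.sc S.d := by
  constructor
  case hd => exact_mod_cast B.hd
  case hR => intro f _ i _ κ _ r _; rfl
  case hRm =>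
    rw [B.eM, B.eγ]
    intro f hf i hi κ hκ
    rw [B.RS_tot _ hi]
    exact B.tot hT (Tb.χ_sum B.O (hf.trans_le B.hLo)) hκ
  case hU =>
    rw [B.eM, B.eγ]
    intro f hf ro hro i hi κ hκ r hr
    have h1 := B.gO_eO hHO heT hbe hU hro hi hκ hr hf
    have h2 : (gOf T Q S ro i κ r f : ℤ) ≤ (eOf T Q S ro κ f : ℤ) := by exact_mod_cast h1
    rw [B.gO_val hro hi hκ hr hf] at h2
    have h3 : (eOf T Q S ro κ f : ℤ) = (S.sc * T.cx * Q.m : ℕ) + S.d * T.U f ro κ := by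
      have : eOf T Q S ro κ f = S.sc * T.cx * Q.m + S.d * T.un f ro κ := rfl
      rw [this]
      unfold Tb.U
      push_cast
      ring
    rw [h3] at h2
    linarith

/-- the facts behind the outer data -/
theorem Blk.ohyp (B : Blk T P Q S Wo Lo) {Φ : ℕ → ℤ} {K bo C3 BO PM C4 BGF : ℕ}
    (hL1 : Q.L1 = pkR Q.F (fun k => fd Q.F Q.MF Q.L1 k) T.n)
    (hlO : ∀ k, k < T.n → ((fd Q.F Q.MF Q.L1 k : ℕ) : ℤ) = bo + S.d * Φ k)
    (hBO : ∀ k, k < T.n → fd Q.F Q.MF Q.L1 k ≤ BO)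
    (hC1 : Q.C1 + T.h * sumN (fun k => fd Q.F Q.MF Q.L1 k) T.n = C3)
    (hΦ : ∀ y, y < T.n → (phn Q y : ℤ) = S.sc * Φ y + Q.kT)
    (hT : ∀ κ, κ < T.γ → ∀ k, k < T.n → T.n * (S.sc * sumN (fun x =>
      Nat.mul (S.tvf x) (bn (Nat.beq (T.ac κ x) k))) T.n) + T.n * S.d * T.v0 =
        S.sc * Q.m + T.n * S.d * T.vn κ k)
    (hΦz : ∑ k ∈ range T.n, Φ k = 0)
    (hPM : ∀ y, y < T.n → phn Q y ≤ PM)
    (hTF : Q.TF = C3 + Q.kT * Q.m)
    (hb1 : P.nh * BO + Q.C1 + Q.kT * (Q.m * 2) + 2 * (PM * Q.m) < 2 ^ (Q.F - 1))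
    (hb2 : Q.TF + 2 * (PM * Q.m) < 2 ^ (Q.F - 1))
    (hON : Q.ON = pkR Q.F (fun _ => 1) Q.m)
    (hKO : Q.KO = pkR Q.F (fun _ => 2 ^ (Q.F - 1) - 1) Q.m)
    (hGO : Q.GO = pkR Q.F (fun _ => 2 ^ (Q.F - 1)) Q.m)
    (hL2 : Q.L2 = pkR Q.W (fun k => pkR Wo (fun f => Nat.mul S.d (T.chn f k)) Lo) T.n)
    (hC2 : Q.C2 = pkR Wo (fun f => Nat.sub C4
      (Nat.mul T.h (sumN (fun k => Nat.mul S.d (T.chn f k)) T.n))) Lo)
    (hC4 : ∀ f, f < Lo → T.h * sumN (fun k => Nat.mul S.d (T.chn f k)) T.n ≤ C4)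
    (hbias : C4 + 4 * (S.sc * T.cx * Q.m) = 2 ^ (Wo - 1))
    (hHO : Q.HO = pkR Wo (fun _ => 2 ^ (Wo - 1)) Lo)
    (heT : ∀ ro, ro < 2 → ∀ κ, κ < T.γ → arE P Q ro κ = pkR Wo (eOf T Q S ro κ) Lo)
    (hbe : ∀ ro, ro < 2 → ∀ κ, κ < T.γ → ∀ f, f < Lo → eOf T Q S ro κ f ≤ BGF)
    (hU : ∀ ro, ro < 2 → ∀ β, β < S.nb → ∀ κ, κ < T.γ → chkU P Q ro β κ = true)
    (hBGF : BGF < 2 ^ (Wo - 1))
    (hbdF : P.nh * (S.d * (2 * T.cx)) + C4 + 4 * BGF < 2 ^ Wo) :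
    OHyp P Q Lo T.mul T.ac (fun i r => S.XB (bf Q i) r) T.vc T.χ T.th T.U
      (fun f i κ r => RS T.ac (fun i r => S.XB (bf Q i) r) (T.χ f) i κ r) Φ S.sc S.d T.h K
      (fun k => fd Q.F Q.MF Q.L1 k) (hO T Q) bo C3 BO (PM * Q.m) Wo
      (fun k f => S.d * T.chn f k)
      (fun f => C4 - T.h * ∑ k ∈ range T.n, S.d * T.chn f k)
      (gOf T Q S) (eOf T Q S) (S.d * T.cx) (S.sc * T.cx * Q.m) C4 (S.d * (2 * T.cx)) C4 BGF := by
  have hbe' : ∀ ro, ro < 2 → ∀ κ, κ < T.γ → ∀ f, f < Lo →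
      eOf T Q S ro κ f < 2 ^ (Wo - 1) := by
    intro ro hro κ hκ f hf
    exact (hbe ro hro κ hκ f hf).trans_lt hBGF
  constructor
  case hm => exact B.hm
  case hF => exact B.hF
  case hMF => exact B.hMF
  case hL1 => rw [B.en]; exact hL1.trans (pkR_eq _ _ _)
  case hlO => rw [B.en]; exact hlO
  case hlOlt =>
    intro k _
    rw [B.hMF]
    exact fd_lt
  case hBO => rw [B.en]; exact hBO
  case hC1 => rw [B.en, ← hC1, sumN_eq]
  case hrT =>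
    rw [B.eM, B.eγ]
    intro i hi κ _
    exact B.arF hi
  case hhO =>
    rw [B.eM, B.eγ]
    intro i hi κ hκ r hr
    exact B.hO_val hΦ hi hκ hr
  case hRm =>
    rw [B.eM, B.eγ, B.en]
    intro i hi κ hκ
    rw [B.RS_tot _ hi]
    exact B.tot hT hΦz hκ
  case hBR =>
    rw [B.eM, B.eγ]
    intro i hi κ hκ r hr
    exact B.hO_le hPM hi hκ hr
  case hTF => exact hTF
  case hb1 => exact hb1
  case hb2 => exact hb2
  case hON => rw [hON, pkR_eq]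
  case hKO => rw [hKO, pkR_eq]
  case hGO => rw [hGO, pkR_eq]
  case hW => exact B.hWo
  case hQW => exact B.hQW
  case hMW => exact B.hMW
  case hL2 =>
    rw [hL2, pkR_eq, B.en]
    apply pk_congr
    intro k _
    rw [pkR_eq]
    rfl
  case hlF =>
    intro k _ f _
    unfold Tb.χ
    push_cast
    ring
  case hC2 =>
    rw [hC2, pkR_eq]
    apply pk_congr
    intro f _
    rw [sumN_eq]
    rfl
  case hcF =>
    rw [B.en]
    intro f hf
    have h1 := hC4 f hf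
    rw [sumN_eq] at h1
    have h2 : T.h * ∑ k ∈ range T.n, S.d * T.chn f k ≤ C4 := h1
    omega
  case hbias => exact hbias
  case hfT =>
    rw [B.eM, B.eγ]
    intro ro hro i hi κ hκ
    exact B.arG hro hi hκ
  case hgO =>
    rw [B.eM, B.eγ]
    intro ro hro i hi κ hκ r hr f hf
    exact B.gO_val hro hi hκ hr hf
  case heT =>
    rw [B.eγ]
    intro ro hro κ hκ
    rw [heT ro hro κ hκ, pkR_eq]
  case heO =>
    rw [B.eγ]
    intro ro _ κ _ f _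
    have : eOf T Q S ro κ f = S.sc * T.cx * Q.m + S.d * T.un f ro κ := rfl
    rw [this]
    unfold Tb.U
    push_cast
    ring
  case hHO => rw [hHO, pkR_eq]
  case bLF =>
    rw [B.en]
    intro k hk f hf
    exact Nat.mul_le_mul le_rfl (B.O.hcx f (hf.trans_le B.hLo) k hk)
  case bCF =>
    intro f _
    exact Nat.sub_le _ _
  case bgO =>
    rw [B.eM, B.eγ]
    intro ro hro i hi κ hκ r hr f hf
    exact (B.gO_eO hHO heT hbe' hU hro hi hκ hr hf).trans (hbe ro hro κ hκ f hf)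
  case beO =>
    rw [B.eγ]
    exact hbe
  case hbdF => exact hbdF

end

end MPbbea99G
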