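import Pool.Agent.Lib.Pbbea99S.Bridge
import Pool.Agent.Lib.Pbbea99G.OCheck

/-!
# MP_bbea99_co: words built from a base word over a finite group
-/

namespace MPbbea99G

open Finset MPbbea99S MPbbea99T

/-- the sequence of types -/
noncomputable def gs (M : ℕ) (mul : ℕ → ℕ → ℕ) (w : ℕ → ℕ) (i : ℕ) : ℕ :=
  ((Nat.digits M i).map w).foldr (fun x acc => mul acc x) 0

lemma gs_isG {γ M : ℕ} {mul : ℕ → ℕ → ℕ} {inv w : ℕ → ℕ} (G : Gp γ mul inv) (hM : 1 < M)
    (hw : ∀ r, r < M → w r < γ) (hw0 : w 0 = 0) : IsG γ M mul w (gs M mul w) := by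
  have hlt : ∀ i, gs M mul w i < γ := by
    intro i
    unfold gs
    have : ∀ l : List ℕ, (∀ x ∈ l, x < M) →
        (l.map w).foldr (fun x acc => mul acc x) 0 < γ := by
      intro l
      induction l with
      | nil => intro _; exact G.pos
      | cons x l ih =>
        intro hl
        rw [List.map_cons, List.foldr_cons]
        exact G.lt _ (ih (fun y hy => hl y (List.mem_cons_of_mem _ hy))) _
          (hw x (hl x List.mem_cons_self))
    apply this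
    intro x hx
    exact Nat.digits_lt_base hM hx
  refine ⟨hlt, hw, ?_⟩
  intro q r hr
  by_cases h : r ≠ 0 ∨ q ≠ 0
  · unfold gs
    rw [Nat.add_comm (M * q) r, Nat.digits_add M hM r q hr h, List.map_cons, List.foldr_cons]
  · push Not at h
    obtain ⟨h1, h2⟩ := h
    subst h1
    subst h2
    have e0 : gs M mul w 0 = 0 := by simp [gs]
    rw [Nat.mul_zero, Nat.add_zero, hw0, e0, G.mul_one 0 G.pos]

/-- the code of the zero quadruple -/
lemma match_zero {n A B K γ t : ℕ} {mul : ℕ → ℕ → ℕ} {inv g : ℕ → ℕ} {vc : ℕ → ℕ → ℤ}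
    (G : Gp γ mul inv) (hg : ∀ i, g i < γ)
    (h0 : ∀ k, k < n → dg t k = K)
    (h1 : dg t n = 0) (h2 : dg t (n + 1) = 0) (h3 : dg t (n + 2) = 0) (h4 : dg t (n + 3) = 1)
    (h5 : dg t (n + 4) = A + B) (h6 : dg t (n + 5) = 1) (h7 : dg t (n + 6) = 1)
    (h8 : dg t (n + 7) = 1) : Match n A B K mul inv g vc t 0 0 0 0 := by
  have e := G.inv_mul _ (hg 0)
  constructor
  · intro k hk
    rw [h0 k hk]
    simp [DV, VV]
  · rw [h1, e]
  · rw [h2, e]
  · rw [h3, e]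
  · rw [h4]
  · rw [h5]; simp
  · rw [h6]; simp
  · rw [h7]; simp
  · rw [h8]; simp

section

variable {P : CP} {Q : OP} {W L : ℕ} {mul : ℕ → ℕ → ℕ} {inv w g : ℕ → ℕ} {vc : ℕ → ℕ → ℤ}
    {χ : ℕ → ℕ → ℤ} {th : ℕ → ℕ → ℤ} {U : ℕ → ℕ → ℕ → ℤ} {q : ℕ → ℕ → ℕ → ℤ}
    {qc : ℕ → ℕ → ℕ → ℤ} {lam h K : ℕ} {π : ℕ → ℕ → ℕ}
    {gB : ℕ → ℕ → ℕ → ℕ → ℕ} {xB : ℕ → ℕ → ℕ → ℕ} {lB : ℕ → ℕ → ℕ} {cB : ℕ → ℕ}
    {gS : ℕ → ℕ → ℕ → ℕ → ℕ} {lS : ℕ → ℕ → ℕ} {cS : ℕ → ℕ}
    {C1 bq bl BL BC BX C2 bs BLs BCs BXs : ℕ}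

/-- all living admissible quadruples are described by templates that pass the outer check -/
theorem CHyp.closed (H : CHyp P W L mul inv w vc χ th U q qc lam h K π gB xB lB cB gS lS cS
    C1 bq bl BL BC BX C2 bs BLs BCs BXs) (hs : IsG P.γ P.M mul w g)
    (C : Cert P.γ P.M L mul w th U q lam)
    (hchk : ∀ t ∈ P.T, chkT P Q t = true)
    (h0 : ∃ t ∈ P.T, Match P.n P.A P.B K mul inv g vc t 0 0 0 0) :
    ∀ e a b c, Adm P.A P.B a b c e → Alive P.γ mul g L th U a b c e →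
      ∃ t ∈ P.T, oK P Q (a % P.M) (b % P.M) (c % P.M) (e % P.M) t = true ∧
        Match P.n P.A P.B K mul inv g vc t a b c e := by
  have hM := H.hM
  have hdec : ∀ x, ∃ x' ix, ix < P.M ∧ x = P.M * x' + ix := by
    intro x
    exact ⟨x / P.M, x % P.M, Nat.mod_lt _ (by omega), (Nat.div_add_mod x P.M).symm⟩
  have hmod : ∀ x ix, ix < P.M → (P.M * x + ix) % P.M = ix := by
    intro x ix hix
    rw [Nat.mul_add_mod, Nat.mod_eq_of_lt hix]
  -- the step
  have hstep : ∀ t ∈ P.T, ∀ a b c e ia ib ic ie, ia < P.M → ib < P.M → ic < P.M → ie < P.M →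
      Match P.n P.A P.B K mul inv g vc t a b c e →
      Adm P.A P.B (P.M * a + ia) (P.M * b + ib) (P.M * c + ic) (P.M * e + ie) →
      Alive P.γ mul g L th U (P.M * a + ia) (P.M * b + ib) (P.M * c + ic) (P.M * e + ie) →
      ∃ t ∈ P.T, oK P Q ((P.M * a + ia) % P.M) ((P.M * b + ib) % P.M) ((P.M * c + ic) % P.M)
        ((P.M * e + ie) % P.M) t = true ∧ Match P.n P.A P.B K mul inv g vc t (P.M * a + ia)
          (P.M * b + ib) (P.M * c + ic) (P.M * e + ie) := by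
    intro t ht a b c e ia ib ic ie ha hb hc he hm hadm hal
    obtain ⟨t', ht', hm'⟩ := H.step hs C.hq ha hb hc he (hchk t ht) hm hadm hal
    refine ⟨t', memL_spec (bc_and ht').1, ?_, hm'⟩
    rw [hmod a ia ha, hmod b ib hb, hmod c ic hc, hmod e ie he]
    exact ht'
  intro e
  induction e using Nat.strong_induction_on with
  | _ e ih =>
    intro a b c hadm hal
    rcases Nat.eq_zero_or_pos e with he0 | he0
    · have h1 := hadm.hab
      have h2 := hadm.hbc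
      have h3 := hadm.hce
      have ea : a = 0 := by omega
      have eb : b = 0 := by omega
      have ec : c = 0 := by omega
      subst ea
      subst eb
      subst ec
      subst he0
      obtain ⟨t, ht, hm⟩ := h0
      have hpos : 0 < P.M := by omega
      have := hstep t ht 0 0 0 0 0 0 0 0 hpos hpos hpos hpos hm (by simpa using hadm)
        (by simpa using hal)
      simpa using this
    · obtain ⟨a', ia, ha, ea⟩ := hdec a
      obtain ⟨b', ib, hb, eb⟩ := hdec b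
      obtain ⟨c', ic, hc, ec⟩ := hdec c
      obtain ⟨e', ie, he, ee⟩ := hdec e
      have hlt : e' < e := by
        rw [ee]
        rcases Nat.eq_zero_or_pos e' with h1 | h1
        · rw [h1] at ee ⊢
          omega
        · have : 2 * e' ≤ P.M * e' := Nat.mul_le_mul hM le_rfl
          omega
      subst ea
      subst eb
      subst ec
      subst ee
      have hadm' := hadm.parent ha hb hc he
      have hal' := Alive.parent H.hG hs C ha hb hc he hal
      obtain ⟨t, ht, _, hm⟩ := ih e' hlt a' b' c' hadm' hal'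
      exact hstep t ht a' b' c' e' ia ib ic ie ha hb hc he hm hadm hal

variable {ac : ℕ → ℕ → ℕ} {X : ℕ → ℕ → ℕ} {R : ℕ → ℕ → ℕ → ℕ → ℤ} {Φ : ℕ → ℤ} {sc d : ℤ}
    {lO : ℕ → ℕ} {hO : ℕ → ℕ → ℕ → ℕ} {bo C3 BO BR : ℕ} {Wo : ℕ} {lF : ℕ → ℕ → ℕ} {cF : ℕ → ℕ}
    {gO : ℕ → ℕ → ℕ → ℕ → ℕ → ℕ} {eO : ℕ → ℕ → ℕ → ℕ} {blF bG C4 BLF BCF BGF : ℕ}

/-- no window with a short gap -/
theorem no_window (H : CHyp P W L mul inv w vc χ th U q qc lam h K π gB xB lB cB gS lS cS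
    C1 bq bl BL BC BX C2 bs BLs BCs BXs) (hs : IsG P.γ P.M mul w g)
    (C : Cert P.γ P.M L mul w th U q lam)
    (hchk : ∀ t ∈ P.T, chkT P Q t = true)
    (h0 : ∃ t ∈ P.T, Match P.n P.A P.B K mul inv g vc t 0 0 0 0)
    (A : Act P.n Q.m P.M P.γ mul ac X)
    {Lo : ℕ} (hLL : Lo ≤ L) (HO : OHyp P Q Lo mul ac X vc χ th U R Φ sc d h K lO hO bo C3 BO BR Wo lF cF gO eO
      blF bG C4 BLF BCF BGF) (CO : OCert Q.m P.M P.γ L ac X χ th U R sc d) :
    ∀ l a v, 1 ≤ l → P.B * v < P.A * l → ¬ Ex P.n (Wd Q.m P.M ac X g) a (a + l + v) l := by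
  intro l a v hl hg hex
  have hm0 := A.hm
  have hz : ∀ ω, VV (GS (Wd Q.m P.M ac X g) ω) a (a + l) (a + l + v) (a + l + v + l) = 0 :=
    fun ω => GS_ex (A.Wd_lt hs) ω hex
  have hdec : ∀ x, ∃ x' ix, ix < Q.m ∧ x = Q.m * x' + ix := by
    intro x
    exact ⟨x / Q.m, x % Q.m, Nat.mod_lt _ hm0, (Nat.div_add_mod x Q.m).symm⟩
  obtain ⟨a', ra, ha, ea⟩ := hdec a
  obtain ⟨b', rb, hb, eb⟩ := hdec (a + l)
  obtain ⟨c', rc, hc, ec⟩ := hdec (a + l + v)
  obtain ⟨e', re, he, ee⟩ := hdec (a + l + v + l)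
  have hab : Q.m * a' + ra < Q.m * b' + rb := by omega
  have hbc : Q.m * b' + rb ≤ Q.m * c' + rc := by omega
  have hce : Q.m * c' + rc ≤ Q.m * e' + re := by omega
  have hdl : (Q.m * b' + rb) + (Q.m * c' + rc) = (Q.m * e' + re) + (Q.m * a' + ra) := by omega
  have hg' : P.B * (Q.m * c' + rc) + P.A * (Q.m * a' + ra) <
      (P.A + P.B) * (Q.m * b' + rb) := by
    rw [← ea, ← eb, ← ec]
    have e1 : P.B * (a + l + v) + P.A * a = (P.A + P.B) * a + P.B * l + P.B * v := by ring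
    have e2 : (P.A + P.B) * (a + l) = (P.A + P.B) * a + P.B * l + P.A * l := by ring
    rw [e1, e2]
    omega
  have hz' : ∀ ω, VV (GS (Wd Q.m P.M ac X g) ω) (Q.m * a' + ra) (Q.m * b' + rb)
      (Q.m * c' + rc) (Q.m * e' + re) = 0 := by
    intro ω
    rw [← ea, ← eb, ← ec, ← ee]
    exact hz ω
  have hadm : Adm P.A P.B a' b' c' e' := adm_outer H.hB ha hb hc he hab.le hbc hce hdl hg'
  have hal : Alive P.γ mul g L th U a' b' c' e' := CO.alive A H.hG hs ha hb hc he hz'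
  obtain ⟨t, ht, hok, hm⟩ := H.closed hs C hchk h0 e' a' b' c' hadm hal
  have hck := hchk t ht
  obtain ⟨hk1, hck⟩ := bc_and hck
  obtain ⟨hk2, _⟩ := bc_and hck
  have hd : DOK P t := by
    constructor
    · intro k hk
      exact Nat.le_of_ble_eq_true (allN_spec hk1 k hk)
    · have h2 := Nat.eq_of_beq_eq_true hk2
      rw [sumN_eq] at h2
      exact h2
  exact HO.sound A H.hG hs hLL CO H.hK1 H.hnh H.hB H.hth ha hb hc he hd hm (bc_and hok).2 hadm hab
    hbc hdl hg' hz'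

/-- the statement `𝒜(s,n)` -/
theorem avoid_main (H : CHyp P W L mul inv w vc χ th U q qc lam h K π gB xB lB cB gS lS cS
    C1 bq bl BL BC BX C2 bs BLs BCs BXs) (hs : IsG P.γ P.M mul w g)
    (C : Cert P.γ P.M L mul w th U q lam)
    (hchk : ∀ t ∈ P.T, chkT P Q t = true)
    (h0 : ∃ t ∈ P.T, Match P.n P.A P.B K mul inv g vc t 0 0 0 0)
    (A : Act P.n Q.m P.M P.γ mul ac X)
    {Lo : ℕ} (hLL : Lo ≤ L) (HO : OHyp P Q Lo mul ac X vc χ th U R Φ sc d h K lO hO bo C3 BO BR Wo lF cF gO eO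
      blF bG C4 BLF BCF BGF) (CO : OCert Q.m P.M P.γ L ac X χ th U R sc d)
    (s : ℝ) (hs1 : 1 < s) (hs2 : (P.B : ℝ) < (s - 1) * (P.A + P.B)) :
    Avoid s P.n := by
  apply avoid_of_seq (Wd Q.m P.M ac X g) (A.Wd_lt hs) s hs1
  intro l a v hl hex
  have hno : ¬ P.B * v < P.A * l := fun hlt =>
    no_window H hs C hchk h0 A hLL HO CO l a v hl hlt hex
  push Not at hno
  have h1 : (P.A : ℝ) * l ≤ P.B * v := by exact_mod_cast hno
  have hl' : (1 : ℝ) ≤ l := by exact_mod_cast hl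
  have hv : (0 : ℝ) ≤ v := by positivity
  have hAB : (0 : ℝ) < P.A + P.B := by
    have : 0 < P.A + P.B := by have := H.hB; omega
    exact_mod_cast this
  have h2 : ((P.A : ℝ) + P.B) * l ≤ P.B * (l + v) := by nlinarith
  have h3 : (P.B : ℝ) * (l + v) < (s - 1) * (P.A + P.B) * (l + v) := by
    apply mul_lt_mul_of_pos_right hs2
    linarith
  have h4 : ((P.A : ℝ) + P.B) * l < (P.A + P.B) * ((s - 1) * (l + v)) := by
    calc ((P.A : ℝ) + P.B) * l ≤ P.B * (l + v) := h2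
      _ < (s - 1) * (P.A + P.B) * (l + v) := h3
      _ = (P.A + P.B) * ((s - 1) * (l + v)) := by ring
  exact lt_of_mul_lt_mul_left h4 hAB.le

end

end MPbbea99G
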