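import Pool.Agent.Lib.Pbbea99G.Step
import Pool.Agent.Lib.Pbbea99T.Outer

/-!
# MP_bbea99_co: the word and its windows, group version
-/

namespace MPbbea99G

open Finset MPbbea99S MPbbea99T

/-- the word: block `j` is `X (j mod M)`, moved by `g j` -/
def Wd (m M : ℕ) (ac : ℕ → ℕ → ℕ) (X : ℕ → ℕ → ℕ) (g : ℕ → ℕ) (i : ℕ) : ℕ :=
  ac (g (i / m)) (X (i / m % M) (i % m))

/-- weighted prefix sums of a word -/
def GS (v : ℕ → ℕ) (ω : ℕ → ℤ) (p : ℕ) : ℤ := ∑ x ∈ range p, ω (v x)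

/-- weighted prefix sums of a block -/
def RS (ac : ℕ → ℕ → ℕ) (X : ℕ → ℕ → ℕ) (ω : ℕ → ℤ) (i κ r : ℕ) : ℤ :=
  ∑ u ∈ range r, ω (ac κ (X i u))

/-- the letters and their permutations -/
structure Act (n m M γ : ℕ) (mul : ℕ → ℕ → ℕ) (ac : ℕ → ℕ → ℕ) (X : ℕ → ℕ → ℕ) : Prop where
  hm : 0 < m
  hM : 0 < M
  lt : ∀ κ, κ < γ → ∀ x, x < n → ac κ x < n
  mul : ∀ ρ, ρ < γ → ∀ κ, κ < γ → ∀ x, x < n → ac ρ (ac κ x) = ac (mul ρ κ) x
  X : ∀ i, i < M → ∀ r, r < m → X i r < n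

section

variable {n m M γ : ℕ} {mul : ℕ → ℕ → ℕ} {inv w g : ℕ → ℕ} {ac : ℕ → ℕ → ℕ} {X : ℕ → ℕ → ℕ}

lemma Act.Wd_lt (A : Act n m M γ mul ac X) (hs : IsG γ M mul w g) (i : ℕ) :
    Wd m M ac X g i < n :=
  A.lt _ (hs.lt _) _ (A.X _ (Nat.mod_lt _ A.hM) _ (Nat.mod_lt _ A.hm))

lemma Act.GS_block (A : Act n m M γ mul ac X) (G : Gp γ mul inv) (hs : IsG γ M mul w g)
    {ω : ℕ → ℤ} {θ : ℕ → ℤ} {sc d : ℤ}
    (hR : ∀ i, i < M → ∀ κ, κ < γ → sc * RS ac X ω i κ m = d * θ κ) {ρ : ℕ} (hρ : ρ < γ)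
    (j r : ℕ) (hr : r ≤ m) :
    sc * GS (Wd m M ac X g) (fun x => ω (ac ρ x)) (m * j + r) =
      d * PS (fun x => θ (mul ρ (g x))) j + sc * RS ac X ω (j % M) (mul ρ (g j)) r := by
  have key : ∀ j r, r ≤ m → GS (Wd m M ac X g) (fun x => ω (ac ρ x)) (m * j + r) =
      GS (Wd m M ac X g) (fun x => ω (ac ρ x)) (m * j) +
        RS ac X ω (j % M) (mul ρ (g j)) r := by
    intro j r hr
    unfold GS RS
    rw [Finset.sum_range_add]
    congr 1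
    apply Finset.sum_congr rfl
    intro u hu
    have hu' : u < m := by
      have := Finset.mem_range.1 hu
      omega
    have h1 : (m * j + u) / m = j := by
      rw [Nat.mul_add_div (by omega), Nat.div_eq_of_lt hu', Nat.add_zero]
    have h2 : (m * j + u) % m = u := by
      rw [Nat.mul_add_mod, Nat.mod_eq_of_lt hu']
    unfold Wd
    dsimp only
    rw [h1, h2, A.mul ρ hρ _ (hs.lt j) _ (A.X _ (Nat.mod_lt _ A.hM) _ hu')]
  have h0 : ∀ j, sc * GS (Wd m M ac X g) (fun x => ω (ac ρ x)) (m * j) =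
      d * PS (fun x => θ (mul ρ (g x))) j := by
    intro j
    induction j with
    | zero => simp [PS, GS]
    | succ j ih =>
      rw [Nat.mul_succ, key j m le_rfl, mul_add, ih, hR _ (Nat.mod_lt _ A.hM) _
        (G.lt ρ hρ _ (hs.lt j))]
      simp only [PS, Finset.sum_range_succ]
      ring
  rw [key j r hr, mul_add, h0]

end

lemma GS_cn {n : ℕ} {v : ℕ → ℕ} (hv : ∀ i, v i < n) (ω : ℕ → ℤ) (p : ℕ) :
    GS v ω p = ∑ c ∈ range n, (cn v c p : ℤ) * ω c := by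
  induction p with
  | zero => simp [GS, cn_zero]
  | succ p ih =>
    have h1 : GS v ω (p + 1) = GS v ω p + ω (v p) := by
      simp [GS, Finset.sum_range_succ]
    have h2 : ∀ c ∈ range n, (cn v c (p + 1) : ℤ) * ω c =
        (cn v c p : ℤ) * ω c + if v p = c then ω c else 0 := by
      intro c _
      rw [cn_succ]
      split_ifs <;> push_cast <;> ring
    rw [h1, ih, Finset.sum_congr rfl h2, Finset.sum_add_distrib, Finset.sum_ite_eq,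
      if_pos (Finset.mem_range.2 (hv p))]

lemma GS_ex {n : ℕ} {v : ℕ → ℕ} (hv : ∀ i, v i < n) (ω : ℕ → ℤ) {a c l : ℕ}
    (h : Ex n v a c l) : VV (GS v ω) a (a + l) c (c + l) = 0 := by
  unfold VV
  rw [GS_cn hv, GS_cn hv, GS_cn hv, GS_cn hv, ← Finset.sum_sub_distrib,
    ← Finset.sum_sub_distrib, ← Finset.sum_add_distrib]
  apply Finset.sum_eq_zero
  intro x hx
  have h1 := h x (Finset.mem_range.1 hx)
  have h2 : (cn v x (a + l) : ℤ) + cn v x c = cn v x (c + l) + cn v x a := by exact_mod_cast h1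
  have h3 : (cn v x (a + l) : ℤ) = cn v x (c + l) + cn v x a - cn v x c := by linarith
  rw [h3]
  ring

/-- the certificate of the outer level -/
structure OCert (m M γ L : ℕ) (ac : ℕ → ℕ → ℕ) (X : ℕ → ℕ → ℕ) (χ : ℕ → ℕ → ℤ)
    (th : ℕ → ℕ → ℤ) (U : ℕ → ℕ → ℕ → ℤ) (R : ℕ → ℕ → ℕ → ℕ → ℤ) (sc d : ℤ) : Prop where
  hd : 0 < d
  hR : ∀ f, f < L → ∀ i, i < M → ∀ κ, κ < γ → ∀ r, r ≤ m → R f i κ r = RS ac X (χ f) i κ r
  hRm : ∀ f, f < L → ∀ i, i < M → ∀ κ, κ < γ → sc * R f i κ m = d * th f κ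
  hU : ∀ f, f < L → ∀ ro, ro < 2 → ∀ i, i < M → ∀ κ, κ < γ → ∀ r, r < m →
    sg ro * (sc * R f i κ r) ≤ d * U f ro κ

/-- the exact equation of a coincidence -/
lemma block_eq {n m M γ : ℕ} {mul : ℕ → ℕ → ℕ} {inv w g : ℕ → ℕ} {ac : ℕ → ℕ → ℕ}
    {X : ℕ → ℕ → ℕ} (A : Act n m M γ mul ac X) (G : Gp γ mul inv) (hs : IsG γ M mul w g)
    {ω : ℕ → ℤ} {θ : ℕ → ℤ} {sc d : ℤ}
    (hR : ∀ i, i < M → ∀ κ, κ < γ → sc * RS ac X ω i κ m = d * θ κ) {ρ : ℕ} (hρ : ρ < γ)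
    {a b c e ra rb rc re : ℕ} (ha : ra ≤ m) (hb : rb ≤ m) (hc : rc ≤ m) (he : re ≤ m)
    (hz : ∀ ω, VV (GS (Wd m M ac X g) ω) (m * a + ra) (m * b + rb) (m * c + rc)
      (m * e + re) = 0) :
    d * VV (PS (fun x => θ (mul ρ (g x)))) a b c e +
      (sc * RS ac X ω (b % M) (mul ρ (g b)) rb - sc * RS ac X ω (a % M) (mul ρ (g a)) ra -
        sc * RS ac X ω (e % M) (mul ρ (g e)) re + sc * RS ac X ω (c % M) (mul ρ (g c)) rc) = 0 := by
  have h0 := hz (fun x => ω (ac ρ x))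
  have h1 : sc * VV (GS (Wd m M ac X g) (fun x => ω (ac ρ x))) (m * a + ra) (m * b + rb)
      (m * c + rc) (m * e + re) = 0 := by rw [h0, mul_zero]
  unfold VV at h1 ⊢
  rw [mul_add, mul_sub, mul_sub, A.GS_block G hs hR hρ a ra ha, A.GS_block G hs hR hρ b rb hb,
    A.GS_block G hs hR hρ c rc hc, A.GS_block G hs hR hρ e re he] at h1
  rw [← h1]
  ring

/-- coincidences of the word give living quadruples of blocks -/
theorem OCert.alive {n m M γ L : ℕ} {mul : ℕ → ℕ → ℕ} {inv w g : ℕ → ℕ} {ac : ℕ → ℕ → ℕ}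
    {X : ℕ → ℕ → ℕ} (A : Act n m M γ mul ac X) (G : Gp γ mul inv) (hs : IsG γ M mul w g)
    {χ : ℕ → ℕ → ℤ} {th : ℕ → ℕ → ℤ} {U : ℕ → ℕ → ℕ → ℤ} {R : ℕ → ℕ → ℕ → ℕ → ℤ} {sc d : ℤ}
    (C : OCert m M γ L ac X χ th U R sc d)
    {a b c e ra rb rc re : ℕ} (ha : ra < m) (hb : rb < m) (hc : rc < m) (he : re < m)
    (hz : ∀ ω, VV (GS (Wd m M ac X g) ω) (m * a + ra) (m * b + rb) (m * c + rc)
      (m * e + re) = 0) : Alive γ mul g L th U a b c e := by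
  intro f hf ρ hρ
  have hR : ∀ i, i < M → ∀ κ, κ < γ → sc * RS ac X (χ f) i κ m = d * th f κ := by
    intro i hi κ hκ
    rw [← C.hR f hf i hi κ hκ m le_rfl, C.hRm f hf i hi κ hκ]
  have h1 := block_eq A G hs hR hρ ha.le hb.le hc.le he.le hz
  have hM : ∀ x, x % M < M := fun x => Nat.mod_lt _ A.hM
  have hk : ∀ x, mul ρ (g x) < γ := fun x => G.lt ρ hρ _ (hs.lt x)
  have ua := C.hU f hf 1 (by norm_num) _ (hM a) _ (hk a) ra ha
  have ub := C.hU f hf 0 (by norm_num) _ (hM b) _ (hk b) rb hb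
  have uc := C.hU f hf 0 (by norm_num) _ (hM c) _ (hk c) rc hc
  have ue := C.hU f hf 1 (by norm_num) _ (hM e) _ (hk e) re he
  rw [C.hR f hf _ (hM a) _ (hk a) ra ha.le, sg_one] at ua
  rw [C.hR f hf _ (hM b) _ (hk b) rb hb.le, sg_zero] at ub
  rw [C.hR f hf _ (hM c) _ (hk c) rc hc.le, sg_zero] at uc
  rw [C.hR f hf _ (hM e) _ (hk e) re he.le, sg_one] at ue
  by_contra hcon
  push Not at hcon
  have := mul_neg_of_pos_of_neg C.hd hcon
  linarith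

end MPbbea99G
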