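import Pool.Agent.Lib.Pbbea99G.Clos
import Pool.Agent.Lib.Pbbea99T.Clos3

/-!
# MP_bbea99_co: soundness of the closure check, steps, group version
-/

namespace MPbbea99G

open Finset MPbbea99S MPbbea99T

lemma tailC_pk (n : ℕ) (g : ℕ → ℕ) : tailC n (g n) (g (n + 1)) (g (n + 2)) (g (n + 3)) (g (n + 4))
    (g (n + 5)) (g (n + 6)) (g (n + 7)) (pk 16 g n) = pk 16 g (n + 8) := rfl

lemma tailC_eq (n : ℕ) (G v : ℕ → ℕ) : tailC n (v 0) (v 1) (v 2) (v 3) (v 4) (v 5) (v 6) (v 7)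
    (pk 16 G n) = pk 16 (gg n G v) (n + 8) := by
  rw [← tailC_pk]
  have h0 : gg n G v n = v 0 := gg_hi 0
  rw [h0, gg_hi 1, gg_hi 2, gg_hi 3, gg_hi 4, gg_hi 5, gg_hi 6, gg_hi 7]
  congr 1
  apply pk_congr
  intro i hi
  exact (gg_lo hi).symm

/-- the values of the small digits -/
def v8 (v0 v1 v2 v3 v4 v5 v6 v7 : ℕ) (i : ℕ) : ℕ :=
  match i with
  | 0 => v0
  | 1 => v1
  | 2 => v2
  | 3 => v3
  | 4 => v4
  | 5 => v5
  | 6 => v6
  | _ => v7

/-- a code from its digits -/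
lemma match_of {n A B K γ : ℕ} {mul : ℕ → ℕ → ℕ} {inv g : ℕ → ℕ} {vc : ℕ → ℕ → ℤ}
    {a b c e : ℕ} {G : ℕ → ℕ} {v0 v1 v2 v3 v4 v5 v6 v7 : ℕ} (hγ : γ < 256)
    (hAB : 2 * (A + B) < 65536) (hadm : Adm A B a b c e)
    (hGlt : ∀ k, k < n → G k < 65536)
    (hG : ∀ k, k < n → (G k : ℤ) = K + DV mul inv g vc k a b c e)
    (l0 : v0 < γ) (l1 : v1 < γ) (l2 : v2 < γ)
    (h0 : v0 = mul (inv (g a)) (g b)) (h1 : v1 = mul (inv (g a)) (g c))
    (h2 : v2 = mul (inv (g a)) (g e)) (h3 : v3 + (e + a) = b + c + 1)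
    (h4 : v4 = (B * c + A * a + (A + B)) - (A + B) * b) (h5 : v5 = if b = a then 1 else 0)
    (h6 : v6 = if c = b then 1 else 0) (h7 : v7 = if e = c then 1 else 0) :
    Match n A B K mul inv g vc (tailC n v0 v1 v2 v3 v4 v5 v6 v7 (pk 16 G n)) a b c e := by
  have hcode := tailC_eq n G (v8 v0 v1 v2 v3 v4 v5 v6 v7)
  simp only [v8] at hcode
  rw [hcode]
  have hlt : ∀ i, i < 8 → v8 v0 v1 v2 v3 v4 v5 v6 v7 i < 65536 := by
    intro i hi
    have hA1 := hadm.h2
    have hA2 := hadm.hg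
    have hA3 : (A + B) * (b + 1) = (A + B) * b + (A + B) := by ring
    have z5 : v5 ≤ 1 := by rw [h5]; split_ifs <;> omega
    have z6 : v6 ≤ 1 := by rw [h6]; split_ifs <;> omega
    have z7 : v7 ≤ 1 := by rw [h7]; split_ifs <;> omega
    interval_cases i <;> simp only [v8] <;> omega
  have hall : ∀ i, i < n + 8 → gg n G (v8 v0 v1 v2 v3 v4 v5 v6 v7) i < 65536 := by
    intro i hi
    unfold gg
    split_ifs with h
    · exact hGlt i h
    · exact hlt _ (by omega)
  have hd : ∀ i, i < 8 → dg (pk 16 (gg n G (v8 v0 v1 v2 v3 v4 v5 v6 v7)) (n + 8))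
      (n + i) = v8 v0 v1 v2 v3 v4 v5 v6 v7 i := by
    intro i hi
    rw [dg_pk hall (by omega), gg_hi]
  constructor
  · intro k hk
    rw [dg_pk hall (by omega), gg_lo hk]
    exact hG k hk
  · exact (hd 0 (by norm_num)).trans h0
  · rw [hd 1 (by norm_num)]
    exact h1
  · rw [hd 2 (by norm_num)]
    exact h2
  · rw [hd 3 (by norm_num)]
    exact h3
  · rw [hd 4 (by norm_num)]
    exact h4
  · rw [hd 5 (by norm_num)]
    exact h5
  · rw [hd 6 (by norm_num)]
    exact h6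
  · rw [hd 7 (by norm_num)]
    exact h7

variable {P : CP} {W L : ℕ} {mul : ℕ → ℕ → ℕ} {inv w : ℕ → ℕ} {vc : ℕ → ℕ → ℤ}
    {χ : ℕ → ℕ → ℤ} {th : ℕ → ℕ → ℤ} {U : ℕ → ℕ → ℕ → ℤ} {q : ℕ → ℕ → ℕ → ℤ}
    {qc : ℕ → ℕ → ℕ → ℤ} {lam h K : ℕ} {π : ℕ → ℕ → ℕ}
    {gB : ℕ → ℕ → ℕ → ℕ → ℕ} {xB : ℕ → ℕ → ℕ → ℕ} {lB : ℕ → ℕ → ℕ} {cB : ℕ → ℕ}
    {gS : ℕ → ℕ → ℕ → ℕ → ℕ} {lS : ℕ → ℕ → ℕ} {cS : ℕ → ℕ}
    {C1 bq bl BL BC BX C2 bs BLs BCs BXs : ℕ}

/-- living children of checked templates are described by templates and pass the outer check -/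
theorem CHyp.step (H : CHyp P W L mul inv w vc χ th U q qc lam h K π gB xB lB cB gS lS cS
    C1 bq bl BL BC BX C2 bs BLs BCs BXs) {Q : OP} {g : ℕ → ℕ} (hs : IsG P.γ P.M mul w g)
    (hq : ∀ f, f < L → ∀ κ, κ < P.γ → ∀ t, t ≤ P.M → q f κ t = QG mul w (th f) κ t)
    {t a b c e ia ib ic ie : ℕ} (ha : ia < P.M) (hb : ib < P.M) (hc : ic < P.M)
    (he : ie < P.M) (hchk : chkT P Q t = true)
    (hm : Match P.n P.A P.B K mul inv g vc t a b c e)
    (hadm : Adm P.A P.B (P.M * a + ia) (P.M * b + ib) (P.M * c + ic) (P.M * e + ie))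
    (hal : Alive P.γ mul g L th U (P.M * a + ia) (P.M * b + ib) (P.M * c + ic) (P.M * e + ie)) :
    ∃ t', oK P Q ia ib ic ie t' = true ∧ Match P.n P.A P.B K mul inv g vc t' (P.M * a + ia)
      (P.M * b + ib) (P.M * c + ic) (P.M * e + ie) := by
  have G := H.hG
  obtain ⟨hk1, hchk⟩ := bc_and hchk
  obtain ⟨hk2, hlv⟩ := bc_and hchk
  have hd : DOK P t := by
    constructor
    · intro k hk
      exact Nat.le_of_ble_eq_true (allN_spec hk1 k hk)
    · have h2 := Nat.eq_of_beq_eq_true hk2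
      rw [sumN_eq] at h2
      exact h2
  -- the digit of the length difference
  obtain ⟨d, hdd⟩ : ∃ d, d + ((P.M * e + ie) + (P.M * a + ia)) =
      (P.M * b + ib) + (P.M * c + ic) + 1 := by
    have g1 := hadm.h1
    exact ⟨(P.M * b + ib) + (P.M * c + ic) + 1 - ((P.M * e + ie) + (P.M * a + ia)), by omega⟩
  have hd3 : d < 3 := by
    have g2 := hadm.h2
    omega
  -- the digits of the parent
  have ρa := G.ilt _ (hs.lt a)
  obtain ⟨kb, hkb⟩ : ∃ kb, kb = mul (inv (g a)) (g b) := ⟨_, rfl⟩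
  obtain ⟨kc, hkc⟩ : ∃ kc, kc = mul (inv (g a)) (g c) := ⟨_, rfl⟩
  obtain ⟨ke, hke⟩ : ∃ ke, ke = mul (inv (g a)) (g e) := ⟨_, rfl⟩
  obtain ⟨dl, hdl⟩ : ∃ dl, dl = dg t (P.n + 3) := ⟨_, rfl⟩
  obtain ⟨gt, hgt⟩ : ∃ gt, gt = (P.B * c + P.A * a + (P.A + P.B)) - (P.A + P.B) * b := ⟨_, rfl⟩
  obtain ⟨zl, hzl⟩ : ∃ zl, zl = if b = a then 1 else 0 := ⟨_, rfl⟩
  obtain ⟨zv, hzv⟩ : ∃ zv, zv = if c = b then 1 else 0 := ⟨_, rfl⟩
  obtain ⟨ze, hze⟩ : ∃ ze, ze = if e = c then 1 else 0 := ⟨_, rfl⟩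
  have e0 : dg t P.n = kb := hm.hb.trans hkb.symm
  have e1 : dg t (Nat.add P.n 1) = kc := hm.hc.trans hkc.symm
  have e2 : dg t (Nat.add P.n 2) = ke := hm.he.trans hke.symm
  have e3 : dg t (Nat.add P.n 3) = dl := hdl.symm
  have e4 : dg t (Nat.add P.n 4) = gt := hm.hg.trans hgt.symm
  have e5 : dg t (Nat.add P.n 5) = zl := hm.h5.trans hzl.symm
  have e6 : dg t (Nat.add P.n 6) = zv := hm.h6.trans hzv.symm
  have e7 : dg t (Nat.add P.n 7) = ze := hm.h7.trans hze.symm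
  rw [e0, e1, e2, e3, e4, e5, e6, e7] at hlv
  have hdl' : dl + (e + a) = b + c + 1 := by rw [hdl]; exact hm.hd
  have lb : kb < P.γ := by rw [hkb]; exact G.lt _ ρa _ (hs.lt b)
  have lc : kc < P.γ := by rw [hkc]; exact G.lt _ ρa _ (hs.lt c)
  have le : ke < P.γ := by rw [hke]; exact G.lt _ ρa _ (hs.lt e)
  have l0 := G.pos
  -- the total values
  have htot : ∀ f, f < L → 2 ^ (W - 1) ≤ pV P lB cB t f + gB 1 0 ia f +
      gB 0 kb ib f + gB 0 kc ic f + gB 1 ke ie f := by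
    intro f hf
    have g := H.total hs hq ha hb hc he hm hd hal hf
    rw [← hkb, ← hkc, ← hke] at g
    exact g
  have hbd := H.hbd
  -- tables
  have tA := H.tabG (ro := 1) (by norm_num) l0 ha
  have tB := H.tabG (ro := 0) (by norm_num) lb hb
  have tC := H.tabG (ro := 0) (by norm_num) lc hc
  have tE := H.tabG (ro := 1) (by norm_num) le he
  have xBt := H.tabX (ro := 0) (by norm_num) lb
  have xCt := H.tabX (ro := 0) (by norm_num) lc
  have xEt := H.tabX (ro := 1) (by norm_num) le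
  have bA := fun f hf => H.hxB 1 (by norm_num) 0 l0 ia ha f hf
  have bB := fun f hf => H.hxB 0 (by norm_num) kb lb ib hb f hf
  have bC := fun f hf => H.hxB 0 (by norm_num) kc lc ic hc f hf
  have bE := fun f hf => H.hxB 1 (by norm_num) ke le ie he f hf
  have cA := fun f hf => H.bX 1 (by norm_num) 0 l0 f hf
  have cB' := fun f hf => H.bX 0 (by norm_num) kb lb f hf
  have cC := fun f hf => H.bX 0 (by norm_num) kc lc f hf
  have cE := fun f hf => H.bX 1 (by norm_num) ke le f hf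
  have pP := fun f (hf : f < L) => H.pV_le hd hf
  -- first digit
  unfold lv0 at hlv
  have l1 := allN_spec hlv ia ha
  unfold lvA at l1
  have t1 : hib (Nat.add (Nat.add (big P t) (fd P.WL P.ML (nthL P.gT (ix P 1 0)) ia))
      (Nat.add (Nat.add (nthL P.xT (ix P 0 kb)) (nthL P.xT (ix P 0 kc)))
        (nthL P.xT (ix P 1 ke)))) P.HI = true := by
    rw [H.big_eq, tA, xBt, xCt, xEt, H.hHI]
    show hib (pk W (pV P lB cB t) L + pk W (gB 1 0 ia) L +
      (pk W (xB 0 kb) L + pk W (xB 0 kc) L + pk W (xB 1 ke) L)) _ = true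
    rw [← pk_add, ← pk_add, ← pk_add, ← pk_add]
    apply hib_pk H.hW
    · intro f hf
      have g0 := htot f hf
      have g2 := bB f hf
      have g3 := bC f hf
      have g4 := bE f hf
      omega
    · intro f hf
      have g0 := pP f hf
      have g1 := bA f hf
      have g1' := cA f hf
      have g2 := cB' f hf
      have g3 := cC f hf
      have g4 := cE f hf
      omega
  have l2 := allN_spec (bc_skip l1 t1) ib hb
  unfold lvB at l2
  -- second digit
  have s2 : bc (Nat.beq zl 1) (Nat.ble (Nat.succ ib) ia) false = false := by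
    apply cond_false'
    intro hz1
    have hab : b = a := by
      by_contra hne
      rw [if_neg hne] at hzl
      omega
    have := hadm.hab
    rw [hab] at this
    omega
  have l3 := bc_pass l2 s2
  have t2 : hib (Nat.add (Nat.add (Nat.add (big P t)
      (fd P.WL P.ML (nthL P.gT (ix P 1 0)) ia))
      (fd P.WL P.ML (nthL P.gT (ix P 0 kb)) ib))
      (Nat.add (nthL P.xT (ix P 0 kc)) (nthL P.xT (ix P 1 ke)))) P.HI = true := by
    rw [H.big_eq, tA, tB, xCt, xEt, H.hHI]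
    show hib (pk W (pV P lB cB t) L + pk W (gB 1 0 ia) L +
      pk W (gB 0 kb ib) L + (pk W (xB 0 kc) L + pk W (xB 1 ke) L)) _ = true
    rw [← pk_add, ← pk_add, ← pk_add, ← pk_add]
    apply hib_pk H.hW
    · intro f hf
      have g0 := htot f hf
      have g3 := bC f hf
      have g4 := bE f hf
      omega
    · intro f hf
      have g0 := pP f hf
      have g1 := bA f hf
      have g1' := cA f hf
      have g2 := bB f hf
      have g2' := cB' f hf
      have g3 := cC f hf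
      have g4 := cE f hf
      omega
  have hcnt : ic < minN P.M (cntC P gt ia ib) := by
    rw [minN_eq, hgt]
    exact Nat.lt_min.2 ⟨hc, lt_cntC H.hB ha hc hadm.hg⟩
  have l4 := allN_spec (bc_skip l3 t2) ic hcnt
  unfold lvC at l4
  -- third digit
  have s3 : bc (Nat.beq zv 1) (Nat.ble (Nat.succ ic) ib) false = false := by
    apply cond_false'
    intro hz1
    have hcb : c = b := by
      by_contra hne
      rw [if_neg hne] at hzv
      omega
    have := hadm.hbc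
    rw [hcb] at this
    omega
  have l5 := bc_pass l4 s3
  have t3 : hib (Nat.add (Nat.add (Nat.add (Nat.add (big P t)
      (fd P.WL P.ML (nthL P.gT (ix P 1 0)) ia))
      (fd P.WL P.ML (nthL P.gT (ix P 0 kb)) ib))
      (fd P.WL P.ML (nthL P.gT (ix P 0 kc)) ic))
      (nthL P.xT (ix P 1 ke))) P.HI = true := by
    rw [H.big_eq, tA, tB, tC, xEt, H.hHI]
    show hib (pk W (pV P lB cB t) L + pk W (gB 1 0 ia) L +
      pk W (gB 0 kb ib) L + pk W (gB 0 kc ic) L + pk W (xB 1 ke) L) _ = true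
    rw [← pk_add, ← pk_add, ← pk_add, ← pk_add]
    apply hib_pk H.hW
    · intro f hf
      have g0 := htot f hf
      have g4 := bE f hf
      omega
    · intro f hf
      have g0 := pP f hf
      have g1 := bA f hf
      have g1' := cA f hf
      have g2 := bB f hf
      have g2' := cB' f hf
      have g3 := bC f hf
      have g3' := cC f hf
      have g4 := cE f hf
      omega
  have l6 := allN_spec (bc_skip l5 t3) d hd3
  -- the fourth digit
  have hexp : ie + ((ia + P.M) + d) = P.M * dl + ((ib + ic) + 1) := by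
    have g1 : d + ((P.M * e + ie) + (P.M * a + ia)) = (P.M * b + ib) + (P.M * c + ic) + 1 := hdd
    have g2 : P.M * dl + P.M * (e + a) = P.M * (b + c) + P.M := by
      rw [← Nat.mul_add, hdl']
      ring
    rw [Nat.mul_add, Nat.mul_add] at g2
    omega
  have hie : Nat.sub (Nat.add (Nat.mul P.M dl) (Nat.add (Nat.add ib ic) 1))
      (Nat.add (Nat.add ia P.M) d) = ie := by
    show (P.M * dl + ((ib + ic) + 1)) - ((ia + P.M) + d) = ie
    omega
  rw [hie] at l6
  have l7 := bc_skip l6 (Nat.ble_eq_true_of_le (by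
    show (ia + P.M) + d ≤ P.M * dl + ((ib + ic) + 1)
    omega))
  unfold lvE at l7
  have l8 := bc_skip l7 (Nat.ble_eq_true_of_le he)
  have s4 : bc (Nat.beq ze 1) (Nat.ble (Nat.succ ie) ic) false = false := by
    apply cond_false'
    intro hz1
    have hec : e = c := by
      by_contra hne
      rw [if_neg hne] at hze
      omega
    have := hadm.hce
    rw [hec] at this
    omega
  have l9 := bc_pass l8 s4
  have t4 : hib (Nat.add (Nat.add (Nat.add (Nat.add (big P t)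
      (fd P.WL P.ML (nthL P.gT (ix P 1 0)) ia))
      (fd P.WL P.ML (nthL P.gT (ix P 0 kb)) ib))
      (fd P.WL P.ML (nthL P.gT (ix P 0 kc)) ic))
      (fd P.WL P.ML (nthL P.gT (ix P 1 ke)) ie)) P.HI = true := by
    rw [H.big_eq, tA, tB, tC, tE, H.hHI]
    show hib (pk W (pV P lB cB t) L + pk W (gB 1 0 ia) L +
      pk W (gB 0 kb ib) L + pk W (gB 0 kc ic) L + pk W (gB 1 ke ie) L) _ = true
    rw [← pk_add, ← pk_add, ← pk_add, ← pk_add]
    apply hib_pk H.hW
    · intro f hf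
      have g0 := htot f hf
      omega
    · intro f hf
      have g0 := pP f hf
      have g1 := bA f hf
      have g1' := cA f hf
      have g2 := bB f hf
      have g2' := cB' f hf
      have g3 := bC f hf
      have g3' := cC f hf
      have g4 := bE f hf
      have g4' := cE f hf
      omega
  have l10 := bc_skip l9 t4
  refine ⟨_, l10, ?_⟩
  -- the code
  have sA := H.tabS (ro := 1) (by norm_num) l0 ha
  have sB := H.tabS (ro := 0) (by norm_num) lb hb
  have sC := H.tabS (ro := 0) (by norm_num) lc hc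
  have sE := H.tabS (ro := 1) (by norm_num) le he
  obtain ⟨c0, hc0⟩ : ∃ c0 : ℕ → ℕ, c0 = fun k => pV P lS cS t k + gS 1 0 ia k +
    gS 0 kb ib k + gS 0 kc ic k + gS 1 ke ie k := ⟨_, rfl⟩
  have hc0lt : ∀ k, k < P.n → c0 k < 65536 := by
    intro k hk
    have g0 := H.pVs_le hd hk
    have g1 := H.bXs 1 (by norm_num) 0 l0 ia ha k hk
    have g2 := H.bXs 0 (by norm_num) kb lb ib hb k hk
    have g3 := H.bXs 0 (by norm_num) kc lc ic hc k hk
    have g4 := H.bXs 1 (by norm_num) ke le ie he k hk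
    have g5 := H.hbdS
    rw [hc0]
    dsimp only
    omega
  have hpk : Nat.add (Nat.add (Nat.add (Nat.add (small P t)
      (fd P.WS P.MS (nthL P.sT (ix P 1 0)) ia))
      (fd P.WS P.MS (nthL P.sT (ix P 0 kb)) ib))
      (fd P.WS P.MS (nthL P.sT (ix P 0 kc)) ic))
      (fd P.WS P.MS (nthL P.sT (ix P 1 ke)) ie) = pk 16 c0 P.n := by
    rw [H.small_eq, sA, sB, sC, sE, hc0]
    show pk 16 (pV P lS cS t) P.n + pk 16 (gS 1 0 ia) P.n +
      pk 16 (gS 0 kb ib) P.n + pk 16 (gS 0 kc ic) P.n + pk 16 (gS 1 ke ie) P.n = _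
    rw [← pk_add, ← pk_add, ← pk_add, ← pk_add]
  unfold codeC
  rw [hpk]
  have hprm : prm P (pk 16 c0 P.n) ia = pk 16 (fun k => c0 (π ia k)) P.n := by
    unfold prm
    rw [pkR_eq]
    apply pk_congr
    intro k hk
    rw [H.hpf ia ha k hk]
    exact dg_pk hc0lt (H.hπ ia ha k hk)
  rw [hprm]
  have hvlt : inv (w ia) < P.γ := G.ilt _ (hs.wlt ia ha)
  have hkch : ∀ x ix k, ix < P.M → k = mul (inv (g a)) (g x) → kch P k ix ia =
      mul (inv (g (P.M * a + ia))) (g (P.M * x + ix)) := by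
    intro x ix k hix hk
    have hkl : k < P.γ := by rw [hk]; exact G.lt _ ρa _ (hs.lt x)
    show mlf P (mlf P (vf P ia) k) (wf P ix) = _
    rw [H.hvf ia ha, H.hwf ix hix, H.hmul _ hvlt _ hkl,
      H.hmul _ (G.lt _ hvlt _ hkl) _ (hs.wlt ix hix), hk, hs.step a ia ha, hs.step x ix hix,
      G.inv_mul_rev (hs.lt a) (hs.wlt ia ha), G.assoc _ hvlt _ (G.lt _ ρa _ (hs.lt x)) _
      (hs.wlt ix hix), G.assoc _ ρa _ (hs.lt x) _ (hs.wlt ix hix),
      G.assoc _ hvlt _ ρa _ (G.lt _ (hs.lt x) _ (hs.wlt ix hix))]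
  have hklt : ∀ x ix k, ix < P.M → k = mul (inv (g a)) (g x) → kch P k ix ia < P.γ := by
    intro x ix k hix hk
    rw [hkch x ix k hix hk]
    exact G.lt _ (G.ilt _ (hs.lt _)) _ (hs.lt _)
  apply match_of H.hγ H.hAB hadm
  · intro k hk
    exact hc0lt _ (H.hπ ia ha k hk)
  · intro k hk
    rw [hc0]
    dsimp only
    have g0 := H.totalS hs ha hb hc he hm hd (k := π ia k) (H.hπ ia ha k hk)
    rw [← hkb, ← hkc, ← hke] at g0
    rw [g0]
    congr 1
    unfold DV
    apply VP_congr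
    intro x
    rw [hs.step a ia ha, G.inv_mul_rev (hs.lt a) (hs.wlt ia ha),
      G.assoc _ hvlt _ ρa _ (hs.lt x),
      H.hπv ia ha k hk _ (G.lt _ ρa _ (hs.lt x))]
  · exact hklt b ib kb hb hkb
  · exact hklt c ic kc hc hkc
  · exact hklt e ie ke he hke
  · exact hkch b ib kb hb hkb
  · exact hkch c ic kc hc hkc
  · exact hkch e ie ke he hke
  · exact hdd
  · rw [hgt]
    exact gch_eq ha hc
  · rw [bn_beq, hzl]
    exact flag_eq ha hb
  · rw [bn_beq, hzv]
    exact flag_eq hb hc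
  · rw [bn_beq, hze]
    exact flag_eq hc he

end MPbbea99G
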