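import Pool.Agent.Lib.Pbbea99G.VStep

/-!
# MP_bbea99_co: soundness of the enumeration of digits, abstract form
-/

namespace MPbbea99G

open Finset MPbbea99S MPbbea99T

/-- the enumeration reaches every admissible quadruple with nonnegative totals -/
theorem aV_sound {P : CP} {V : VP} {W L : ℕ} (O : VOK V W L P.M) (hWL : P.WL = W * L)
    (hML : P.ML = 2 ^ P.WL) {lf : ℕ → ℕ → ℕ → ℕ → ℕ → Bool}
    {Ga Gb Gc Ge Xb Xc Xe X0 : ℕ} {ga gb gc ge : ℕ → ℕ → ℕ} {xa xb xc xe x0 : ℕ → ℕ}
    (GA : Ga = pk (W * L) (fun t => pk W (ga t) L) P.M)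
    (GB : Gb = pk (W * L) (fun t => pk W (gb t) L) P.M)
    (GC : Gc = pk (W * L) (fun t => pk W (gc t) L) P.M)
    (GE : Ge = pk (W * L) (fun t => pk W (ge t) L) P.M)
    (hXb : Xb = pk W xb L) (hXc : Xc = pk W xc L) (hXe : Xe = pk W xe L) (hX0 : X0 = pk W x0 L)
    (bA : ∀ t, t < P.M → ∀ f, f < L → ga t f ≤ xa f)
    (bB : ∀ t, t < P.M → ∀ f, f < L → gb t f ≤ xb f)
    (bC : ∀ t, t < P.M → ∀ f, f < L → gc t f ≤ xc f)
    (bE : ∀ t, t < P.M → ∀ f, f < L → ge t f ≤ xe f)
    (hbd : ∀ f, f < L → x0 f + xa f + xb f + xc f + xe f < 2 ^ W)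
    {dl gt zl zv ia ib ic ie d : ℕ} (ha : ia < P.M) (hb : ib < P.M) (hc : ic < P.M)
    (he : ie < P.M) (hd3 : d < 3) (hexp : ie + (ia + P.M + d) = P.M * dl + (ib + 1) + ic)
    (htot : ∀ f, f < L → 2 ^ (W - 1) ≤ x0 f + ga ia f + gb ib f + gc ic f + ge ie f)
    (hcnt0 : ic < cntC P gt ia ib) (hzl : zl = 1 → ia ≤ ib) (hzv : zv * ib ≤ ic)
    (h : aV P V lf dl gt zl zv Ga Gb Gc Ge (Nat.add (Nat.add Xb Xc) Xe) (Nat.add Xc Xe) Xe X0 =
      true) : lf ia ib d ic ie = true := by
  have hL := O.hL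
  have hlt : ∀ (gg : ℕ → ℕ → ℕ) (xx : ℕ → ℕ), (∀ t, t < P.M → ∀ f, f < L → gg t f ≤ xx f) →
      (∀ f, f < L → xx f < 2 ^ W) → ∀ r, r < P.M → pk W (gg r) L < 2 ^ (W * L) := by
    intro gg xx h1 h2 r hr
    apply pk_lt
    intro f hf
    exact (h1 r hr f hf).trans_lt (h2 f hf)
  have fA : fd P.WL P.ML Ga ia = pk W (ga ia) L := by
    rw [GA, hML, hWL]
    refine fd_pk (hlt ga xa bA ?_) ha
    intro f hf
    have := hbd f hf
    omega
  have fB : fd P.WL P.ML Gb ib = pk W (gb ib) L := by
    rw [GB, hML, hWL]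
    refine fd_pk (hlt gb xb bB ?_) hb
    intro f hf
    have := hbd f hf
    omega
  -- first digit
  unfold aV at h
  have m1 : (mskF V (Nat.add Ga (Nat.mul (Nat.add X0
      (Nat.add (Nat.add Xb Xc) Xe)) V.ON))).testBit ia = true := by
    have hS := rows1 (cnt := P.M) (y := fun f => x0 f + (xb f + xc f + xe f))
      (Y := Nat.add X0 (Nat.add (Nat.add Xb Xc) Xe)) GA (by
        rw [hX0, hXb, hXc, hXe]
        show pk W x0 L + (pk W xb L + pk W xc L + pk W xe L) = _
        rw [← pk_add, ← pk_add, ← pk_add]) le_rfl (by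
        intro t ht f hf
        have g1 := bA t ht f hf
        have g2 := hbd f hf
        omega)
    rw [← O.hON] at hS
    refine O.mskF hS ?_ ha ?_
    · intro r hr f hf
      have g1 := bA r hr f hf
      have g2 := hbd f hf
      omega
    · intro f hf
      have g0 := htot f hf
      have g2 := bB ib hb f hf
      have g3 := bC ic hc f hf
      have g4 := bE ie he f hf
      omega
  have l2 := enumN_spec h ia ha m1
  unfold bV at l2
  rw [fA] at l2
  -- second digit
  have m2 : (mskF V (Nat.add Gb (Nat.mul (Nat.add (Nat.add X0 (pk W (ga ia) L))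
      (Nat.add Xc Xe)) V.ON))).testBit ib = true := by
    have hS := rows1 (cnt := P.M)
      (y := fun f => x0 f + ga ia f + (xc f + xe f))
      (Y := Nat.add (Nat.add X0 (pk W (ga ia) L)) (Nat.add Xc Xe)) GB (by
        rw [hX0, hXc, hXe]
        show pk W x0 L + pk W (ga ia) L + (pk W xc L + pk W xe L) = _
        rw [← pk_add, ← pk_add, ← pk_add]) le_rfl (by
        intro t ht f hf
        have g1 := bA ia ha f hf
        have g2 := bB t ht f hf
        have g3 := hbd f hf
        omega)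
    rw [← O.hON] at hS
    refine O.mskF hS ?_ hb ?_
    · intro r hr f hf
      have g1 := bA ia ha f hf
      have g2 := bB r hr f hf
      have g3 := hbd f hf
      omega
    · intro f hf
      have g0 := htot f hf
      have g3 := bC ic hc f hf
      have g4 := bE ie he f hf
      omega
  have l3 := enumN_spec l2 ib hb m2
  have s2 : bc (Nat.beq zl 1) (Nat.ble (Nat.succ ib) ia) false = false := by
    apply cond_false'
    intro hz1
    have := hzl hz1
    omega
  have l4 := bc_pass (x := bc (Nat.beq zl 1) (Nat.ble (Nat.succ ib) ia) false) l3 s2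
  unfold cV at l4
  rw [fB] at l4
  -- the bound of the third digit
  obtain ⟨cc, hcc⟩ : ∃ cc, cc = Nat.sub P.M (Nat.sub P.M (cntC P gt ia ib)) := ⟨_, rfl⟩
  rw [← hcc] at l4
  have hccM : cc ≤ P.M := by
    rw [hcc]
    exact Nat.sub_le _ _
  have hcnt : ic < cc := by
    have h2 : cc = P.M - (P.M - cntC P gt ia ib) := hcc
    omega
  obtain ⟨XB, hXB⟩ : ∃ XB, XB = Nat.add (Nat.add X0 (pk W (ga ia) L)) (pk W (gb ib) L) :=
    ⟨_, rfl⟩
  have hXBv : XB = pk W (fun f => x0 f + ga ia f + gb ib f) L := by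
    rw [hXB, hX0]
    show pk W x0 L + pk W (ga ia) L + pk W (gb ib) L = _
    rw [← pk_add, ← pk_add]
  rw [← hXB] at l4
  have hsubM : P.M - (P.M - cc) = cc := by omega
  -- third digit
  have m3 : (mskK V P.WL (Nat.sub P.M cc) (Nat.add Gc
      (Nat.mul (Nat.add XB Xe) V.ON))).testBit ic = true := by
    have hS := rows1 (cnt := P.M - (P.M - cc))
      (y := fun f => x0 f + ga ia f + gb ib f + xe f)
      (Y := Nat.add XB Xe) GC (by
        rw [hXBv, hXe]
        show pk W _ L + pk W xe L = _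
        rw [← pk_add]) (by omega) (by
        intro t ht f hf
        have g1 := bA ia ha f hf
        have g2 := bB ib hb f hf
        have g3 := bC t ht f hf
        have g4 := hbd f hf
        omega)
    rw [← O.hON] at hS
    refine O.mskK hWL (Nat.sub_le _ _) hS ?_ (by
      show ic < P.M - (P.M - cc)
      omega) ?_
    · intro r hr f hf
      have hr' : r < P.M := by
        have : r < P.M - (P.M - cc) := hr
        omega
      have g1 := bA ia ha f hf
      have g2 := bB ib hb f hf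
      have g3 := bC r hr' f hf
      have g4 := hbd f hf
      omega
    · intro f hf
      have g0 := htot f hf
      have g4 := bE ie he f hf
      omega
  have s3 : Nat.beq (mskK V P.WL (Nat.sub P.M cc) (Nat.add Gc
      (Nat.mul (Nat.add XB Xe) V.ON))) 0 = false := by
    cases hb0 : Nat.beq (mskK V P.WL (Nat.sub P.M cc) (Nat.add Gc
      (Nat.mul (Nat.add XB Xe) V.ON))) 0 with
    | false => rfl
    | true =>
      have h0 := Nat.eq_of_beq_eq_true hb0
      rw [h0] at m3
      simp at m3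
  have l5 := bc_pass (x := Nat.beq (mskK V P.WL (Nat.sub P.M cc) (Nat.add Gc
      (Nat.mul (Nat.add XB Xe) V.ON))) 0) l4 s3
  have l6 := allN_spec l5 d hd3
  -- the fourth digit
  obtain ⟨r, hr⟩ : ∃ r, r = Nat.add (Nat.add ia P.M) d := ⟨_, rfl⟩
  obtain ⟨s, hsd⟩ : ∃ s, s = Nat.add (Nat.mul P.M dl) (Nat.succ ib) := ⟨_, rfl⟩
  rw [← hr, ← hsd] at l6
  have hr' : r = ia + P.M + d := hr
  have hs' : s = P.M * dl + (ib + 1) := hsd
  have hexp' : ie + r = s + ic := by omega
  unfold dV dV1 dV2 at l6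
  obtain ⟨lo, hlo⟩ : ∃ lo, lo = Nat.add (Nat.sub r s) (Nat.sub (Nat.mul zv ib) (Nat.sub r s)) :=
    ⟨_, rfl⟩
  obtain ⟨hi, hhi⟩ : ∃ hi, hi = Nat.sub cc (Nat.sub cc (Nat.sub (Nat.add P.M r) s)) := ⟨_, rfl⟩
  rw [← hlo, ← hhi] at l6
  have hlo' : lo = (r - s) + (zv * ib - (r - s)) := hlo
  have hhi' : hi = cc - (cc - (P.M + r - s)) := hhi
  have hlo1 : lo ≤ ic := by omega
  have hhi1 : ic < hi := by omega
  have hhi2 : hi ≤ P.M := by omega
  have hhi3 : hi + s ≤ P.M + r := by omega
  have hble : Nat.ble hi lo = false := by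
    cases hb2 : Nat.ble hi lo with
    | false => rfl
    | true =>
      have := Nat.le_of_ble_eq_true hb2
      omega
  have l7 := bc_pass (x := Nat.ble hi lo) l6 hble
  obtain ⟨lo', hlo2⟩ : ∃ lo', lo' = Nat.sub (Nat.add lo s) r := ⟨_, rfl⟩
  rw [← hlo2] at l7
  have hlo3 : lo' = lo + s - r := hlo2
  have hge : r ≤ lo + s := by omega
  have m4 : (mskK V P.WL (Nat.sub P.M (Nat.sub hi lo))
      (Nat.add (Nat.add (Nat.shiftRight Gc (Nat.mul P.WL lo))
        (Nat.shiftRight Ge (Nat.mul P.WL lo'))) (Nat.mul XB V.ON))).testBit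
          (ic - lo) = true := by
    have hS := rows2 (cnt := P.M - (P.M - (hi - lo))) (lo := lo) (lo' := lo')
      (y := fun f => x0 f + ga ia f + gb ib f) (Y := XB) GC GE hXBv
      (by omega) (by omega) (by
        intro t ht t' ht' f hf
        have g1 := bA ia ha f hf
        have g2 := bB ib hb f hf
        have g3 := bC t ht f hf
        have g4 := bE t' ht' f hf
        have g5 := hbd f hf
        omega)
    rw [← O.hON, ← hWL] at hS
    have hS' : (Nat.add (Nat.add (Nat.shiftRight Gc (Nat.mul P.WL lo))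
        (Nat.shiftRight Ge (Nat.mul P.WL lo'))) (Nat.mul XB V.ON)) %
          2 ^ (W * L * (P.M - Nat.sub P.M (Nat.sub hi lo))) =
        pk (W * L) (fun r => pk W (fun f => gc (r + lo) f + ge (r + lo') f +
          (x0 f + ga ia f + gb ib f)) L)
          (P.M - Nat.sub P.M (Nat.sub hi lo)) := by
      rw [← hWL]
      exact hS
    refine O.mskK hWL (Nat.sub_le _ _) hS' ?_ (by
      show ic - lo < P.M - (P.M - (hi - lo))
      omega) ?_
    · intro r' hr' f hf
      have hr1 : r' < P.M - (P.M - (hi - lo)) := hr'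
      have g1 := bA ia ha f hf
      have g2 := bB ib hb f hf
      have g3 := bC (r' + lo) (by omega) f hf
      have g4 := bE (r' + lo') (by omega) f hf
      have g5 := hbd f hf
      omega
    · intro f hf
      have g0 := htot f hf
      have q1 : ic - lo + lo = ic := by omega
      have q2 : ic - lo + lo' = ie := by omega
      rw [q1, q2]
      omega
  have l8 := enumN_spec l7 (ic - lo) (by omega) m4
  have q1 : Nat.add (ic - lo) lo = ic := by
    show ic - lo + lo = ic
    omega
  have q2 : Nat.add (ic - lo) lo' = ie := by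
    show ic - lo + lo' = ie
    omega
  rw [q1, q2] at l8
  exact l8

end MPbbea99G
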