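import Pool.Agent.Lib.Pbbea99G.SubDef

/-!
# MP_bbea99_co: long blocks cut into pieces: the tables
-/

namespace MPbbea99G

open Finset MPbbea99S MPbbea99T

/-- totals of a functional -/
lemma Tb.tot' {T : Tb} {S : To} {m : ℕ} (O : TOKB T)
    (hT : ∀ κ, κ < T.γ → ∀ k, k < T.n → T.n * (S.sc * sumN (fun x =>
      Nat.mul (S.tvf x) (bn (Nat.beq (T.ac κ x) k))) T.n) + T.n * S.d * T.v0 =
        S.sc * m + T.n * S.d * T.vn κ k)
    {ω : ℕ → ℤ} (hω : ∑ k ∈ range T.n, ω k = 0) {κ : ℕ} (hκ : κ < T.γ) :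
    (S.sc : ℤ) * ∑ x ∈ range T.n, ω (T.ac κ x) * S.tvf x =
      S.d * ∑ k ∈ range T.n, ω k * T.vc κ k := by
  have e1 : ∑ x ∈ range T.n, ω (T.ac κ x) * (S.tvf x : ℤ) = ∑ k ∈ range T.n, ω k *
      ∑ x ∈ range T.n, (S.tvf x : ℤ) * (if T.ac κ x = k then 1 else 0) := by
    simp_rw [Finset.mul_sum]
    rw [Finset.sum_comm]
    apply Finset.sum_congr rfl
    intro x hx
    have hlt := O.hac κ hκ x (Finset.mem_range.1 hx)
    have e2 : ∀ k ∈ range T.n, ω k * ((S.tvf x : ℤ) * (if T.ac κ x = k then 1 else 0)) =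
        if T.ac κ x = k then ω (T.ac κ x) * (S.tvf x : ℤ) else 0 := by
      intro k _
      split_ifs with h
      · rw [h]
        ring
      · ring
    rw [Finset.sum_congr rfl e2, Finset.sum_ite_eq, if_pos (Finset.mem_range.2 hlt)]
  have e3 : ∀ k ∈ range T.n, (T.n : ℤ) * (S.sc * (ω k * ∑ x ∈ range T.n, (S.tvf x : ℤ) *
      (if T.ac κ x = k then 1 else 0))) = S.sc * m * ω k + T.n * S.d * (ω k * T.vc κ k) := by
    intro k hk
    have h1 := hT κ hκ k (Finset.mem_range.1 hk)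
    rw [sumN_eq] at h1
    have h2 : (T.n : ℤ) * (S.sc * ∑ x ∈ range T.n, (S.tvf x : ℤ) *
        (if T.ac κ x = k then 1 else 0)) + T.n * S.d * T.v0 =
        S.sc * m + T.n * S.d * T.vn κ k := by
      have h3 : ∀ x ∈ range T.n, Nat.mul (S.tvf x) (bn (Nat.beq (T.ac κ x) k)) =
          S.tvf x * (if T.ac κ x = k then 1 else 0) := by
        intro x _
        rw [bn_beq]
        rfl
      rw [Finset.sum_congr rfl h3] at h1
      exact_mod_cast h1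
    unfold Tb.vc
    linear_combination (ω k) * h2
  have hn : (T.n : ℤ) ≠ 0 := by
    have := O.hn
    exact_mod_cast this.ne'
  apply mul_left_cancel₀ hn
  rw [e1, Finset.mul_sum, Finset.mul_sum, Finset.sum_congr rfl e3, Finset.sum_add_distrib,
    ← Finset.mul_sum, hω, ← Finset.mul_sum]
  ring

variable {T : Tb} {P PS : CP} {Q : OP} {S : To} {Y : SP} {Wo Lo : ℕ}

lemma RS_succ (ac : ℕ → ℕ → ℕ) (X : ℕ → ℕ → ℕ) (ω : ℕ → ℤ) (i κ p : ℕ) :
    RS ac X ω i κ (p + 1) = RS ac X ω i κ p + ω (ac κ (X i p)) := by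
  unfold RS
  rw [Finset.sum_range_succ]

lemma sum_step {n x0 : ℕ} (hx0 : x0 < n) (v u : ℕ → ℤ) :
    ∑ x ∈ range n, v x * (u x + if x0 = x then 1 else 0) =
      ∑ x ∈ range n, v x * u x + v x0 := by
  have e : ∀ x ∈ range n, v x * (u x + if x0 = x then 1 else 0) =
      v x * u x + if x0 = x then v x else 0 := by
    intro x _
    split_ifs <;> ring
  rw [Finset.sum_congr rfl e, Finset.sum_add_distrib, Finset.sum_ite_eq,
    if_pos (Finset.mem_range.2 hx0)]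

/-- sums over prefixes of the long block -/
lemma PBlk.RSZ (B : PBlk T P PS Q S Y Wo Lo) (ω : ℕ → ℤ) {i κ : ℕ} : ∀ j, j < Y.q → ∀ s, s < Q.m →
    RS T.ac (XZ Q S) ω i κ (Q.m * j + s) =
      ∑ x ∈ range T.n, ω (T.ac κ x) * ((zc P Y j x : ℤ) + cnt Q T.n j x s) := by
  have hm := B.hm
  have hXZ : ∀ j s, s < Q.m → XZ Q S i (Q.m * j + s) = S.XB j s := by
    intro j s hs
    unfold XZ
    rw [Nat.mul_add_div (by omega), Nat.div_eq_of_lt hs, Nat.add_zero, Nat.mul_add_mod,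
      Nat.mod_eq_of_lt hs]
  have inner : ∀ j, j < Y.q → RS T.ac (XZ Q S) ω i κ (Q.m * j + 0) =
      ∑ x ∈ range T.n, ω (T.ac κ x) * ((zc P Y j x : ℤ) + cnt Q T.n j x 0) →
      ∀ s, s < Q.m → RS T.ac (XZ Q S) ω i κ (Q.m * j + s) =
        ∑ x ∈ range T.n, ω (T.ac κ x) * ((zc P Y j x : ℤ) + cnt Q T.n j x s) := by
    intro j hj h0 s
    induction s with
    | zero => intro _; exact h0
    | succ s ih =>
      intro hs
      rw [← Nat.add_assoc, RS_succ, ih (by omega), hXZ j s (by omega)]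
      have e : ∀ x ∈ range T.n, ω (T.ac κ x) * ((zc P Y j x : ℤ) + cnt Q T.n j x (s + 1)) =
          ω (T.ac κ x) * (((zc P Y j x : ℤ) + cnt Q T.n j x s) +
            if S.XB j s = x then 1 else 0) := by
        intro x hx
        rw [B.c1 j hj x (Finset.mem_range.1 hx) s (by omega)]
        push_cast
        ring
      rw [Finset.sum_congr rfl e, sum_step (B.hx j hj s (by omega))]
  intro j
  induction j with
  | zero =>
    intro hj
    apply inner 0 hj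
    rw [Nat.mul_zero]
    have e : ∀ x ∈ range T.n, ω (T.ac κ x) * ((zc P Y 0 x : ℤ) + cnt Q T.n 0 x 0) = 0 := by
      intro x hx
      rw [B.z0 x (Finset.mem_range.1 hx), B.c0 0 hj x (Finset.mem_range.1 hx)]
      simp
    rw [Finset.sum_eq_zero e]
    simp [RS]
  | succ j ih =>
    intro hj
    apply inner (j + 1) hj
    have e0 : Q.m * (j + 1) + 0 = (Q.m * j + (Q.m - 1)) + 1 := by
      rw [Nat.mul_succ]
      omega
    rw [e0, RS_succ, ih (by omega) (Q.m - 1) (by omega), hXZ j (Q.m - 1) (by omega)]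
    have e : ∀ x ∈ range T.n, ω (T.ac κ x) * ((zc P Y (j + 1) x : ℤ) + cnt Q T.n (j + 1) x 0) =
        ω (T.ac κ x) * (((zc P Y j x : ℤ) + cnt Q T.n j x (Q.m - 1)) +
          if S.XB j (Q.m - 1) = x then 1 else 0) := by
      intro x hx
      rw [B.z1 j (by omega) x (Finset.mem_range.1 hx), B.c0 (j + 1) hj x (Finset.mem_range.1 hx)]
      push_cast
      ring
    rw [Finset.sum_congr rfl e, sum_step (B.hx j (by omega) (Q.m - 1) (by omega))]

/-- sums over the long block -/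
lemma PBlk.RSZ_tot (B : PBlk T P PS Q S Y Wo Lo) (ω : ℕ → ℤ) {i κ : ℕ} :
    RS T.ac (XZ Q S) ω i κ Y.m = ∑ x ∈ range T.n, ω (T.ac κ x) * S.tvf x := by
  have hm := B.hm
  have hq := B.hq
  have e0 : Y.m = (Q.m * (Y.q - 1) + (Q.m - 1)) + 1 := by
    rw [B.hmq]
    obtain ⟨q, hq'⟩ : ∃ q, Y.q = q + 1 := ⟨Y.q - 1, by omega⟩
    rw [hq', Nat.mul_succ]
    simp only [Nat.add_sub_cancel]
    omega
  have hXZ : XZ Q S i (Q.m * (Y.q - 1) + (Q.m - 1)) = S.XB (Y.q - 1) (Q.m - 1) := by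
    unfold XZ
    rw [Nat.mul_add_div (by omega), Nat.div_eq_of_lt (by omega), Nat.add_zero, Nat.mul_add_mod,
      Nat.mod_eq_of_lt (by omega)]
  rw [e0, RS_succ, B.RSZ ω (Y.q - 1) (by omega) (Q.m - 1) (by omega), hXZ,
    ← sum_step (B.hx (Y.q - 1) (by omega) (Q.m - 1) (by omega))]
  apply Finset.sum_congr rfl
  intro x hx
  rw [← B.z2 x (Finset.mem_range.1 hx)]
  push_cast
  ring

/-- numbers of letters of prefixes -/
lemma PBlk.sum_cnt (B : PBlk T P PS Q S Y Wo Lo) {j : ℕ} (hj : j < Y.q) {r : ℕ} (hr : r < Q.m) :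
    ∑ x ∈ range T.n, cnt Q T.n j x r = r := by
  induction r with
  | zero => exact Finset.sum_eq_zero (fun x hx => B.c0 j hj x (Finset.mem_range.1 hx))
  | succ r ih =>
    have e : ∀ x ∈ range T.n, cnt Q T.n j x (r + 1) =
        cnt Q T.n j x r + if S.XB j r = x then 1 else 0 :=
      fun x hx => B.c1 j hj x (Finset.mem_range.1 hx) r (by omega)
    rw [Finset.sum_congr rfl e, Finset.sum_add_distrib, ih (by omega), Finset.sum_ite_eq,
      if_pos (Finset.mem_range.2 (B.hx j hj r (by omega)))]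

lemma PBlk.sum_zc (B : PBlk T P PS Q S Y Wo Lo) {j : ℕ} (hj : j < Y.q) :
    ∑ x ∈ range T.n, zc P Y j x = Q.m * j := by
  have hm := B.hm
  have h1 := B.RSZ (fun _ => (1 : ℤ)) (i := 0) (κ := 0) j hj 0 hm
  have h2 : RS T.ac (XZ Q S) (fun _ => (1 : ℤ)) 0 0 (Q.m * j + 0) = ((Q.m * j : ℕ) : ℤ) := by
    unfold RS
    simp
  have h3 : ∑ x ∈ range T.n, cnt Q T.n j x 0 = 0 := B.sum_cnt hj hm
  rw [h2] at h1
  have h4 : (1 : ℤ) * 1 = 1 := by norm_num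
  have h5 : ((∑ x ∈ range T.n, zc P Y j x + ∑ x ∈ range T.n, cnt Q T.n j x 0 : ℕ) : ℤ) =
      ((Q.m * j : ℕ) : ℤ) := by
    rw [h1]
    push_cast
    rw [← Finset.sum_add_distrib]
    apply Finset.sum_congr rfl
    intro x _
    ring
  have h6 : ∑ x ∈ range T.n, zc P Y j x + ∑ x ∈ range T.n, cnt Q T.n j x 0 = Q.m * j := by
    exact_mod_cast h5
  omega

lemma PBlk.acf (B : PBlk T P PS Q S Y Wo Lo) (κ x : ℕ) : acf P Q κ x = T.ac κ x := by
  unfold MPbbea99G.acf Tb.ac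
  rw [B.ea, B.en]

/-! ### values -/

/-- hashed prefix sums of a piece -/
noncomputable def hP (T : Tb) (Q : OP) (j κ r : ℕ) : ℕ :=
  ∑ x ∈ range T.n, phn Q (T.ac κ x) * cnt Q T.n j x r

lemma PBlk.arF_eq (B : PBlk T P PS Q S Y Wo Lo) {j κ : ℕ} (hj : j < Y.q) :
    arF P Q j κ = pk Q.F (hP T Q j κ) Q.m := by
  have e : ∀ x ∈ range T.n, Nat.mul (fd Q.F Q.MF Q.phT (MPbbea99G.acf P Q κ x))
      (nthL Q.cF (Nat.add (Nat.mul P.n j) x)) =
      pk Q.F (fun r => phn Q (T.ac κ x) * cnt Q T.n j x r) Q.m := by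
    intro x hx
    have h1 : nthL Q.cF (Nat.add (Nat.mul P.n j) x) =
        pk Q.F (fun r => cnt Q T.n j x r) Q.m := by
      have := B.cF j hj x (Finset.mem_range.1 hx)
      rw [pkR_eq] at this
      rw [B.en]
      exact this
    rw [B.acf, h1, pk_smul]
    rfl
  unfold MPbbea99G.arF
  rw [B.en] at e ⊢
  rw [sumN_eq, Finset.sum_congr rfl e, ← pk_sum]
  rfl

/-- hashed sums before a piece -/
noncomputable def vZ (T : Tb) (P : CP) (Q : OP) (Y : SP) (κ j : ℕ) : ℕ :=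
  ∑ x ∈ range T.n, phn Q (T.ac κ x) * zc P Y j x

lemma PBlk.vR_eq (B : PBlk T P PS Q S Y Wo Lo) (κ j : ℕ) : vR P Q Y κ j = vZ T P Q Y κ j := by
  unfold MPbbea99G.vR vZ
  rw [sumN_eq, B.en]
  apply Finset.sum_congr rfl
  intro x _
  rw [B.acf]
  rfl

lemma PBlk.val (B : PBlk T P PS Q S Y Wo Lo) {Φ : ℕ → ℤ}
    (hΦ : ∀ y, y < T.n → (phn Q y : ℤ) = S.sc * Φ y + Q.kT) {i j κ r : ℕ} (hj : j < Y.q)
    (hκ : κ < T.γ) (hr : r < Q.m) : ((vZ T P Q Y κ j + hP T Q j κ r : ℕ) : ℤ) =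
      S.sc * RS T.ac (XZ Q S) Φ i κ (Q.m * j + r) + Q.kT * (Q.m * j + r : ℕ) := by
  unfold vZ hP
  rw [B.RSZ Φ j hj r hr]
  have h1 := B.sum_cnt hj hr
  have h2 := B.sum_zc hj
  have h3 : ((Q.m * j + r : ℕ) : ℤ) = ∑ x ∈ range T.n, ((zc P Y j x : ℤ) + cnt Q T.n j x r) := by
    rw [Finset.sum_add_distrib, ← Nat.cast_sum, ← Nat.cast_sum, h1, h2]
    push_cast
    ring
  rw [h3, Finset.mul_sum, Finset.mul_sum, ← Finset.sum_add_distrib]
  push_cast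
  rw [← Finset.sum_add_distrib]
  apply Finset.sum_congr rfl
  intro x hx
  rw [hΦ _ (B.O.hac κ hκ x (Finset.mem_range.1 hx))]
  ring

lemma PBlk.hP_le (B : PBlk T P PS Q S Y Wo Lo) {PM : ℕ} (hPM : ∀ y, y < T.n → phn Q y ≤ PM)
    {j κ r : ℕ} (hj : j < Y.q) (hκ : κ < T.γ) (hr : r < Q.m) : hP T Q j κ r ≤ PM * Q.m := by
  unfold hP
  have h1 : ∑ x ∈ range T.n, phn Q (T.ac κ x) * cnt Q T.n j x r ≤
      ∑ x ∈ range T.n, PM * cnt Q T.n j x r := by
    apply Finset.sum_le_sum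
    intro x hx
    exact Nat.mul_le_mul (hPM _ (B.O.hac κ hκ x (Finset.mem_range.1 hx))) le_rfl
  rw [← Finset.mul_sum, B.sum_cnt hj hr] at h1
  exact h1.trans (Nat.mul_le_mul le_rfl hr.le)

lemma PBlk.vZ_le (B : PBlk T P PS Q S Y Wo Lo) {PM : ℕ} (hPM : ∀ y, y < T.n → phn Q y ≤ PM)
    {j κ : ℕ} (hj : j < Y.q) (hκ : κ < T.γ) : vZ T P Q Y κ j ≤ PM * Y.m := by
  unfold vZ
  have h1 : ∑ x ∈ range T.n, phn Q (T.ac κ x) * zc P Y j x ≤
      ∑ x ∈ range T.n, PM * zc P Y j x := by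
    apply Finset.sum_le_sum
    intro x hx
    exact Nat.mul_le_mul (hPM _ (B.O.hac κ hκ x (Finset.mem_range.1 hx))) le_rfl
  rw [← Finset.mul_sum, B.sum_zc hj] at h1
  refine h1.trans (Nat.mul_le_mul le_rfl ?_)
  rw [B.hmq]
  exact Nat.mul_le_mul le_rfl hj.le

/-! ### functionals -/

lemma PBlk.chv_le (B : PBlk T P PS Q S Y Wo Lo) {ro y f : ℕ} (hy : y < T.n) (hf : f < Lo) :
    chv T S ro y f ≤ 2 * (S.sc * T.cx) := by
  have h2 : T.chr ro f y ≤ 2 * T.cx := Tb.chz_le ro (B.O.hcx f (hf.trans_le B.hLo) y hy)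
  show S.sc * _ ≤ _
  calc S.sc * T.chr ro f y ≤ S.sc * (2 * T.cx) := Nat.mul_le_mul le_rfl h2
    _ = 2 * (S.sc * T.cx) := by ring

lemma PBlk.chv_val (B : PBlk T P PS Q S Y Wo Lo) {ro y f : ℕ} (hro : ro < 2) (hy : y < T.n)
    (hf : f < Lo) : (chv T S ro y f : ℤ) = S.sc * T.cx + sg ro * (S.sc * T.χ f y) := by
  have h1 := TOKB.chr_val B.O hro (hf.trans_le B.hLo) hy
  have e : chv T S ro y f = S.sc * T.chr ro f y := rfl
  rw [e, Nat.cast_mul, h1]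
  ring

lemma PBlk.chT (B : PBlk T P PS Q S Y Wo Lo) {ro y : ℕ} (hro : ro < 2) (hy : y < T.n) :
    fd Q.W Q.MW Q.chT (Nat.add (Nat.mul P.n ro) y) = pk Wo (chv T S ro y) Lo := by
  have hn := B.O.hn
  rw [B.hch, B.hMW, pkR_eq, B.en]
  have hi : Nat.add (Nat.mul T.n ro) y < 2 * T.n := by
    show T.n * ro + y < 2 * T.n
    have : T.n * ro ≤ T.n * 1 := Nat.mul_le_mul le_rfl (by omega)
    omega
  rw [fd_pk _ hi]
  · have d1 : Nat.div (Nat.add (Nat.mul T.n ro) y) T.n = ro := by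
      show (T.n * ro + y) / T.n = ro
      rw [Nat.mul_add_div hn, Nat.div_eq_of_lt hy, Nat.add_zero]
    have d2 : Nat.mod (Nat.add (Nat.mul T.n ro) y) T.n = y := by
      show (T.n * ro + y) % T.n = y
      rw [Nat.mul_add_mod, Nat.mod_eq_of_lt hy]
    rw [d1, d2, pkR_eq]
  · intro j hj
    rw [pkR_eq, B.hQW]
    apply pk_lt
    intro f hf
    have h1 := B.chv_le (ro := Nat.div j T.n) (y := Nat.mod j T.n) (Nat.mod_lt _ hn) hf
    have h2 := B.hb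
    have h3 : 2 * (S.sc * T.cx) ≤ 2 * (S.sc * T.cx) * (Y.m + Q.m) := by
      apply Nat.le_mul_of_pos_right
      have := B.hm
      omega
    have h4 := pow_pred B.hWo
    omega

/-- packed functionals of prefixes of a piece -/
noncomputable def gP (T : Tb) (Q : OP) (S : To) (ro j κ r f : ℕ) : ℕ :=
  ∑ x ∈ range T.n, chv T S ro (T.ac κ x) f * cnt Q T.n j x r +
    S.sc * T.cx * (Q.m - r)

/-- functionals before a piece -/
noncomputable def bP (T : Tb) (P : CP) (Q : OP) (S : To) (Y : SP) (ro κ j f : ℕ) : ℕ :=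
  ∑ x ∈ range T.n, chv T S ro (T.ac κ x) f * zc P Y j x +
    S.sc * T.cx * (Y.m - Q.m * j)

lemma PBlk.gP_le (B : PBlk T P PS Q S Y Wo Lo) {ro j κ r f : ℕ} (hj : j < Y.q) (hκ : κ < T.γ)
    (hr : r < Q.m) (hf : f < Lo) : gP T Q S ro j κ r f ≤ 2 * (S.sc * T.cx) * Q.m := by
  unfold gP
  have h1 : ∑ x ∈ range T.n, chv T S ro (T.ac κ x) f * cnt Q T.n j x r ≤
      ∑ x ∈ range T.n, 2 * (S.sc * T.cx) * cnt Q T.n j x r := by
    apply Finset.sum_le_sum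
    intro x hx
    exact Nat.mul_le_mul (B.chv_le (B.O.hac κ hκ x (Finset.mem_range.1 hx)) hf) le_rfl
  rw [← Finset.mul_sum, B.sum_cnt hj hr] at h1
  have h2 : S.sc * T.cx * (Q.m - r) ≤ 2 * (S.sc * T.cx) * (Q.m - r) := by
    apply Nat.mul_le_mul _ le_rfl
    omega
  have h3 : 2 * (S.sc * T.cx) * r + 2 * (S.sc * T.cx) * (Q.m - r) =
      2 * (S.sc * T.cx) * Q.m := by
    rw [← Nat.mul_add]
    congr 1
    omega
  omega

lemma PBlk.bP_le (B : PBlk T P PS Q S Y Wo Lo) {ro j κ f : ℕ} (hj : j < Y.q) (hκ : κ < T.γ)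
    (hf : f < Lo) : bP T P Q S Y ro κ j f ≤ 2 * (S.sc * T.cx) * Y.m := by
  unfold bP
  have h1 : ∑ x ∈ range T.n, chv T S ro (T.ac κ x) f * zc P Y j x ≤
      ∑ x ∈ range T.n, 2 * (S.sc * T.cx) * zc P Y j x := by
    apply Finset.sum_le_sum
    intro x hx
    exact Nat.mul_le_mul (B.chv_le (B.O.hac κ hκ x (Finset.mem_range.1 hx)) hf) le_rfl
  rw [← Finset.mul_sum, B.sum_zc hj] at h1
  have h2 : S.sc * T.cx * (Y.m - Q.m * j) ≤ 2 * (S.sc * T.cx) * (Y.m - Q.m * j) := by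
    apply Nat.mul_le_mul _ le_rfl
    omega
  have h4 : Q.m * j ≤ Y.m := by
    rw [B.hmq]
    exact Nat.mul_le_mul le_rfl hj.le
  have h3 : 2 * (S.sc * T.cx) * (Q.m * j) + 2 * (S.sc * T.cx) * (Y.m - Q.m * j) =
      2 * (S.sc * T.cx) * Y.m := by
    rw [← Nat.mul_add]
    congr 1
    omega
  omega

/-- the value of the functionals -/
lemma PBlk.fun_val (B : PBlk T P PS Q S Y Wo Lo) {ro i κ j r f : ℕ} (hro : ro < 2) (hj : j < Y.q)
    (hκ : κ < T.γ) (hr : r < Q.m) (hf : f < Lo) :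
    ((bP T P Q S Y ro κ j f + gP T Q S ro j κ r f : ℕ) : ℤ) =
      (S.sc * T.cx * (Y.m + Q.m) : ℕ) +
        sg ro * (S.sc * RS T.ac (XZ Q S) (T.χ f) i κ (Q.m * j + r)) := by
  unfold bP gP
  rw [B.RSZ (T.χ f) j hj r hr]
  have h1 := B.sum_cnt hj hr
  have h2 := B.sum_zc hj
  have h4 : Q.m * j ≤ Y.m := by
    rw [B.hmq]
    exact Nat.mul_le_mul le_rfl hj.le
  have h3 : ((Q.m * j + r : ℕ) : ℤ) = ∑ x ∈ range T.n, ((zc P Y j x : ℤ) + cnt Q T.n j x r) := by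
    rw [Finset.sum_add_distrib, ← Nat.cast_sum, ← Nat.cast_sum, h1, h2]
    push_cast
    ring
  have h5 : (∑ x ∈ range T.n, (chv T S ro (T.ac κ x) f : ℤ) * zc P Y j x) +
      ∑ x ∈ range T.n, (chv T S ro (T.ac κ x) f : ℤ) * cnt Q T.n j x r =
      S.sc * T.cx * (Q.m * j + r : ℕ) + sg ro * (S.sc * ∑ x ∈ range T.n, T.χ f (T.ac κ x) *
        ((zc P Y j x : ℤ) + cnt Q T.n j x r)) := by
    rw [h3, Finset.mul_sum, Finset.mul_sum, Finset.mul_sum, ← Finset.sum_add_distrib,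
      ← Finset.sum_add_distrib]
    apply Finset.sum_congr rfl
    intro x hx
    rw [B.chv_val hro (B.O.hac κ hκ x (Finset.mem_range.1 hx)) hf]
    ring
  have e1 : ((Q.m - r : ℕ) : ℤ) = Q.m - r := by
    rw [Nat.cast_sub hr.le]
  have e2 : ((Y.m - Q.m * j : ℕ) : ℤ) = Y.m - Q.m * j := by
    rw [Nat.cast_sub h4]
    push_cast
    ring
  push_cast at h5 ⊢
  rw [e1, e2]
  linear_combination h5

lemma PBlk.arG_eq (B : PBlk T P PS Q S Y Wo Lo) {ro j κ : ℕ} (hro : ro < 2) (hj : j < Y.q)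
    (hκ : κ < T.γ) : arG P Q ro j κ = pk Q.W (fun r => pk Wo (gP T Q S ro j κ r) Lo) Q.m := by
  have e : ∀ x ∈ range T.n, Nat.mul (fd Q.W Q.MW Q.chT (Nat.add (Nat.mul P.n ro)
      (MPbbea99G.acf P Q κ x))) (nthL Q.cG (Nat.add (Nat.mul P.n j) x)) =
      pk Q.W (fun r => pk Wo (fun f => chv T S ro (T.ac κ x) f *
        cnt Q T.n j x r) Lo) Q.m := by
    intro x hx
    have hx' := Finset.mem_range.1 hx
    have h1 : nthL Q.cG (Nat.add (Nat.mul P.n j) x) =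
        pk Q.W (fun r => cnt Q T.n j x r) Q.m := by
      have := B.cG j hj x hx'
      rw [pkR_eq] at this
      rw [B.en]
      exact this
    rw [B.acf, h1, B.chT hro (B.O.hac κ hκ x hx')]
    show pk Wo (chv T S ro (T.ac κ x)) Lo * pk Q.W (fun r => cnt Q T.n j x r) Q.m = _
    rw [← pk_smul]
    apply pk_congr
    intro r _
    rw [Nat.mul_comm, ← pk_smul]
    apply pk_congr
    intro f _
    rw [Nat.mul_comm]
  unfold MPbbea99G.arG
  rw [B.hNA]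
  rw [sumN_eq]
  show (∑ x ∈ range P.n, _) + pkR Q.W _ Q.m = _
  rw [B.en] at e ⊢
  rw [Finset.sum_congr rfl e, ← pk_sum, pkR_eq, ← pk_add]
  apply pk_congr
  intro r _
  rw [← pk_sum, pkR_eq, ← pk_add]
  rfl

lemma PBlk.bR_eq (B : PBlk T P PS Q S Y Wo Lo) {ro κ : ℕ} (hro : ro < 2) (hκ : κ < T.γ) (j : ℕ) :
    bR P Q Y ro κ j = pk Wo (bP T P Q S Y ro κ j) Lo := by
  have e : ∀ x ∈ range T.n, Nat.mul (fd Q.W Q.MW Q.chT (Nat.add (Nat.mul P.n ro)
      (MPbbea99G.acf P Q κ x))) (zc P Y j x) =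
      pk Wo (fun f => chv T S ro (T.ac κ x) f * zc P Y j x) Lo := by
    intro x hx
    have hx' := Finset.mem_range.1 hx
    rw [B.acf, B.chT hro (B.O.hac κ hκ x hx')]
    show pk Wo (chv T S ro (T.ac κ x)) Lo * zc P Y j x = _
    rw [Nat.mul_comm, ← pk_smul]
    apply pk_congr
    intro f _
    rw [Nat.mul_comm]
  unfold MPbbea99G.bR
  rw [B.hu, pkR_eq, sumN_eq]
  show (∑ x ∈ range P.n, _) + (Y.m - Q.m * j) * pk Wo _ Lo = _
  rw [B.en] at e ⊢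
  rw [Finset.sum_congr rfl e, ← pk_smul, ← pk_sum, ← pk_add]
  apply pk_congr
  intro f _
  unfold bP
  show _ + (Y.m - Q.m * j) * (S.sc * T.cx) = _
  rw [Nat.mul_comm (Y.m - Q.m * j)]

/-- the bounds inside a piece -/
lemma PBlk.eR_eq (B : PBlk T P PS Q S Y Wo Lo) {ro κ j : ℕ} (hro : ro < 2) (hκ : κ < T.γ)
    (hj : j < Y.q) : eR P Q Y ro κ j = pk Wo (eF P Q Y Wo ro κ j) Lo := by
  have h1 : eR P Q Y ro κ j = fd Q.W Q.MW (nthL Y.eT (T.γ * ro + κ)) j := by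
    unfold MPbbea99G.eR
    rw [B.eγ]
    rfl
  rw [h1, B.eT ro hro κ hκ, B.hMW, pkR_eq, fd_pk _ hj, pkR_eq]
  intro j' hj'
  rw [pkR_eq, B.hQW]
  apply pk_lt
  intro f hf
  have g1 := B.hbe ro hro κ hκ j' hj' f hf
  have g2 := B.hb
  have g3 : 2 * (S.sc * T.cx) * Q.m ≤ 2 * (S.sc * T.cx) * (Y.m + Q.m) :=
    Nat.mul_le_mul le_rfl (by omega)
  have g4 := pow_pred B.hWo
  omega

/-- the rows of the table of pieces -/
noncomputable def pP (T : Tb) (P : CP) (Q : OP) (S : To) (Y : SP) (Wo ro κ j f : ℕ) : ℕ :=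
  bP T P Q S Y ro κ j f + eF P Q Y Wo ro κ j f

lemma PBlk.pP_lt (B : PBlk T P PS Q S Y Wo Lo) {ro κ j f : ℕ} (hro : ro < 2) (hκ : κ < T.γ)
    (hj : j < Y.q) (hf : f < Lo) : pP T P Q S Y Wo ro κ j f < 2 ^ (Wo - 1) := by
  have g1 := B.hbe ro hro κ hκ j hj f hf
  have g2 := B.hb
  have g3 := B.bP_le (ro := ro) hj hκ hf
  have g4 : 2 * (S.sc * T.cx) * (Y.m + Q.m) = 2 * (S.sc * T.cx) * Y.m +
    2 * (S.sc * T.cx) * Q.m := by ring
  unfold pP
  omega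

lemma PBlk.gT' (B : PBlk T P PS Q S Y Wo Lo) {ro κ : ℕ} (hro : ro < 2) (hκ : κ < T.γ) :
    nthL PS.gT (T.γ * ro + κ) =
      pk (Wo * Lo) (fun j => pk Wo (pP T P Q S Y Wo ro κ j) Lo) Y.q := by
  rw [B.gT ro hro κ hκ, pkR_eq, B.hQW]
  apply pk_congr
  intro j hj
  show MPbbea99G.bR P Q Y ro κ j + MPbbea99G.eR P Q Y ro κ j = _
  rw [B.bR_eq hro hκ j, B.eR_eq hro hκ hj, ← pk_add]
  rfl

lemma PBlk.pR_eq (B : PBlk T P PS Q S Y Wo Lo) {ro κ j : ℕ} (hro : ro < 2) (hκ : κ < T.γ)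
    (hj : j < Y.q) : pR P PS Q ro κ j = pk Wo (pP T P Q S Y Wo ro κ j) Lo := by
  have h1 : pR P PS Q ro κ j = fd Q.W Q.MW (nthL PS.gT (T.γ * ro + κ)) j := by
    unfold MPbbea99G.pR
    rw [B.eγ]
    rfl
  rw [h1, B.gT' hro hκ, B.hMW, B.hQW, fd_pk _ hj]
  intro j' hj'
  apply pk_lt
  intro f hf
  have g1 := B.pP_lt hro hκ hj' hf
  have g4 := pow_pred B.hWo
  omega

/-- the bounds inside a piece are bounds -/
lemma PBlk.gP_eF (B : PBlk T P PS Q S Y Wo Lo) {ro κ j r f : ℕ} (hro : ro < 2) (hκ : κ < T.γ)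
    (hj : j < Y.q) (hr : r < Q.m) (hf : f < Lo) :
    gP T Q S ro j κ r f ≤ eF P Q Y Wo ro κ j f := by
  have hlt : ∀ r, r < Q.m → ∀ f, f < Lo → gP T Q S ro j κ r f < 2 ^ (Wo - 1) := by
    intro r hr f hf
    have g1 := B.gP_le (ro := ro) hj hκ hr hf
    have g2 := B.hb
    have g3 : 2 * (S.sc * T.cx) * Q.m ≤ 2 * (S.sc * T.cx) * (Y.m + Q.m) :=
      Nat.mul_le_mul le_rfl (by omega)
    omega
  have h1 := allN_spec (B.eC ro hro κ hκ j hj) r hr
  have h2 : hib (MPbbea99G.eR P Q Y ro κ j + Q.HO - fd Q.W Q.MW (MPbbea99G.arG P Q ro j κ) r)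
      Q.HO = true := h1
  have h3 : fd Q.W Q.MW (MPbbea99G.arG P Q ro j κ) r = pk Wo (gP T Q S ro j κ r) Lo := by
    rw [B.arG_eq hro hj hκ, B.hMW, fd_pk _ hr]
    intro r' hr'
    rw [B.hQW]
    apply pk_lt
    intro f hf
    have := hlt r' hr' f hf
    have g4 := pow_pred B.hWo
    omega
  rw [h3, B.eR_eq hro hκ hj, B.hHO, pkR_eq] at h2
  apply hib_sub B.hWo _ (hlt r hr) h2 f hf
  intro f' hf'
  have g1 := B.hbe ro hro κ hκ j hj f' hf'
  have g2 := B.hb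
  have g3 : 2 * (S.sc * T.cx) * Q.m ≤ 2 * (S.sc * T.cx) * (Y.m + Q.m) :=
    Nat.mul_le_mul le_rfl (by omega)
  omega

/-- the bounds of the pieces are below the bound of the block -/
lemma PBlk.pP_xF (B : PBlk T P PS Q S Y Wo Lo) {ro κ j f : ℕ} (hro : ro < 2) (hκ : κ < T.γ)
    (hj : j < Y.q) (hf : f < Lo) : pP T P Q S Y Wo ro κ j f ≤ xF T Q S Y ro κ f := by
  have h1 := B.xC ro hro κ hκ j hj
  have h2 : hib (nthL PS.xT (P.γ * ro + κ) + Q.HO - MPbbea99G.pR P PS Q ro κ j) Q.HO = true := h1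
  rw [B.pR_eq hro hκ hj, B.eγ, B.xT ro hro κ hκ, B.hHO, pkR_eq, pkR_eq] at h2
  exact hib_sub B.hWo (B.hbx ro hro κ hκ) (fun f hf => B.pP_lt hro hκ hj hf) h2 f hf

/-- the certificate of the outer level -/
theorem PBlk.ocert (B : PBlk T P PS Q S Y Wo Lo)
    (hT : ∀ κ, κ < T.γ → ∀ k, k < T.n → T.n * (S.sc * sumN (fun x =>
      Nat.mul (S.tvf x) (bn (Nat.beq (T.ac κ x) k))) T.n) + T.n * S.d * T.v0 =
        S.sc * Y.m + T.n * S.d * T.vn κ k) :
    OCert Y.m P.M P.γ Lo T.ac (XZ Q S) T.χ T.th T.U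
      (fun f i κ r => RS T.ac (XZ Q S) (T.χ f) i κ r) S.sc S.d := by
  have hm := B.hm
  constructor
  case hd => exact_mod_cast B.hd
  case hR => intro f _ i _ κ _ r _; rfl
  case hRm =>
    rw [B.eγ]
    intro f hf i hi κ hκ
    rw [B.RSZ_tot]
    exact Tb.tot' B.O hT (TOKB.χ_sum B.O (hf.trans_le B.hLo)) hκ
  case hU =>
    rw [B.eγ]
    intro f hf ro hro i hi κ hκ r hr
    obtain ⟨j, s, hs, er⟩ : ∃ j s, s < Q.m ∧ r = Q.m * j + s :=
      ⟨r / Q.m, r % Q.m, Nat.mod_lt _ hm, (Nat.div_add_mod r Q.m).symm⟩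
    have hj : j < Y.q := by
      rw [B.hmq] at hr
      by_contra hcon
      push Not at hcon
      have : Q.m * Y.q ≤ Q.m * j := Nat.mul_le_mul le_rfl hcon
      omega
    have h0 := B.gP_eF hro hκ hj hs hf
    have h1 := B.pP_xF hro hκ hj hf
    have h2 : ((bP T P Q S Y ro κ j f + gP T Q S ro j κ s f : ℕ) : ℤ) ≤
        (xF T Q S Y ro κ f : ℤ) := by
      have : bP T P Q S Y ro κ j f + gP T Q S ro j κ s f ≤ xF T Q S Y ro κ f := by
        unfold pP at h1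
        omega
      exact_mod_cast this
    rw [B.fun_val (i := i) hro hj hκ hs hf] at h2
    have h3 : (xF T Q S Y ro κ f : ℤ) = (S.sc * T.cx * (Y.m + Q.m) : ℕ) +
        S.d * T.U f ro κ := by
      have : xF T Q S Y ro κ f = S.sc * T.cx * (Y.m + Q.m) + S.d * T.un f ro κ := rfl
      rw [this]
      unfold Tb.U
      push_cast
      ring
    rw [h3] at h2
    show sg ro * (S.sc * RS T.ac (XZ Q S) (T.χ f) i κ r) ≤ S.d * T.U f ro κ
    rw [er]
    linarith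

end MPbbea99G
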