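import Pool.Agent.Lib.Pbbea99G.VOut

/-!
# MP_bbea99_co: soundness of the window check, abstract form
-/

namespace MPbbea99G

open Finset MPbbea99S MPbbea99T

/-- the comparison excludes equality of totals -/
lemma cmp_abs {Q : OP} (hF : 1 ≤ Q.F) (hON : Q.ON = pk Q.F (fun _ => 1) Q.m)
    (hKO : Q.KO = pk Q.F (fun _ => 2 ^ (Q.F - 1) - 1) Q.m)
    (hGO : Q.GO = pk Q.F (fun _ => 2 ^ (Q.F - 1)) Q.m) {Tc Te BR : ℕ} {tc te : ℕ → ℕ}
    (hTc : Tc = pk Q.F tc Q.m) (hTe : Te = pk Q.F te Q.m)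
    (rC : ∀ r, r < Q.m → tc r ≤ BR) (rE : ∀ r, r < Q.m → te r ≤ BR)
    {X2 Y2 lo lo' cnt j : ℕ} (hcnt : cnt ≤ Q.m)
    (hX2 : X2 + BR < 2 ^ (Q.F - 1)) (hY2 : Y2 + BR < 2 ^ (Q.F - 1))
    (hj : j < cnt) (h1 : lo + j < Q.m) (h2 : lo' + j < Q.m)
    (hc : cmpO Q X2 Y2 Tc Te lo lo' cnt Q.m = true) :
    X2 + tc (lo + j) ≠ Y2 + te (lo' + j) := by
  intro heq
  have hpp := pow_pred hF
  have hlC : ∀ r, r < Q.m → tc r < 2 ^ Q.F := by
    intro r hr
    have := rC r hr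
    omega
  have hlE : ∀ r, r < Q.m → te r < 2 ^ Q.F := by
    intro r hr
    have := rE r hr
    omega
  unfold cmpO at hc
  rw [hTc, hTe, hON, hKO, hGO] at hc
  have hc' : nz ((pk Q.F tc Q.m >>> (Q.F * lo) + X2 * pk Q.F (fun _ => 1) Q.m) ^^^
    (pk Q.F te Q.m >>> (Q.F * lo') + Y2 * pk Q.F (fun _ => 1) Q.m))
    (pk Q.F (fun _ => 2 ^ (Q.F - 1) - 1) Q.m >>> (Q.F * (Q.m - cnt)))
    (pk Q.F (fun _ => 2 ^ (Q.F - 1)) Q.m >>> (Q.F * (Q.m - cnt))) = true := hc
  have hp0 : 0 < 2 ^ (Q.F - 1) := by positivity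
  rw [shr_pk hF hlC, shr_pk hF hlE, ← pk_smul, ← pk_smul,
    ← pk_add, ← pk_add, shr_const (c := 2 ^ (Q.F - 1) - 1) (by omega) hcnt,
    shr_const (c := 2 ^ (Q.F - 1)) (by omega) hcnt] at hc'
  have hS : ∀ (tt : ℕ → ℕ) (lo Z : ℕ), (∀ r, r < Q.m → tt r ≤ BR) → Z + BR < 2 ^ (Q.F - 1) →
      ∀ v, v < Q.m → (if v + lo < Q.m then tt (v + lo) else 0) + Z * 1 < 2 ^ (Q.F - 1) := by
    intro tt lo Z ht hZ v _
    split_ifs with g1
    · have := ht _ g1
      omega
    · omega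
  have hfS : ∀ (tt : ℕ → ℕ) (lo Z : ℕ), (∀ r, r < Q.m → tt r ≤ BR) → Z + BR < 2 ^ (Q.F - 1) →
      ∀ v, v < Q.m →
      (pk Q.F (fun v => (if v + lo < Q.m then tt (v + lo) else 0) + Z * 1) Q.m) /
        2 ^ (Q.F * v) % 2 ^ Q.F = (if v + lo < Q.m then tt (v + lo) else 0) + Z * 1 := by
    intro tt lo Z ht hZ v hv
    apply pk_field _ hv
    intro v' hv'
    have := hS tt lo Z ht hZ v' hv'
    omega
  have hne := nz_sound (Cnt := cnt) hF rfl rfl (by
    intro v hv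
    rw [xor_field, hfS tc lo X2 rC hX2 v (by omega),
      hfS te lo' Y2 rE hY2 v (by omega)]
    exact Nat.xor_lt_two_pow (hS tc lo X2 rC hX2 v (by omega))
      (hS te lo' Y2 rE hY2 v (by omega))) hc' hj
  apply hne
  rw [xor_field, hfS tc lo X2 rC hX2 j (by omega), hfS te lo' Y2 rE hY2 j (by omega),
    if_pos (by omega), if_pos (by omega), Nat.add_comm j lo, Nat.add_comm j lo']
  have : tc (lo + j) + X2 * 1 = te (lo' + j) + Y2 * 1 := by omega
  rw [this, Nat.xor_self]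

/-- the window check excludes coincidences -/
theorem oV0_sound {P : CP} {Q : OP} {V : VP} {W L : ℕ} (O : VOK V W L Q.m) (hF : 1 ≤ Q.F)
    (hMF : Q.MF = 2 ^ Q.F) (hON : Q.ON = pk Q.F (fun _ => 1) Q.m)
    (hKO : Q.KO = pk Q.F (fun _ => 2 ^ (Q.F - 1) - 1) Q.m)
    (hGO : Q.GO = pk Q.F (fun _ => 2 ^ (Q.F - 1)) Q.m)
    (hQW : Q.W = W * L) (hMW : Q.MW = 2 ^ Q.W) (hB : 0 < P.B)
    {Ta Tb Tc Te Fa Fb XB XF X Y BR : ℕ} {ta tb tc te : ℕ → ℕ} {fa fb : ℕ → ℕ → ℕ}
    {ya xb xf : ℕ → ℕ}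
    (hTa : Ta = pk Q.F ta Q.m) (hTb : Tb = pk Q.F tb Q.m) (hTc : Tc = pk Q.F tc Q.m)
    (hTe : Te = pk Q.F te Q.m)
    (rA : ∀ r, r < Q.m → ta r ≤ BR) (rB : ∀ r, r < Q.m → tb r ≤ BR)
    (rC : ∀ r, r < Q.m → tc r ≤ BR) (rE : ∀ r, r < Q.m → te r ≤ BR)
    (hFa : Fa = pk (W * L) (fun r => pk W (fa r) L) Q.m)
    (hFb : Fb = pk (W * L) (fun r => pk W (fb r) L) Q.m)
    (hXB : XB = pk W xb L) (hXF : XF = pk W xf L)
    (bFa : ∀ r, r < Q.m → ∀ f, f < L → fa r f ≤ ya f)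
    (bFb : ∀ r, r < Q.m → ∀ f, f < L → fb r f ≤ xb f)
    (hbd : ∀ f, f < L → xf f + ya f + xb f < 2 ^ W)
    {dl gt zl zv ra rb rc re : ℕ} (ha : ra < Q.m) (hb : rb < Q.m) (hc : rc < Q.m)
    (he : re < Q.m)
    (hfun : ∀ f, f < L → 2 ^ (W - 1) ≤ xf f + fa ra f + fb rb f)
    (heq : X + tb rb + tc rc = Y + ta ra + te re)
    (hX2 : X + 2 * BR < 2 ^ (Q.F - 1)) (hY2 : Y + 2 * BR < 2 ^ (Q.F - 1))
    (hexp : re + (Q.m + ra) = Q.m * dl + rb + rc)
    (hgap : Q.m * gt + P.A * ra + P.B * rc < (P.A + P.B) * (Q.m + rb))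
    (hzl : zl = 1 → ra < rb) (hzv : zv * rb ≤ rc)
    (h : oV0 P V Q dl gt zl zv Ta Tb Tc Te Fa Fb XB XF X Y = true) : False := by
  have hpp := pow_pred hF
  have fFa : fd Q.W Q.MW Fa ra = pk W (fa ra) L := by
    rw [hFa, hMW, hQW]
    refine fd_pk ?_ ha
    intro r hr
    apply pk_lt
    intro f hf
    have h1 := bFa r hr f hf
    have h2 := hbd f hf
    omega
  have fTa : fd Q.F Q.MF Ta ra = ta ra := by
    rw [hTa, hMF]
    refine fd_pk ?_ ha
    intro r hr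
    have := rA r hr
    omega
  have fTb : fd Q.F Q.MF Tb rb = tb rb := by
    rw [hTb, hMF]
    refine fd_pk ?_ hb
    intro r hr
    have := rB r hr
    omega
  unfold oV0 at h
  have p1 : (mskF V (Nat.add Fa (Nat.mul (Nat.add XF XB) V.ON))).testBit ra = true := by
    have hS := rows1 (cnt := Q.m) (y := fun f => xf f + xb f) (Y := Nat.add XF XB) hFa (by
        rw [hXF, hXB]
        show pk W xf L + pk W xb L = _
        rw [← pk_add]) le_rfl (by
        intro r hr f hf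
        have g1 := bFa r hr f hf
        have g2 := hbd f hf
        omega)
    rw [← O.hON] at hS
    refine O.mskF hS ?_ ha ?_
    · intro r hr f hf
      have g1 := bFa r hr f hf
      have g2 := hbd f hf
      omega
    · intro f hf
      have g0 := hfun f hf
      have g1 := bFb rb hb f hf
      omega
  have k1 := enumL_spec h ra (by have := O.hNG; omega) p1
  unfold oV at k1
  rw [fFa, fTa] at k1
  have p2 : (mskF V (Nat.add Fb (Nat.mul (Nat.add XF (pk W (fa ra) L)) V.ON))).testBit rb =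
      true := by
    have hS := rows1 (cnt := Q.m) (y := fun f => xf f + fa ra f)
      (Y := Nat.add XF (pk W (fa ra) L)) hFb (by
        rw [hXF]
        show pk W xf L + pk W (fa ra) L = _
        rw [← pk_add]) le_rfl (by
        intro r hr f hf
        have g1 := bFa ra ha f hf
        have g2 := bFb r hr f hf
        have g3 := hbd f hf
        omega)
    rw [← O.hON] at hS
    refine O.mskF hS ?_ hb ?_
    · intro r hr f hf
      have g1 := bFa ra ha f hf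
      have g2 := bFb r hr f hf
      have g3 := hbd f hf
      omega
    · intro f hf
      have g0 := hfun f hf
      omega
  have hNG : rb < 8 * V.NG := by have := O.hNG; omega
  have l1 : oV1 P Q zv Tc Te (Nat.add X (fd Q.F Q.MF Tb rb)) (Nat.add Y (ta ra))
      (Nat.add (Nat.mul Q.m gt) (Nat.mul P.A ra)) (Nat.mul 2 Q.m) rb
      (Nat.add (Nat.sub (Nat.mul Q.m (Nat.add dl 1)) ra) rb) = true := by
    cases hz1 : Nat.beq zl 1 with
    | true =>
      rw [hz1] at k1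
      have k2 := enumL_spec k1 rb hNG p2
      apply bc_pass (x := Nat.ble rb ra) k2
      cases hb2 : Nat.ble rb ra with
      | false => rfl
      | true =>
        exfalso
        have h2 := Nat.le_of_ble_eq_true hb2
        have h4 := Nat.eq_of_beq_eq_true hz1
        have := hzl h4
        omega
    | false =>
      rw [hz1] at k1
      exact enumL_spec k1 rb hNG p2
  rw [fTb] at l1
  obtain ⟨ob, hob⟩ : ∃ ob, ob = Nat.add (Nat.sub (Nat.mul Q.m (Nat.add dl 1)) ra) rb := ⟨_, rfl⟩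
  have hob1 : ob + ra = Q.m * dl + Q.m + rb := by
    have h1 : ob = (Q.m * (dl + 1) - ra) + rb := hob
    rw [Nat.mul_succ] at h1
    omega
  rw [← hob] at l1
  unfold oV1 oV2 at l1
  -- the range
  obtain ⟨m2, hm2⟩ : ∃ m2, m2 = Nat.mul 2 Q.m := ⟨_, rfl⟩
  rw [← hm2] at l1
  have hm2' : m2 = 2 * Q.m := hm2
  obtain ⟨lo, hlo⟩ : ∃ lo, lo = Nat.add (Nat.sub m2 ob)
    (Nat.sub (Nat.mul zv rb) (Nat.sub m2 ob)) := ⟨_, rfl⟩
  obtain ⟨ct, hct⟩ : ∃ ct, ct = Nat.div (Nat.add (Nat.sub (Nat.mul (Nat.add P.A P.B)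
    (Nat.add Q.m rb)) (Nat.add (Nat.mul Q.m gt) (Nat.mul P.A ra))) (Nat.sub P.B 1)) P.B :=
      ⟨_, rfl⟩
  obtain ⟨hi, hhi⟩ : ∃ hi, hi = Nat.sub (Nat.sub Q.m (Nat.sub ob m2))
    (Nat.sub (Nat.sub Q.m (Nat.sub ob m2)) ct) := ⟨_, rfl⟩
  rw [← hlo, ← hct, ← hhi] at l1
  have hlo' : lo = (m2 - ob) + (zv * rb - (m2 - ob)) := hlo
  have hhi' : hi = (Q.m - (ob - m2)) - ((Q.m - (ob - m2)) - ct) := hhi
  have hrc1 : lo ≤ rc := by omega
  have hcnt : rc < ct := by
    rw [hct]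
    show rc < (((P.A + P.B) * (Q.m + rb)) - (Q.m * gt + P.A * ra) + (P.B - 1)) / P.B
    have h5 : rc + 1 ≤ (((P.A + P.B) * (Q.m + rb)) - (Q.m * gt + P.A * ra) + (P.B - 1)) / P.B := by
      rw [Nat.le_div_iff_mul_le hB]
      have : (rc + 1) * P.B = P.B * rc + P.B := by ring
      omega
    omega
  have hrc2 : rc < hi := by omega
  have hhim : hi ≤ Q.m := by omega
  have hble : Nat.ble hi lo = false := by
    cases hb2 : Nat.ble hi lo with
    | false => rfl
    | true =>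
      have := Nat.le_of_ble_eq_true hb2
      omega
  have l5 := bc_pass (x := Nat.ble hi lo) l1 hble
  have g1 : lo + (rc - lo) = rc := by omega
  have g2 : (Nat.sub (Nat.add lo ob) m2) + (rc - lo) = re := by
    show (lo + ob - m2) + (rc - lo) = re
    omega
  have q1 := rA ra ha
  have q2 := rB rb hb
  have hcmp := cmp_abs (BR := BR) hF hON hKO hGO hTc hTe rC rE (cnt := Nat.sub hi lo)
    (j := rc - lo) (X2 := Nat.add X (tb rb)) (Y2 := Nat.add Y (ta ra)) (by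
    show hi - lo ≤ Q.m
    omega) (by
    show X + tb rb + BR < 2 ^ (Q.F - 1)
    omega) (by
    show Y + ta ra + BR < 2 ^ (Q.F - 1)
    omega) (by
    show rc - lo < hi - lo
    omega) (by omega) (by rw [g2]; exact he) l5
  rw [g1, g2] at hcmp
  exact hcmp heq

/-- the gap condition for the positions in the blocks -/
lemma gap_pos {A B m a b c ra rb rc : ℕ} (ha : ra < m) (hc : rc < m)
    (hg : B * (m * c + rc) + A * (m * a + ra) < (A + B) * (m * b + rb)) :
    m * ((B * c + A * a + (A + B)) - (A + B) * b) + A * ra + B * rc < (A + B) * (m + rb) := by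
  obtain ⟨gt, hgt⟩ : ∃ gt, gt = (B * c + A * a + (A + B)) - (A + B) * b := ⟨_, rfl⟩
  rw [← hgt]
  have e3 : (A + B) * (m + rb) = m * (A + B) + (A + B) * rb := by ring
  rcases Nat.lt_or_ge ((A + B) * b) (B * c + A * a + (A + B)) with h1 | h1
  · have h2 : B * c + A * a + (A + B) = gt + (A + B) * b := by omega
    have h3 : m * (B * c + A * a) + m * (A + B) = m * gt + m * ((A + B) * b) := by
      rw [← Nat.mul_add, h2, Nat.mul_add]
    have e1 : B * (m * c + rc) + A * (m * a + ra) =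
      m * (B * c + A * a) + B * rc + A * ra := by ring
    have e2 : (A + B) * (m * b + rb) = m * ((A + B) * b) + (A + B) * rb := by ring
    rw [e1, e2] at hg
    rw [e3]
    omega
  · have h0 : gt = 0 := by omega
    rw [h0, Nat.mul_zero, e3]
    have h3 : B * rc + B ≤ B * m := by
      rw [← Nat.mul_succ]
      exact Nat.mul_le_mul le_rfl hc
    have h4 : A * ra + A ≤ A * m := by
      rw [← Nat.mul_succ]
      exact Nat.mul_le_mul le_rfl ha
    have h5 : m * (A + B) = A * m + B * m := by ring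
    have h6 : 0 < A + B := by
      rcases Nat.eq_zero_or_pos (A + B) with h7 | h7
      · rw [h7, Nat.zero_mul] at hg
        omega
      · exact h7
    omega

end MPbbea99G
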