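import Pool.Agent.Lib.Pbbea99G.VInst

/-!
# MP_bbea99_co: outer checks keyed by template and blocks
-/

namespace MPbbea99G

open Finset MPbbea99S MPbbea99T

/-- all windows over a quadruple of blocks, the blocks given -/
noncomputable def oTB (P : CP) (V : VP) (Q : OP) (t kb kc ke dl gt zl zv a b c e : ℕ) : Bool :=
  oV0 P V Q dl gt zl zv (arF P Q a 0) (arF P Q b kb) (arF P Q c kc)
    (arF P Q e ke) (arG P Q 1 a 0) (arG P Q 0 b kb)
    (arE P Q 0 kb)
    (Nat.add (Nat.add (valF P Q t) (arE P Q 0 kc)) (arE P Q 1 ke))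
    (Nat.add (valO P Q t) (Nat.mul Q.kT (Nat.mul Q.m dl))) Q.TF

/-- the outer check of a template, the blocks given -/
noncomputable def chkOB (P : CP) (V : VP) (Q : OP) (t a b c e : ℕ) : Bool :=
  oTB P V Q t (dg t P.n) (dg t (Nat.add P.n 1)) (dg t (Nat.add P.n 2)) (dg t (Nat.add P.n 3))
    (dg t (Nat.add P.n 4)) (dg t (Nat.add P.n 5)) (dg t (Nat.add P.n 6)) a b c e

/-- key of a template and the blocks of four digits -/
def okey (Q : OP) (t ia ib ic ie : ℕ) : ℕ :=
  Nat.add (Nat.mul t 4294967296) (Nat.add (bf Q ia) (Nat.add (Nat.mul 256 (bf Q ib))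
    (Nat.add (Nat.mul 65536 (bf Q ic)) (Nat.mul 16777216 (bf Q ie)))))

/-- the outer check of a key -/
noncomputable def oKey (P : CP) (V : VP) (Q : OP) (x : ℕ) : Bool :=
  chkOB P V Q (Nat.div x 4294967296) (Nat.mod x 256) (Nat.mod (Nat.div x 256) 256)
    (Nat.mod (Nat.div x 65536) 256) (Nat.mod (Nat.div x 16777216) 256)

lemma bf_lt (Q : OP) (i : ℕ) : bf Q i < 256 := Nat.mod_lt _ (by norm_num)

lemma chkOV_eq (P : CP) (V : VP) (Q : OP) (t ia ib ic ie : ℕ) :
    chkOV P V Q t ia ib ic ie = chkOB P V Q t (bf Q ia) (bf Q ib) (bf Q ic) (bf Q ie) := rfl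

theorem okey_spec {P : CP} {V : VP} {Q : OP} {t ia ib ic ie : ℕ}
    (h : oKey P V Q (okey Q t ia ib ic ie) = true) : chkOV P V Q t ia ib ic ie = true := by
  rw [chkOV_eq]
  have ha := bf_lt Q ia
  have hb := bf_lt Q ib
  have hc := bf_lt Q ic
  have he := bf_lt Q ie
  have e0 : okey Q t ia ib ic ie = t * 4294967296 + (bf Q ia + (256 * bf Q ib +
    (65536 * bf Q ic + 16777216 * bf Q ie))) := rfl
  unfold oKey at h
  have h1 : Nat.div (okey Q t ia ib ic ie) 4294967296 = t := by
    show okey Q t ia ib ic ie / 4294967296 = t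
    omega
  have h2 : Nat.mod (okey Q t ia ib ic ie) 256 = bf Q ia := by
    show okey Q t ia ib ic ie % 256 = _
    omega
  have h3 : Nat.mod (Nat.div (okey Q t ia ib ic ie) 256) 256 = bf Q ib := by
    show okey Q t ia ib ic ie / 256 % 256 = _
    omega
  have h4 : Nat.mod (Nat.div (okey Q t ia ib ic ie) 65536) 256 = bf Q ic := by
    show okey Q t ia ib ic ie / 65536 % 256 = _
    omega
  have h5 : Nat.mod (Nat.div (okey Q t ia ib ic ie) 16777216) 256 = bf Q ie := by
    show okey Q t ia ib ic ie / 16777216 % 256 = _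
    omega
  rw [h1, h2, h3, h4, h5] at h
  exact h

/-- look-up of a child in a tree of templates and a tree of keys -/
noncomputable def lk2 (Q : OP) (A B : Tr) (ia ib ic ie t : ℕ) : Bool :=
  bc (memTr t A) (memTr (okey Q t ia ib ic ie) B) false

theorem lk2_out {P : CP} {V : VP} {Q : OP} {A B : Tr} (hB : allTr (oKey P V Q) B = true)
    {ia ib ic ie t : ℕ} (h : lk2 Q A B ia ib ic ie t = true) :
    chkOV P V Q t ia ib ic ie = true :=
  okey_spec (memTr_spec hB (bc_and h).2)

theorem lk2_mem {f : ℕ → Bool} {Q : OP} {A B : Tr} (hA : allTr f A = true)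
    {ia ib ic ie t : ℕ} (h : lk2 Q A B ia ib ic ie t = true) : f t = true :=
  memTr_spec hA (bc_and h).1

end MPbbea99G
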