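import Pool.Agent.Lib.Pbbea99G.SubA
import Pool.Agent.Lib.Pbbea99G.SubW
import Pool.Agent.Lib.Pbbea99G.VKey

/-!
# MP_bbea99_co: long blocks cut into pieces: the check functions
-/

namespace MPbbea99G

open Finset MPbbea99S MPbbea99T

/-- data of the pieces: their number, the length of the block, the numbers of letters before
the pieces, a packed constant, the bounds inside the pieces -/
structure SP where
  q : ℕ
  m : ℕ
  zT : ℕ
  uN : ℕ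
  eT : List ℕ

/-- number of a letter before a piece -/
def zc (P : CP) (Y : SP) (j x : ℕ) : ℕ := fd 16 65536 Y.zT (Nat.add (Nat.mul P.n j) x)

/-- hashed sum before a piece -/
noncomputable def vR (P : CP) (Q : OP) (Y : SP) (κ j : ℕ) : ℕ :=
  sumN (fun x => Nat.mul (fd Q.F Q.MF Q.phT (acf P Q κ x)) (zc P Y j x)) P.n

/-- functionals before a piece -/
noncomputable def bR (P : CP) (Q : OP) (Y : SP) (ro κ j : ℕ) : ℕ :=
  Nat.add (sumN (fun x => Nat.mul (fd Q.W Q.MW Q.chT (Nat.add (Nat.mul P.n ro) (acf P Q κ x)))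
    (zc P Y j x)) P.n) (Nat.mul (Nat.sub Y.m (Nat.mul Q.m j)) Y.uN)

/-- bounds inside a piece -/
noncomputable def eR (P : CP) (Q : OP) (Y : SP) (ro κ j : ℕ) : ℕ :=
  fd Q.W Q.MW (nthL Y.eT (Nat.add (Nat.mul P.γ ro) κ)) j

/-- bounds of a piece -/
noncomputable def pR (P PS : CP) (Q : OP) (ro κ j : ℕ) : ℕ :=
  fd Q.W Q.MW (nthL PS.gT (Nat.add (Nat.mul P.γ ro) κ)) j

/-- all windows over a quadruple of pieces -/
noncomputable def oW (P PS : CP) (V : VP) (Q : OP) (Y : SP)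
    (t kb kc ke dl gt zl zv ja jb jc je : ℕ) : Bool :=
  oV0 P V Q
    (Nat.sub (Nat.add (Nat.mul Y.q dl) (Nat.add (Nat.add jb jc) 1))
      (Nat.add (Nat.add je ja) Y.q))
    (gch PS gt ja jb jc) (Nat.mul zl (bn (Nat.beq ja jb))) (Nat.mul zv (bn (Nat.beq jb jc)))
    (arF P Q ja 0) (arF P Q jb kb) (arF P Q jc kc) (arF P Q je ke)
    (arG P Q 1 ja 0) (arG P Q 0 jb kb) (eR P Q Y 0 kb jb)
    (Nat.add (Nat.add (Nat.add (Nat.add (valF P Q t) (bR P Q Y 1 0 ja)) (bR P Q Y 0 kb jb))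
      (pR P PS Q 0 kc jc)) (pR P PS Q 1 ke je))
    (Nat.add (Nat.add (Nat.add (valO P Q t) (Nat.mul Q.kT (Nat.mul Y.m dl)))
      (vR P Q Y kb jb)) (vR P Q Y kc jc))
    (Nat.add (Nat.add Q.TF (vR P Q Y 0 ja)) (vR P Q Y ke je))

/-- the check of a template and four pieces -/
noncomputable def chkW (P PS : CP) (V : VP) (Q : OP) (Y : SP) (t ja jb jc je : ℕ) : Bool :=
  oW P PS V Q Y t (dg t P.n) (dg t (Nat.add P.n 1)) (dg t (Nat.add P.n 2)) (dg t (Nat.add P.n 3))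
    (dg t (Nat.add P.n 4)) (dg t (Nat.add P.n 5)) (dg t (Nat.add P.n 6)) ja jb jc je

/-- key of a template and four pieces -/
def wkey (t ja jb jc je : ℕ) : ℕ :=
  Nat.add (Nat.mul t 4294967296) (Nat.add ja (Nat.add (Nat.mul 256 jb)
    (Nat.add (Nat.mul 65536 jc) (Nat.mul 16777216 je))))

/-- the check of a key -/
noncomputable def oKeyW (P PS : CP) (V : VP) (Q : OP) (Y : SP) (x : ℕ) : Bool :=
  chkW P PS V Q Y (Nat.div x 4294967296) (Nat.mod x 256)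
    (Nat.mod (Nat.div x 256) 256) (Nat.mod (Nat.div x 65536) 256)
    (Nat.mod (Nat.div x 16777216) 256)

theorem wkey_spec {P PS : CP} {V : VP} {Q : OP} {Y : SP} {t ja jb jc je : ℕ} (ha : ja < 256)
    (hb : jb < 256) (hc : jc < 256) (he : je < 256)
    (h : oKeyW P PS V Q Y (wkey t ja jb jc je) = true) : chkW P PS V Q Y t ja jb jc je = true := by
  have e0 : wkey t ja jb jc je = t * 4294967296 + (ja + (256 * jb +
    (65536 * jc + 16777216 * je))) := rfl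
  unfold oKeyW at h
  have h1 : Nat.div (wkey t ja jb jc je) 4294967296 = t := by
    show wkey t ja jb jc je / 4294967296 = t
    omega
  have h2 : Nat.mod (wkey t ja jb jc je) 256 = ja := by
    show wkey t ja jb jc je % 256 = _
    omega
  have h3 : Nat.mod (Nat.div (wkey t ja jb jc je) 256) 256 = jb := by
    show wkey t ja jb jc je / 256 % 256 = _
    omega
  have h4 : Nat.mod (Nat.div (wkey t ja jb jc je) 65536) 256 = jc := by
    show wkey t ja jb jc je / 65536 % 256 = _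
    omega
  have h5 : Nat.mod (Nat.div (wkey t ja jb jc je) 16777216) 256 = je := by
    show wkey t ja jb jc je / 16777216 % 256 = _
    omega
  rw [h1, h2, h3, h4, h5] at h
  exact h

/-- all living quadruples of pieces of a template are in the tree of keys -/
noncomputable def chkE (P PS : CP) (V : VP) (Q : OP) (B : Tr) (t : ℕ) : Bool :=
  aV PS V (fun ja jb _ jc je => memTr (wkey t ja jb jc je) B)
    (dg t (Nat.add P.n 3)) (dg t (Nat.add P.n 4)) (dg t (Nat.add P.n 5)) (dg t (Nat.add P.n 6))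
    (nthL PS.gT (Nat.add (Nat.mul P.γ 1) 0))
    (nthL PS.gT (Nat.add (Nat.mul P.γ 0) (dg t P.n)))
    (nthL PS.gT (Nat.add (Nat.mul P.γ 0) (dg t (Nat.add P.n 1))))
    (nthL PS.gT (Nat.add (Nat.mul P.γ 1) (dg t (Nat.add P.n 2))))
    (Nat.add (Nat.add (nthL PS.xT (Nat.add (Nat.mul P.γ 0) (dg t P.n)))
      (nthL PS.xT (Nat.add (Nat.mul P.γ 0) (dg t (Nat.add P.n 1)))))
      (nthL PS.xT (Nat.add (Nat.mul P.γ 1) (dg t (Nat.add P.n 2)))))
    (Nat.add (nthL PS.xT (Nat.add (Nat.mul P.γ 0) (dg t (Nat.add P.n 1))))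
      (nthL PS.xT (Nat.add (Nat.mul P.γ 1) (dg t (Nat.add P.n 2)))))
    (nthL PS.xT (Nat.add (Nat.mul P.γ 1) (dg t (Nat.add P.n 2))))
    (valF P Q t)

/-- letters of the long block -/
noncomputable def XZ (Q : OP) (S : To) (_ r : ℕ) : ℕ := S.XB (r / Q.m) (r % Q.m)

/-- fields of the bounds inside the pieces -/
noncomputable def eF (P : CP) (Q : OP) (Y : SP) (Wo ro κ j f : ℕ) : ℕ :=
  fd Wo (2 ^ Wo) (eR P Q Y ro κ j) f

/-- bound of all pieces -/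
noncomputable def xF (T : Tb) (Q : OP) (S : To) (Y : SP) (ro κ f : ℕ) : ℕ :=
  Nat.add (Nat.mul (Nat.mul S.sc T.cx) (Nat.add Y.m Q.m)) (Nat.mul S.d (T.un f ro κ))

/-- check of the bounds inside a piece -/
noncomputable def chkP (P : CP) (Q : OP) (Y : SP) (ro κ j : ℕ) : Bool :=
  allN (fun r => hib (Nat.sub (Nat.add (eR P Q Y ro κ j) Q.HO)
    (fd Q.W Q.MW (arG P Q ro j κ) r)) Q.HO) Q.m

/-- the facts behind the tables that do not depend on the sign of the factor -/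
structure TOKB (T : Tb) : Prop where
  hn : 0 < T.n
  hM : 2 ≤ T.M
  hac : ∀ κ, κ < T.γ → ∀ x, x < T.n → T.ac κ x < T.n
  hcx : ∀ f, f < T.L → ∀ k, k < T.n → T.chn f k ≤ 2 * T.cx
  hcz : ∀ f, f < T.L → sumN (fun k => T.chn f k) T.n = T.n * T.cx

theorem TOK.base {T : Tb} (O : TOK T) : TOKB T := ⟨O.hn, O.hM, O.hac, O.hcx, O.hcz⟩

lemma TOKB.chr_val {T : Tb} (O : TOKB T) {ro f k : ℕ} (hro : ro < 2) (hf : f < T.L)
    (hk : k < T.n) : (T.chr ro f k : ℤ) = T.cx + sg ro * T.χ f k :=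
  Tb.chz2_val (c := T.cx) (Q := T.chn f k) (z := T.χ f k) hro (O.hcx f hf k hk) rfl

lemma TOKB.χ_sum {T : Tb} (O : TOKB T) {f : ℕ} (hf : f < T.L) :
    ∑ k ∈ range T.n, T.χ f k = 0 := by
  have := O.hcz f hf
  rw [sumN_eq] at this
  unfold Tb.χ
  rw [Finset.sum_sub_distrib, ← Nat.cast_sum, this]
  simp

/-- the facts behind the tables of the pieces -/
structure PBlk (T : Tb) (P PS : CP) (Q : OP) (S : To) (Y : SP) (Wo Lo : ℕ) : Prop where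
  O : TOKB T
  hLo : Lo ≤ T.L
  en : P.n = T.n
  eγ : P.γ = T.γ
  eM : P.M = T.M
  ea : Q.acT = T.acT
  hm : 0 < Q.m
  hq : 0 < Y.q
  hq2 : Y.q < 256
  hmq : Y.m = Q.m * Y.q
  hF : 1 ≤ Q.F
  hMF : Q.MF = 2 ^ Q.F
  hx : ∀ β, β < Y.q → ∀ r, r < Q.m → S.XB β r < T.n
  c0 : ∀ β, β < Y.q → ∀ x, x < T.n → cnt Q T.n β x 0 = 0
  c1 : ∀ β, β < Y.q → ∀ x, x < T.n → ∀ r, r < Q.m - 1 →
    cnt Q T.n β x (r + 1) = cnt Q T.n β x r + if S.XB β r = x then 1 else 0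
  z0 : ∀ x, x < T.n → zc P Y 0 x = 0
  z1 : ∀ j, j < Y.q - 1 → ∀ x, x < T.n → zc P Y (j + 1) x = zc P Y j x +
    cnt Q T.n j x (Q.m - 1) + if S.XB j (Q.m - 1) = x then 1 else 0
  z2 : ∀ x, x < T.n → zc P Y (Y.q - 1) x + cnt Q T.n (Y.q - 1) x (Q.m - 1) +
    (if S.XB (Y.q - 1) (Q.m - 1) = x then 1 else 0) = S.tvf x
  cF : ∀ β, β < Y.q → ∀ x, x < T.n →
    nthL Q.cF (T.n * β + x) = pkR Q.F (fun r => cnt Q T.n β x r) Q.m
  cG : ∀ β, β < Y.q → ∀ x, x < T.n →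
    nthL Q.cG (T.n * β + x) = pkR Q.W (fun r => cnt Q T.n β x r) Q.m
  hsc : 0 < S.sc
  hd : 0 < S.d
  hWo : 0 < Wo
  hQW : Q.W = Wo * Lo
  hMW : Q.MW = 2 ^ Q.W
  hch : Q.chT = pkR Q.W (fun i => pkR Wo (fun f => chv T S (Nat.div i T.n) (Nat.mod i T.n) f) Lo)
    (2 * T.n)
  hNA : Q.NA = pkR Q.W (fun r => pkR Wo (fun _ => Nat.mul (Nat.mul S.sc T.cx) (Nat.sub Q.m r)) Lo)
    Q.m
  hu : Y.uN = pkR Wo (fun _ => Nat.mul S.sc T.cx) Lo
  hHO : Q.HO = pkR Wo (fun _ => 2 ^ (Wo - 1)) Lo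
  eT : ∀ ro, ro < 2 → ∀ κ, κ < T.γ → nthL Y.eT (T.γ * ro + κ) =
    pkR Q.W (fun j => pkR Wo (fun f => eF P Q Y Wo ro κ j f) Lo) Y.q
  gT : ∀ ro, ro < 2 → ∀ κ, κ < T.γ → nthL PS.gT (T.γ * ro + κ) =
    pkR Q.W (fun j => Nat.add (bR P Q Y ro κ j) (eR P Q Y ro κ j)) Y.q
  xT : ∀ ro, ro < 2 → ∀ κ, κ < T.γ → nthL PS.xT (T.γ * ro + κ) =
    pkR Wo (fun f => xF T Q S Y ro κ f) Lo
  hb : 2 * (S.sc * T.cx) * (Y.m + Q.m) < 2 ^ (Wo - 1)
  hbe : ∀ ro, ro < 2 → ∀ κ, κ < T.γ → ∀ j, j < Y.q → ∀ f, f < Lo →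
    eF P Q Y Wo ro κ j f ≤ 2 * (S.sc * T.cx) * Q.m
  hbx : ∀ ro, ro < 2 → ∀ κ, κ < T.γ → ∀ f, f < Lo → xF T Q S Y ro κ f < 2 ^ (Wo - 1)
  eC : ∀ ro, ro < 2 → ∀ κ, κ < T.γ → ∀ j, j < Y.q → chkP P Q Y ro κ j = true
  xC : ∀ ro, ro < 2 → ∀ κ, κ < T.γ → ∀ j, j < Y.q →
    hib (Nat.sub (Nat.add (nthL PS.xT (Nat.add (Nat.mul P.γ ro) κ)) Q.HO)
      (pR P PS Q ro κ j)) Q.HO = true

end MPbbea99G
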