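import Pool.Agent.Lib.Pbbea99G.VMain
import Pool.Agent.Lib.Pbbea99G.Inst2

/-!
# MP_bbea99_co: replicated constants from literals
-/

namespace MPbbea99G

open Finset MPbbea99S MPbbea99T

theorem mkVOK {V : VP} {W L N : ℕ} (hW : 2 ≤ W) (hL : 0 < L) (hN : N < W * L)
    (hNG : N ≤ 8 * V.NG) (hF1 : V.F1 = W * L - 1) (hW1 : V.W1 = W - 1)
    (hMC : V.MC = 2 ^ (W * L) - 2) (hON : V.ON = pkR (W * L) (fun _ => 1) N)
    (hHR : V.HR = pkR (W * L) (fun _ => pkR W (fun _ => 2 ^ (W - 1)) L) N)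
    (hKR : V.KR = pkR (W * L) (fun _ => 2 ^ (W * L - 1) - 1) N)
    (hGR : V.GR = pkR (W * L) (fun _ => 2 ^ (W * L - 1)) N) : VOK V W L N where
  hW := hW
  hL := hL
  hN := hN
  hNG := hNG
  hF1 := hF1
  hW1 := hW1
  hMC := hMC
  hON := by rw [hON, pkR_eq]
  hHR := by
    rw [hHR, pkR_eq]
    apply pk_congr
    intro _ _
    rw [pkR_eq]
  hKR := by rw [hKR, pkR_eq]
  hGR := by rw [hGR, pkR_eq]

/-- with one block the digits do not matter -/
lemma chkOV_one {P : CP} {V : VP} {Q : OP} {t ia ib ic ie : ℕ}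
    (h : ∀ i, i < P.M → bf Q i = bf Q 0) (ha : ia < P.M) (hb : ib < P.M) (hc : ic < P.M)
    (he : ie < P.M) (ho : chkOV P V Q t 0 0 0 0 = true) : chkOV P V Q t ia ib ic ie = true := by
  unfold chkOV oTV at ho ⊢
  rw [h ia ha, h ib hb, h ic hc, h ie he]
  exact ho

end MPbbea99G
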