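import Pool.Agent.Lib.Pbbea99G.VCheck
import Pool.Agent.Lib.Pbbea99G.OCheck

/-!
# MP_bbea99_co: soundness of the vectorised outer check
-/

namespace MPbbea99G

open Finset MPbbea99S MPbbea99T

section

variable {P : CP} {Q : OP} {L : ℕ} {mul : ℕ → ℕ → ℕ} {inv w g : ℕ → ℕ} {ac : ℕ → ℕ → ℕ}
    {X : ℕ → ℕ → ℕ} {vc : ℕ → ℕ → ℤ} {χ th : ℕ → ℕ → ℤ} {U : ℕ → ℕ → ℕ → ℤ}
    {R : ℕ → ℕ → ℕ → ℕ → ℤ} {Φ : ℕ → ℤ} {sc d : ℤ} {h K : ℕ} {lO : ℕ → ℕ}
    {hO : ℕ → ℕ → ℕ → ℕ} {bo C3 BO BR : ℕ} {W : ℕ} {lF : ℕ → ℕ → ℕ} {cF : ℕ → ℕ}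
    {gO : ℕ → ℕ → ℕ → ℕ → ℕ → ℕ} {eO : ℕ → ℕ → ℕ → ℕ} {bl bG C4 BLF BCF BGF : ℕ}

/-- windows with a short gap are excluded -/
theorem OHyp.soundV (H : OHyp P Q L mul ac X vc χ th U R Φ sc d h K lO hO bo C3 BO BR W lF cF gO
    eO bl bG C4 BLF BCF BGF) {V : VP} (O : VOK V W L Q.m) (A : Act P.n Q.m P.M P.γ mul ac X) (G : Gp P.γ mul inv)
    (hs : IsG P.γ P.M mul w g) {L' : ℕ} (hLL : L ≤ L')
    (C : OCert Q.m P.M P.γ L' ac X χ th U R sc d)
    (hK1 : P.K1 + h = K) (hnh : P.nh = P.n * h) (hB : 0 < P.B)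
    (hth : ∀ f, f < L' → ∀ κ, κ < P.γ → th f κ = ∑ k ∈ range P.n, χ f k * vc κ k)
    {t a b c e ra rb rc re : ℕ} (ha : ra < Q.m) (hb : rb < Q.m)
    (hc : rc < Q.m) (he : re < Q.m) (hd : DOK P t)
    (hm : Match P.n P.A P.B K mul inv g vc t a b c e)
    (hchk : oTV P V Q t (dg t P.n) (dg t (Nat.add P.n 1)) (dg t (Nat.add P.n 2))
      (dg t (Nat.add P.n 3)) (dg t (Nat.add P.n 4)) (dg t (Nat.add P.n 5))
      (dg t (Nat.add P.n 6)) (a % P.M) (b % P.M) (c % P.M) (e % P.M) = true)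
    (hadm : Adm P.A P.B a b c e)
    (hab : Q.m * a + ra < Q.m * b + rb) (hbc : Q.m * b + rb ≤ Q.m * c + rc)
    (hdl : (Q.m * b + rb) + (Q.m * c + rc) = (Q.m * e + re) + (Q.m * a + ra))
    (hg : P.B * (Q.m * c + rc) + P.A * (Q.m * a + ra) < (P.A + P.B) * (Q.m * b + rb))
    (hz : ∀ ω, VV (GS (Wd Q.m P.M ac X g) ω) (Q.m * a + ra) (Q.m * b + rb)
      (Q.m * c + rc) (Q.m * e + re) = 0) : False := by
  have hm0 := H.hm
  have ρa := G.ilt _ (hs.lt a)
  obtain ⟨kb, hkb⟩ : ∃ kb, kb = mul (inv (g a)) (g b) := ⟨_, rfl⟩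
  obtain ⟨kc, hkc⟩ : ∃ kc, kc = mul (inv (g a)) (g c) := ⟨_, rfl⟩
  obtain ⟨ke, hke⟩ : ∃ ke, ke = mul (inv (g a)) (g e) := ⟨_, rfl⟩
  obtain ⟨dl, hdl0⟩ : ∃ dl, dl = dg t (P.n + 3) := ⟨_, rfl⟩
  obtain ⟨gt, hgt⟩ : ∃ gt, gt = (P.B * c + P.A * a + (P.A + P.B)) - (P.A + P.B) * b := ⟨_, rfl⟩
  obtain ⟨zl, hzl⟩ : ∃ zl, zl = if b = a then 1 else 0 := ⟨_, rfl⟩
  obtain ⟨zv, hzv⟩ : ∃ zv, zv = if c = b then 1 else 0 := ⟨_, rfl⟩
  have e0 : dg t P.n = kb := hm.hb.trans hkb.symm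
  have e1 : dg t (Nat.add P.n 1) = kc := hm.hc.trans hkc.symm
  have e2 : dg t (Nat.add P.n 2) = ke := hm.he.trans hke.symm
  have e3 : dg t (Nat.add P.n 3) = dl := hdl0.symm
  have e4 : dg t (Nat.add P.n 4) = gt := hm.hg.trans hgt.symm
  have e5 : dg t (Nat.add P.n 5) = zl := hm.h5.trans hzl.symm
  have e6 : dg t (Nat.add P.n 6) = zv := hm.h6.trans hzv.symm
  rw [e0, e1, e2, e3, e4, e5, e6] at hchk
  have hdl' : dl + (e + a) = b + c + 1 := by rw [hdl0]; exact hm.hd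
  have hdl2 : dl ≤ 2 := by
    have := hadm.h2
    omega
  have l0 := G.pos
  have lb : kb < P.γ := by rw [hkb]; exact G.lt _ ρa _ (hs.lt b)
  have lc : kc < P.γ := by rw [hkc]; exact G.lt _ ρa _ (hs.lt c)
  have le : ke < P.γ := by rw [hke]; exact G.lt _ ρa _ (hs.lt e)
  have hrg : ∀ x, mul (inv (g a)) (g x) < P.γ := fun x => G.lt _ ρa _ (hs.lt x)
  have hM : ∀ x, x % P.M < P.M := fun x => Nat.mod_lt _ A.hM
  have hF := H.hF
  have hpp := pow_pred hF
  -- the functionals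
  have hbdF := H.hbdF
  have htot : ∀ f, f < L → 2 ^ (W - 1) ≤ pV P lF cF t f + gO 1 (a % P.M) 0 ra f +
      gO 0 (b % P.M) kb rb f + eO 0 kc f + eO 1 ke f := by
    intro f hf
    have hR : ∀ i, i < P.M → ∀ κ, κ < P.γ → sc * RS ac X (χ f) i κ Q.m = d * th f κ := by
      intro i hi κ hκ
      rw [← C.hR f (hf.trans_le hLL) i hi κ hκ Q.m le_rfl, C.hRm f (hf.trans_le hLL) i hi κ hκ]
    have q0 := block_eq A G hs hR ρa ha.le hb.le hc.le he.le hz
    rw [← hkb, ← hkc, ← hke, G.inv_mul _ (hs.lt a), ← C.hR f (hf.trans_le hLL) _ (hM a) _ l0 ra ha.le,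
      ← C.hR f (hf.trans_le hLL) _ (hM b) _ lb rb hb.le, ← C.hR f (hf.trans_le hLL) _ (hM c) _ lc rc hc.le,
      ← C.hR f (hf.trans_le hLL) _ (hM e) _ le re he.le] at q0
    have vP := pV_val hK1 hnh hm hd (l := lF) (cc := cF) (Cc := C4) (bb := bl)
      (ps := fun k => d * χ f k) (f := f) (fun k hk => H.hlF k hk f hf) (H.hcF f hf)
    have hVV : VV (PS (fun x => th f (mul (inv (g a)) (g x)))) a b c e =
        ∑ k ∈ range P.n, χ f k * DV mul inv g vc k a b c e := by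
      have e1 : ∀ x, th f (mul (inv (g a)) (g x)) =
          ∑ k ∈ range P.n, χ f k * vc (mul (inv (g a)) (g x)) k := fun x => hth f (hf.trans_le hLL) _ (hrg x)
      rw [VP_congr e1, VP_lin P.n (fun k => χ f k) (fun k x => vc (mul (inv (g a)) (g x)) k)]
      rfl
    have e2 : ∑ k ∈ range P.n, d * χ f k * DV mul inv g vc k a b c e =
        d * VV (PS (fun x => th f (mul (inv (g a)) (g x)))) a b c e := by
      rw [hVV, Finset.mul_sum]
      apply Finset.sum_congr rfl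
      intro k _
      ring
    rw [e2] at vP
    have v1 := H.hgO 1 (by norm_num) _ (hM a) 0 l0 ra ha f hf
    have v2 := H.hgO 0 (by norm_num) _ (hM b) kb lb rb hb f hf
    have v3 := H.heO 0 (by norm_num) kc lc f hf
    have v4 := H.heO 1 (by norm_num) ke le f hf
    have u3 := C.hU f (hf.trans_le hLL) 0 (by norm_num) _ (hM c) kc lc rc hc
    have u4 := C.hU f (hf.trans_le hLL) 1 (by norm_num) _ (hM e) ke le re he
    have hb' : ((C4 + 4 * bG : ℕ) : ℤ) = (2 ^ (W - 1) : ℕ) := by rw [H.hbias]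
    rw [sg_one] at v1 u4
    rw [sg_zero] at v2 u3
    have hfin : ((2 ^ (W - 1) : ℕ) : ℤ) ≤ ((pV P lF cF t f + gO 1 (a % P.M) 0 ra f +
      gO 0 (b % P.M) kb rb f + eO 0 kc f + eO 1 ke f : ℕ) : ℤ) := by
      rw [← hb']
      push_cast
      linarith
    exact_mod_cast hfin
  have pP : ∀ f, f < L → pV P lF cF t f ≤ P.nh * BLF + BCF := by
    intro f hf
    unfold pV
    exact Nat.add_le_add (sum_le_of hd (fun k hk => H.bLF k hk f hf)) (H.bCF f hf)
  have hnh0 : 0 < P.n → BLF ≤ P.nh * BLF ∨ P.nh = 0 := by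
    intro _
    rcases Nat.eq_zero_or_pos P.nh with h0 | h0
    · exact Or.inr h0
    · exact Or.inl (Nat.le_mul_of_pos_left _ h0)
  have hvF : valF P Q t = pk W (pV P lF cF t) L := by
    unfold valF
    rw [H.hC2]
    rcases Nat.eq_zero_or_pos P.nh with h0 | h0
    · have hz0 : ∀ k ∈ range P.n, eg P t k = 0 := by
        have := hd.h2
        rw [h0] at this
        exact Finset.sum_eq_zero_iff.1 this
      have e1 : sumN (fun k => Nat.mul (eg P t k) (fd Q.W Q.MW Q.L2 k)) P.n = 0 := by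
        rw [sumN_eq]
        apply Finset.sum_eq_zero
        intro k hk
        show eg P t k * _ = 0
        rw [hz0 k hk, Nat.zero_mul]
      have e2 : pk W cF L = pk W (pV P lF cF t) L := by
        apply pk_congr
        intro f _
        unfold pV
        rw [Finset.sum_eq_zero (fun k hk => by rw [hz0 k hk, Nat.zero_mul]), Nat.zero_add]
      show sumN _ _ + _ = _
      rw [e1, Nat.zero_add, e2]
    · exact sum_packed H.hMW H.hQW H.hL2 (fun k hk f hf => by
        have g1 := H.bLF k hk f hf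
        have g2 : BLF ≤ P.nh * BLF := Nat.le_mul_of_pos_left _ h0
        omega)
  have tG : ∀ ro, ro < 2 → ∀ i, i < P.M → ∀ κ, κ < P.γ → ∀ r, r < Q.m →
      fd Q.W Q.MW (arG P Q ro (bf Q i) κ) r = pk W (gO ro i κ r) L := by
    intro ro hro i hi κ hκ r hr
    rw [H.hfT ro hro i hi κ hκ, H.hMW, fd_pk _ hr]
    intro r' hr'
    rw [H.hQW]
    apply pk_lt
    intro f hf
    have := H.bgO ro hro i hi κ hκ r' hr' f hf
    omega
  -- the loops
  have hWo := H.hQW
  have GA : arG P Q 1 (bf Q (a % P.M)) 0 = pk (W * L) (fun r => pk W (gO 1 (a % P.M) 0 r) L) Q.m := by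
    rw [H.hfT 1 (by norm_num) _ (hM a) 0 l0, hWo]
  have GB : arG P Q 0 (bf Q (b % P.M)) kb =
      pk (W * L) (fun r => pk W (gO 0 (b % P.M) kb r) L) Q.m := by
    rw [H.hfT 0 (by norm_num) _ (hM b) kb lb, hWo]
  unfold oTV oV0 at hchk
  have p1 : (mskF V (Nat.add (arG P Q 1 (bf Q (a % P.M)) 0) (Nat.mul (Nat.add
      (Nat.add (Nat.add (valF P Q t) (arE P Q 0 kc)) (arE P Q 1 ke)) (arE P Q 0 kb))
        V.ON))).testBit ra = true := by
    have hS := rows1 (cnt := Q.m)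
      (y := fun f => pV P lF cF t f + eO 0 kc f + eO 1 ke f + eO 0 kb f)
      (Y := Nat.add (Nat.add (Nat.add (valF P Q t) (arE P Q 0 kc)) (arE P Q 1 ke))
        (arE P Q 0 kb)) GA (by
        rw [hvF, H.heT 0 (by norm_num) kc lc, H.heT 1 (by norm_num) ke le,
          H.heT 0 (by norm_num) kb lb]
        show pk W (pV P lF cF t) L + pk W (eO 0 kc) L + pk W (eO 1 ke) L + pk W (eO 0 kb) L = _
        rw [← pk_add, ← pk_add, ← pk_add]) le_rfl (by
        intro r hr f hf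
        have g0 := pP f hf
        have g1 := H.beO 0 (by norm_num) kb lb f hf
        have g2 := H.beO 0 (by norm_num) kc lc f hf
        have g3 := H.beO 1 (by norm_num) ke le f hf
        have g4 := H.bgO 1 (by norm_num) _ (hM a) 0 l0 r hr f hf
        omega)
    rw [← O.hON] at hS
    refine O.mskF hS ?_ ha ?_
    · intro r hr f hf
      have g0 := pP f hf
      have g1 := H.beO 0 (by norm_num) kb lb f hf
      have g2 := H.beO 0 (by norm_num) kc lc f hf
      have g3 := H.beO 1 (by norm_num) ke le f hf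
      have g4 := H.bgO 1 (by norm_num) _ (hM a) 0 l0 r hr f hf
      omega
    · intro f hf
      have g0 := htot f hf
      have v2 := H.hgO 0 (by norm_num) _ (hM b) kb lb rb hb f hf
      have v5 := H.heO 0 (by norm_num) kb lb f hf
      have u2 := C.hU f (hf.trans_le hLL) 0 (by norm_num) _ (hM b) kb lb rb hb
      have : (gO 0 (b % P.M) kb rb f : ℤ) ≤ (eO 0 kb f : ℤ) := by
        rw [v2, v5]
        linarith
      have : gO 0 (b % P.M) kb rb f ≤ eO 0 kb f := by exact_mod_cast this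
      omega
  have k1 := enumL_spec hchk ra (by have := O.hNG; omega) p1
  unfold oV at k1
  have p2 : (mskF V (Nat.add (arG P Q 0 (bf Q (b % P.M)) kb) (Nat.mul (Nat.add
      (Nat.add (Nat.add (valF P Q t) (arE P Q 0 kc)) (arE P Q 1 ke))
      (fd Q.W Q.MW (arG P Q 1 (bf Q (a % P.M)) 0) ra)) V.ON))).testBit rb = true := by
    have hS := rows1 (cnt := Q.m)
      (y := fun f => pV P lF cF t f + eO 0 kc f + eO 1 ke f + gO 1 (a % P.M) 0 ra f)
      (Y := Nat.add (Nat.add (Nat.add (valF P Q t) (arE P Q 0 kc)) (arE P Q 1 ke))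
        (fd Q.W Q.MW (arG P Q 1 (bf Q (a % P.M)) 0) ra)) GB (by
        rw [hvF, H.heT 0 (by norm_num) kc lc, H.heT 1 (by norm_num) ke le,
          tG 1 (by norm_num) _ (hM a) 0 l0 ra ha]
        show pk W (pV P lF cF t) L + pk W (eO 0 kc) L + pk W (eO 1 ke) L +
          pk W (gO 1 (a % P.M) 0 ra) L = _
        rw [← pk_add, ← pk_add, ← pk_add]) le_rfl (by
        intro r hr f hf
        have g0 := pP f hf
        have g2 := H.beO 0 (by norm_num) kc lc f hf
        have g3 := H.beO 1 (by norm_num) ke le f hf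
        have g4 := H.bgO 1 (by norm_num) _ (hM a) 0 l0 ra ha f hf
        have g5 := H.bgO 0 (by norm_num) _ (hM b) kb lb r hr f hf
        omega)
    rw [← O.hON] at hS
    refine O.mskF hS ?_ hb ?_
    · intro r hr f hf
      have g0 := pP f hf
      have g2 := H.beO 0 (by norm_num) kc lc f hf
      have g3 := H.beO 1 (by norm_num) ke le f hf
      have g4 := H.bgO 1 (by norm_num) _ (hM a) 0 l0 ra ha f hf
      have g5 := H.bgO 0 (by norm_num) _ (hM b) kb lb r hr f hf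
      omega
    · intro f hf
      have g0 := htot f hf
      omega
  have hNG : rb < 8 * V.NG := by have := O.hNG; omega
  have l1 : oV1 P Q zv (arF P Q (bf Q (c % P.M)) kc) (arF P Q (bf Q (e % P.M)) ke)
      (Nat.add (Nat.add (valO P Q t) (Nat.mul Q.kT (Nat.mul Q.m dl)))
        (fd Q.F Q.MF (arF P Q (bf Q (b % P.M)) kb) rb))
      (Nat.add Q.TF (fd Q.F Q.MF (arF P Q (bf Q (a % P.M)) 0) ra))
      (Nat.add (Nat.mul Q.m gt) (Nat.mul P.A ra)) (Nat.mul 2 Q.m) rb
      (Nat.add (Nat.sub (Nat.mul Q.m (Nat.add dl 1)) ra) rb) = true := by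
    cases hz1 : Nat.beq zl 1 with
    | true =>
      rw [hz1] at k1
      have k2 := enumL_spec k1 rb hNG p2
      apply bc_pass (x := Nat.ble rb ra) k2
      cases hb2 : Nat.ble rb ra with
      | false => rfl
      | true =>
        exfalso
        have h2 := Nat.le_of_ble_eq_true hb2
        have h4 := Nat.eq_of_beq_eq_true hz1
        have h3 : b = a := by
          by_contra hne
          rw [if_neg hne] at hzl
          omega
        rw [h3] at hab
        omega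
    | false =>
      rw [hz1] at k1
      exact enumL_spec k1 rb hNG p2
  have hexp : re + (Q.m + ra) = Q.m * dl + rb + rc := by
    have g2 : Q.m * dl + Q.m * (e + a) = Q.m * (b + c) + Q.m := by
      rw [← Nat.mul_add, hdl']
      ring
    rw [Nat.mul_add, Nat.mul_add] at g2
    omega
  obtain ⟨ob, hob⟩ : ∃ ob, ob = Nat.add (Nat.sub (Nat.mul Q.m (Nat.add dl 1)) ra) rb := ⟨_, rfl⟩
  have hob1 : ob + ra = Q.m * dl + Q.m + rb := by
    have h1 : ob = (Q.m * (dl + 1) - ra) + rb := hob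
    rw [Nat.mul_succ] at h1
    omega
  rw [← hob] at l1
  unfold oV1 oV2 at l1
  -- the range
  obtain ⟨m2, hm2⟩ : ∃ m2, m2 = Nat.mul 2 Q.m := ⟨_, rfl⟩
  rw [← hm2] at l1
  have hm2' : m2 = 2 * Q.m := hm2
  obtain ⟨lo, hlo⟩ : ∃ lo, lo = Nat.add (Nat.sub m2 ob)
    (Nat.sub (Nat.mul zv rb) (Nat.sub m2 ob)) := ⟨_, rfl⟩
  obtain ⟨ct, hct⟩ : ∃ ct, ct = Nat.div (Nat.add (Nat.sub (Nat.mul (Nat.add P.A P.B)
    (Nat.add Q.m rb)) (Nat.add (Nat.mul Q.m gt) (Nat.mul P.A ra))) (Nat.sub P.B 1)) P.B :=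
      ⟨_, rfl⟩
  obtain ⟨hi, hhi⟩ : ∃ hi, hi = Nat.sub (Nat.sub Q.m (Nat.sub ob m2))
    (Nat.sub (Nat.sub Q.m (Nat.sub ob m2)) ct) := ⟨_, rfl⟩
  rw [← hlo, ← hct, ← hhi] at l1
  have hlo' : lo = (m2 - ob) + (zv * rb - (m2 - ob)) := hlo
  have hhi' : hi = (Q.m - (ob - m2)) - ((Q.m - (ob - m2)) - ct) := hhi
  have hrc1 : lo ≤ rc := by
    have hzrb : zv * rb ≤ rc := by
      by_cases h1 : c = b
      · rw [hzv, if_pos h1, Nat.one_mul]
        rw [h1] at hbc
        omega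
      · rw [hzv, if_neg h1, Nat.zero_mul]
        omega
    omega
  have hcnt : rc < ct := by
    rw [hct]
    have key : Q.m * gt + P.A * ra + P.B * rc < (P.A + P.B) * (Q.m + rb) := by
      have e3 : (P.A + P.B) * (Q.m + rb) = Q.m * (P.A + P.B) + (P.A + P.B) * rb := by ring
      rcases Nat.lt_or_ge ((P.A + P.B) * b) (P.B * c + P.A * a + (P.A + P.B)) with h1 | h1
      · have h2 : P.B * c + P.A * a + (P.A + P.B) = gt + (P.A + P.B) * b := by omega
        have h3 : Q.m * (P.B * c + P.A * a) + Q.m * (P.A + P.B) =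
            Q.m * gt + Q.m * ((P.A + P.B) * b) := by
          rw [← Nat.mul_add, h2, Nat.mul_add]
        have e1 : P.B * (Q.m * c + rc) + P.A * (Q.m * a + ra) =
          Q.m * (P.B * c + P.A * a) + P.B * rc + P.A * ra := by ring
        have e2 : (P.A + P.B) * (Q.m * b + rb) =
          Q.m * ((P.A + P.B) * b) + (P.A + P.B) * rb := by ring
        rw [e1, e2] at hg
        rw [e3]
        omega
      · have h0 : gt = 0 := by omega
        rw [h0, Nat.mul_zero, e3]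
        have h3 : P.B * rc + P.B ≤ P.B * Q.m := by
          rw [← Nat.mul_succ]
          exact Nat.mul_le_mul le_rfl hc
        have h4 : P.A * ra + P.A ≤ P.A * Q.m := by
          rw [← Nat.mul_succ]
          exact Nat.mul_le_mul le_rfl ha
        have : Q.m * (P.A + P.B) = P.A * Q.m + P.B * Q.m := by ring
        omega
    show rc < (((P.A + P.B) * (Q.m + rb)) - (Q.m * gt + P.A * ra) + (P.B - 1)) / P.B
    have h5 : rc + 1 ≤ (((P.A + P.B) * (Q.m + rb)) - (Q.m * gt + P.A * ra) + (P.B - 1)) / P.B := by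
      rw [Nat.le_div_iff_mul_le hB]
      have : (rc + 1) * P.B = P.B * rc + P.B := by ring
      omega
    omega
  have hrc2 : rc < hi := by omega
  have hhim : hi ≤ Q.m := by omega
  have hble : Nat.ble hi lo = false := by
    cases hb2 : Nat.ble hi lo with
    | false => rfl
    | true =>
      have := Nat.le_of_ble_eq_true hb2
      omega
  have l5 := bc_pass (x := Nat.ble hi lo) l1 hble
  -- the values
  have hvO : valO P Q t = pV P (fun k _ => lO k) (fun _ => Q.C1) t 0 := by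
    unfold valO pV
    rw [sumN_eq]
    show ∑ k ∈ range P.n, _ + Q.C1 = _
    congr 1
    apply Finset.sum_congr rfl
    intro k hk
    rw [H.hMF, H.hL1, fd_pk H.hlOlt (Finset.mem_range.1 hk)]
    rfl
  have hval : (valO P Q t : ℤ) = C3 + d * VV (PS (fun x => ∑ k ∈ range P.n,
      Φ k * vc (mul (inv (g a)) (g x)) k)) a b c e := by
    rw [hvO]
    have vP := pV_val hK1 hnh hm hd (l := fun k _ => lO k) (cc := fun _ => Q.C1) (Cc := C3)
      (bb := bo) (ps := fun k => d * Φ k) (f := 0) (fun k hk => H.hlO k hk) H.hC1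
    rw [vP, VP_lin P.n Φ (fun k x => vc (mul (inv (g a)) (g x)) k), Finset.mul_sum]
    congr 1
    apply Finset.sum_congr rfl
    intro k _
    unfold DV
    ring
  have h0 := block_eq A G hs (ω := Φ) (θ := fun κ => ∑ k ∈ range P.n, Φ k * vc κ k)
    (sc := sc) (d := d) H.hRm ρa ha.le hb.le hc.le he.le hz
  rw [← hkb, ← hkc, ← hke, G.inv_mul _ (hs.lt a)] at h0
  have ra' := H.hhO _ (hM a) 0 l0 ra ha
  have rb' := H.hhO _ (hM b) kb lb rb hb
  have rc' := H.hhO _ (hM c) kc lc rc hc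
  have re' := H.hhO _ (hM e) ke le re he
  have htot2 : valO P Q t + Q.kT * (Q.m * dl) + hO (b % P.M) kb rb + hO (c % P.M) kc rc =
      Q.TF + hO (a % P.M) 0 ra + hO (e % P.M) ke re := by
    have hz' : ((valO P Q t + Q.kT * (Q.m * dl) + hO (b % P.M) kb rb +
        hO (c % P.M) kc rc : ℕ) : ℤ) =
        ((Q.TF + hO (a % P.M) 0 ra + hO (e % P.M) ke re : ℕ) : ℤ) := by
      rw [H.hTF]
      have hexp' : (re : ℤ) + (Q.m + ra) = Q.m * dl + rb + rc := by exact_mod_cast hexp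
      have hre : (re : ℤ) = Q.m * dl + rb + rc - Q.m - ra := by linarith
      push_cast
      rw [ra', rb', rc', re', hval, hre]
      linear_combination h0
    exact_mod_cast hz'
  -- tables
  have hlt : ∀ i, i < P.M → ∀ κ, κ < P.γ → ∀ r, r < Q.m → hO i κ r < 2 ^ Q.F := by
    intro i hi κ hκ r hr
    have g1 := H.hBR i hi κ hκ r hr
    have g2 := H.hb2
    omega
  have f1 : fd Q.F Q.MF (arF P Q (bf Q (a % P.M)) 0) ra = hO (a % P.M) 0 ra := by
    rw [H.hrT _ (hM a) 0 l0, H.hMF]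
    exact fd_pk (hlt _ (hM a) 0 l0) ha
  have f2 : fd Q.F Q.MF (arF P Q (bf Q (b % P.M)) kb) rb = hO (b % P.M) kb rb := by
    rw [H.hrT _ (hM b) kb lb, H.hMF]
    exact fd_pk (hlt _ (hM b) kb lb) hb
  rw [f1, f2] at l5
  have g1 : lo + (rc - lo) = rc := by omega
  have g2 : (Nat.sub (Nat.add lo ob) m2) + (rc - lo) = re := by
    show (lo + ob - m2) + (rc - lo) = re
    omega
  have hvle : valO P Q t ≤ P.nh * BO + Q.C1 := by
    rw [hvO]
    unfold pV
    exact Nat.add_le_add_right (sum_le_of hd H.hBO) _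
  have hkd : Q.kT * (Q.m * dl) ≤ Q.kT * (Q.m * 2) :=
    Nat.mul_le_mul le_rfl (Nat.mul_le_mul le_rfl hdl2)
  have hcmp := H.cmp (hM c) (hM e) lc le (cnt := Nat.sub hi lo) (j := rc - lo) (by
    show hi - lo ≤ Q.m
    omega) (by
    show valO P Q t + Q.kT * (Q.m * dl) + hO (b % P.M) kb rb + BR < 2 ^ (Q.F - 1)
    have q1 := H.hBR _ (hM b) kb lb rb hb
    have q2 := H.hb1
    omega) (by
    show Q.TF + hO (a % P.M) 0 ra + BR < 2 ^ (Q.F - 1)
    have q1 := H.hBR _ (hM a) 0 l0 ra ha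
    have q2 := H.hb2
    omega) (by
    show rc - lo < hi - lo
    omega) (by omega) (by rw [g2]; exact he) l5
  rw [g1, g2] at hcmp
  exact hcmp htot2

end

end MPbbea99G
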