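import Pool.Agent.Lib.Pbbea99G.SubMain
import Pool.Agent.Lib.Pbbea99G.VMain
import Pool.Agent.Lib.Pbbea99G.VMainP
import Pool.Agent.Lib.Pbbea99G.VInst
import Pool.Agent.Lib.Pbbea99G.InstZ

/-!
# MP_bbea99_co: long blocks cut into pieces: the main theorem
-/

namespace MPbbea99G

open Finset MPbbea99S MPbbea99T

theorem TOKZ.base {T : Tb} (O : TOKZ T) : TOKB T := ⟨O.hn, O.hM, O.hac, O.hcx, O.hcz⟩

section

variable {T : Tb} {P PZ : CP} {Q : OP} {S : To} {Y : SP} {Wo Lo : ℕ} {Φ : ℕ → ℤ}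
    {bo C3 BO PM C4 BGF : ℕ}

/-- the letters of the long block -/
theorem PBlk.act (B : PBlk T P PZ Q S Y Wo Lo)
    (hmul : ∀ ρ, ρ < T.γ → ∀ κ, κ < T.γ → ∀ x, x < T.n →
      T.ac ρ (T.ac κ x) = T.ac (T.mul ρ κ) x) :
    Act P.n Y.m P.M P.γ T.mul T.ac (XZ Q S) := by
  constructor
  case hm =>
    rw [B.hmq]
    exact Nat.mul_pos B.hm B.hq
  case hM => rw [B.eM]; have := B.O.hM; omega
  case lt => rw [B.eγ, B.en]; exact B.O.hac
  case mul => rw [B.eγ, B.en]; exact hmul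
  case X =>
    rw [B.en]
    intro i _ r hr
    rw [B.hmq] at hr
    exact B.hx _ (Nat.div_lt_of_lt_mul hr) _ (Nat.mod_lt _ B.hm)

/-- no window with a short gap -/
theorem no_window_sub {KT : Tr} {VS VW : VP} (B : PBlk T P PZ Q S Y Wo Lo)
    (F : SVal T P PZ Q S Y Φ bo C3 BO PM C4 BGF Wo Lo)
    (OS : VOK VS Wo Lo PZ.M) (OW : VOK VW Wo Lo Q.m)
    (A : Act P.n Y.m P.M P.γ T.mul T.ac (XZ Q S)) (G : Gp P.γ T.mul T.inv) {g : ℕ → ℕ}
    (hs : IsG P.γ P.M T.mul T.w g) {K : ℕ}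
    (hK1 : P.K1 + T.h = K) (hnh : P.nh = P.n * T.h) (hB : 0 < P.B)
    (hth : ∀ f, f < Lo → ∀ κ, κ < P.γ → T.th f κ = ∑ k ∈ range P.n, T.χ f k * T.vc κ k)
    {R : ℕ → ℕ → ℕ → ℕ → ℤ} {sc d : ℤ}
    (CO : OCert Y.m P.M P.γ Lo T.ac (XZ Q S) T.χ T.th T.U R sc d) {D : ℕ → Prop}
    (hcl : ∀ e a b c, Adm P.A P.B a b c e → Alive P.γ T.mul g Lo T.th T.U a b c e →
      ∃ t, D t ∧ Match P.n P.A P.B K T.mul T.inv g T.vc t a b c e)
    (hD : ∀ t, D t → DOK P t) (hE : ∀ t, D t → chkE P PZ VS Q KT t = true)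
    (hW : allTr (oKeyW P PZ VW Q Y) KT = true) :
    ∀ l a v, 1 ≤ l → P.B * v < P.A * l →
      ¬ Ex P.n (Wd Y.m P.M T.ac (XZ Q S) g) a (a + l + v) l := by
  intro l a v hl hg hex
  have hm0 := A.hm
  have hz : ∀ ω, VV (GS (Wd Y.m P.M T.ac (XZ Q S) g) ω) a (a + l) (a + l + v) (a + l + v + l) = 0 :=
    fun ω => GS_ex (A.Wd_lt hs) ω hex
  have hdec : ∀ x, ∃ x' ix, ix < Y.m ∧ x = Y.m * x' + ix := by
    intro x
    exact ⟨x / Y.m, x % Y.m, Nat.mod_lt _ hm0, (Nat.div_add_mod x Y.m).symm⟩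
  obtain ⟨a', ra, ha, ea⟩ := hdec a
  obtain ⟨b', rb, hb, eb⟩ := hdec (a + l)
  obtain ⟨c', rc, hc, ec⟩ := hdec (a + l + v)
  obtain ⟨e', re, he, ee⟩ := hdec (a + l + v + l)
  have hab : Y.m * a' + ra < Y.m * b' + rb := by omega
  have hbc : Y.m * b' + rb ≤ Y.m * c' + rc := by omega
  have hce : Y.m * c' + rc ≤ Y.m * e' + re := by omega
  have hdl : (Y.m * b' + rb) + (Y.m * c' + rc) = (Y.m * e' + re) + (Y.m * a' + ra) := by omega
  have hg' : P.B * (Y.m * c' + rc) + P.A * (Y.m * a' + ra) <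
      (P.A + P.B) * (Y.m * b' + rb) := by
    rw [← ea, ← eb, ← ec]
    have e1 : P.B * (a + l + v) + P.A * a = (P.A + P.B) * a + P.B * l + P.B * v := by ring
    have e2 : (P.A + P.B) * (a + l) = (P.A + P.B) * a + P.B * l + P.A * l := by ring
    rw [e1, e2]
    omega
  have hz' : ∀ ω, VV (GS (Wd Y.m P.M T.ac (XZ Q S) g) ω) (Y.m * a' + ra) (Y.m * b' + rb)
      (Y.m * c' + rc) (Y.m * e' + re) = 0 := by
    intro ω
    rw [← ea, ← eb, ← ec, ← ee]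
    exact hz ω
  have hadm : Adm P.A P.B a' b' c' e' := adm_outer hB ha hb hc he hab.le hbc hce hdl hg'
  have hal : Alive P.γ T.mul g Lo T.th T.U a' b' c' e' := CO.alive A G hs ha hb hc he hz'
  obtain ⟨t, ht, hm⟩ := hcl e' a' b' c' hadm hal
  exact sub_sound B F OS OW A G hs hK1 hnh hB hth ha hb hc he (hD t ht) hm (hE t ht) hW hadm hab
    hbc hce hdl hg' hz'

/-- the statement `𝒜(s,n)` -/
theorem avoid_sub {KT : Tr} {VS VW : VP} (B : PBlk T P PZ Q S Y Wo Lo)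
    (F : SVal T P PZ Q S Y Φ bo C3 BO PM C4 BGF Wo Lo)
    (OS : VOK VS Wo Lo PZ.M) (OW : VOK VW Wo Lo Q.m)
    (A : Act P.n Y.m P.M P.γ T.mul T.ac (XZ Q S)) (G : Gp P.γ T.mul T.inv) {g : ℕ → ℕ}
    (hs : IsG P.γ P.M T.mul T.w g) {K : ℕ}
    (hK1 : P.K1 + T.h = K) (hnh : P.nh = P.n * T.h) (hB : 0 < P.B)
    (hth : ∀ f, f < Lo → ∀ κ, κ < P.γ → T.th f κ = ∑ k ∈ range P.n, T.χ f k * T.vc κ k)
    {R : ℕ → ℕ → ℕ → ℕ → ℤ} {sc d : ℤ}
    (CO : OCert Y.m P.M P.γ Lo T.ac (XZ Q S) T.χ T.th T.U R sc d) {D : ℕ → Prop}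
    (hcl : ∀ e a b c, Adm P.A P.B a b c e → Alive P.γ T.mul g Lo T.th T.U a b c e →
      ∃ t, D t ∧ Match P.n P.A P.B K T.mul T.inv g T.vc t a b c e)
    (hD : ∀ t, D t → DOK P t) (hE : ∀ t, D t → chkE P PZ VS Q KT t = true)
    (hW : allTr (oKeyW P PZ VW Q Y) KT = true)
    (s : ℝ) (hs1 : 1 < s) (hs2 : (P.B : ℝ) < (s - 1) * (P.A + P.B)) : Avoid s P.n := by
  apply avoid_of_seq (Wd Y.m P.M T.ac (XZ Q S) g) (A.Wd_lt hs) s hs1
  intro l a v hl hex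
  have hno : ¬ P.B * v < P.A * l := fun hlt =>
    no_window_sub B F OS OW A G hs hK1 hnh hB hth CO hcl hD hE hW l a v hl hlt hex
  push Not at hno
  have h1 : (P.A : ℝ) * l ≤ P.B * v := by exact_mod_cast hno
  have hl' : (1 : ℝ) ≤ l := by exact_mod_cast hl
  have hv : (0 : ℝ) ≤ v := by positivity
  have hAB : (0 : ℝ) < P.A + P.B := by
    have : 0 < P.A + P.B := by omega
    exact_mod_cast this
  have h2 : ((P.A : ℝ) + P.B) * l ≤ P.B * (l + v) := by nlinarith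
  have h3 : (P.B : ℝ) * (l + v) < (s - 1) * (P.A + P.B) * (l + v) := by
    apply mul_lt_mul_of_pos_right hs2
    linarith
  have h4 : ((P.A : ℝ) + P.B) * l < (P.A + P.B) * ((s - 1) * (l + v)) := by
    calc ((P.A : ℝ) + P.B) * l ≤ P.B * (l + v) := h2
      _ < (s - 1) * (P.A + P.B) * (l + v) := h3
      _ = (P.A + P.B) * ((s - 1) * (l + v)) := by ring
  exact lt_of_mul_lt_mul_left h4 hAB.le

/-- the digits of a checked template -/
theorem chkV_dok {V : VP} {lk : ℕ → ℕ → ℕ → ℕ → ℕ → Bool} {t : ℕ}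
    (h : chkV P V lk t = true) : DOK P t := by
  obtain ⟨hk1, hck⟩ := bc_and h
  obtain ⟨hk2, _⟩ := bc_and hck
  constructor
  · intro k hk
    exact Nat.le_of_ble_eq_true (allN_spec hk1 k hk)
  · have h2 := Nat.eq_of_beq_eq_true hk2
    rw [sumN_eq] at h2
    exact h2

end

end MPbbea99G
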