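import Pool.Agent.Lib.Pbbea99G.SubBlk

/-!
# MP_bbea99_co: long blocks cut into pieces: soundness
-/

namespace MPbbea99G

open Finset MPbbea99S MPbbea99T

/-- the facts behind the values of the outer check -/
structure SVal (T : Tb) (P PZ : CP) (Q : OP) (S : To) (Y : SP) (Φ : ℕ → ℤ)
    (bo C3 BO PM C4 BGF Wo Lo : ℕ) : Prop where
  hPM' : PZ.M = Y.q
  hPW : PZ.WL = Wo * Lo
  hPL : PZ.ML = 2 ^ PZ.WL
  hPA : PZ.A = P.A
  hPB : PZ.B = P.B
  hL1 : Q.L1 = pkR Q.F (fun k => fd Q.F Q.MF Q.L1 k) T.n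
  hlO : ∀ k, k < T.n → ((fd Q.F Q.MF Q.L1 k : ℕ) : ℤ) = bo + S.d * Φ k
  hBO : ∀ k, k < T.n → fd Q.F Q.MF Q.L1 k ≤ BO
  hC1 : Q.C1 + T.h * sumN (fun k => fd Q.F Q.MF Q.L1 k) T.n = C3
  hΦ : ∀ y, y < T.n → (phn Q y : ℤ) = S.sc * Φ y + Q.kT
  hT : ∀ κ, κ < T.γ → ∀ k, k < T.n → T.n * (S.sc * sumN (fun x =>
    Nat.mul (S.tvf x) (bn (Nat.beq (T.ac κ x) k))) T.n) + T.n * S.d * T.v0 =
      S.sc * Y.m + T.n * S.d * T.vn κ k
  hΦz : ∑ k ∈ range T.n, Φ k = 0
  hPM : ∀ y, y < T.n → phn Q y ≤ PM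
  hTF : Q.TF = C3 + Q.kT * Y.m
  hb1 : P.nh * BO + Q.C1 + Q.kT * (Y.m * 2) + 2 * (PM * Y.m) + 2 * (PM * Q.m) < 2 ^ (Q.F - 1)
  hb2 : Q.TF + 2 * (PM * Y.m) + 2 * (PM * Q.m) < 2 ^ (Q.F - 1)
  hON : Q.ON = pkR Q.F (fun _ => 1) Q.m
  hKO : Q.KO = pkR Q.F (fun _ => 2 ^ (Q.F - 1) - 1) Q.m
  hGO : Q.GO = pkR Q.F (fun _ => 2 ^ (Q.F - 1)) Q.m
  hL2 : Q.L2 = pkR Q.W (fun k => pkR Wo (fun f => Nat.mul S.d (T.chn f k)) Lo) T.n
  hC2 : Q.C2 = pkR Wo (fun f => Nat.sub C4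
    (Nat.mul T.h (sumN (fun k => Nat.mul S.d (T.chn f k)) T.n))) Lo
  hC4 : ∀ f, f < Lo → T.h * sumN (fun k => Nat.mul S.d (T.chn f k)) T.n ≤ C4
  hbias : C4 + 4 * (S.sc * T.cx * (Y.m + Q.m)) = 2 ^ (Wo - 1)
  hbx : ∀ ro, ro < 2 → ∀ κ, κ < T.γ → ∀ f, f < Lo → xF T Q S Y ro κ f ≤ BGF
  hbdF : P.nh * (S.d * (2 * T.cx)) + C4 + 4 * BGF < 2 ^ Wo

section

variable {T : Tb} {P PZ : CP} {Q : OP} {S : To} {Y : SP} {Wo Lo : ℕ} {Φ : ℕ → ℤ}
    {bo C3 BO PM C4 BGF : ℕ}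

/-- windows with a short gap are excluded -/
theorem sub_sound {KT : Tr} {VS VW : VP} (B : PBlk T P PZ Q S Y Wo Lo)
    (F : SVal T P PZ Q S Y Φ bo C3 BO PM C4 BGF Wo Lo)
    (OS : VOK VS Wo Lo PZ.M) (OW : VOK VW Wo Lo Q.m)
    (A : Act P.n Y.m P.M P.γ T.mul T.ac (XZ Q S)) (G : Gp P.γ T.mul T.inv) {g : ℕ → ℕ}
    (hs : IsG P.γ P.M T.mul T.w g) {K : ℕ}
    (hK1 : P.K1 + T.h = K) (hnh : P.nh = P.n * T.h) (hB : 0 < P.B)
    (hth : ∀ f, f < Lo → ∀ κ, κ < P.γ → T.th f κ = ∑ k ∈ range P.n, T.χ f k * T.vc κ k)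
    {t a b c e ra rb rc re : ℕ} (ha : ra < Y.m) (hb : rb < Y.m)
    (hc : rc < Y.m) (he : re < Y.m) (hd : DOK P t)
    (hm : Match P.n P.A P.B K T.mul T.inv g T.vc t a b c e)
    (hE : chkE P PZ VS Q KT t = true) (hW : allTr (oKeyW P PZ VW Q Y) KT = true)
    (hadm0 : Adm P.A P.B a b c e)
    (hab : Y.m * a + ra < Y.m * b + rb) (hbc : Y.m * b + rb ≤ Y.m * c + rc)
    (hce : Y.m * c + rc ≤ Y.m * e + re)
    (hdl : (Y.m * b + rb) + (Y.m * c + rc) = (Y.m * e + re) + (Y.m * a + ra))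
    (hg : P.B * (Y.m * c + rc) + P.A * (Y.m * a + ra) < (P.A + P.B) * (Y.m * b + rb))
    (hz : ∀ ω, VV (GS (Wd Y.m P.M T.ac (XZ Q S) g) ω) (Y.m * a + ra) (Y.m * b + rb)
      (Y.m * c + rc) (Y.m * e + re) = 0) : False := by
  have hm0 := B.hm
  have hq0 := B.hq
  have ρa := G.ilt _ (hs.lt a)
  -- pieces
  have hpc : ∀ r, r < Y.m → ∃ j s, s < Q.m ∧ j < Y.q ∧ r = Q.m * j + s := by
    intro r hr
    refine ⟨r / Q.m, r % Q.m, Nat.mod_lt _ hm0, ?_, (Nat.div_add_mod r Q.m).symm⟩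
    rw [B.hmq] at hr
    exact Nat.div_lt_of_lt_mul hr
  obtain ⟨ja, sa, hsa, hja, era⟩ := hpc ra ha
  obtain ⟨jb, sb, hsb, hjb, erb⟩ := hpc rb hb
  obtain ⟨jc, sc', hsc', hjc, erc⟩ := hpc rc hc
  obtain ⟨je, se, hse, hje, ere⟩ := hpc re he
  have hpos : ∀ x j s, Y.m * x + (Q.m * j + s) = Q.m * (Y.q * x + j) + s := by
    intro x j s
    rw [B.hmq]
    ring
  have pa : Y.m * a + ra = Q.m * (Y.q * a + ja) + sa := by rw [era, hpos]
  have pb : Y.m * b + rb = Q.m * (Y.q * b + jb) + sb := by rw [erb, hpos]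
  have pc : Y.m * c + rc = Q.m * (Y.q * c + jc) + sc' := by rw [erc, hpos]
  have pe : Y.m * e + re = Q.m * (Y.q * e + je) + se := by rw [ere, hpos]
  have hab' := hab
  have hbc' := hbc
  have hce' := hce
  have hdl2' := hdl
  have hg' := hg
  rw [pa, pb] at hab'
  rw [pb, pc] at hbc'
  rw [pc, pe] at hce'
  rw [pa, pb, pc, pe] at hdl2'
  rw [pa, pb, pc] at hg'
  have hadm := adm_outer hB hsa hsb hsc' hse hab'.le hbc' hce' hdl2' hg'
  -- digits of the template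
  obtain ⟨kb, hkb⟩ : ∃ kb, kb = T.mul (T.inv (g a)) (g b) := ⟨_, rfl⟩
  obtain ⟨kc, hkc⟩ : ∃ kc, kc = T.mul (T.inv (g a)) (g c) := ⟨_, rfl⟩
  obtain ⟨ke, hke⟩ : ∃ ke, ke = T.mul (T.inv (g a)) (g e) := ⟨_, rfl⟩
  obtain ⟨dl, hdl0⟩ : ∃ dl, dl = dg t (P.n + 3) := ⟨_, rfl⟩
  obtain ⟨gt, hgt⟩ : ∃ gt, gt = (P.B * c + P.A * a + (P.A + P.B)) - (P.A + P.B) * b := ⟨_, rfl⟩
  obtain ⟨zl, hzl⟩ : ∃ zl, zl = if b = a then 1 else 0 := ⟨_, rfl⟩
  obtain ⟨zv, hzv⟩ : ∃ zv, zv = if c = b then 1 else 0 := ⟨_, rfl⟩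
  have e0 : dg t P.n = kb := hm.hb.trans hkb.symm
  have e1 : dg t (Nat.add P.n 1) = kc := hm.hc.trans hkc.symm
  have e2 : dg t (Nat.add P.n 2) = ke := hm.he.trans hke.symm
  have e3 : dg t (Nat.add P.n 3) = dl := hdl0.symm
  have e4 : dg t (Nat.add P.n 4) = gt := hm.hg.trans hgt.symm
  have e5 : dg t (Nat.add P.n 5) = zl := hm.h5.trans hzl.symm
  have e6 : dg t (Nat.add P.n 6) = zv := hm.h6.trans hzv.symm
  have hdl' : dl + (e + a) = b + c + 1 := by rw [hdl0]; exact hm.hd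
  have hdl2 : dl ≤ 2 := by
    have := hadm0.h2
    omega
  have l0 : 0 < T.γ := by
    have := G.pos
    rw [← B.eγ]
    exact this
  have lb : kb < T.γ := by rw [hkb, ← B.eγ]; exact G.lt _ ρa _ (hs.lt b)
  have lc : kc < T.γ := by rw [hkc, ← B.eγ]; exact G.lt _ ρa _ (hs.lt c)
  have le : ke < T.γ := by rw [hke, ← B.eγ]; exact G.lt _ ρa _ (hs.lt e)
  have hrg : ∀ x, T.mul (T.inv (g a)) (g x) < P.γ := fun x => G.lt _ ρa _ (hs.lt x)
  -- the piece digit of the length difference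
  obtain ⟨d, hdd⟩ : ∃ d, d + ((Y.q * e + je) + (Y.q * a + ja)) =
      (Y.q * b + jb) + (Y.q * c + jc) + 1 := by
    have g1 := hadm.h1
    exact ⟨(Y.q * b + jb) + (Y.q * c + jc) + 1 - ((Y.q * e + je) + (Y.q * a + ja)), by omega⟩
  have hd3 : d < 3 := by
    have g2 := hadm.h2
    omega
  have hexpJ : je + (ja + Y.q + d) = Y.q * dl + (jb + 1) + jc := by
    have g2 : Y.q * dl + Y.q * (e + a) = Y.q * (b + c) + Y.q := by
      rw [← Nat.mul_add, hdl']
      ring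
    rw [Nat.mul_add, Nat.mul_add] at g2
    omega
  -- packed values of the functionals
  obtain ⟨lF, hlF⟩ : ∃ lF : ℕ → ℕ → ℕ, lF = fun k f => S.d * T.chn f k := ⟨_, rfl⟩
  obtain ⟨cF, hcF⟩ : ∃ cF : ℕ → ℕ, cF = fun f => C4 - T.h * ∑ k ∈ range T.n, S.d * T.chn f k :=
    ⟨_, rfl⟩
  have hL2' : Q.L2 = pk Q.W (fun k => pk Wo (lF k) Lo) P.n := by
    rw [F.hL2, pkR_eq, B.en]
    apply pk_congr
    intro k _
    rw [pkR_eq, hlF]
    rfl
  have hC2' : Q.C2 = pk Wo cF Lo := by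
    rw [F.hC2, pkR_eq]
    apply pk_congr
    intro f _
    rw [sumN_eq, hcF]
    rfl
  have hlFv : ∀ k, k < P.n → ∀ f, f < Lo → (lF k f : ℤ) = (S.d * T.cx : ℕ) + S.d * T.χ f k := by
    intro k _ f _
    rw [hlF]
    unfold Tb.χ
    push_cast
    ring
  have hcFv : ∀ f, f < Lo → cF f + T.h * ∑ k ∈ range P.n, lF k f = C4 := by
    rw [B.en]
    intro f hf
    have h1 := F.hC4 f hf
    rw [sumN_eq] at h1
    have h2 : T.h * ∑ k ∈ range T.n, S.d * T.chn f k ≤ C4 := h1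
    rw [hlF, hcF]
    dsimp only
    omega
  have bLF : ∀ k, k < P.n → ∀ f, f < Lo → lF k f ≤ S.d * (2 * T.cx) := by
    rw [B.en, hlF]
    intro k hk f hf
    exact Nat.mul_le_mul le_rfl (B.O.hcx f (hf.trans_le B.hLo) k hk)
  have bCF : ∀ f, cF f ≤ C4 := by
    intro f
    rw [hcF]
    exact Nat.sub_le _ _
  have hbdF := F.hbdF
  have pPv : ∀ f, f < Lo → pV P lF cF t f ≤ P.nh * (S.d * (2 * T.cx)) + C4 := by
    intro f hf
    unfold pV
    exact Nat.add_le_add (sum_le_of hd (fun k hk => bLF k hk f hf)) (bCF f)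
  have hvF : valF P Q t = pk Wo (pV P lF cF t) Lo := by
    unfold valF
    rw [hC2']
    rcases Nat.eq_zero_or_pos P.nh with h0 | h0
    · have hz0 : ∀ k ∈ range P.n, eg P t k = 0 := by
        have := hd.h2
        rw [h0] at this
        exact Finset.sum_eq_zero_iff.1 this
      have e1 : sumN (fun k => Nat.mul (eg P t k) (fd Q.W Q.MW Q.L2 k)) P.n = 0 := by
        rw [sumN_eq]
        apply Finset.sum_eq_zero
        intro k hk
        show eg P t k * _ = 0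
        rw [hz0 k hk, Nat.zero_mul]
      have e2 : pk Wo cF Lo = pk Wo (pV P lF cF t) Lo := by
        apply pk_congr
        intro f _
        unfold pV
        rw [Finset.sum_eq_zero (fun k hk => by rw [hz0 k hk, Nat.zero_mul]), Nat.zero_add]
      show sumN _ _ + _ = _
      rw [e1, Nat.zero_add, e2]
    · exact sum_packed B.hMW B.hQW hL2' (fun k hk f hf => by
        have g1 := bLF k hk f hf
        have g2 : S.d * (2 * T.cx) ≤ P.nh * (S.d * (2 * T.cx)) := Nat.le_mul_of_pos_left _ h0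
        omega)
  -- totals
  have hfun : ∀ f, f < Lo → 2 ^ (Wo - 1) ≤ pV P lF cF t f +
      (bP T P Q S Y 1 0 ja f + gP T Q S 1 ja 0 sa f) +
      (bP T P Q S Y 0 kb jb f + gP T Q S 0 jb kb sb f) +
      (bP T P Q S Y 0 kc jc f + gP T Q S 0 jc kc sc' f) +
      (bP T P Q S Y 1 ke je f + gP T Q S 1 je ke se f) := by
    intro f hf
    have hR : ∀ i, i < P.M → ∀ κ, κ < P.γ →
        (S.sc : ℤ) * RS T.ac (XZ Q S) (T.χ f) i κ Y.m = S.d * T.th f κ := by
      intro i _ κ hκ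
      rw [B.RSZ_tot]
      rw [B.eγ] at hκ
      exact Tb.tot' B.O F.hT (TOKB.χ_sum B.O (hf.trans_le B.hLo)) hκ
    have q0 := block_eq A G hs hR ρa ha.le hb.le hc.le he.le hz
    rw [← hkb, ← hkc, ← hke, G.inv_mul _ (hs.lt a), era, erb, erc, ere] at q0
    have vP := pV_val hK1 hnh hm hd (l := lF) (cc := cF) (Cc := C4) (bb := S.d * T.cx)
      (ps := fun k => S.d * T.χ f k) (f := f) (fun k hk => hlFv k hk f hf) (hcFv f hf)
    have hVV : VV (PS (fun x => T.th f (T.mul (T.inv (g a)) (g x)))) a b c e =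
        ∑ k ∈ range P.n, T.χ f k * DV T.mul T.inv g T.vc k a b c e := by
      have e1 : ∀ x, T.th f (T.mul (T.inv (g a)) (g x)) =
          ∑ k ∈ range P.n, T.χ f k * T.vc (T.mul (T.inv (g a)) (g x)) k :=
        fun x => hth f hf _ (hrg x)
      rw [VP_congr e1, VP_lin P.n (fun k => T.χ f k) (fun k x => T.vc (T.mul (T.inv (g a)) (g x)) k)]
      rfl
    have e2 : ∑ k ∈ range P.n, (S.d : ℤ) * T.χ f k * DV T.mul T.inv g T.vc k a b c e =
        S.d * VV (PS (fun x => T.th f (T.mul (T.inv (g a)) (g x)))) a b c e := by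
      rw [hVV, Finset.mul_sum]
      apply Finset.sum_congr rfl
      intro k _
      ring
    rw [e2] at vP
    have v1 := B.fun_val (i := a % P.M) (ro := 1) (by norm_num) hja l0 hsa hf
    have v2 := B.fun_val (i := b % P.M) (ro := 0) (by norm_num) hjb lb hsb hf
    have v3 := B.fun_val (i := c % P.M) (ro := 0) (by norm_num) hjc lc hsc' hf
    have v4 := B.fun_val (i := e % P.M) (ro := 1) (by norm_num) hje le hse hf
    rw [sg_one] at v1 v4
    rw [sg_zero] at v2 v3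
    have hb' : ((C4 + 4 * (S.sc * T.cx * (Y.m + Q.m)) : ℕ) : ℤ) = (2 ^ (Wo - 1) : ℕ) := by
      rw [F.hbias]
    have hfin : ((2 ^ (Wo - 1) : ℕ) : ℤ) ≤ ((pV P lF cF t f +
      (bP T P Q S Y 1 0 ja f + gP T Q S 1 ja 0 sa f) +
      (bP T P Q S Y 0 kb jb f + gP T Q S 0 jb kb sb f) +
      (bP T P Q S Y 0 kc jc f + gP T Q S 0 jc kc sc' f) +
      (bP T P Q S Y 1 ke je f + gP T Q S 1 je ke se f) : ℕ) : ℤ) := by
      rw [← hb', Nat.cast_add (pV P lF cF t f + _ + _ + _), Nat.cast_add (pV P lF cF t f + _ + _),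
        Nat.cast_add (pV P lF cF t f + _), Nat.cast_add (pV P lF cF t f), vP, v1, v2, v3, v4]
      push_cast
      linarith
    exact_mod_cast hfin
  have gA := fun f (hf : f < Lo) => B.gP_eF (ro := 1) (by norm_num) l0 hja hsa hf
  have gB := fun f (hf : f < Lo) => B.gP_eF (ro := 0) (by norm_num) lb hjb hsb hf
  have gC := fun f (hf : f < Lo) => B.gP_eF (ro := 0) (by norm_num) lc hjc hsc' hf
  have gE := fun f (hf : f < Lo) => B.gP_eF (ro := 1) (by norm_num) le hje hse hf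
  have xle : ∀ ro, ro < 2 → ∀ κ, κ < T.γ → ∀ j, j < Y.q → ∀ f, f < Lo →
      pP T P Q S Y Wo ro κ j f ≤ xF T Q S Y ro κ f :=
    fun ro hro κ hκ j hj f hf => B.pP_xF hro hκ hj hf
  -- the enumeration
  unfold chkE at hE
  rw [e0, e1, e2, e3, e4, e5, e6] at hE
  have hix : ∀ ro κ, Nat.add (Nat.mul P.γ ro) κ = T.γ * ro + κ := by
    intro ro κ
    rw [B.eγ]
    rfl
  rw [hix, hix, hix, hix] at hE
  have hq' : PZ.M = Y.q := F.hPM'
  have hGT : ∀ ro, ro < 2 → ∀ κ, κ < T.γ → nthL PZ.gT (T.γ * ro + κ) =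
      pk (Wo * Lo) (fun j => pk Wo (pP T P Q S Y Wo ro κ j) Lo) PZ.M := by
    intro ro hro κ hκ
    rw [hq']
    exact B.gT' hro hκ
  have hXT : ∀ ro, ro < 2 → ∀ κ, κ < T.γ → nthL PZ.xT (T.γ * ro + κ) =
      pk Wo (xF T Q S Y ro κ) Lo := by
    intro ro hro κ hκ
    rw [B.xT ro hro κ hκ, pkR_eq]
  have hmem := aV_sound (xa := fun f => xF T Q S Y 1 0 f) OS F.hPW F.hPL
    (hGT 1 (by norm_num) 0 l0) (hGT 0 (by norm_num) kb lb)
    (hGT 0 (by norm_num) kc lc) (hGT 1 (by norm_num) ke le)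
    (hXT 0 (by norm_num) kb lb) (hXT 0 (by norm_num) kc lc) (hXT 1 (by norm_num) ke le) hvF
    (fun j hj f hf => xle 1 (by norm_num) 0 l0 j (by omega) f hf)
    (fun j hj f hf => xle 0 (by norm_num) kb lb j (by omega) f hf)
    (fun j hj f hf => xle 0 (by norm_num) kc lc j (by omega) f hf)
    (fun j hj f hf => xle 1 (by norm_num) ke le j (by omega) f hf)
    (by
      intro f hf
      have g0 := pPv f hf
      have g1 := F.hbx 1 (by norm_num) 0 l0 f hf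
      have g2 := F.hbx 0 (by norm_num) kb lb f hf
      have g3 := F.hbx 0 (by norm_num) kc lc f hf
      have g4 := F.hbx 1 (by norm_num) ke le f hf
      omega)
    (ia := ja) (ib := jb) (ic := jc) (ie := je) (d := d)
    (by omega) (by omega) (by omega) (by omega) hd3 (by rw [hq']; exact hexpJ)
    (by
      intro f hf
      have g0 := hfun f hf
      have g1 := gA f hf
      have g2 := gB f hf
      have g3 := gC f hf
      have g4 := gE f hf
      unfold pP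
      omega)
    (by
      rw [hgt]
      have h1 := lt_cntC (P := PZ) (by rw [F.hPB]; exact hB) (a := a) (b := b) (c := c)
        (ia := ja) (ib := jb) (ic := jc) (by omega) (by omega) (by
          rw [hq', F.hPA, F.hPB]
          exact hadm.hg)
      rw [F.hPA, F.hPB] at h1
      exact h1)
    (by
      intro hz1
      have hab2 : b = a := by
        by_contra hne
        rw [if_neg hne] at hzl
        omega
      have := hadm.hab
      rw [hab2] at this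
      omega)
    (by
      by_cases h1 : c = b
      · rw [hzv, if_pos h1, Nat.one_mul]
        have := hadm.hbc
        rw [h1] at this
        omega
      · rw [hzv, if_neg h1, Nat.zero_mul]
        omega)
    hE
  have hq2 := B.hq2
  have hkey := wkey_spec (by omega) (by omega) (by omega) (by omega) (memTr_spec hW hmem)
  unfold chkW oW at hkey
  rw [e0, e1, e2, e3, e4, e5, e6] at hkey
  -- the window check
  have edl : Nat.sub (Nat.add (Nat.mul Y.q dl) (Nat.add (Nat.add jb jc) 1))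
      (Nat.add (Nat.add je ja) Y.q) = d := by
    show (Y.q * dl + (jb + jc + 1)) - (je + ja + Y.q) = d
    omega
  have egt : gch PZ gt ja jb jc = (P.B * (Y.q * c + jc) + P.A * (Y.q * a + ja) + (P.A + P.B)) -
      (P.A + P.B) * (Y.q * b + jb) := by
    rw [hgt]
    have h1 := gch_eq (P := PZ) (a := a) (b := b) (c := c) (ia := ja) (ib := jb) (ic := jc)
      (by omega) (by omega)
    rw [F.hPA, F.hPB, hq'] at h1
    exact h1
  have ezl : Nat.mul zl (bn (Nat.beq ja jb)) = if Y.q * b + jb = Y.q * a + ja then 1 else 0 := by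
    rw [bn_beq, hzl]
    exact flag_eq hja hjb
  have ezv : Nat.mul zv (bn (Nat.beq jb jc)) = if Y.q * c + jc = Y.q * b + jb then 1 else 0 := by
    rw [bn_beq, hzv]
    exact flag_eq hjb hjc
  rw [edl, egt, ezl, ezv, B.vR_eq, B.vR_eq, B.vR_eq, B.vR_eq] at hkey
  have hF1 := B.hF
  -- the values
  have hvO : valO P Q t = pV P (fun k _ => fd Q.F Q.MF Q.L1 k) (fun _ => Q.C1) t 0 := by
    unfold valO pV
    rw [sumN_eq]
    rfl
  have hval : (valO P Q t : ℤ) = C3 + S.d * VV (PS (fun x => ∑ k ∈ range P.n,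
      Φ k * T.vc (T.mul (T.inv (g a)) (g x)) k)) a b c e := by
    rw [hvO]
    have vP := pV_val hK1 hnh hm hd (l := fun k _ => fd Q.F Q.MF Q.L1 k) (cc := fun _ => Q.C1)
      (Cc := C3) (bb := bo) (ps := fun k => S.d * Φ k) (f := 0)
      (fun k hk => F.hlO k (by rw [← B.en]; exact hk)) (by
        have := F.hC1
        rw [sumN_eq] at this
        rw [B.en]
        exact this)
    rw [vP, VP_lin P.n Φ (fun k x => T.vc (T.mul (T.inv (g a)) (g x)) k), Finset.mul_sum]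
    congr 1
    apply Finset.sum_congr rfl
    intro k _
    unfold DV
    ring
  have hRt : ∀ i, i < P.M → ∀ κ, κ < P.γ → (S.sc : ℤ) * RS T.ac (XZ Q S) Φ i κ Y.m =
      S.d * ∑ k ∈ range P.n, Φ k * T.vc κ k := by
    intro i _ κ hκ
    rw [B.RSZ_tot, B.en]
    rw [B.eγ] at hκ
    exact Tb.tot' B.O F.hT F.hΦz hκ
  have h0 := block_eq A G hs (ω := Φ) (θ := fun κ => ∑ k ∈ range P.n, Φ k * T.vc κ k)
    (sc := S.sc) (d := S.d) hRt ρa ha.le hb.le hc.le he.le hz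
  rw [← hkb, ← hkc, ← hke, G.inv_mul _ (hs.lt a), era, erb, erc, ere] at h0
  have ra' := B.val (i := a % P.M) F.hΦ hja l0 hsa
  have rb' := B.val (i := b % P.M) F.hΦ hjb lb hsb
  have rc' := B.val (i := c % P.M) F.hΦ hjc lc hsc'
  have re' := B.val (i := e % P.M) F.hΦ hje le hse
  have hexp : re + (Y.m + ra) = Y.m * dl + rb + rc := by
    have g2 : Y.m * dl + Y.m * (e + a) = Y.m * (b + c) + Y.m := by
      rw [← Nat.mul_add, hdl']
      ring
    rw [Nat.mul_add, Nat.mul_add] at g2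
    omega
  have htot2 : (valO P Q t + Q.kT * (Y.m * dl) + vZ T P Q Y kb jb + vZ T P Q Y kc jc) +
      hP T Q jb kb sb + hP T Q jc kc sc' =
      (Q.TF + vZ T P Q Y 0 ja + vZ T P Q Y ke je) + hP T Q ja 0 sa + hP T Q je ke se := by
    have hz' : ((valO P Q t + Q.kT * (Y.m * dl) + (vZ T P Q Y kb jb + hP T Q jb kb sb) +
        (vZ T P Q Y kc jc + hP T Q jc kc sc') : ℕ) : ℤ) =
        ((Q.TF + (vZ T P Q Y 0 ja + hP T Q ja 0 sa) + (vZ T P Q Y ke je + hP T Q je ke se) : ℕ) :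
          ℤ) := by
      rw [F.hTF, Nat.cast_add (valO P Q t + Q.kT * (Y.m * dl) + _),
        Nat.cast_add (valO P Q t + Q.kT * (Y.m * dl)), Nat.cast_add (C3 + Q.kT * Y.m + _),
        Nat.cast_add (C3 + Q.kT * Y.m), ra', rb', rc', re', Nat.cast_add (valO P Q t), hval]
      have hexp' : ((Q.m * je + se : ℕ) : ℤ) + (Y.m + (Q.m * ja + sa : ℕ)) =
          Y.m * dl + (Q.m * jb + sb : ℕ) + (Q.m * jc + sc' : ℕ) := by
        rw [← era, ← erb, ← erc, ← ere]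
        exact_mod_cast hexp
      have hre : ((Q.m * je + se : ℕ) : ℤ) = Y.m * dl + (Q.m * jb + sb : ℕ) +
          (Q.m * jc + sc' : ℕ) - Y.m - (Q.m * ja + sa : ℕ) := by linarith
      rw [hre]
      rw [Nat.cast_mul Q.kT (Y.m * dl), Nat.cast_mul Y.m dl, Nat.cast_add C3, Nat.cast_mul Q.kT Y.m]
      linear_combination h0
    have hz2 : valO P Q t + Q.kT * (Y.m * dl) + (vZ T P Q Y kb jb + hP T Q jb kb sb) +
        (vZ T P Q Y kc jc + hP T Q jc kc sc') =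
        Q.TF + (vZ T P Q Y 0 ja + hP T Q ja 0 sa) + (vZ T P Q Y ke je + hP T Q je ke se) := by
      exact_mod_cast hz'
    omega
  have hvle : valO P Q t ≤ P.nh * BO + Q.C1 := by
    rw [hvO]
    unfold pV
    exact Nat.add_le_add_right (sum_le_of hd (fun k hk => F.hBO k (by rw [← B.en]; exact hk))) _
  have hkd : Q.kT * (Y.m * dl) ≤ Q.kT * (Y.m * 2) :=
    Nat.mul_le_mul le_rfl (Nat.mul_le_mul le_rfl hdl2)
  have z1 := B.vZ_le F.hPM hjb lb
  have z2 := B.vZ_le F.hPM hjc lc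
  have z3 := B.vZ_le F.hPM hja l0
  have z4 := B.vZ_le F.hPM hje le
  have hb1 := F.hb1
  have hb2 := F.hb2
  have GA : arG P Q 1 ja 0 = pk (Wo * Lo) (fun r => pk Wo (gP T Q S 1 ja 0 r) Lo) Q.m := by
    rw [B.arG_eq (by norm_num) hja l0, B.hQW]
  have GB : arG P Q 0 jb kb = pk (Wo * Lo) (fun r => pk Wo (gP T Q S 0 jb kb r) Lo) Q.m := by
    rw [B.arG_eq (by norm_num) hjb lb, B.hQW]
  have hxf : Nat.add (Nat.add (Nat.add (Nat.add (valF P Q t) (bR P Q Y 1 0 ja))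
      (bR P Q Y 0 kb jb)) (pR P PZ Q 0 kc jc)) (pR P PZ Q 1 ke je) =
      pk Wo (fun f => pV P lF cF t f + bP T P Q S Y 1 0 ja f + bP T P Q S Y 0 kb jb f +
        pP T P Q S Y Wo 0 kc jc f + pP T P Q S Y Wo 1 ke je f) Lo := by
    rw [hvF, B.bR_eq (by norm_num) l0, B.bR_eq (by norm_num) lb, B.pR_eq (by norm_num) lc hjc,
      B.pR_eq (by norm_num) le hje]
    show pk Wo _ Lo + pk Wo _ Lo + pk Wo _ Lo + pk Wo _ Lo + pk Wo _ Lo = _
    rw [← pk_add, ← pk_add, ← pk_add, ← pk_add]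
  refine oV0_sound (BR := PM * Q.m) (ya := eF P Q Y Wo 1 0 ja) (P := P) OW hF1 B.hMF
    (by rw [F.hON, pkR_eq]) (by rw [F.hKO, pkR_eq]) (by rw [F.hGO, pkR_eq]) B.hQW B.hMW hB
    (B.arF_eq hja) (B.arF_eq hjb) (B.arF_eq hjc) (B.arF_eq hje)
    (fun r hr => B.hP_le F.hPM hja l0 hr) (fun r hr => B.hP_le F.hPM hjb lb hr)
    (fun r hr => B.hP_le F.hPM hjc lc hr) (fun r hr => B.hP_le F.hPM hje le hr)
    GA GB (B.eR_eq (by norm_num) lb hjb) hxf
    (fun r hr f hf => B.gP_eF (by norm_num) l0 hja hr hf)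
    (fun r hr f hf => B.gP_eF (by norm_num) lb hjb hr hf) ?_ hsa hsb hsc' hse ?_ htot2 ?_ ?_
    ?_ (gap_pos hsa hsc' hg') ?_ ?_ hkey
  · intro f hf
    have g0 := pPv f hf
    have g1 := F.hbx 1 (by norm_num) 0 l0 f hf
    have g2 := F.hbx 0 (by norm_num) kb lb f hf
    have g3 := F.hbx 0 (by norm_num) kc lc f hf
    have g4 := F.hbx 1 (by norm_num) ke le f hf
    have k1 := xle 1 (by norm_num) 0 l0 ja hja f hf
    have k2 := xle 0 (by norm_num) kb lb jb hjb f hf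
    have k3 := xle 0 (by norm_num) kc lc jc hjc f hf
    have k4 := xle 1 (by norm_num) ke le je hje f hf
    unfold pP at k1 k2 k3 k4 ⊢
    omega
  · intro f hf
    have g0 := hfun f hf
    have g3 := gC f hf
    have g4 := gE f hf
    unfold pP
    omega
  · omega
  · omega
  · have g2 : Q.m * d + Q.m * ((Y.q * e + je) + (Y.q * a + ja)) =
        Q.m * ((Y.q * b + jb) + (Y.q * c + jc)) + Q.m := by
      rw [← Nat.mul_add, hdd]
      ring
    rw [Nat.mul_add Q.m (Y.q * e + je), Nat.mul_add Q.m (Y.q * b + jb)] at g2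
    omega
  · intro hz1
    have h1 : Y.q * b + jb = Y.q * a + ja := by
      by_contra hne
      rw [if_neg hne] at hz1
      omega
    rw [h1] at hab'
    omega
  · by_cases h1 : Y.q * c + jc = Y.q * b + jb
    · rw [if_pos h1, Nat.one_mul]
      rw [h1] at hbc'
      omega
    · rw [if_neg h1, Nat.zero_mul]
      omega

end

end MPbbea99G
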