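import Pool.Agent.Lib.Pbbea99G.Vec
import Pool.Agent.Lib.Pbbea99G.Main1

/-!
# MP_bbea99_co: the closure check, vectorised
-/

namespace MPbbea99G

open Finset MPbbea99S MPbbea99T

/-- replicated constants -/
structure VP where
  NG : ℕ
  F1 : ℕ
  W1 : ℕ
  MC : ℕ
  ON : ℕ
  HR : ℕ
  KR : ℕ
  GR : ℕ

/-- mask of all rows -/
def mskF (V : VP) (S : ℕ) : ℕ := msk V.F1 V.W1 V.MC S V.HR V.KR V.GR

/-- mask with `k` rows dropped -/
def mskK (V : VP) (F k S : ℕ) : ℕ :=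
  msk V.F1 V.W1 V.MC S (Nat.shiftRight V.HR (Nat.mul F k)) (Nat.shiftRight V.KR (Nat.mul F k))
    (Nat.shiftRight V.GR (Nat.mul F k))

/-- the facts behind the replicated constants -/
structure VOK (V : VP) (W L N : ℕ) : Prop where
  hW : 2 ≤ W
  hL : 0 < L
  hN : N < W * L
  hNG : N ≤ 8 * V.NG
  hF1 : V.F1 = W * L - 1
  hW1 : V.W1 = W - 1
  hMC : V.MC = 2 ^ (W * L) - 2
  hON : V.ON = pk (W * L) (fun _ => 1) N
  hHR : V.HR = pk (W * L) (fun _ => pk W (fun _ => 2 ^ (W - 1)) L) N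
  hKR : V.KR = pk (W * L) (fun _ => 2 ^ (W * L - 1) - 1) N
  hGR : V.GR = pk (W * L) (fun _ => 2 ^ (W * L - 1)) N

lemma VOK.mskF {V : VP} {W L N S : ℕ} (O : VOK V W L N) {s : ℕ → ℕ → ℕ}
    (hS : S % 2 ^ (W * L * N) = pk (W * L) (fun r => pk W (s r) L) N)
    (hs : ∀ r, r < N → ∀ f, f < L → s r f < 2 ^ W)
    {r : ℕ} (hr : r < N) (hal : ∀ f, f < L → 2 ^ (W - 1) ≤ s r f) :
    (mskF V S).testBit r = true := by
  unfold MPbbea99G.mskF
  rw [O.hF1, O.hW1, O.hMC]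
  exact msk_spec O.hW O.hL O.hN hS hs O.hHR O.hKR O.hGR hr hal

lemma VOK.mskK {V : VP} {W L N F S k : ℕ} (O : VOK V W L N) (hF : F = W * L) (hk : k ≤ N)
    {s : ℕ → ℕ → ℕ} (hS : S % 2 ^ (W * L * (N - k)) = pk (W * L) (fun r => pk W (s r) L) (N - k))
    (hs : ∀ r, r < N - k → ∀ f, f < L → s r f < 2 ^ W)
    {r : ℕ} (hr : r < N - k) (hal : ∀ f, f < L → 2 ^ (W - 1) ≤ s r f) :
    (mskK V F k S).testBit r = true := by
  have hW := O.hW
  have hL := O.hL
  have hN := O.hN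
  have hWL : 0 < W * L := Nat.mul_pos (by omega) hL
  have hFp : (2 : ℕ) ^ (W * L) = 2 * 2 ^ (W * L - 1) := by
    rw [← pow_succ']
    congr 1
    omega
  have hWp : (2 : ℕ) ^ W = 2 * 2 ^ (W - 1) := by
    rw [← pow_succ']
    congr 1
    omega
  have hpos : 0 < (2 : ℕ) ^ (W * L - 1) := by positivity
  have hpos' : 0 < (2 : ℕ) ^ (W - 1) := by positivity
  unfold MPbbea99G.mskK
  rw [O.hF1, O.hW1, O.hMC, hF]
  apply msk_spec O.hW O.hL (by omega) hS hs _ _ _ hr hal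
  · show V.HR >>> (W * L * k) = _
    rw [O.hHR]
    apply const_shift _ hk
    apply pk_lt
    intro _ _
    omega
  · show V.KR >>> (W * L * k) = _
    rw [O.hKR]
    exact const_shift (by omega) hk
  · show V.GR >>> (W * L * k) = _
    rw [O.hGR]
    exact const_shift (by omega) hk

lemma rows1 {W L N cnt Y G : ℕ} {g : ℕ → ℕ → ℕ} {y : ℕ → ℕ}
    (hG : G = pk (W * L) (fun t => pk W (g t) L) N) (hY : Y = pk W y L) (hc : cnt ≤ N)
    (hb : ∀ t, t < N → ∀ f, f < L → g t f + y f < 2 ^ W) :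
    (G + Y * pk (W * L) (fun _ => 1) N) % 2 ^ (W * L * cnt) =
      pk (W * L) (fun r => pk W (fun f => g r f + y f) L) cnt := by
  rcases Nat.eq_zero_or_pos cnt with h0 | h0
  · subst h0
    simp [pk, Nat.mod_one]
  have hYlt : Y < 2 ^ (W * L) := by
    rw [hY]
    apply pk_lt
    intro f hf
    have := hb 0 (by omega) f hf
    omega
  have hGlt : ∀ r, r < N → pk W (g r) L < 2 ^ (W * L) := by
    intro r hr
    apply pk_lt
    intro f hf
    have := hb r hr f hf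
    omega
  have h1 : G % 2 ^ (W * L * cnt) = pk (W * L) (fun t => pk W (g t) L) cnt := by
    rw [hG]
    exact low_pk hGlt hc
  rw [low_add h1 (low_mul hYlt hc)]
  · apply pk_congr
    intro r _
    rw [hY, ← pk_add]
  · intro r hr
    rw [hY, ← pk_add]
    exact pk_lt (hb r (by omega))

lemma rows2 {W L N cnt Y G G' lo lo' : ℕ} {g g' : ℕ → ℕ → ℕ} {y : ℕ → ℕ}
    (hG : G = pk (W * L) (fun t => pk W (g t) L) N)
    (hG' : G' = pk (W * L) (fun t => pk W (g' t) L) N)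
    (hY : Y = pk W y L) (hc : lo + cnt ≤ N) (hc' : lo' + cnt ≤ N)
    (hb : ∀ t, t < N → ∀ t', t' < N → ∀ f, f < L → g t f + g' t' f + y f < 2 ^ W) :
    ((G >>> (W * L * lo)) + (G' >>> (W * L * lo')) + Y * pk (W * L) (fun _ => 1) N) %
      2 ^ (W * L * cnt) =
      pk (W * L) (fun r => pk W (fun f => g (r + lo) f + g' (r + lo') f + y f) L) cnt := by
  rcases Nat.eq_zero_or_pos cnt with h0 | h0
  · subst h0
    simp [pk, Nat.mod_one]
  have hYlt : Y < 2 ^ (W * L) := by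
    rw [hY]
    apply pk_lt
    intro f hf
    have := hb 0 (by omega) 0 (by omega) f hf
    omega
  have hGlt : ∀ r, r < N → pk W (g r) L < 2 ^ (W * L) := by
    intro r hr
    apply pk_lt
    intro f hf
    have := hb r hr 0 (by omega) f hf
    omega
  have hGlt' : ∀ r, r < N → pk W (g' r) L < 2 ^ (W * L) := by
    intro r hr
    apply pk_lt
    intro f hf
    have := hb 0 (by omega) r hr f hf
    omega
  have h1 : (G >>> (W * L * lo)) % 2 ^ (W * L * cnt) =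
      pk (W * L) (fun r => pk W (g (r + lo)) L) cnt := by
    rw [hG]
    exact low_shift hGlt hc
  have h2 : (G' >>> (W * L * lo')) % 2 ^ (W * L * cnt) =
      pk (W * L) (fun r => pk W (g' (r + lo')) L) cnt := by
    rw [hG']
    exact low_shift hGlt' hc'
  have h3 := low_add h1 h2 (by
    intro r hr
    rw [← pk_add]
    apply pk_lt
    intro f hf
    have := hb (r + lo) (by omega) (r + lo') (by omega) f hf
    omega)
  rw [low_add h3 (low_mul hYlt (by omega))]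
  · apply pk_congr
    intro r _
    rw [hY, ← pk_add, ← pk_add]
  · intro r hr
    rw [hY, ← pk_add, ← pk_add]
    exact pk_lt (hb (r + lo) (by omega) (r + lo') (by omega))

/-! ### search trees -/

/-- binary trees with keys -/
inductive Tr where
  | nil : Tr
  | node : Tr → ℕ → Tr → Tr

/-- search -/
noncomputable def memTr (x : ℕ) (T : Tr) : Bool :=
  Tr.rec (motive := fun _ => Bool) false
    (fun _ k _ ihl ihr => bc (Nat.beq x k) true (bc (Nat.ble x k) ihl ihr)) T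

/-- all keys satisfy `f` -/
noncomputable def allTr (f : ℕ → Bool) (T : Tr) : Bool :=
  Tr.rec (motive := fun _ => Bool) true
    (fun _ k _ ihl ihr => bc (f k) (bc ihl ihr false) false) T

lemma allTr_node (f : ℕ → Bool) (l r : Tr) (k : ℕ) :
    allTr f (Tr.node l k r) = bc (f k) (bc (allTr f l) (allTr f r) false) false := rfl

/-- a tree from its parts -/
lemma allTr_mk {f : ℕ → Bool} {l r : Tr} {k : ℕ} (hk : f k = true) (hl : allTr f l = true)
    (hr : allTr f r = true) : allTr f (Tr.node l k r) = true := by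
  rw [allTr_node, hk, hl, hr]
  rfl

theorem memTr_spec {f : ℕ → Bool} {T : Tr} (h : allTr f T = true) {x : ℕ}
    (hx : memTr x T = true) : f x = true := by
  induction T with
  | nil => exact absurd hx (by simp [memTr])
  | node l k r ihl ihr =>
    rw [allTr_node] at h
    have e : memTr x (Tr.node l k r) =
      bc (Nat.beq x k) true (bc (Nat.ble x k) (memTr x l) (memTr x r)) := rfl
    rw [e] at hx
    have h1 := (bc_and h).1
    have h2 := bc_and (bc_and h).2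
    cases hb : Nat.beq x k with
    | true =>
      rw [Nat.eq_of_beq_eq_true hb]
      exact h1
    | false =>
      rw [hb, bc_false] at hx
      cases hc : Nat.ble x k with
      | true =>
        rw [hc, bc_true] at hx
        exact ihl h2.1 hx
      | false =>
        rw [hc, bc_false] at hx
        exact ihr h2.2 hx

/-! ### the functions -/

/-- a child -/
noncomputable def lfV (P : CP) (lk : ℕ → ℕ → ℕ → ℕ → ℕ → Bool)
    (kb kc ke gt zl zv ze Sa Sb Sc Se S0 ia ib dp ic ie : ℕ) : Bool :=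
  bc (bc (Nat.beq ze 1) (Nat.ble (Nat.succ ie) ic) false) true
    (lk ia ib ic ie (codeC P kb kc ke gt zl zv ze Sa Sb Sc Se S0 ia ib ic ie dp))

/-- one alignment -/
noncomputable def dV2 (P : CP) (V : VP) (lf : ℕ → ℕ → Bool) (Gc Ge XB lo lo' hi : ℕ) : Bool :=
  Bool.rec (motive := fun _ => Bool)
      (enumN (fun j => lf (Nat.add j lo) (Nat.add j lo')) P.M
      (mskK V P.WL (Nat.sub P.M (Nat.sub hi lo))
        (Nat.add (Nat.add (Nat.shiftRight Gc (Nat.mul P.WL lo))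
          (Nat.shiftRight Ge (Nat.mul P.WL lo'))) (Nat.mul XB V.ON))))
      true (Nat.ble hi lo)

/-- one alignment; `r`, `s`: the fourth digit is the third plus `s - r` -/
noncomputable def dV1 (P : CP) (V : VP) (lf : ℕ → ℕ → Bool) (Gc Ge XB cc r s lo : ℕ) : Bool :=
  dV2 P V lf Gc Ge XB lo (Nat.sub (Nat.add lo s) r)
    (Nat.sub cc (Nat.sub cc (Nat.sub (Nat.add P.M r) s)))

/-- one alignment -/
noncomputable def dV (P : CP) (V : VP) (lf : ℕ → ℕ → Bool) (zv Gc Ge XB cc ib r s : ℕ) : Bool :=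
  dV1 P V lf Gc Ge XB cc r s
    (Nat.add (Nat.sub r s) (Nat.sub (Nat.mul zv ib) (Nat.sub r s)))

/-- the third level -/
noncomputable def cV (P : CP) (V : VP) (lf : ℕ → ℕ → ℕ → Bool) (dl zv Gc Ge RC XB cc ia ib : ℕ) :
    Bool :=
  Bool.rec (motive := fun _ => Bool)
      (allN (fun dp => dV P V (lf dp) zv Gc Ge XB cc ib (Nat.add (Nat.add ia P.M) dp)
      (Nat.add (Nat.mul P.M dl) (Nat.succ ib))) 3)
      true (Nat.beq (mskK V P.WL (Nat.sub P.M cc) (Nat.add Gc (Nat.mul (Nat.add XB RC) V.ON))) 0)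

/-- the second level -/
noncomputable def bV (P : CP) (V : VP) (lf : ℕ → ℕ → ℕ → ℕ → Bool)
    (dl gt zl zv Gb Gc Ge RB RC XA ia : ℕ) : Bool :=
  enumN (fun ib => Bool.rec (motive := fun _ => Bool)
      (cV P V (lf ib) dl zv Gc Ge RC (Nat.add XA (fd P.WL P.ML Gb ib))
      (Nat.sub P.M (Nat.sub P.M (cntC P gt ia ib))) ia ib)
      true (bc (Nat.beq zl 1) (Nat.ble (Nat.succ ib) ia) false)) P.M
    (mskF V (Nat.add Gb (Nat.mul (Nat.add XA RB) V.ON)))

/-- the first level -/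
noncomputable def aV (P : CP) (V : VP) (lf : ℕ → ℕ → ℕ → ℕ → ℕ → Bool)
    (dl gt zl zv Ga Gb Gc Ge RA RB RC X0 : ℕ) : Bool :=
  enumN (fun ia => bV P V (lf ia) dl gt zl zv Gb Gc Ge RB RC
    (Nat.add X0 (fd P.WL P.ML Ga ia)) ia) P.M
    (mskF V (Nat.add Ga (Nat.mul (Nat.add X0 RA) V.ON)))

/-- all children of a template -/
noncomputable def lvV (P : CP) (V : VP) (lk : ℕ → ℕ → ℕ → ℕ → ℕ → Bool)
    (kb kc ke dl gt zl zv ze Ga Gb Gc Ge Xb Xc Xe Sa Sb Sc Se S0 X0 : ℕ) : Bool :=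
  aV P V (fun ia ib dp ic ie => lfV P lk kb kc ke gt zl zv ze Sa Sb Sc Se S0 ia ib dp ic ie)
    dl gt zl zv Ga Gb Gc Ge (Nat.add (Nat.add Xb Xc) Xe) (Nat.add Xc Xe) Xe X0

/-- check of a template -/
noncomputable def chkV (P : CP) (V : VP) (lk : ℕ → ℕ → ℕ → ℕ → ℕ → Bool) (t : ℕ) : Bool :=
  bc (allN (fun k => Nat.ble P.K1 (dg t k)) P.n)
    (bc (Nat.beq (sumN (fun k => eg P t k) P.n) P.nh)
      (lvV P V lk (dg t P.n) (dg t (Nat.add P.n 1)) (dg t (Nat.add P.n 2)) (dg t (Nat.add P.n 3))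
        (dg t (Nat.add P.n 4)) (dg t (Nat.add P.n 5)) (dg t (Nat.add P.n 6))
        (dg t (Nat.add P.n 7))
        (nthL P.gT (ix P 1 0)) (nthL P.gT (ix P 0 (dg t P.n)))
        (nthL P.gT (ix P 0 (dg t (Nat.add P.n 1)))) (nthL P.gT (ix P 1 (dg t (Nat.add P.n 2))))
        (nthL P.xT (ix P 0 (dg t P.n))) (nthL P.xT (ix P 0 (dg t (Nat.add P.n 1))))
        (nthL P.xT (ix P 1 (dg t (Nat.add P.n 2))))
        (nthL P.sT (ix P 1 0)) (nthL P.sT (ix P 0 (dg t P.n)))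
        (nthL P.sT (ix P 0 (dg t (Nat.add P.n 1)))) (nthL P.sT (ix P 1 (dg t (Nat.add P.n 2))))
        (small P t) (big P t)) false) false

/-! ### the outer check -/

/-- the comparison -/
noncomputable def oV3 (Q : OP) (X Y Tc Te lo lo' dr : ℕ) : Bool :=
  Nat.beq (Nat.land (Nat.add (Nat.xor
    (Nat.add (Nat.shiftRight Tc (Nat.mul Q.F lo)) (Nat.mul X Q.ON))
    (Nat.add (Nat.shiftRight Te (Nat.mul Q.F lo')) (Nat.mul Y Q.ON)))
    (Nat.shiftRight Q.KO (Nat.mul Q.F dr))) (Nat.shiftRight Q.GO (Nat.mul Q.F dr)))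
    (Nat.shiftRight Q.GO (Nat.mul Q.F dr))

/-- the third level -/
noncomputable def oV2 (Q : OP) (X Y Tc Te ob m2 lo hi : ℕ) : Bool :=
  Bool.rec (motive := fun _ => Bool)
      (oV3 Q X Y Tc Te lo (Nat.sub (Nat.add lo ob) m2) (Nat.sub Q.m (Nat.sub hi lo)))
      true (Nat.ble hi lo)

/-- the second level; `ob` is the shift plus `2 m`, `Z0` belongs to the gap -/
noncomputable def oV1 (P : CP) (Q : OP) (zv Tc Te X Y Z0 m2 rb ob : ℕ) : Bool :=
  oV2 Q X Y Tc Te ob m2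
    (Nat.add (Nat.sub m2 ob) (Nat.sub (Nat.mul zv rb) (Nat.sub m2 ob)))
    (Nat.sub (Nat.sub Q.m (Nat.sub ob m2)) (Nat.sub (Nat.sub Q.m (Nat.sub ob m2))
      (Nat.div (Nat.add (Nat.sub (Nat.mul (Nat.add P.A P.B) (Nat.add Q.m rb)) Z0)
        (Nat.sub P.B 1)) P.B)))

/-- the second level -/
noncomputable def oV (P : CP) (V : VP) (Q : OP) (zl zv Tb Tc Te Fb XF X Y Z0 mo ra : ℕ) : Bool :=
  Bool.rec (motive := fun _ => Bool)
      (enumL (fun rb =>
      oV1 P Q zv Tc Te (Nat.add X (fd Q.F Q.MF Tb rb)) Y Z0 (Nat.mul 2 Q.m) rb (Nat.add mo rb))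
      V.NG (mskF V (Nat.add Fb (Nat.mul XF V.ON))))
      (enumL (fun rb => Bool.rec (motive := fun _ => Bool)
      (oV1 P Q zv Tc Te (Nat.add X (fd Q.F Q.MF Tb rb)) Y Z0 (Nat.mul 2 Q.m) rb (Nat.add mo rb))
      true (Nat.ble rb ra))
      V.NG (mskF V (Nat.add Fb (Nat.mul XF V.ON)))) (Nat.beq zl 1)

/-- the first level -/
noncomputable def oV0 (P : CP) (V : VP) (Q : OP) (dl gt zl zv Ta Tb Tc Te Fa Fb XB XF X Y : ℕ) :
    Bool :=
  enumL (fun ra => oV P V Q zl zv Tb Tc Te Fb (Nat.add XF (fd Q.W Q.MW Fa ra)) X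
      (Nat.add Y (fd Q.F Q.MF Ta ra)) (Nat.add (Nat.mul Q.m gt) (Nat.mul P.A ra))
      (Nat.sub (Nat.mul Q.m (Nat.add dl 1)) ra) ra) V.NG
    (mskF V (Nat.add Fa (Nat.mul (Nat.add XF XB) V.ON)))

/-- all windows over a quadruple of blocks -/
noncomputable def oTV (P : CP) (V : VP) (Q : OP) (t kb kc ke dl gt zl zv ia ib ic ie : ℕ) : Bool :=
  oV0 P V Q dl gt zl zv (arF P Q (bf Q ia) 0) (arF P Q (bf Q ib) kb) (arF P Q (bf Q ic) kc)
    (arF P Q (bf Q ie) ke) (arG P Q 1 (bf Q ia) 0) (arG P Q 0 (bf Q ib) kb)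
    (arE P Q 0 kb)
    (Nat.add (Nat.add (valF P Q t) (arE P Q 0 kc)) (arE P Q 1 ke))
    (Nat.add (valO P Q t) (Nat.mul Q.kT (Nat.mul Q.m dl))) Q.TF

/-- the outer check of a template -/
noncomputable def chkOV (P : CP) (V : VP) (Q : OP) (t ia ib ic ie : ℕ) : Bool :=
  oTV P V Q t (dg t P.n) (dg t (Nat.add P.n 1)) (dg t (Nat.add P.n 2)) (dg t (Nat.add P.n 3))
    (dg t (Nat.add P.n 4)) (dg t (Nat.add P.n 5)) (dg t (Nat.add P.n 6)) ia ib ic ie

end MPbbea99G
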