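import Pool.Agent.Lib.Pbbea99G.VStepZ

/-!
# MP_bbea99_co: all living quadruples are described by templates, factor of either sign
-/

namespace MPbbea99G

open Finset MPbbea99S MPbbea99T

section

variable {P : CP} {W L : ℕ} {mul : ℕ → ℕ → ℕ} {inv w g : ℕ → ℕ} {vc : ℕ → ℕ → ℤ}
    {χ : ℕ → ℕ → ℤ} {th : ℕ → ℕ → ℤ} {U : ℕ → ℕ → ℕ → ℤ} {q : ℕ → ℕ → ℕ → ℤ}
    {qc : ℕ → ℕ → ℕ → ℤ} {lam la : ℤ} {nu : ℕ → ℕ} {h K : ℕ} {π : ℕ → ℕ → ℕ}
    {gB : ℕ → ℕ → ℕ → ℕ → ℕ} {xB : ℕ → ℕ → ℕ → ℕ} {lB : ℕ → ℕ → ℕ} {cB : ℕ → ℕ}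
    {gS : ℕ → ℕ → ℕ → ℕ → ℕ} {lS : ℕ → ℕ → ℕ} {cS : ℕ → ℕ}
    {C1 bq bl BL BC BX C2 bs BLs BCs BXs bls : ℕ}

/-- all living admissible quadruples are described by templates that pass the outer check -/
theorem CHypZ.closedV (H : CHypZ P W L mul inv w vc χ th U q qc lam h K π gB xB lB cB gS lS cS
    C1 bq bl BL BC BX C2 bs BLs BCs BXs bls) {V : VP} (O : VOK V W L P.M)
    {lk : ℕ → ℕ → ℕ → ℕ → ℕ → Bool} (hs : IsG P.γ P.M mul w g)
    (C : CertZ P.γ P.M L mul w th U q lam la nu)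
    (hlk : ∀ ia ib ic ie t, lk ia ib ic ie t = true → chkV P V lk t = true)
    (h0 : ∃ t, chkV P V lk t = true ∧ Match P.n P.A P.B K mul inv g vc t 0 0 0 0) :
    ∀ e a b c, Adm P.A P.B a b c e → Alive P.γ mul g L th U a b c e →
      ∃ t, lk (a % P.M) (b % P.M) (c % P.M) (e % P.M) t = true ∧
        Match P.n P.A P.B K mul inv g vc t a b c e := by
  have hM := H.hM
  have hdec : ∀ x, ∃ x' ix, ix < P.M ∧ x = P.M * x' + ix := by
    intro x
    exact ⟨x / P.M, x % P.M, Nat.mod_lt _ (by omega), (Nat.div_add_mod x P.M).symm⟩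
  have hmod : ∀ x ix, ix < P.M → (P.M * x + ix) % P.M = ix := by
    intro x ix hix
    rw [Nat.mul_add_mod, Nat.mod_eq_of_lt hix]
  -- the step
  have hstep : ∀ t, chkV P V lk t = true → ∀ a b c e ia ib ic ie, ia < P.M → ib < P.M → ic < P.M →
      ie < P.M → Match P.n P.A P.B K mul inv g vc t a b c e →
      Adm P.A P.B (P.M * a + ia) (P.M * b + ib) (P.M * c + ic) (P.M * e + ie) →
      Alive P.γ mul g L th U (P.M * a + ia) (P.M * b + ib) (P.M * c + ic) (P.M * e + ie) →
      ∃ t, lk ((P.M * a + ia) % P.M) ((P.M * b + ib) % P.M) ((P.M * c + ic) % P.M)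
        ((P.M * e + ie) % P.M) t = true ∧ Match P.n P.A P.B K mul inv g vc t (P.M * a + ia)
          (P.M * b + ib) (P.M * c + ic) (P.M * e + ie) := by
    intro t ht a b c e ia ib ic ie ha hb hc he hm hadm hal
    obtain ⟨t', ht', hm'⟩ := H.stepV O hs C.hq ha hb hc he ht hm hadm hal
    refine ⟨t', ?_, hm'⟩
    rw [hmod a ia ha, hmod b ib hb, hmod c ic hc, hmod e ie he]
    exact ht'
  intro e
  induction e using Nat.strong_induction_on with
  | _ e ih =>
    intro a b c hadm hal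
    rcases Nat.eq_zero_or_pos e with he0 | he0
    · have h1 := hadm.hab
      have h2 := hadm.hbc
      have h3 := hadm.hce
      have ea : a = 0 := by omega
      have eb : b = 0 := by omega
      have ec : c = 0 := by omega
      subst ea
      subst eb
      subst ec
      subst he0
      obtain ⟨t, ht, hm⟩ := h0
      have hpos : 0 < P.M := by omega
      have := hstep t ht 0 0 0 0 0 0 0 0 hpos hpos hpos hpos hm (by simpa using hadm)
        (by simpa using hal)
      simpa using this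
    · obtain ⟨a', ia, ha, ea⟩ := hdec a
      obtain ⟨b', ib, hb, eb⟩ := hdec b
      obtain ⟨c', ic, hc, ec⟩ := hdec c
      obtain ⟨e', ie, he, ee⟩ := hdec e
      have hlt : e' < e := by
        rw [ee]
        rcases Nat.eq_zero_or_pos e' with h1 | h1
        · rw [h1] at ee ⊢
          omega
        · have : 2 * e' ≤ P.M * e' := Nat.mul_le_mul hM le_rfl
          omega
      subst ea
      subst eb
      subst ec
      subst ee
      have hadm' := hadm.parent ha hb hc he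
      have hal' := Alive.parentZ H.hG hs C ha hb hc he hal
      obtain ⟨t, ht, hm⟩ := ih e' hlt a' b' c' hadm' hal'
      exact hstep t (hlk _ _ _ _ _ ht) a' b' c' e' ia ib ic ie ha hb hc he hm hadm hal

end

end MPbbea99G
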