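import Pool.Agent.Lib.Pbbea99G.VCheck
import Pool.Agent.Lib.Pbbea99G.Step
import Pool.Agent.Lib.Pbbea99G.ClosZ

/-!
# MP_bbea99_co: soundness of the vectorised closure check, factor of either sign
-/

namespace MPbbea99G

open Finset MPbbea99S MPbbea99T

variable {P : CP} {W L : ℕ} {mul : ℕ → ℕ → ℕ} {inv w : ℕ → ℕ} {vc : ℕ → ℕ → ℤ}
    {χ : ℕ → ℕ → ℤ} {th : ℕ → ℕ → ℤ} {U : ℕ → ℕ → ℕ → ℤ} {q : ℕ → ℕ → ℕ → ℤ}
    {qc : ℕ → ℕ → ℕ → ℤ} {lam : ℤ} {h K : ℕ} {π : ℕ → ℕ → ℕ}
    {gB : ℕ → ℕ → ℕ → ℕ → ℕ} {xB : ℕ → ℕ → ℕ → ℕ} {lB : ℕ → ℕ → ℕ} {cB : ℕ → ℕ}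
    {gS : ℕ → ℕ → ℕ → ℕ → ℕ} {lS : ℕ → ℕ → ℕ} {cS : ℕ → ℕ}
    {C1 bq bl BL BC BX C2 bs BLs BCs BXs bls : ℕ}

/-- the code of a child describes the child -/
theorem CHypZ.code_match (H : CHypZ P W L mul inv w vc χ th U q qc lam h K π gB xB lB cB gS lS cS
    C1 bq bl BL BC BX C2 bs BLs BCs BXs bls) {g : ℕ → ℕ} (hs : IsG P.γ P.M mul w g)
    {t a b c e ia ib ic ie : ℕ} (ha : ia < P.M) (hb : ib < P.M) (hc : ic < P.M)
    (he : ie < P.M) (hd : DOK P t)
    (hm : Match P.n P.A P.B K mul inv g vc t a b c e)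
    (hadm : Adm P.A P.B (P.M * a + ia) (P.M * b + ib) (P.M * c + ic) (P.M * e + ie))
    {kb kc ke gt zl zv ze d : ℕ} (hkb : kb = mul (inv (g a)) (g b))
    (hkc : kc = mul (inv (g a)) (g c)) (hke : ke = mul (inv (g a)) (g e))
    (hgt : gt = (P.B * c + P.A * a + (P.A + P.B)) - (P.A + P.B) * b)
    (hzl : zl = if b = a then 1 else 0) (hzv : zv = if c = b then 1 else 0)
    (hze : ze = if e = c then 1 else 0)
    (hdd : d + ((P.M * e + ie) + (P.M * a + ia)) = (P.M * b + ib) + (P.M * c + ic) + 1) :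
    Match P.n P.A P.B K mul inv g vc (codeC P kb kc ke gt zl zv ze (nthL P.sT (ix P 1 0))
      (nthL P.sT (ix P 0 kb)) (nthL P.sT (ix P 0 kc)) (nthL P.sT (ix P 1 ke)) (small P t)
      ia ib ic ie d) (P.M * a + ia) (P.M * b + ib) (P.M * c + ic) (P.M * e + ie) := by
  have G := H.hG
  have ρa := G.ilt _ (hs.lt a)
  have lb : kb < P.γ := by rw [hkb]; exact G.lt _ ρa _ (hs.lt b)
  have lc : kc < P.γ := by rw [hkc]; exact G.lt _ ρa _ (hs.lt c)
  have le : ke < P.γ := by rw [hke]; exact G.lt _ ρa _ (hs.lt e)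
  have l0 := G.pos
  -- the code
  have sA := H.tabS (ro := 1) (by norm_num) l0 ha
  have sB := H.tabS (ro := 0) (by norm_num) lb hb
  have sC := H.tabS (ro := 0) (by norm_num) lc hc
  have sE := H.tabS (ro := 1) (by norm_num) le he
  obtain ⟨c0, hc0⟩ : ∃ c0 : ℕ → ℕ, c0 = fun k => pV P lS cS t k + gS 1 0 ia k +
    gS 0 kb ib k + gS 0 kc ic k + gS 1 ke ie k := ⟨_, rfl⟩
  have hc0lt : ∀ k, k < P.n → c0 k < 65536 := by
    intro k hk
    have g0 := H.pVs_le hd hk
    have g1 := H.bXs 1 (by norm_num) 0 l0 ia ha k hk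
    have g2 := H.bXs 0 (by norm_num) kb lb ib hb k hk
    have g3 := H.bXs 0 (by norm_num) kc lc ic hc k hk
    have g4 := H.bXs 1 (by norm_num) ke le ie he k hk
    have g5 := H.hbdS
    rw [hc0]
    dsimp only
    omega
  have hpk : Nat.add (Nat.add (Nat.add (Nat.add (small P t)
      (fd P.WS P.MS (nthL P.sT (ix P 1 0)) ia))
      (fd P.WS P.MS (nthL P.sT (ix P 0 kb)) ib))
      (fd P.WS P.MS (nthL P.sT (ix P 0 kc)) ic))
      (fd P.WS P.MS (nthL P.sT (ix P 1 ke)) ie) = pk 16 c0 P.n := by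
    rw [H.small_eq, sA, sB, sC, sE, hc0]
    show pk 16 (pV P lS cS t) P.n + pk 16 (gS 1 0 ia) P.n +
      pk 16 (gS 0 kb ib) P.n + pk 16 (gS 0 kc ic) P.n + pk 16 (gS 1 ke ie) P.n = _
    rw [← pk_add, ← pk_add, ← pk_add, ← pk_add]
  unfold codeC
  rw [hpk]
  have hprm : prm P (pk 16 c0 P.n) ia = pk 16 (fun k => c0 (π ia k)) P.n := by
    unfold prm
    rw [pkR_eq]
    apply pk_congr
    intro k hk
    rw [H.hpf ia ha k hk]
    exact dg_pk hc0lt (H.hπ ia ha k hk)
  rw [hprm]
  have hvlt : inv (w ia) < P.γ := G.ilt _ (hs.wlt ia ha)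
  have hkch : ∀ x ix k, ix < P.M → k = mul (inv (g a)) (g x) → kch P k ix ia =
      mul (inv (g (P.M * a + ia))) (g (P.M * x + ix)) := by
    intro x ix k hix hk
    have hkl : k < P.γ := by rw [hk]; exact G.lt _ ρa _ (hs.lt x)
    show mlf P (mlf P (vf P ia) k) (wf P ix) = _
    rw [H.hvf ia ha, H.hwf ix hix, H.hmul _ hvlt _ hkl,
      H.hmul _ (G.lt _ hvlt _ hkl) _ (hs.wlt ix hix), hk, hs.step a ia ha, hs.step x ix hix,
      G.inv_mul_rev (hs.lt a) (hs.wlt ia ha), G.assoc _ hvlt _ (G.lt _ ρa _ (hs.lt x)) _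
      (hs.wlt ix hix), G.assoc _ ρa _ (hs.lt x) _ (hs.wlt ix hix),
      G.assoc _ hvlt _ ρa _ (G.lt _ (hs.lt x) _ (hs.wlt ix hix))]
  have hklt : ∀ x ix k, ix < P.M → k = mul (inv (g a)) (g x) → kch P k ix ia < P.γ := by
    intro x ix k hix hk
    rw [hkch x ix k hix hk]
    exact G.lt _ (G.ilt _ (hs.lt _)) _ (hs.lt _)
  apply match_of H.hγ H.hAB hadm
  · intro k hk
    exact hc0lt _ (H.hπ ia ha k hk)
  · intro k hk
    rw [hc0]
    dsimp only
    have g0 := H.totalS hs ha hb hc he hm hd (k := π ia k) (H.hπ ia ha k hk)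
    rw [← hkb, ← hkc, ← hke] at g0
    rw [g0]
    congr 1
    unfold DV
    apply VP_congr
    intro x
    rw [hs.step a ia ha, G.inv_mul_rev (hs.lt a) (hs.wlt ia ha),
      G.assoc _ hvlt _ ρa _ (hs.lt x),
      H.hπv ia ha k hk _ (G.lt _ ρa _ (hs.lt x))]
  · exact hklt b ib kb hb hkb
  · exact hklt c ic kc hc hkc
  · exact hklt e ie ke he hke
  · exact hkch b ib kb hb hkb
  · exact hkch c ic kc hc hkc
  · exact hkch e ie ke he hke
  · exact hdd
  · rw [hgt]
    exact gch_eq ha hc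
  · rw [bn_beq, hzl]
    exact flag_eq ha hb
  · rw [bn_beq, hzv]
    exact flag_eq hb hc
  · rw [bn_beq, hze]
    exact flag_eq hc he


/-- living children of checked templates pass the look-up -/
theorem CHypZ.stepV (H : CHypZ P W L mul inv w vc χ th U q qc lam h K π gB xB lB cB gS lS cS
    C1 bq bl BL BC BX C2 bs BLs BCs BXs bls) {V : VP} (O : VOK V W L P.M)
    {lk : ℕ → ℕ → ℕ → ℕ → ℕ → Bool} {g : ℕ → ℕ} (hs : IsG P.γ P.M mul w g)
    (hq : ∀ f, f < L → ∀ κ, κ < P.γ → ∀ t, t ≤ P.M → q f κ t = QG mul w (th f) κ t)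
    {t a b c e ia ib ic ie : ℕ} (ha : ia < P.M) (hb : ib < P.M) (hc : ic < P.M)
    (he : ie < P.M) (hchk : chkV P V lk t = true)
    (hm : Match P.n P.A P.B K mul inv g vc t a b c e)
    (hadm : Adm P.A P.B (P.M * a + ia) (P.M * b + ib) (P.M * c + ic) (P.M * e + ie))
    (hal : Alive P.γ mul g L th U (P.M * a + ia) (P.M * b + ib) (P.M * c + ic) (P.M * e + ie)) :
    ∃ t', lk ia ib ic ie t' = true ∧ Match P.n P.A P.B K mul inv g vc t' (P.M * a + ia)
      (P.M * b + ib) (P.M * c + ic) (P.M * e + ie) := by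
  have G := H.hG
  obtain ⟨hk1, hchk⟩ := bc_and hchk
  obtain ⟨hk2, hlv⟩ := bc_and hchk
  have hd : DOK P t := by
    constructor
    · intro k hk
      exact Nat.le_of_ble_eq_true (allN_spec hk1 k hk)
    · have h2 := Nat.eq_of_beq_eq_true hk2
      rw [sumN_eq] at h2
      exact h2
  -- the digit of the length difference
  obtain ⟨d, hdd⟩ : ∃ d, d + ((P.M * e + ie) + (P.M * a + ia)) =
      (P.M * b + ib) + (P.M * c + ic) + 1 := by
    have g1 := hadm.h1
    exact ⟨(P.M * b + ib) + (P.M * c + ic) + 1 - ((P.M * e + ie) + (P.M * a + ia)), by omega⟩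
  have hd3 : d < 3 := by
    have g2 := hadm.h2
    omega
  -- the digits of the parent
  have ρa := G.ilt _ (hs.lt a)
  obtain ⟨kb, hkb⟩ : ∃ kb, kb = mul (inv (g a)) (g b) := ⟨_, rfl⟩
  obtain ⟨kc, hkc⟩ : ∃ kc, kc = mul (inv (g a)) (g c) := ⟨_, rfl⟩
  obtain ⟨ke, hke⟩ : ∃ ke, ke = mul (inv (g a)) (g e) := ⟨_, rfl⟩
  obtain ⟨dl, hdl⟩ : ∃ dl, dl = dg t (P.n + 3) := ⟨_, rfl⟩
  obtain ⟨gt, hgt⟩ : ∃ gt, gt = (P.B * c + P.A * a + (P.A + P.B)) - (P.A + P.B) * b := ⟨_, rfl⟩
  obtain ⟨zl, hzl⟩ : ∃ zl, zl = if b = a then 1 else 0 := ⟨_, rfl⟩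
  obtain ⟨zv, hzv⟩ : ∃ zv, zv = if c = b then 1 else 0 := ⟨_, rfl⟩
  obtain ⟨ze, hze⟩ : ∃ ze, ze = if e = c then 1 else 0 := ⟨_, rfl⟩
  have e0 : dg t P.n = kb := hm.hb.trans hkb.symm
  have e1 : dg t (Nat.add P.n 1) = kc := hm.hc.trans hkc.symm
  have e2 : dg t (Nat.add P.n 2) = ke := hm.he.trans hke.symm
  have e3 : dg t (Nat.add P.n 3) = dl := hdl.symm
  have e4 : dg t (Nat.add P.n 4) = gt := hm.hg.trans hgt.symm
  have e5 : dg t (Nat.add P.n 5) = zl := hm.h5.trans hzl.symm
  have e6 : dg t (Nat.add P.n 6) = zv := hm.h6.trans hzv.symm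
  have e7 : dg t (Nat.add P.n 7) = ze := hm.h7.trans hze.symm
  rw [e0, e1, e2, e3, e4, e5, e6, e7] at hlv
  have hdl' : dl + (e + a) = b + c + 1 := by rw [hdl]; exact hm.hd
  have lb : kb < P.γ := by rw [hkb]; exact G.lt _ ρa _ (hs.lt b)
  have lc : kc < P.γ := by rw [hkc]; exact G.lt _ ρa _ (hs.lt c)
  have le : ke < P.γ := by rw [hke]; exact G.lt _ ρa _ (hs.lt e)
  have l0 := G.pos
  -- the total values
  have htot : ∀ f, f < L → 2 ^ (W - 1) ≤ pV P lB cB t f + gB 1 0 ia f +
      gB 0 kb ib f + gB 0 kc ic f + gB 1 ke ie f := by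
    intro f hf
    have g := H.total hs hq ha hb hc he hm hd hal hf
    rw [← hkb, ← hkc, ← hke] at g
    exact g
  have hbd := H.hbd
  have hWL := H.hWL
  -- tables
  have tA := H.tabG (ro := 1) (by norm_num) l0 ha
  have tB := H.tabG (ro := 0) (by norm_num) lb hb
  have xBt := H.tabX (ro := 0) (by norm_num) lb
  have xCt := H.tabX (ro := 0) (by norm_num) lc
  have xEt := H.tabX (ro := 1) (by norm_num) le
  have GA : nthL P.gT (ix P 1 0) = pk (W * L) (fun t => pk W (gB 1 0 t) L) P.M := by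
    have := H.hGt 1 (by norm_num) 0 l0
    rw [hWL] at this
    exact this
  have GB : nthL P.gT (ix P 0 kb) = pk (W * L) (fun t => pk W (gB 0 kb t) L) P.M := by
    have := H.hGt 0 (by norm_num) kb lb
    rw [hWL] at this
    exact this
  have GC : nthL P.gT (ix P 0 kc) = pk (W * L) (fun t => pk W (gB 0 kc t) L) P.M := by
    have := H.hGt 0 (by norm_num) kc lc
    rw [hWL] at this
    exact this
  have GE : nthL P.gT (ix P 1 ke) = pk (W * L) (fun t => pk W (gB 1 ke t) L) P.M := by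
    have := H.hGt 1 (by norm_num) ke le
    rw [hWL] at this
    exact this
  have bA := fun t (ht : t < P.M) f hf => H.hxB 1 (by norm_num) 0 l0 t ht f hf
  have bB := fun t (ht : t < P.M) f hf => H.hxB 0 (by norm_num) kb lb t ht f hf
  have bC := fun t (ht : t < P.M) f hf => H.hxB 0 (by norm_num) kc lc t ht f hf
  have bE := fun t (ht : t < P.M) f hf => H.hxB 1 (by norm_num) ke le t ht f hf
  have cA := fun f hf => H.bX 1 (by norm_num) 0 l0 f hf
  have cB' := fun f hf => H.bX 0 (by norm_num) kb lb f hf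
  have cC := fun f hf => H.bX 0 (by norm_num) kc lc f hf
  have cE := fun f hf => H.bX 1 (by norm_num) ke le f hf
  have pP := fun f (hf : f < L) => H.pV_le hd hf
  -- first digit
  unfold lvV aV at hlv
  have m1 : (mskF V (Nat.add (nthL P.gT (ix P 1 0)) (Nat.mul (Nat.add (big P t)
      (Nat.add (Nat.add (nthL P.xT (ix P 0 kb)) (nthL P.xT (ix P 0 kc)))
        (nthL P.xT (ix P 1 ke)))) V.ON))).testBit ia = true := by
    have hS := rows1 (cnt := P.M) (y := fun f => pV P lB cB t f + (xB 0 kb f + xB 0 kc f + xB 1 ke f))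
      (Y := Nat.add (big P t) (Nat.add (Nat.add (nthL P.xT (ix P 0 kb))
        (nthL P.xT (ix P 0 kc))) (nthL P.xT (ix P 1 ke)))) GA (by
        rw [H.big_eq, xBt, xCt, xEt]
        show pk W (pV P lB cB t) L + (pk W (xB 0 kb) L + pk W (xB 0 kc) L + pk W (xB 1 ke) L) = _
        rw [← pk_add, ← pk_add, ← pk_add]) le_rfl (by
        intro t ht f hf
        have g0 := pP f hf
        have g1 := bA t ht f hf
        have g1' := cA f hf
        have g2 := cB' f hf
        have g3 := cC f hf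
        have g4 := cE f hf
        omega)
    rw [← O.hON] at hS
    refine O.mskF hS ?_ ha ?_
    · intro r hr f hf
      have g0 := pP f hf
      have g1 := bA r hr f hf
      have g1' := cA f hf
      have g2 := cB' f hf
      have g3 := cC f hf
      have g4 := cE f hf
      omega
    · intro f hf
      have g0 := htot f hf
      have g2 := bB ib hb f hf
      have g3 := bC ic hc f hf
      have g4 := bE ie he f hf
      omega
  have l2 := enumN_spec hlv ia ha m1
  unfold bV at l2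
  -- second digit
  have m2 : (mskF V (Nat.add (nthL P.gT (ix P 0 kb)) (Nat.mul (Nat.add (Nat.add (big P t)
      (fd P.WL P.ML (nthL P.gT (ix P 1 0)) ia))
      (Nat.add (nthL P.xT (ix P 0 kc)) (nthL P.xT (ix P 1 ke)))) V.ON))).testBit ib = true := by
    have hS := rows1 (cnt := P.M)
      (y := fun f => pV P lB cB t f + gB 1 0 ia f + (xB 0 kc f + xB 1 ke f))
      (Y := Nat.add (Nat.add (big P t) (fd P.WL P.ML (nthL P.gT (ix P 1 0)) ia))
        (Nat.add (nthL P.xT (ix P 0 kc)) (nthL P.xT (ix P 1 ke)))) GB (by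
        rw [H.big_eq, tA, xCt, xEt]
        show pk W (pV P lB cB t) L + pk W (gB 1 0 ia) L + (pk W (xB 0 kc) L + pk W (xB 1 ke) L) = _
        rw [← pk_add, ← pk_add, ← pk_add]) le_rfl (by
        intro t ht f hf
        have g0 := pP f hf
        have g1 := bA ia ha f hf
        have g1' := cA f hf
        have g2 := bB t ht f hf
        have g2' := cB' f hf
        have g3 := cC f hf
        have g4 := cE f hf
        omega)
    rw [← O.hON] at hS
    refine O.mskF hS ?_ hb ?_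
    · intro r hr f hf
      have g0 := pP f hf
      have g1 := bA ia ha f hf
      have g1' := cA f hf
      have g2 := bB r hr f hf
      have g2' := cB' f hf
      have g3 := cC f hf
      have g4 := cE f hf
      omega
    · intro f hf
      have g0 := htot f hf
      have g3 := bC ic hc f hf
      have g4 := bE ie he f hf
      omega
  have l3 := enumN_spec l2 ib hb m2
  have s2 : bc (Nat.beq zl 1) (Nat.ble (Nat.succ ib) ia) false = false := by
    apply cond_false'
    intro hz1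
    have hab : b = a := by
      by_contra hne
      rw [if_neg hne] at hzl
      omega
    have := hadm.hab
    rw [hab] at this
    omega
  have l4 := bc_pass (x := bc (Nat.beq zl 1) (Nat.ble (Nat.succ ib) ia) false) l3 s2
  unfold cV at l4
  -- the bound of the third digit
  obtain ⟨cc, hcc⟩ : ∃ cc, cc = Nat.sub P.M (Nat.sub P.M (cntC P gt ia ib)) := ⟨_, rfl⟩
  rw [← hcc] at l4
  have hccM : cc ≤ P.M := by
    rw [hcc]
    exact Nat.sub_le _ _
  have hcnt : ic < cc := by
    have h1 : ic < cntC P gt ia ib := by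
      rw [hgt]
      exact lt_cntC H.hB ha hc hadm.hg
    have h2 : cc = P.M - (P.M - cntC P gt ia ib) := hcc
    omega
  obtain ⟨XB, hXB⟩ : ∃ XB, XB = Nat.add (Nat.add (big P t)
      (fd P.WL P.ML (nthL P.gT (ix P 1 0)) ia)) (fd P.WL P.ML (nthL P.gT (ix P 0 kb)) ib) :=
    ⟨_, rfl⟩
  have hXBv : XB = pk W (fun f => pV P lB cB t f + gB 1 0 ia f + gB 0 kb ib f) L := by
    rw [hXB, H.big_eq, tA, tB]
    show pk W (pV P lB cB t) L + pk W (gB 1 0 ia) L + pk W (gB 0 kb ib) L = _
    rw [← pk_add, ← pk_add]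
  rw [← hXB] at l4
  have hsubM : P.M - (P.M - cc) = cc := by omega
  -- third digit
  have m3 : (mskK V P.WL (Nat.sub P.M cc) (Nat.add (nthL P.gT (ix P 0 kc))
      (Nat.mul (Nat.add XB (nthL P.xT (ix P 1 ke))) V.ON))).testBit ic = true := by
    have hS := rows1 (cnt := P.M - (P.M - cc))
      (y := fun f => pV P lB cB t f + gB 1 0 ia f + gB 0 kb ib f + xB 1 ke f)
      (Y := Nat.add XB (nthL P.xT (ix P 1 ke))) GC (by
        rw [hXBv, xEt]
        show pk W _ L + pk W (xB 1 ke) L = _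
        rw [← pk_add]) (by omega) (by
        intro t ht f hf
        have g0 := pP f hf
        have g1 := bA ia ha f hf
        have g1' := cA f hf
        have g2 := bB ib hb f hf
        have g2' := cB' f hf
        have g3 := bC t ht f hf
        have g3' := cC f hf
        have g4 := cE f hf
        omega)
    rw [← O.hON] at hS
    refine O.mskK hWL (Nat.sub_le _ _) hS ?_ (by
      show ic < P.M - (P.M - cc)
      omega) ?_
    · intro r hr f hf
      have hr' : r < P.M := by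
        have : r < P.M - (P.M - cc) := hr
        omega
      have g0 := pP f hf
      have g1 := bA ia ha f hf
      have g1' := cA f hf
      have g2 := bB ib hb f hf
      have g2' := cB' f hf
      have g3 := bC r hr' f hf
      have g3' := cC f hf
      have g4 := cE f hf
      omega
    · intro f hf
      have g0 := htot f hf
      have g4 := bE ie he f hf
      omega
  have s3 : Nat.beq (mskK V P.WL (Nat.sub P.M cc) (Nat.add (nthL P.gT (ix P 0 kc))
      (Nat.mul (Nat.add XB (nthL P.xT (ix P 1 ke))) V.ON))) 0 = false := by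
    cases hb0 : Nat.beq (mskK V P.WL (Nat.sub P.M cc) (Nat.add (nthL P.gT (ix P 0 kc))
      (Nat.mul (Nat.add XB (nthL P.xT (ix P 1 ke))) V.ON))) 0 with
    | false => rfl
    | true =>
      have h0 := Nat.eq_of_beq_eq_true hb0
      rw [h0] at m3
      simp at m3
  have l5 := bc_pass (x := Nat.beq (mskK V P.WL (Nat.sub P.M cc) (Nat.add (nthL P.gT (ix P 0 kc))
      (Nat.mul (Nat.add XB (nthL P.xT (ix P 1 ke))) V.ON))) 0) l4 s3
  have l6 := allN_spec l5 d hd3
  -- the fourth digit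
  obtain ⟨r, hr⟩ : ∃ r, r = Nat.add (Nat.add ia P.M) d := ⟨_, rfl⟩
  obtain ⟨s, hsd⟩ : ∃ s, s = Nat.add (Nat.mul P.M dl) (Nat.succ ib) := ⟨_, rfl⟩
  rw [← hr, ← hsd] at l6
  have hr' : r = ia + P.M + d := hr
  have hs' : s = P.M * dl + (ib + 1) := hsd
  have hexp : ie + r = s + ic := by
    have g1 : d + ((P.M * e + ie) + (P.M * a + ia)) = (P.M * b + ib) + (P.M * c + ic) + 1 := hdd
    have g2 : P.M * dl + P.M * (e + a) = P.M * (b + c) + P.M := by
      rw [← Nat.mul_add, hdl']
      ring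
    rw [Nat.mul_add, Nat.mul_add] at g2
    omega
  unfold dV dV1 dV2 at l6
  obtain ⟨lo, hlo⟩ : ∃ lo, lo = Nat.add (Nat.sub r s) (Nat.sub (Nat.mul zv ib) (Nat.sub r s)) :=
    ⟨_, rfl⟩
  obtain ⟨hi, hhi⟩ : ∃ hi, hi = Nat.sub cc (Nat.sub cc (Nat.sub (Nat.add P.M r) s)) := ⟨_, rfl⟩
  rw [← hlo, ← hhi] at l6
  have hlo' : lo = (r - s) + (zv * ib - (r - s)) := hlo
  have hhi' : hi = cc - (cc - (P.M + r - s)) := hhi
  have hzib : zv * ib ≤ ic := by
    by_cases h1 : c = b
    · rw [hzv, if_pos h1, Nat.one_mul]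
      have := hadm.hbc
      rw [h1] at this
      omega
    · rw [hzv, if_neg h1, Nat.zero_mul]
      omega
  have hlo1 : lo ≤ ic := by omega
  have hhi1 : ic < hi := by omega
  have hhi2 : hi ≤ P.M := by omega
  have hhi3 : hi + s ≤ P.M + r := by omega
  have hble : Nat.ble hi lo = false := by
    cases hb2 : Nat.ble hi lo with
    | false => rfl
    | true =>
      have := Nat.le_of_ble_eq_true hb2
      omega
  have l7 := bc_pass (x := Nat.ble hi lo) l6 hble
  obtain ⟨lo', hlo2⟩ : ∃ lo', lo' = Nat.sub (Nat.add lo s) r := ⟨_, rfl⟩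
  rw [← hlo2] at l7
  have hlo3 : lo' = lo + s - r := hlo2
  have hge : r ≤ lo + s := by omega
  have m4 : (mskK V P.WL (Nat.sub P.M (Nat.sub hi lo))
      (Nat.add (Nat.add (Nat.shiftRight (nthL P.gT (ix P 0 kc)) (Nat.mul P.WL lo))
        (Nat.shiftRight (nthL P.gT (ix P 1 ke)) (Nat.mul P.WL lo'))) (Nat.mul XB V.ON))).testBit
          (ic - lo) = true := by
    have hS := rows2 (cnt := P.M - (P.M - (hi - lo))) (lo := lo) (lo' := lo')
      (y := fun f => pV P lB cB t f + gB 1 0 ia f + gB 0 kb ib f) (Y := XB) GC GE hXBv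
      (by omega) (by omega) (by
        intro t ht t' ht' f hf
        have g0 := pP f hf
        have g1 := bA ia ha f hf
        have g1' := cA f hf
        have g2 := bB ib hb f hf
        have g2' := cB' f hf
        have g3 := bC t ht f hf
        have g3' := cC f hf
        have g4 := bE t' ht' f hf
        have g4' := cE f hf
        omega)
    rw [← O.hON, ← hWL] at hS
    have hS' : (Nat.add (Nat.add (Nat.shiftRight (nthL P.gT (ix P 0 kc)) (Nat.mul P.WL lo))
        (Nat.shiftRight (nthL P.gT (ix P 1 ke)) (Nat.mul P.WL lo'))) (Nat.mul XB V.ON)) %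
          2 ^ (W * L * (P.M - Nat.sub P.M (Nat.sub hi lo))) =
        pk (W * L) (fun r => pk W (fun f => gB 0 kc (r + lo) f + gB 1 ke (r + lo') f +
          (pV P lB cB t f + gB 1 0 ia f + gB 0 kb ib f)) L)
          (P.M - Nat.sub P.M (Nat.sub hi lo)) := by
      rw [← hWL]
      exact hS
    refine O.mskK hWL (Nat.sub_le _ _) hS' ?_ (by
      show ic - lo < P.M - (P.M - (hi - lo))
      omega) ?_
    · intro r' hr' f hf
      have hr1 : r' < P.M - (P.M - (hi - lo)) := hr'
      have g0 := pP f hf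
      have g1 := bA ia ha f hf
      have g1' := cA f hf
      have g2 := bB ib hb f hf
      have g2' := cB' f hf
      have g3 := bC (r' + lo) (by omega) f hf
      have g3' := cC f hf
      have g4 := bE (r' + lo') (by omega) f hf
      have g4' := cE f hf
      omega
    · intro f hf
      have g0 := htot f hf
      have q1 : ic - lo + lo = ic := by omega
      have q2 : ic - lo + lo' = ie := by omega
      rw [q1, q2]
      omega
  have l8 := enumN_spec l7 (ic - lo) (by omega) m4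
  have q1 : Nat.add (ic - lo) lo = ic := by
    show ic - lo + lo = ic
    omega
  have q2 : Nat.add (ic - lo) lo' = ie := by
    show ic - lo + lo' = ie
    omega
  rw [q1, q2] at l8
  unfold lfV at l8
  have s4 : bc (Nat.beq ze 1) (Nat.ble (Nat.succ ie) ic) false = false := by
    apply cond_false'
    intro hz1
    have hec : e = c := by
      by_contra hne
      rw [if_neg hne] at hze
      omega
    have := hadm.hce
    rw [hec] at this
    omega
  have l9 := bc_pass l8 s4
  exact ⟨_, l9, H.code_match hs ha hb hc he hd hm hadm hkb hkc hke hgt hzl hzv hze hdd⟩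

end MPbbea99G
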