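import Pool.Agent.Lib.Pbbea99T.Pk

/-!
# MP_bbea99_co: vectorised tests on packed rows
-/

namespace MPbbea99G

open Finset MPbbea99S MPbbea99T

/-- bitwise and of packed arrays -/
lemma pk_land {F : ℕ} (hF : 0 < F) {g h : ℕ → ℕ} {L : ℕ} (hg : ∀ i, i < L → g i < 2 ^ F)
    (hh : ∀ i, i < L → h i < 2 ^ F) :
    (pk F g L) &&& (pk F h L) = pk F (fun i => g i &&& h i) L := by
  apply Nat.eq_of_testBit_eq
  intro j
  rw [Nat.testBit_and, testBit_pk hF hg, testBit_pk hF hh,
    testBit_pk hF (fun i hi => lt_of_le_of_lt Nat.and_le_left (hg i hi)), Nat.testBit_and]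
  cases decide (j < F * L) <;> simp

/-- only low bits matter -/
lemma land_mod {S H k : ℕ} (hH : H < 2 ^ k) : S &&& H = (S % 2 ^ k) &&& H := by
  apply Nat.eq_of_testBit_eq
  intro j
  rw [Nat.testBit_and, Nat.testBit_and, Nat.testBit_mod_two_pow]
  by_cases hj : j < k
  · simp [hj]
  · have : H.testBit j = false :=
      Nat.testBit_eq_false_of_lt (hH.trans_le (Nat.pow_le_pow_right (by norm_num) (by omega)))
    simp [this]

/-- the high bit -/
lemma and_high {F x : ℕ} (hF : 0 < F) (hx : x < 2 ^ F) :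
    x &&& 2 ^ (F - 1) = if 2 ^ (F - 1) ≤ x then 2 ^ (F - 1) else 0 := by
  rw [Nat.and_two_pow]
  have hpp : (2 : ℕ) ^ F = 2 * 2 ^ (F - 1) := by
    rw [← pow_succ']
    congr 1
    omega
  have hpos : 0 < (2 : ℕ) ^ (F - 1) := by positivity
  rw [Nat.testBit_eq_decide_div_mod_eq]
  split_ifs with h
  · have h1 : x / 2 ^ (F - 1) = 1 := by
      apply Nat.div_eq_of_lt_le <;> omega
    rw [h1]
    simp
  · rw [Nat.div_eq_of_lt (by omega)]
    simp

/-- rows in which all high bits are set, as bits -/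
def msk (F1 W1 MC S H K G : ℕ) : ℕ :=
  Nat.mod (Nat.shiftRight (Nat.sub G (Nat.land (Nat.add (Nat.shiftRight
    (Nat.sub H (Nat.land S H)) W1) K) G)) F1) MC

/-- compression of a sparse mask -/
lemma pk_compress {F : ℕ} {a : ℕ → ℕ} {cnt : ℕ} (hc : cnt < F) (ha : ∀ i, i < cnt → a i ≤ 1) :
    pk F a cnt % (2 ^ F - 2) = pk 1 a cnt := by
  have h2 : (2 : ℕ) ^ F = 2 * 2 ^ (F - 1) := by
    rw [← pow_succ']
    congr 1
    omega
  have hpos : 0 < (2 : ℕ) ^ (F - 1) := by positivity
  have hmod : ∀ c, c ≤ cnt → pk F a c ≡ pk 1 a c [MOD (2 ^ F - 2)] := by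
    intro c
    induction c with
    | zero => intro _; rfl
    | succ c ih =>
      intro hcc
      rw [pk_succ, pk_succ]
      apply Nat.ModEq.add (ih (by omega))
      apply Nat.ModEq.mul_left
      rw [pow_mul, one_mul]
      apply Nat.ModEq.pow
      have : (2 : ℕ) ^ F = (2 ^ F - 2) + 2 := by omega
      rw [this]
      exact Nat.add_modEq_left
  have hlt : pk 1 a cnt < 2 ^ F - 2 ∨ cnt = 0 := by
    rcases Nat.eq_zero_or_pos cnt with h0 | h0
    · exact Or.inr h0
    · left
      have h1 : pk 1 a cnt < 2 ^ (1 * cnt) := pk_lt (fun i hi => by have := ha i hi; omega)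
      rw [one_mul] at h1
      have h3 : (2 : ℕ) ^ cnt ≤ 2 ^ (F - 1) := Nat.pow_le_pow_right (by norm_num) (by omega)
      have h4 : 2 ≤ (2 : ℕ) ^ (F - 1) := by
        calc (2 : ℕ) = 2 ^ 1 := by norm_num
          _ ≤ 2 ^ (F - 1) := Nat.pow_le_pow_right (by norm_num) (by omega)
      omega
  rcases hlt with h | h
  · rw [hmod cnt le_rfl, Nat.mod_eq_of_lt h]
  · subst h
    simp [pk]

theorem msk_spec {W L cnt S H K G : ℕ} {s : ℕ → ℕ → ℕ} (hW : 2 ≤ W) (hL : 0 < L)
    (hc : cnt < W * L)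
    (hS : S % 2 ^ (W * L * cnt) = pk (W * L) (fun r => pk W (s r) L) cnt)
    (hs : ∀ r, r < cnt → ∀ f, f < L → s r f < 2 ^ W)
    (hH : H = pk (W * L) (fun _ => pk W (fun _ => 2 ^ (W - 1)) L) cnt)
    (hK : K = pk (W * L) (fun _ => 2 ^ (W * L - 1) - 1) cnt)
    (hG : G = pk (W * L) (fun _ => 2 ^ (W * L - 1)) cnt)
    {r : ℕ} (hr : r < cnt) (hal : ∀ f, f < L → 2 ^ (W - 1) ≤ s r f) :
    (msk (W * L - 1) (W - 1) (2 ^ (W * L) - 2) S H K G).testBit r = true := by
  obtain ⟨F, hF⟩ : ∃ F, F = W * L := ⟨_, rfl⟩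
  rw [← hF] at hS hH hK hG hc ⊢
  have hF0 : 0 < F := by omega
  have hW0 : 0 < W := by omega
  have hWp : (2 : ℕ) ^ W = 2 * 2 ^ (W - 1) := by
    rw [← pow_succ']
    congr 1
    omega
  have hFp : (2 : ℕ) ^ F = 2 * 2 ^ (F - 1) := by
    rw [← pow_succ']
    congr 1
    omega
  have hWpos : 0 < (2 : ℕ) ^ (W - 1) := by positivity
  have hFpos : 0 < (2 : ℕ) ^ (F - 1) := by positivity
  have hrow : ∀ {x : ℕ → ℕ}, (∀ f, f < L → x f < 2 ^ W) → pk W x L < 2 ^ F := by
    intro x hx
    rw [hF]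
    exact pk_lt hx
  -- the indicator of dead fields
  obtain ⟨b, hb⟩ : ∃ b : ℕ → ℕ → ℕ, b = fun r f => if 2 ^ (W - 1) ≤ s r f then 0 else 1 :=
    ⟨_, rfl⟩
  have hb1 : ∀ r f, b r f ≤ 1 := by
    intro r f
    rw [hb]
    dsimp only
    split_ifs <;> omega
  have hHlt : H < 2 ^ (F * cnt) := by
    rw [hH]
    apply pk_lt
    intro _ _
    apply hrow
    intro _ _
    omega
  have hZ : S &&& H = pk F (fun r => pk W (fun f => s r f &&& 2 ^ (W - 1)) L) cnt := by
    rw [land_mod hHlt, hS, hH, pk_land hF0 (fun r hr => hrow (hs r hr))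
      (fun _ _ => hrow (fun _ _ => by omega))]
    apply pk_congr
    intro r hr
    exact pk_land hW0 (hs r hr) (fun _ _ => by omega)
  have hsum : (S &&& H) + 2 ^ (W - 1) * pk F (fun r => pk W (b r) L) cnt = H := by
    rw [hZ, ← pk_smul, ← pk_add, hH]
    apply pk_congr
    intro r hr
    rw [← pk_smul, ← pk_add]
    apply pk_congr
    intro f hf
    rw [and_high hW0 (hs r hr f hf), hb]
    dsimp only
    split_ifs <;> simp
  have hD : (H - (S &&& H)) >>> (W - 1) = pk F (fun r => pk W (b r) L) cnt := by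
    have : H - (S &&& H) = 2 ^ (W - 1) * pk F (fun r => pk W (b r) L) cnt := by omega
    rw [this, Nat.shiftRight_eq_div_pow, Nat.mul_div_cancel_left _ hWpos]
  have hbr : ∀ r, 2 * pk W (b r) L < 2 ^ F := by
    intro r
    rw [← pk_smul]
    apply hrow
    intro f _
    have h1 := hb1 r f
    have h2 : 2 ≤ (2 : ℕ) ^ (W - 1) := by
      calc (2 : ℕ) = 2 ^ 1 := by norm_num
        _ ≤ 2 ^ (W - 1) := Nat.pow_le_pow_right (by norm_num) (by omega)
    omega
  have hE : (((H - (S &&& H)) >>> (W - 1)) + K) &&& G =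
      pk F (fun r => if pk W (b r) L = 0 then 0 else 2 ^ (F - 1)) cnt := by
    rw [hD, hK, ← pk_add, hG, pk_land hF0]
    · apply pk_congr
      intro r _
      have h1 := hbr r
      rw [and_high hF0 (by omega)]
      split_ifs <;> omega
    · intro r _
      have h1 := hbr r
      omega
    · intro _ _
      omega
  have hsum2 : ((((H - (S &&& H)) >>> (W - 1)) + K) &&& G) +
      2 ^ (F - 1) * pk F (fun r => if pk W (b r) L = 0 then 1 else 0) cnt = G := by
    rw [hE, ← pk_smul, ← pk_add, hG]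
    apply pk_congr
    intro r _
    split_ifs <;> simp
  have hA : (G - ((((H - (S &&& H)) >>> (W - 1)) + K) &&& G)) >>> (F - 1) =
      pk F (fun r => if pk W (b r) L = 0 then 1 else 0) cnt := by
    have : G - ((((H - (S &&& H)) >>> (W - 1)) + K) &&& G) =
      2 ^ (F - 1) * pk F (fun r => if pk W (b r) L = 0 then 1 else 0) cnt := by omega
    rw [this, Nat.shiftRight_eq_div_pow, Nat.mul_div_cancel_left _ hFpos]
  have hM : msk (F - 1) (W - 1) (2 ^ F - 2) S H K G =
      pk 1 (fun r => if pk W (b r) L = 0 then 1 else 0) cnt := by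
    show ((G - ((((H - (S &&& H)) >>> (W - 1)) + K) &&& G)) >>> (F - 1)) % (2 ^ F - 2) = _
    rw [hA]
    apply pk_compress hc
    intro i _
    split_ifs <;> omega
  rw [hM, testBit_pk (by norm_num)]
  · have h0 : pk W (b r) L = 0 := by
      have : pk W (b r) L = pk W (fun _ => 0 * 0) L := by
        apply pk_congr
        intro f hf
        rw [hb]
        dsimp only
        rw [if_pos (hal f hf)]
      rw [this, pk_smul, Nat.zero_mul]
    simp [hr, h0, Nat.mod_one]
  · intro i _
    split_ifs <;> omega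

/-- all set bits of `g` below `8` satisfy `f`, shifted by `b` -/
noncomputable def enum8 (f : ℕ → Bool) (b g : ℕ) : Bool :=
  Nat.rec (motive := fun _ => Bool) true (fun j ih =>
    Bool.rec (motive := fun _ => Bool)
      (Bool.rec (motive := fun _ => Bool) false ih (f (Nat.add b j))) ih
      (Nat.beq (Nat.land g (Nat.shiftLeft 1 j)) 0)) 8

/-- all set bits of `A` below `8 k` satisfy `f` -/
noncomputable def enumL (f : ℕ → Bool) (k A : ℕ) : Bool :=
  Nat.rec (motive := fun _ => Bool) true (fun i ih =>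
    Bool.rec (motive := fun _ => Bool)
      (Bool.rec (motive := fun _ => Bool) false ih
        (enum8 f (Nat.mul 8 i) (Nat.mod (Nat.shiftRight A (Nat.mul 8 i)) 256))) ih
      (Nat.beq (Nat.mod (Nat.shiftRight A (Nat.mul 8 i)) 256) 0)) k

lemma land_ne {A r : ℕ} (hA : A.testBit r = true) : Nat.beq (Nat.land A (Nat.shiftLeft 1 r)) 0 =
    false := by
  cases hc : Nat.beq (Nat.land A (Nat.shiftLeft 1 r)) 0 with
  | false => rfl
  | true =>
    exfalso
    have h2 : A &&& (1 <<< r) = 0 := Nat.eq_of_beq_eq_true hc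
    have h3 : (A &&& (1 <<< r)).testBit r = true := by
      rw [Nat.testBit_and, hA, Nat.one_shiftLeft, Nat.testBit_two_pow_self]
      rfl
    rw [h2] at h3
    simp at h3

/-- a loop that skips some steps -/
lemma skip_spec {c f : ℕ → Bool} {k : ℕ}
    (h : Nat.rec (motive := fun _ => Bool) true (fun j ih =>
      Bool.rec (motive := fun _ => Bool)
        (Bool.rec (motive := fun _ => Bool) false ih (f j)) ih (c j)) k = true) :
    ∀ i, i < k → c i = false → f i = true := by
  induction k with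
  | zero => intro i hi; omega
  | succ k ih =>
    have h' : (Bool.rec (motive := fun _ => Bool)
        (Bool.rec (motive := fun _ => Bool) false (Nat.rec (motive := fun _ => Bool) true
          (fun j ih => Bool.rec (motive := fun _ => Bool)
            (Bool.rec (motive := fun _ => Bool) false ih (f j)) ih (c j)) k) (f k))
          (Nat.rec (motive := fun _ => Bool) true
          (fun j ih => Bool.rec (motive := fun _ => Bool)
            (Bool.rec (motive := fun _ => Bool) false ih (f j)) ih (c j)) k) (c k)) = true := h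
    intro i hi hc
    rcases Nat.lt_or_ge i k with h1 | h1
    · apply ih _ i h1 hc
      cases hck : c k with
      | true => rw [hck] at h'; exact h'
      | false =>
        rw [hck] at h'
        cases hfk : f k with
        | true => rw [hfk] at h'; exact h'
        | false => rw [hfk] at h'; exact absurd h' (by simp)
    · have : i = k := by omega
      subst this
      rw [hc] at h'
      cases hfk : f i with
      | true => rfl
      | false => rw [hfk] at h'; exact absurd h' (by simp)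

/-- all set bits of `A` below `k` satisfy `f` -/
noncomputable def enumN (f : ℕ → Bool) (k A : ℕ) : Bool :=
  Bool.rec (motive := fun _ => Bool)
    (Nat.rec (motive := fun _ => Bool) true (fun i ih =>
      Bool.rec (motive := fun _ => Bool)
        (Bool.rec (motive := fun _ => Bool) false ih (f i)) ih
        (Nat.beq (Nat.land A (Nat.shiftLeft 1 i)) 0)) k) true (Nat.beq A 0)

theorem enumN_spec {f : ℕ → Bool} {k A : ℕ} (h : enumN f k A = true) :
    ∀ r, r < k → A.testBit r = true → f r = true := by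
  intro r hr hA
  unfold enumN at h
  cases hb : Nat.beq A 0 with
  | true =>
    have : A = 0 := Nat.eq_of_beq_eq_true hb
    rw [this] at hA
    simp at hA
  | false =>
    rw [hb] at h
    exact skip_spec (c := fun i => Nat.beq (Nat.land A (Nat.shiftLeft 1 i)) 0) (f := f) h r hr
      (land_ne hA)

theorem enumL_spec {f : ℕ → Bool} {k A : ℕ} (h : enumL f k A = true) :
    ∀ r, r < 8 * k → A.testBit r = true → f r = true := by
  intro r hr hA
  have h8 : r / 8 < k := by omega
  have hmod : r % 8 < 8 := Nat.mod_lt _ (by norm_num)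
  have hg : (Nat.mod (Nat.shiftRight A (Nat.mul 8 (r / 8))) 256).testBit (r % 8) = true := by
    show ((A >>> (8 * (r / 8))) % 2 ^ 8).testBit (r % 8) = true
    rw [Nat.testBit_mod_two_pow, Nat.testBit_shiftRight, Nat.div_add_mod, hA]
    simp [hmod]
  have h1 := skip_spec (c := fun i => Nat.beq (Nat.mod (Nat.shiftRight A (Nat.mul 8 i)) 256) 0)
    (f := fun i => enum8 f (Nat.mul 8 i) (Nat.mod (Nat.shiftRight A (Nat.mul 8 i)) 256)) h
    (r / 8) h8 (by
      cases hc : Nat.beq (Nat.mod (Nat.shiftRight A (Nat.mul 8 (r / 8))) 256) 0 with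
      | false => rfl
      | true =>
        exfalso
        have h2 := Nat.eq_of_beq_eq_true hc
        rw [h2] at hg
        simp at hg)
  have h3 := skip_spec (c := fun j => Nat.beq (Nat.land (Nat.mod (Nat.shiftRight A
      (Nat.mul 8 (r / 8))) 256) (Nat.shiftLeft 1 j)) 0)
    (f := fun j => f (Nat.add (Nat.mul 8 (r / 8)) j)) h1 (r % 8) hmod (land_ne hg)
  have e : Nat.add (Nat.mul 8 (r / 8)) (r % 8) = r := Nat.div_add_mod r 8
  rw [e] at h3
  exact h3

/-! ### low rows -/

lemma low_add {F cnt S S' : ℕ} {g g' : ℕ → ℕ} (h : S % 2 ^ (F * cnt) = pk F g cnt)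
    (h' : S' % 2 ^ (F * cnt) = pk F g' cnt) (hlt : ∀ r, r < cnt → g r + g' r < 2 ^ F) :
    (S + S') % 2 ^ (F * cnt) = pk F (fun r => g r + g' r) cnt := by
  rw [Nat.add_mod, h, h', ← pk_add, Nat.mod_eq_of_lt (pk_lt hlt)]

lemma low_pk {F N cnt : ℕ} {g : ℕ → ℕ} (h : ∀ r, r < N → g r < 2 ^ F) (hc : cnt ≤ N) :
    (pk F g N) % 2 ^ (F * cnt) = pk F g cnt := by
  obtain ⟨s, rfl⟩ : ∃ s, N = cnt + s := ⟨N - cnt, by omega⟩
  exact pk_mod cnt s (fun i hi => h i (by omega))

lemma low_shift {F N lo cnt : ℕ} {g : ℕ → ℕ} (h : ∀ r, r < N → g r < 2 ^ F)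
    (hc : lo + cnt ≤ N) :
    ((pk F g N) >>> (F * lo)) % 2 ^ (F * cnt) = pk F (fun r => g (r + lo)) cnt := by
  obtain ⟨s, rfl⟩ : ∃ s, N = lo + s := ⟨N - lo, by omega⟩
  rw [Nat.shiftRight_eq_div_pow, pk_div lo s (fun i hi => h i (by omega))]
  exact low_pk (fun r hr => h _ (by omega)) (by omega)

lemma low_mul {F N cnt X : ℕ} (hX : X < 2 ^ F) (hc : cnt ≤ N) :
    (X * pk F (fun _ => 1) N) % 2 ^ (F * cnt) = pk F (fun _ => X) cnt := by
  rw [← pk_smul]
  rw [low_pk (fun _ _ => by omega) hc]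
  apply pk_congr
  intro _ _
  omega

lemma const_shift {F N k X : ℕ} (hX : X < 2 ^ F) (hk : k ≤ N) :
    (pk F (fun _ => X) N) >>> (F * k) = pk F (fun _ => X) (N - k) := by
  obtain ⟨s, rfl⟩ : ∃ s, N = k + s := ⟨N - k, by omega⟩
  rw [Nat.shiftRight_eq_div_pow, pk_div k s (fun _ _ => hX)]
  congr 1
  omega

end MPbbea99G
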